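import Mathlib

/-! The proper `k`-colourings of a comparability graph form a finite or an uncountable set. -/

namespace Pool.Agent.H20.Anti

open Classical

variable {α : Type*}

/-- colourings with values below `k` that separate comparable elements -/
def Dec (α : Type*) [PartialOrder α] (k : ℕ) : Set (α → ℕ) :=
  {f | (∀ x, f x < k) ∧ ∀ x y, x < y → f x ≠ f y}

theorem unc_of_inj {β γ : Type*} {S : Set β} (hS : S.Infinite) {D : Set γ} (F : Set β → γ)
    (hF : ∀ T, F T ∈ D) (hi : ∀ T U, F T = F U → ∀ x ∈ S, (x ∈ T ↔ x ∈ U)) : ¬ D.Countable := by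
  intro hD
  let e := hS.natEmbedding
  let G : Set ℕ → D := fun T => ⟨F ((fun n => (e n : β)) '' T), hF _⟩
  have hG : Function.Injective G := by
    intro T U h
    have h1 : F ((fun n => (e n : β)) '' T) = F ((fun n => (e n : β)) '' U) :=
      congrArg Subtype.val h
    have hinj : Function.Injective (fun n => (e n : β)) :=
      Subtype.val_injective.comp e.injective
    ext n
    have := hi _ _ h1 (e n) (e n).2
    rwa [hinj.mem_set_image, hinj.mem_set_image] at this
  have : Countable D := hD
  have : Countable (Set ℕ) := hG.countable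
  exact (Function.cantor_surjective _ (exists_surjective_nat (Set ℕ)).choose_spec)

variable [PartialOrder α]

def Ch (s : Finset α) : Prop := ∀ a ∈ s, ∀ b ∈ s, a ≤ b ∨ b ≤ a

theorem Ch.injOn {k : ℕ} {f : α → ℕ} (hf : f ∈ Dec α k) {s : Finset α} (hs : Ch s) :
    Set.InjOn f s := by
  intro a ha b hb h
  by_contra hne
  rcases hs a ha b hb with h1 | h1
  · exact hf.2 a b (lt_of_le_of_ne h1 hne) h
  · exact hf.2 b a (lt_of_le_of_ne h1 (Ne.symm hne)) h.symm

theorem Ch.card_le {k : ℕ} {f : α → ℕ} (hf : f ∈ Dec α k) {s : Finset α} (hs : Ch s) :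
    s.card ≤ k := by
  rw [← Finset.card_image_of_injOn (hs.injOn hf)]
  have : s.image f ⊆ Finset.range k := by
    intro j hj
    obtain ⟨a, -, rfl⟩ := Finset.mem_image.1 hj
    exact Finset.mem_range.2 (hf.1 a)
  simpa using Finset.card_le_card this

theorem Ch.union {s t : Finset α} (hs : Ch s) (ht : Ch t) (h : ∀ a ∈ s, ∀ b ∈ t, a < b) :
    Ch (s ∪ t) ∧ (s ∪ t).card = s.card + t.card := by
  refine ⟨?_, Finset.card_union_of_disjoint ?_⟩
  · intro a ha b hb
    rcases Finset.mem_union.1 ha with ha | ha <;> rcases Finset.mem_union.1 hb with hb | hb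
    · exact hs a ha b hb
    · exact Or.inl (h a ha b hb).le
    · exact Or.inr (h b hb a ha).le
    · exact ht a ha b hb
  · rw [Finset.disjoint_left]
    intro a ha hb
    exact lt_irrefl _ (h a ha a hb)

theorem ch_single (x : α) : Ch ({x} : Finset α) := by
  intro a ha b hb
  rw [Finset.mem_singleton] at ha hb
  subst ha; subst hb; exact Or.inl le_rfl

/-- two chains `s`, `s'` completing the same chain `t` to size `k` get the same colour set -/
theorem image_eq {k : ℕ} {f : α → ℕ} (hf : f ∈ Dec α k) {s t : Finset α} (hs : Ch s) (ht : Ch t)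
    (h : ∀ a ∈ s, ∀ b ∈ t, a < b) (hc : s.card + t.card = k) :
    s.image f = Finset.range k \ t.image f := by
  obtain ⟨h1, h2⟩ := hs.union ht h
  apply Finset.eq_of_subset_of_card_le
  · intro j hj
    obtain ⟨a, ha, rfl⟩ := Finset.mem_image.1 hj
    refine Finset.mem_sdiff.2 ⟨Finset.mem_range.2 (hf.1 a), ?_⟩
    intro hb
    obtain ⟨b, hb, hab⟩ := Finset.mem_image.1 hb
    exact hf.2 a b (h a ha b hb) hab.symm
  · have hsub : t.image f ⊆ Finset.range k := by
      intro j hj
      obtain ⟨a, -, rfl⟩ := Finset.mem_image.1 hj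
      exact Finset.mem_range.2 (hf.1 a)
    rw [Finset.card_sdiff_of_subset hsub, Finset.card_image_of_injOn (hs.injOn hf),
      Finset.card_image_of_injOn (ht.injOn hf), Finset.card_range]
    omega

theorem exists_max (k : ℕ) (hk : ∀ s : Finset α, Ch s → s.card ≤ k) (p : α → Prop) :
    ∃ s : Finset α, Ch s ∧ (∀ y ∈ s, p y) ∧
      ∀ t : Finset α, Ch t → (∀ y ∈ t, p y) → t.card ≤ s.card := by
  let P : ℕ → Prop := fun n => ∃ s : Finset α, Ch s ∧ (∀ y ∈ s, p y) ∧ s.card = n
  have h0 : P 0 := ⟨∅, by simp [Ch], by simp, rfl⟩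
  obtain ⟨s, h1, h2, h3⟩ : P (Nat.findGreatest P k) := Nat.findGreatest_spec (Nat.zero_le k) h0
  refine ⟨s, h1, h2, fun t ht hp => ?_⟩
  rw [h3]
  exact Nat.le_findGreatest (hk t ht) ⟨t, ht, hp, rfl⟩

theorem fin_or_unc (k : ℕ) : (Dec α k).Finite ∨ ¬ (Dec α k).Countable := by
  rcases (Dec α k).eq_empty_or_nonempty with h0 | ⟨f0, hf0⟩
  · left; rw [h0]; exact Set.finite_empty
  have hk : ∀ s : Finset α, Ch s → s.card ≤ k := fun s hs => hs.card_le hf0
  choose Lo hL1 hL2 hL3 using fun x : α => exists_max k hk (fun y => y < x)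
  choose Up hU1 hU2 hU3 using fun x : α => exists_max k hk (fun y => x < y)
  have hLx : ∀ x, Ch (Lo x ∪ {x}) ∧ (Lo x ∪ {x}).card = (Lo x).card + 1 := fun x => by
    simpa using (hL1 x).union (ch_single x) (fun a ha b hb => by
      rw [Finset.mem_singleton] at hb; subst hb; exact hL2 _ a ha)
  have hUx : ∀ x, Ch ({x} ∪ Up x) ∧ ({x} ∪ Up x).card = (Up x).card + 1 := fun x => by
    have := (ch_single x).union (hU1 x) (fun a ha b hb => by
      rw [Finset.mem_singleton] at ha; subst ha; exact hU2 _ b hb)
    rw [Finset.card_singleton, add_comm] at this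
    exact this
  have hLle : ∀ x, ∀ a ∈ Lo x ∪ {x}, a ≤ x := fun x a ha => by
    rcases Finset.mem_union.1 ha with ha | ha
    · exact (hL2 x a ha).le
    · exact (Finset.mem_singleton.1 ha).le
  have hUle : ∀ x, ∀ a ∈ {x} ∪ Up x, x ≤ a := fun x a ha => by
    rcases Finset.mem_union.1 ha with ha | ha
    · exact (Finset.mem_singleton.1 ha).ge
    · exact (hU2 x a ha).le
  set h : α → ℕ := fun x => (Lo x).card with hh
  set c : α → ℕ := fun x => (Up x).card with hc
  have F1 : ∀ x, h x + c x + 1 ≤ k := fun x => by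
    have := (hLx x).1.union (hU1 x) (fun a ha b hb => (hLle x a ha).trans_lt (hU2 x b hb))
    have h2 := hk _ this.1
    rw [this.2, (hLx x).2] at h2
    simp only [hh, hc]; omega
  have F2 : ∀ x y, x < y → h x < h y := fun x y hxy => by
    have := hL3 y _ (hLx x).1 (fun a ha => (hLle x a ha).trans_lt hxy)
    rw [(hLx x).2] at this
    exact this
  have F3 : ∀ x y, x < y → c y < c x := fun x y hxy => by
    have := hU3 x _ (hUx y).1 (fun a ha => hxy.trans_le (hUle y a ha))
    rw [(hUx y).2] at this
    exact this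
  by_cases hN : {x | h x + c x + 1 ≠ k}.Finite
  swap
  · right
    have : ∃ j, {x | h x + c x + 1 ≠ k ∧ h x = j}.Infinite := by
      by_contra hcon
      push Not at hcon
      apply hN
      refine (Set.Finite.biUnion (Set.finite_Iio k) (fun j _ => hcon j)).subset ?_
      intro x hx
      simp only [Set.mem_iUnion]
      exact ⟨h x, by have := F1 x; simp only [Set.mem_Iio]; omega, hx, rfl⟩
    obtain ⟨j, hj⟩ := this
    refine unc_of_inj hj
      (fun T x => if j < h x ∨ (h x = j ∧ x ∈ T) then k - 1 - c x else h x) ?_ ?_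
    · intro T
      refine ⟨fun x => ?_, fun x y hxy => ?_⟩
      · have := F1 x
        dsimp only
        split_ifs <;> omega
      · have := F1 x
        have := F1 y
        have := F2 x y hxy
        have := F3 x y hxy
        dsimp only
        split_ifs with h1 h2 h2
        · omega
        · exfalso; apply h2; left; omega
        · omega
        · omega
    · intro T U hTU x hx
      have h1 := congrFun hTU x
      have := F1 x
      obtain ⟨hx1, hx2⟩ := hx
      by_cases hT : x ∈ T <;> by_cases hU : x ∈ U <;> simp [hT, hU, hx2] at h1 ⊢ <;> omega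
  let E : ℕ → α → α → Prop := fun i x y =>
    h x + c x + 1 = k ∧ h y + c y + 1 = k ∧ h x = i ∧ h y = i + 1 ∧ x < y
  let V : ℕ → Set α := fun i => {x | h x + c x + 1 = k ∧ (h x = i ∨ h x = i + 1)}
  by_cases hC : ∀ i, i + 1 < k → ((Quot.mk (E i)) '' V i).Finite
  swap
  · right
    push Not at hC
    obtain ⟨i, hi, hinf⟩ := hC
    let g : α → ℕ := fun x => if i < h x then k - 1 - c x else h x
    refine unc_of_inj hinf
      (fun T x => if x ∈ V i ∧ Quot.mk (E i) x ∈ T then 2 * i + 1 - h x else g x) ?_ ?_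
    · intro T
      refine ⟨fun x => ?_, fun x y hxy => ?_⟩
      · have := F1 x
        dsimp only [g]
        split_ifs with h1
        · have := h1.1.2; omega
        · omega
        · omega
      · have := F1 x
        have := F1 y
        have := F2 x y hxy
        have := F3 x y hxy
        dsimp only [g]
        by_cases h1 : x ∈ V i ∧ Quot.mk (E i) x ∈ T <;>
          by_cases h2 : y ∈ V i ∧ Quot.mk (E i) y ∈ T
        · rw [if_pos h1, if_pos h2]
          have := h1.1.2; have := h2.1.2; omega
        · rw [if_pos h1, if_neg h2]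
          intro he
          apply h2
          have a1 := h1.1.1
          have a2 := h1.1.2
          have hE : E i x y := by
            refine ⟨a1, ?_, ?_, ?_, hxy⟩ <;> split_ifs at he <;> omega
          exact ⟨⟨hE.2.1, Or.inr hE.2.2.2.1⟩, by rw [← Quot.sound hE]; exact h1.2⟩
        · rw [if_neg h1, if_pos h2]
          intro he
          apply h1
          have a1 := h2.1.1
          have a2 := h2.1.2
          have hE : E i x y := by
            refine ⟨?_, a1, ?_, ?_, hxy⟩ <;> split_ifs at he <;> omega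
          exact ⟨⟨hE.1, Or.inl hE.2.2.1⟩, by rw [Quot.sound hE]; exact h2.2⟩
        · rw [if_neg h1, if_neg h2]
          split_ifs <;> omega
    · rintro T U hTU q ⟨x, hx, rfl⟩
      have h1 := congrFun hTU x
      have a1 := hx.1
      have a2 := hx.2
      by_cases hT : Quot.mk (E i) x ∈ T <;> by_cases hU : Quot.mk (E i) x ∈ U <;>
        simp only [hT, hU, hx, and_true, and_false, if_true, if_false, g] at h1 ⊢ <;>
        split_ifs at h1 <;> omega
  left
  let S : (α → ℕ) → ℕ → α → Finset ℕ := fun f i x =>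
    if h x = i then (Lo x ∪ {x}).image f else (Lo x).image f
  have hS : ∀ f ∈ Dec α k, ∀ i x y, E i x y → S f i x = S f i y := by
    rintro f hf i x y ⟨a1, a2, a3, a4, a5⟩
    have b1 := image_eq hf (hLx x).1 (hUx y).1
      (fun a ha b hb => ((hLle x a ha).trans_lt a5).trans_le (hUle y b hb))
      (by rw [(hLx x).2, (hUx y).2]; simp only [hh, hc] at a1 a2 a3 a4; omega)
    have b2 := image_eq hf (hL1 y) (hUx y).1
      (fun a ha b hb => (hL2 y a ha).trans_le (hUle y b hb))
      (by rw [(hUx y).2]; simp only [hh, hc] at a1 a2 a3 a4; omega)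
    simp only [S]
    rw [if_pos a3, if_neg (by omega), b1, b2]
  have hrep : ∀ i, ∃ W : Set α, W.Finite ∧ (i + 1 < k →
      ∀ x ∈ V i, ∃ r ∈ W, Quot.mk (E i) r = Quot.mk (E i) x) := by
    intro i
    by_cases hi : i + 1 < k
    · refine ⟨Quot.out '' ((Quot.mk (E i)) '' V i), (hC i hi).image _, fun _ x hx => ?_⟩
      exact ⟨_, ⟨_, ⟨x, hx, rfl⟩, rfl⟩, Quot.out_eq _⟩
    · exact ⟨∅, Set.finite_empty, fun h => absurd h hi⟩
  choose W hW1 hW2 using hrep
  let Z : Set α := {x | h x + c x + 1 ≠ k} ∪ ⋃ i ∈ Set.Iio k, ⋃ r ∈ W i, ((Lo r ∪ {r} : Finset α) : Set α)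
  have hZ : Z.Finite := hN.union (Set.Finite.biUnion (Set.finite_Iio k) fun i _ =>
    Set.Finite.biUnion (hW1 i) fun r _ => Finset.finite_toSet _)
  have key : ∀ f ∈ Dec α k, ∀ g ∈ Dec α k, (∀ z ∈ Z, f z = g z) → f = g := by
    intro f hf g hg hfg
    have hSS : ∀ i, i + 1 < k → ∀ x ∈ V i, S f i x = S g i x := by
      intro i hi x hx
      obtain ⟨r, hr, hrx⟩ := hW2 i hi x hx
      have e1 : S f i r = S f i x := congrArg (Quot.lift (S f i) (hS f hf i)) hrx
      have e2 : S g i r = S g i x := congrArg (Quot.lift (S g i) (hS g hg i)) hrx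
      rw [← e1, ← e2]
      have hz : ∀ a ∈ Lo r ∪ {r}, f a = g a := fun a ha => hfg a (Or.inr (by
        simp only [Set.mem_iUnion]
        exact ⟨i, by simp only [Set.mem_Iio]; omega, r, hr, ha⟩))
      simp only [S]
      split_ifs
      · exact Finset.image_congr hz
      · exact Finset.image_congr fun a ha => hz a (Finset.mem_union_left _ ha)
    funext x
    by_cases hx : h x + c x + 1 = k
    swap
    · exact hfg x (Or.inl hx)
    have d1 : (Lo x).image f = (Lo x).image g := by
      rcases Nat.eq_zero_or_pos (h x) with h0 | h0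
      · have : Lo x = ∅ := Finset.card_eq_zero.1 h0
        rw [this]; rfl
      · have := hSS (h x - 1) (by omega) x ⟨hx, Or.inr (by omega)⟩
        simp only [S] at this
        rwa [if_neg (by omega), if_neg (by omega)] at this
    have d2 : (Lo x ∪ {x}).image f = (Lo x ∪ {x}).image g := by
      by_cases hi : h x + 1 < k
      · have := hSS (h x) hi x ⟨hx, Or.inl rfl⟩
        simpa only [S, if_true] using this
      · have hc0 : (Lo x ∪ {x}).card + (∅ : Finset α).card = k := by
          rw [(hLx x).2]; simp only [hh] at hx hi; simp; omega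
        rw [image_eq hf (hLx x).1 (t := ∅) (by simp [Ch]) (by simp) hc0,
          image_eq hg (hLx x).1 (t := ∅) (by simp [Ch]) (by simp) hc0]
        simp
    have m1 : f x ∈ (Lo x ∪ {x}).image g := by
      rw [← d2]; exact Finset.mem_image_of_mem _ (by simp)
    obtain ⟨a, ha, hax⟩ := Finset.mem_image.1 m1
    rcases Finset.mem_union.1 ha with ha | ha
    · exfalso
      have : f x ∈ (Lo x).image f := by
        rw [d1, ← hax]; exact Finset.mem_image_of_mem _ ha
      obtain ⟨b, hb, hbx⟩ := Finset.mem_image.1 this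
      exact hf.2 b x (hL2 x b hb) hbx
    · rw [Finset.mem_singleton.1 ha] at hax
      exact hax.symm
  have : Finite Z := hZ
  let R : Dec α k → (Z → Fin k) := fun f z => ⟨f.1 z, f.2.1 z⟩
  have hR : Function.Injective R := by
    intro f g hfg
    apply Subtype.ext
    refine key _ f.2 _ g.2 fun z hz => ?_
    exact congrArg Fin.val (congrFun hfg ⟨z, hz⟩)
  exact Set.finite_coe_iff.1 (Finite.of_injective R hR)

end Pool.Agent.H20.Anti
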