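import Mathlib

set_option autoImplicit false

namespace Pool.Agent.H20.Col

/-- Exhaustive search for a proper colouring with k colours of the graph on n vertices whose
adjacency matrix is packed in the bits of big; returns true when there is none. -/
def dfs (big k n : ℕ) : ℕ → ℕ → Bool
  | 0, _ => false
  | f + 1, m => (List.range k).all fun i =>
      !(Nat.beq (((((big >>> ((n - (f + 1)) * n)) % 2 ^ n) <<< (i * n)) &&& m)) 0) ||
        dfs big k n f (m ||| 2 ^ (i * n + (n - (f + 1))))

theorem dfs_sound (big k n : ℕ) (c : ℕ → ℕ) (hc : ∀ v, v < n → c v < k)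
    (hp : ∀ v u, v < n → u < n → big.testBit (v * n + u) = true → c u ≠ c v) :
    ∀ f m, f ≤ n → (∀ j, m.testBit j = true → ∃ u, u < n ∧ j = c u * n + u) →
      dfs big k n f m = true → False := by
  intro f
  induction f with
  | zero => intro m _ _ h; simp [dfs] at h
  | succ f ih =>
    intro m hf hm h
    simp only [dfs, List.all_eq_true, List.mem_range, Bool.or_eq_true, Bool.not_eq_true'] at h
    set v := n - (f + 1) with hv
    have hvn : v < n := by omega
    rcases h (c v) (hc v hvn) with h1 | h1
    · obtain ⟨j, hj⟩ := Nat.exists_testBit_of_ne_zero (Nat.ne_of_beq_eq_false h1)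
      rw [Nat.testBit_and, Bool.and_eq_true, Nat.testBit_shiftLeft, Bool.and_eq_true,
        Nat.testBit_mod_two_pow, Bool.and_eq_true, Nat.testBit_shiftRight] at hj
      obtain ⟨⟨h2, h3, h4⟩, h5⟩ := hj
      obtain ⟨u, hu, rfl⟩ := hm j h5
      simp only [ge_iff_le, decide_eq_true_eq] at h2 h3
      have e : c u = c v := by
        rcases lt_trichotomy (c u) (c v) with hlt | heq | hgt
        · have := Nat.mul_le_mul_right n (Nat.succ_le_of_lt hlt)
          rw [Nat.succ_mul] at this
          omega
        · exact heq
        · have := Nat.mul_le_mul_right n (Nat.succ_le_of_lt hgt)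
          rw [Nat.succ_mul] at this
          omega
      rw [e, Nat.add_sub_cancel_left] at h4
      exact hp v u hvn hu h4 e
    · refine ih _ (by omega) (fun j hj => ?_) h1
      rw [Nat.testBit_or, Bool.or_eq_true, Nat.testBit_two_pow, decide_eq_true_eq] at hj
      rcases hj with hj | hj
      · exact hm j hj
      · exact ⟨v, hvn, hj.symm⟩

theorem not_colorable {n : ℕ} (G : SimpleGraph (Fin n)) (big k : ℕ)
    (hadj : ∀ a b : Fin n, big.testBit (a.val * n + b.val) = true → G.Adj a b)
    (h : dfs big k n n 0 = true) : ¬ G.Colorable k := by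
  rintro ⟨C⟩
  refine dfs_sound big k n (fun v => if hv : v < n then (C ⟨v, hv⟩).val else 0)
    (fun v hv => by simp [hv]) (fun v u hv hu hb => ?_) n 0 le_rfl (by simp) h
  simp only [hv, hu, dif_pos]
  exact fun e => C.valid (hadj ⟨v, hv⟩ ⟨u, hu⟩ hb) (Fin.ext e.symm)

end Pool.Agent.H20.Col
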