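import Mathlib

set_option autoImplicit false

namespace Pool.Agent.H20.Cross

/-- three times the integrals of the squares of the two coordinates along an alternating
staircase path that starts at `(X, Y)`. -/
def f : List ℝ → ℝ → ℝ → ℝ × ℝ
  | [], _, _ => (0, 0)
  | p :: l, X, Y => ((X + p) ^ 3 - X ^ 3 + (f l Y (X + p)).2, 3 * p * Y ^ 2 + (f l Y (X + p)).1)

noncomputable def gam : ℝ :=
  sSup ((fun α : ℝ => α ^ 3 * (1 - α) ^ 3 + 3 * α ^ 4 * (1 - α) ^ 2) '' Set.Icc (0 : ℝ) 1)

lemma gam_bdd : BddAbove ((fun α : ℝ => α ^ 3 * (1 - α) ^ 3 + 3 * α ^ 4 * (1 - α) ^ 2) ''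
    Set.Icc (0 : ℝ) 1) :=
  (isCompact_Icc.image (by fun_prop)).bddAbove

lemma le_gam {α : ℝ} (h0 : 0 ≤ α) (h1 : α ≤ 1) :
    α ^ 3 * (1 - α) ^ 3 + 3 * α ^ 4 * (1 - α) ^ 2 ≤ gam :=
  le_csSup gam_bdd ⟨α, ⟨h0, h1⟩, rfl⟩

lemma gam_nonneg : 0 ≤ gam := by
  have := le_gam (α := 0) le_rfl zero_le_one
  simpa using this

lemma two_block {p q : ℝ} (hp : 0 ≤ p) (hq : 0 ≤ q) :
    (p ^ 3 + 3 * q * p ^ 2) * q ^ 3 ≤ gam * (p + q) ^ 6 := by
  rcases eq_or_lt_of_le (add_nonneg hp hq) with h | h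
  · have hp0 : p = 0 := by linarith
    have hq0 : q = 0 := by linarith
    simp [hp0, hq0]
  · have h1 := le_gam (α := q / (p + q)) (div_nonneg hq h.le)
      ((div_le_one h).2 (by linarith))
    have h2 : 1 - q / (p + q) = p / (p + q) := by field_simp; ring
    rw [h2] at h1
    have h3 : (p ^ 3 + 3 * q * p ^ 2) * q ^ 3 =
        ((q / (p + q)) ^ 3 * (p / (p + q)) ^ 3 + 3 * (q / (p + q)) ^ 4 * (p / (p + q)) ^ 2) *
          (p + q) ^ 6 := by
      field_simp
    rw [h3]
    exact mul_le_mul_of_nonneg_right h1 (by positivity)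

lemma f_nonneg : ∀ (l : List ℝ) (X Y : ℝ), (∀ x ∈ l, 0 ≤ x) → 0 ≤ X → 0 ≤ Y →
    0 ≤ (f l X Y).1 ∧ 0 ≤ (f l X Y).2
  | [], _, _, _, _, _ => by simp [f]
  | p :: l, X, Y, hl, hX, hY => by
    have hp : 0 ≤ p := hl p (by simp)
    have ih := f_nonneg l Y (X + p) (fun x hx => hl x (by simp [hx])) hY (by linarith)
    simp only [f]
    have h1 : X ^ 3 ≤ (X + p) ^ 3 := pow_le_pow_left₀ hX (by linarith) 3
    have h2 : 0 ≤ 3 * p * Y ^ 2 := by positivity
    constructor <;> linarith [ih.1, ih.2]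

lemma f_sum_le : ∀ (l : List ℝ) (X Y : ℝ), (∀ x ∈ l, 0 ≤ x) → 0 ≤ X → 0 ≤ Y →
    (f l X Y).1 + (f l X Y).2 ≤ (X + Y + l.sum) ^ 3 - (X + Y) ^ 3
  | [], _, _, _, _, _ => by simp [f]
  | p :: l, X, Y, hl, hX, hY => by
    have hp : 0 ≤ p := hl p (by simp)
    have ih := f_sum_le l Y (X + p) (fun x hx => hl x (by simp [hx])) hY (by linarith)
    simp only [f, List.sum_cons]
    have e : X + Y + (p + l.sum) = Y + (X + p) + l.sum := by ring
    rw [e]
    have : 0 ≤ X * Y * p := by positivity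
    have : 0 ≤ Y * p * p := by positivity
    nlinarith

/-- a continuous `g` with `g t ≤ 0` for all small positive `t` has `g 0 ≤ 0`. -/
lemma lim_right {g : ℝ → ℝ} (hg : Continuous g) {δ : ℝ} (hδ : 0 < δ)
    (h : ∀ t, 0 < t → t < δ → g t ≤ 0) : g 0 ≤ 0 := by
  have h1 : Filter.Tendsto g (nhdsWithin 0 (Set.Ioi 0)) (nhds (g 0)) :=
    (hg.tendsto 0).mono_left nhdsWithin_le_nhds
  refine le_of_tendsto h1 ?_
  filter_upwards [Ioo_mem_nhdsGT hδ] with t ht using h t ht.1 ht.2

/-- first and second order conditions along the first move. -/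
lemma move_one {p q r a b : ℝ} (hp : 0 < p) (hq : 0 < q) (hr : 0 < r)
    (h : ∀ t, -p ≤ t → t ≤ r → (a + 3 * q * (2 * p * t + t ^ 2)) * (b - 3 * q ^ 2 * t) ≤ a * b) :
    q * a = 2 * p * b ∧ b ≤ 6 * p * q ^ 2 := by
  have hδ : 0 < min p r := lt_min hp hr
  have e : ∀ t, (a + 3 * q * (2 * p * t + t ^ 2)) * (b - 3 * q ^ 2 * t) - a * b =
      3 * q * t * ((2 * p * b - q * a) + t * (b - 6 * p * q ^ 2) - 3 * q ^ 2 * t ^ 2) := by
    intro t; ring
  have h1 : 2 * p * b - q * a ≤ 0 := by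
    have := lim_right (g := fun t => (2 * p * b - q * a) + t * (b - 6 * p * q ^ 2) - 3 * q ^ 2 * t ^ 2)
      (by fun_prop) hδ (by
        intro t ht0 ht
        have ht1 : t < r := lt_of_lt_of_le ht (min_le_right _ _)
        have h2 := h t (by linarith) ht1.le
        have h3 := e t
        have h4 : 0 < 3 * q * t := by positivity
        by_contra hc
        push Not at hc
        have := mul_pos h4 hc
        linarith)
    simpa using this
  have h2 : q * a - 2 * p * b ≤ 0 := by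
    have := lim_right (g := fun t => (q * a - 2 * p * b) + t * (b - 6 * p * q ^ 2) + 3 * q ^ 2 * t ^ 2)
      (by fun_prop) hδ (by
        intro t ht0 ht
        have ht1 : t < p := lt_of_lt_of_le ht (min_le_left _ _)
        have h2 := h (-t) (by linarith) (by linarith)
        have h3 := e (-t)
        have h4 : 0 < 3 * q * t := by positivity
        by_contra hc
        push Not at hc
        have := mul_pos h4 hc
        nlinarith)
    simpa using this
  have h3 : q * a = 2 * p * b := by linarith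
  refine ⟨h3, ?_⟩
  have := lim_right (g := fun t => (b - 6 * p * q ^ 2) - 3 * q ^ 2 * t)
    (by fun_prop) hδ (by
      intro t ht0 ht
      have ht1 : t < r := lt_of_lt_of_le ht (min_le_right _ _)
      have h2 := h t (by linarith) ht1.le
      have h5 := e t
      have h4 : 0 < 3 * q * t * t := by positivity
      by_contra hc
      push Not at hc
      have := mul_pos h4 hc
      have h6 : 2 * p * b - q * a = 0 := by linarith
      rw [h6] at h5
      nlinarith)
  simpa using this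

lemma finish {p q r a b : ℝ} (hp : 0 < p) (hq : 0 < q) (hr : 0 < r)
    (hb : q ^ 3 + 3 * r * q ^ 2 ≤ b) (h1 : q * a = 2 * p * b) (h2 : b ≤ 6 * p * q ^ 2)
    (h3 : 2 * q * a - (2 * p + r) * b ≤ 0) : False := by
  have hq3 : 0 < q ^ 3 := by positivity
  have hq2 : 0 < q ^ 2 := by positivity
  have hb0 : 0 < b := by nlinarith
  have h4 : 2 * p ≤ r := by
    by_contra hc
    push Not at hc
    have : 0 < (2 * p - r) * b := mul_pos (by linarith) hb0
    nlinarith
  nlinarith

lemma three_block {p q r : ℝ} (hp : 0 ≤ p) (hq : 0 ≤ q) (hr : 0 ≤ r) :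
    ((p + r) ^ 3 + 3 * q * p ^ 2) * (q ^ 3 + 3 * r * q ^ 2) ≤ gam * (p + q + r) ^ 6 := by
  set L := p + q + r with hL
  let F : ℝ × ℝ → ℝ := fun x =>
    ((L - x.2) ^ 3 + 3 * x.2 * x.1 ^ 2) * (x.2 ^ 3 + 3 * (L - x.1 - x.2) * x.2 ^ 2)
  let K : Set (ℝ × ℝ) := (Set.Icc 0 L ×ˢ Set.Icc 0 L) ∩ {x | x.1 + x.2 ≤ L}
  have hK : IsCompact K :=
    (isCompact_Icc.prod isCompact_Icc).inter_right (isClosed_le (by fun_prop) (by fun_prop))
  have hmem : ∀ x y : ℝ, 0 ≤ x → 0 ≤ y → x + y ≤ L → (x, y) ∈ K := by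
    intro x y hx hy hxy
    exact ⟨⟨⟨hx, by simp only; linarith⟩, ⟨hy, by simp only; linarith⟩⟩, hxy⟩
  obtain ⟨⟨x, y⟩, hxy, hmax⟩ := hK.exists_isMaxOn ⟨(p, q), hmem p q hp hq (by linarith)⟩
    (f := F) (by fun_prop)
  have hx : 0 ≤ x := hxy.1.1.1
  have hy : 0 ≤ y := hxy.1.2.1
  have hz : x + y ≤ L := hxy.2
  have h0 : F (p, q) ≤ F (x, y) := hmax (hmem p q hp hq (by linarith))
  have h0' : F (p, q) = ((p + r) ^ 3 + 3 * q * p ^ 2) * (q ^ 3 + 3 * r * q ^ 2) := by
    simp only [F, hL]; ring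
  rw [← h0']
  refine h0.trans ?_
  obtain ⟨z, hzz⟩ : ∃ z, z = L - x - y := ⟨_, rfl⟩
  have hz0 : 0 ≤ z := by linarith
  have hLz : L = x + y + z := by linarith
  rcases eq_or_lt_of_le hx with hx0 | hx0
  · have := two_block hy hz0
    have e : F (x, y) = (y ^ 3 + 3 * z * y ^ 2) * z ^ 3 := by
      simp only [F, hLz, ← hx0]; ring
    rw [e, hLz, ← hx0, zero_add]; exact this
  rcases eq_or_lt_of_le hy with hy0 | hy0
  · have e : F (x, y) = 0 := by simp only [F, ← hy0]; ring
    rw [e]; exact mul_nonneg gam_nonneg (by positivity)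
  rcases eq_or_lt_of_le hz0 with hz1 | hz1
  · have := two_block hx hy
    have e : F (x, y) = (x ^ 3 + 3 * y * x ^ 2) * y ^ 3 := by
      simp only [F, hLz, ← hz1]; ring
    rw [e, hLz, ← hz1, add_zero]; exact this
  exfalso
  obtain ⟨a, ha⟩ : ∃ a, a = (x + z) ^ 3 + 3 * y * x ^ 2 := ⟨_, rfl⟩
  obtain ⟨b, hb⟩ : ∃ b, b = y ^ 3 + 3 * z * y ^ 2 := ⟨_, rfl⟩
  have eF : F (x, y) = a * b := by simp only [F, hLz, ha, hb]; ring
  have m1 := move_one (a := a) (b := b) hx0 hy0 hz1 (by
    intro t h1 h2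
    have h3 : F (x + t, y) ≤ F (x, y) := hmax (hmem _ _ (by linarith) hy (by linarith))
    rw [eF] at h3
    refine le_trans (le_of_eq ?_) h3
    simp only [F, hLz, ha, hb]; ring)
  have m2 := lim_right (g := fun t =>
      (3 * x ^ 2 - 3 * (x + z) ^ 2 + 3 * (x + z) * t - t ^ 2) *
        (b + t * (6 * z * y + (3 * z - 3 * y) * t - 2 * t ^ 2)) +
        a * (6 * z * y + (3 * z - 3 * y) * t - 2 * t ^ 2)) (by fun_prop) hz1 (by
    intro t ht0 ht
    have h3 : F (x, y + t) ≤ F (x, y) := hmax (hmem _ _ hx (by linarith) (by linarith))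
    have h4 : F (x, y + t) - F (x, y) = t *
        ((3 * x ^ 2 - 3 * (x + z) ^ 2 + 3 * (x + z) * t - t ^ 2) *
        (b + t * (6 * z * y + (3 * z - 3 * y) * t - 2 * t ^ 2)) +
        a * (6 * z * y + (3 * z - 3 * y) * t - 2 * t ^ 2)) := by
      simp only [F, hLz, ha, hb]; ring
    by_contra hc
    push Not at hc
    have := mul_pos ht0 hc
    linarith)
  refine finish hx0 hy0 hz1 hb.ge m1.1 m1.2 ?_
  have : 3 * z * (2 * y * a - (2 * x + z) * b) ≤ 0 := by nlinarith
  by_contra hc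
  push Not at hc
  have := mul_pos (by positivity : 0 < 3 * z) hc
  linarith

/-- with four first blocks, the maximum sits on the boundary of the rectangle. -/
lemma four_block {M N A B C : ℝ} (hB : 0 ≤ B)
    (hb : ∀ p q, 0 ≤ p → p ≤ M → 0 ≤ q → q ≤ N → (p = 0 ∨ p = M ∨ q = 0 ∨ q = N) →
      (M ^ 3 + 3 * q * p ^ 2 + 3 * (N - q) * M ^ 2 + A) * (N ^ 3 + 3 * (M - p) * q ^ 2 + B) ≤ C)
    (p q : ℝ) (hp : 0 ≤ p) (hpM : p ≤ M) (hq : 0 ≤ q) (hqN : q ≤ N) :
    (M ^ 3 + 3 * q * p ^ 2 + 3 * (N - q) * M ^ 2 + A) * (N ^ 3 + 3 * (M - p) * q ^ 2 + B) ≤ C := by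
  let F : ℝ × ℝ → ℝ := fun x =>
    (M ^ 3 + 3 * x.2 * x.1 ^ 2 + 3 * (N - x.2) * M ^ 2 + A) *
      (N ^ 3 + 3 * (M - x.1) * x.2 ^ 2 + B)
  have hK : IsCompact (Set.Icc 0 M ×ˢ Set.Icc 0 N) := isCompact_Icc.prod isCompact_Icc
  obtain ⟨⟨x, y⟩, hxy, hmax⟩ := hK.exists_isMaxOn ⟨(p, q), ⟨⟨hp, hpM⟩, ⟨hq, hqN⟩⟩⟩
    (f := F) (by fun_prop)
  have hx : 0 ≤ x := hxy.1.1
  have hxM : x ≤ M := hxy.1.2
  have hy : 0 ≤ y := hxy.2.1
  have hyN : y ≤ N := hxy.2.2
  have h0 : F (p, q) ≤ F (x, y) := hmax (a := (p, q)) ⟨⟨hp, hpM⟩, ⟨hq, hqN⟩⟩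
  refine h0.trans (hb x y hx hxM hy hyN ?_)
  by_contra hc
  push Not at hc
  obtain ⟨c1, c2, c3, c4⟩ := hc
  have hx0 : 0 < x := lt_of_le_of_ne hx (Ne.symm c1)
  have hy0 : 0 < y := lt_of_le_of_ne hy (Ne.symm c3)
  obtain ⟨z, hz⟩ : ∃ z, M = x + z := ⟨M - x, by ring⟩
  obtain ⟨w, hw⟩ : ∃ w, N = y + w := ⟨N - y, by ring⟩
  have hz0 : 0 < z := by
    have := lt_of_le_of_ne hxM c2
    linarith
  have hw0 : 0 < w := by
    have := lt_of_le_of_ne hyN c4
    linarith
  obtain ⟨a, ha⟩ : ∃ a, a = M ^ 3 + 3 * y * x ^ 2 + 3 * (N - y) * M ^ 2 + A := ⟨_, rfl⟩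
  obtain ⟨b, hb'⟩ : ∃ b, b = N ^ 3 + 3 * (M - x) * y ^ 2 + B := ⟨_, rfl⟩
  have eF : F (x, y) = a * b := by simp only [F, ha, hb']
  have m1 := move_one (a := a) (b := b) hx0 hy0 hz0 (by
    intro t h1 h2
    have h3 : F (x + t, y) ≤ F (x, y) :=
      hmax (a := (x + t, y)) ⟨⟨by simp only; linarith, by simp only; linarith⟩, ⟨hy, hyN⟩⟩
    rw [eF] at h3
    refine le_trans (le_of_eq ?_) h3
    simp only [F, ha, hb']; ring)
  have m2 := lim_right (g := fun t =>
      (3 * x ^ 2 - 3 * M ^ 2) * (b + t * (6 * z * y + 3 * z * t)) + a * (6 * z * y + 3 * z * t))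
      (by fun_prop) hw0 (by
    intro t ht0 ht
    have h3 : F (x, y + t) ≤ F (x, y) :=
      hmax (a := (x, y + t)) ⟨⟨hx, hxM⟩, ⟨by simp only; linarith, by simp only; linarith⟩⟩
    have h4 : F (x, y + t) - F (x, y) = t *
        ((3 * x ^ 2 - 3 * M ^ 2) * (b + t * (6 * z * y + 3 * z * t)) +
          a * (6 * z * y + 3 * z * t)) := by
      simp only [F, ha, hb', hz]; ring
    by_contra hc
    push Not at hc
    have := mul_pos ht0 hc
    linarith)
  have hb3 : y ^ 3 + 3 * z * y ^ 2 ≤ b := by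
    have : y ^ 3 ≤ N ^ 3 := pow_le_pow_left₀ hy hyN 3
    rw [hb', hz]; nlinarith
  refine finish hx0 hy0 hz0 hb3 m1.1 m1.2 ?_
  simp only [hz] at m2
  have : 3 * z * (2 * y * a - (2 * x + z) * b) ≤ 0 := by nlinarith
  by_contra hc
  push Not at hc
  have := mul_pos (by positivity : 0 < 3 * z) hc
  linarith

theorem path_bound : ∀ (k : ℕ) (l : List ℝ), l.length ≤ k → (∀ x ∈ l, 0 ≤ x) →
    (f l 0 0).1 * (f l 0 0).2 ≤ gam * l.sum ^ 6 := by
  intro k
  induction k with
  | zero =>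
    intro l hl _
    have : l = [] := List.length_eq_zero_iff.1 (by omega)
    subst this
    simp [f]
  | succ k ih =>
    intro l hl h0
    match l, hl, h0 with
    | [], _, _ => simp [f]
    | [p], _, h0 =>
      have := gam_nonneg
      simp only [f, List.sum_cons, List.sum_nil]
      have : 0 ≤ gam * (p + 0) ^ 6 := by positivity
      simpa using this
    | [p, q], _, h0 =>
      have := two_block (h0 p (by simp)) (h0 q (by simp))
      simp only [f, List.sum_cons, List.sum_nil]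
      refine le_trans (le_of_eq ?_) (this.trans (le_of_eq ?_)) <;> ring
    | [p, q, r], _, h0 =>
      have := three_block (h0 p (by simp)) (h0 q (by simp)) (h0 r (by simp))
      simp only [f, List.sum_cons, List.sum_nil]
      refine le_trans (le_of_eq ?_) (this.trans (le_of_eq ?_)) <;> ring
    | p :: q :: r :: s :: l, hl, h0 =>
      have hp : 0 ≤ p := h0 p (by simp)
      have hq : 0 ≤ q := h0 q (by simp)
      have hr : 0 ≤ r := h0 r (by simp)
      have hs : 0 ≤ s := h0 s (by simp)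
      have hl0 : ∀ x ∈ l, 0 ≤ x := fun x hx => h0 x (by simp [hx])
      simp only [List.length_cons] at hl
      obtain ⟨M, hM⟩ : ∃ M, M = p + r := ⟨_, rfl⟩
      obtain ⟨N, hN⟩ : ∃ N, N = q + s := ⟨_, rfl⟩
      have hM0 : 0 ≤ M := by linarith
      have hN0 : 0 ≤ N := by linarith
      have key := four_block (M := M) (N := N) (A := (f l M N).1) (B := (f l M N).2)
        (C := gam * (M + N + l.sum) ^ 6) (f_nonneg l M N hl0 hM0 hN0).2 (by
          intro x y hx hxM hy hyN hc
          have hMN := ih (M :: N :: l) (by simp only [List.length_cons]; omega) (by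
            intro t ht
            simp only [List.mem_cons] at ht
            rcases ht with rfl | rfl | ht
            exacts [hM0, hN0, hl0 t ht])
          simp only [f, List.sum_cons, zero_add] at hMN
          rcases hc with rfl | rfl | rfl | rfl
          · have h1 := ih (y :: M :: (N - y) :: l) (by simp only [List.length_cons]; omega) (by
              intro t ht
              simp only [List.mem_cons] at ht
              rcases ht with rfl | rfl | rfl | ht
              exacts [hy, hM0, by linarith, hl0 t ht])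
            simp only [f, List.sum_cons, zero_add, add_sub_cancel] at h1
            refine le_trans (le_of_eq ?_) (h1.trans (le_of_eq ?_)) <;> ring
          · refine le_trans (le_of_eq ?_) (hMN.trans (le_of_eq ?_)) <;> ring
          · refine le_trans (le_of_eq ?_) (hMN.trans (le_of_eq ?_)) <;> ring
          · match l, hl, hl0 with
            | [], hl, _ =>
              have h1 := three_block (p := x) (q := y) (r := M - x) hx hy (by linarith)
              simp only [f, List.sum_nil]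
              refine le_trans (le_of_eq ?_) (h1.trans (le_of_eq ?_)) <;> ring
            | u :: l, hl, hl0 =>
              have hu : 0 ≤ u := hl0 u (by simp)
              simp only [List.length_cons] at hl
              have h1 := ih (x :: y :: (M - x + u) :: l) (by simp only [List.length_cons]; omega) (by
                intro t ht
                simp only [List.mem_cons] at ht
                rcases ht with rfl | rfl | rfl | ht
                exacts [hx, hy, by linarith, hl0 t (by simp [ht])])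
              have e : x + (M - x + u) = M + u := by ring
              simp only [f, List.sum_cons, zero_add, e] at h1 ⊢
              refine le_trans (le_of_eq ?_) (h1.trans (le_of_eq ?_)) <;> ring)
        p q hp (by linarith) hq (by linarith)
      simp only [f, List.sum_cons, zero_add, ← hM, ← hN]
      refine le_trans (le_of_eq ?_) (key.trans (le_of_eq ?_))
      · rw [hM, hN]; ring
      · rw [hM, hN]; ring

end Pool.Agent.H20.Cross
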