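import Mathlib
import Pool.Agent.H20.Cross1

set_option autoImplicit false

namespace Pool.Agent.H20.Cross

open Finset

variable {V : Type} [DecidableEq V]

def e (r : V → V → ℝ) (S : Finset V) : ℝ := ∑ x ∈ S, ∑ y ∈ S, r x y

def t (r : V → V → ℝ) (S : Finset V) : ℝ := ∑ x ∈ S, ∑ y ∈ S, ∑ z ∈ S, r x y * r y z * r x z

lemma e_insert {r : V → V → ℝ} (hs : ∀ x y, r x y = r y x) (hd : ∀ x, r x x = 0) {v : V}
    {S : Finset V} (hv : v ∉ S) : e r (insert v S) = e r S + 2 * ∑ y ∈ S, r v y := by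
  simp only [e, sum_insert hv, sum_add_distrib, hd]
  have : ∑ x ∈ S, r x v = ∑ y ∈ S, r v y := sum_congr rfl fun x _ => hs x v
  rw [this]; ring

lemma t_insert {r : V → V → ℝ} (hs : ∀ x y, r x y = r y x) (hd : ∀ x, r x x = 0) {v : V}
    {S : Finset V} (hv : v ∉ S) :
    t r (insert v S) = t r S + 3 * ∑ y ∈ S, ∑ z ∈ S, r v y * r y z * r v z := by
  simp only [t, sum_insert hv, sum_add_distrib, hd, zero_mul, mul_zero, sum_const_zero, zero_add]
  have h1 : ∑ x ∈ S, ∑ z ∈ S, r x v * r v z * r x z = ∑ y ∈ S, ∑ z ∈ S, r v y * r y z * r v z :=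
    sum_congr rfl fun x _ => sum_congr rfl fun z _ => by rw [hs x v]; ring
  have h2 : ∑ x ∈ S, ∑ y ∈ S, r x y * r y v * r x v = ∑ y ∈ S, ∑ z ∈ S, r v y * r y z * r v z :=
    sum_congr rfl fun x _ => sum_congr rfl fun z _ => by rw [hs x v, hs z v]; ring
  rw [h1, h2]; ring

lemma shift_e {r r' : V → V → ℝ} (hs : ∀ x y, r x y = r y x) (hd : ∀ x, r x x = 0)
    (hs' : ∀ x y, r' x y = r' y x) (hd' : ∀ x, r' x x = 0) {u v : V} {S : Finset V}
    (hu : u ∉ insert v S) (hv : v ∉ S) (h1 : ∀ x ∈ S, ∀ y ∈ S, r' x y = r x y)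
    (h2 : r' u v = r u v) (h3 : ∀ z ∈ S, r' u z + r' v z = r u z + r v z) :
    e r' (insert u (insert v S)) = e r (insert u (insert v S)) := by
  rw [e_insert hs hd hu, e_insert hs hd hv, e_insert hs' hd' hu, e_insert hs' hd' hv,
    sum_insert hv, sum_insert hv, h2]
  have a1 : e r' S = e r S := sum_congr rfl fun x hx => sum_congr rfl fun y hy => h1 x hx y hy
  have a2 : ∑ z ∈ S, r' u z + ∑ z ∈ S, r' v z = ∑ z ∈ S, r u z + ∑ z ∈ S, r v z := by
    rw [← sum_add_distrib, ← sum_add_distrib]; exact sum_congr rfl h3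
  linarith

lemma shift_t {r r' : V → V → ℝ} (hs : ∀ x y, r x y = r y x) (hd : ∀ x, r x x = 0)
    (hs' : ∀ x y, r' x y = r' y x) (hd' : ∀ x, r' x x = 0) (h0 : ∀ x y, 0 ≤ r x y)
    {u v : V} {S : Finset V}
    (hu : u ∉ insert v S) (hv : v ∉ S) (h1 : ∀ x ∈ S, ∀ y ∈ S, r' x y = r x y)
    (h2 : r' u v = r u v) (h3 : ∀ z ∈ S, r' v z * r' u z = r v z * r u z)
    (h4 : ∀ y ∈ S, ∀ z ∈ S,
      r u y * r u z + r v y * r v z ≤ r' u y * r' u z + r' v y * r' v z) :
    t r (insert u (insert v S)) ≤ t r' (insert u (insert v S)) := by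
  rw [t_insert hs hd hu, t_insert hs hd hv, t_insert hs' hd' hu, t_insert hs' hd' hv]
  simp only [sum_insert hv, sum_add_distrib, hd, hd', h2, mul_zero, zero_mul, zero_add]
  have a1 : t r' S = t r S := sum_congr rfl fun x hx => sum_congr rfl fun y hy =>
    sum_congr rfl fun z hz => by rw [h1 x hx y hy, h1 y hy z hz, h1 x hx z hz]
  have a2 : ∑ z ∈ S, r u v * r' v z * r' u z = ∑ z ∈ S, r u v * r v z * r u z :=
    sum_congr rfl fun z hz => by rw [mul_assoc, h3 z hz, mul_assoc]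
  have a3 : ∑ z ∈ S, r' u z * r' z v * r u v = ∑ z ∈ S, r u z * r z v * r u v :=
    sum_congr rfl fun z hz => by
      rw [hs' z v, hs z v, mul_comm (r' u z), h3 z hz, mul_comm (r u z)]
  have a4 : ∑ y ∈ S, ∑ z ∈ S, r u y * r y z * r u z + ∑ y ∈ S, ∑ z ∈ S, r v y * r y z * r v z ≤
      ∑ y ∈ S, ∑ z ∈ S, r' u y * r' y z * r' u z +
        ∑ y ∈ S, ∑ z ∈ S, r' v y * r' y z * r' v z := by
    simp only [← sum_add_distrib]
    refine sum_le_sum fun y hy => sum_le_sum fun z hz => ?_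
    rw [h1 y hy z hz]
    have := mul_le_mul_of_nonneg_left (h4 y hy z hz) (h0 y z)
    linarith
  linarith

/-- the shift of a weight function along the pair `u, v`. -/
noncomputable def sh (g h : ℝ → ℝ → ℝ) (r : V → V → ℝ) (u v : V) (x y : V) : ℝ :=
  if x = u ∧ y ≠ u ∧ y ≠ v then g (r u y) (r v y)
  else if y = u ∧ x ≠ u ∧ x ≠ v then g (r u x) (r v x)
  else if x = v ∧ y ≠ u ∧ y ≠ v then h (r u y) (r v y)
  else if y = v ∧ x ≠ u ∧ x ≠ v then h (r u x) (r v x)
  else r x y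

lemma sh_u (g h : ℝ → ℝ → ℝ) (r : V → V → ℝ) {u v y : V} (h1 : y ≠ u) (h2 : y ≠ v) :
    sh g h r u v u y = g (r u y) (r v y) := by simp [sh, h1, h2]

lemma sh_v (g h : ℝ → ℝ → ℝ) (r : V → V → ℝ) {u v y : V} (huv : u ≠ v) (h1 : y ≠ u) (h2 : y ≠ v) :
    sh g h r u v v y = h (r u y) (r v y) := by simp [sh, h1, h2, huv.symm]

lemma sh_uv (g h : ℝ → ℝ → ℝ) (r : V → V → ℝ) {u v : V} :
    sh g h r u v u v = r u v := by simp [sh]

lemma sh_out (g h : ℝ → ℝ → ℝ) (r : V → V → ℝ) {u v x y : V} (h1 : x ≠ u) (h2 : x ≠ v)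
    (h3 : y ≠ u) (h4 : y ≠ v) : sh g h r u v x y = r x y := by simp [sh, h1, h2, h3, h4]

lemma sh_symm (g h : ℝ → ℝ → ℝ) {r : V → V → ℝ} (hs : ∀ x y, r x y = r y x) {u v : V}
    (huv : u ≠ v) (x y : V) : sh g h r u v x y = sh g h r u v y x := by
  unfold sh
  by_cases a : x = u <;> by_cases b : x = v <;> by_cases c : y = u <;> by_cases d : y = v <;>
    simp_all

lemma sh_diag (g h : ℝ → ℝ → ℝ) {r : V → V → ℝ} (hd : ∀ x, r x x = 0) {u v : V} (x : V) :
    sh g h r u v x x = 0 := by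
  unfold sh
  by_cases a : x = u <;> by_cases b : x = v <;> simp_all

/-- `r` and `b` are the indicators of the two colours of a colouring of the pairs. -/
structure Good (r b : V → V → ℝ) : Prop where
  rs : ∀ x y, r x y = r y x
  bs : ∀ x y, b x y = b y x
  rd : ∀ x, r x x = 0
  bd : ∀ x, b x x = 0
  col : ∀ x y, x ≠ y → (r x y = 1 ∧ b x y = 0) ∨ (r x y = 0 ∧ b x y = 1)

omit [DecidableEq V] in
lemma Good.r0 {r b : V → V → ℝ} (G : Good r b) (x y : V) : 0 ≤ r x y := by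
  by_cases h : x = y
  · rw [h, G.rd]
  · rcases G.col x y h with h | h <;> simp [h.1]

omit [DecidableEq V] in
lemma Good.swap {r b : V → V → ℝ} (G : Good r b) : Good b r :=
  ⟨G.bs, G.rs, G.bd, G.rd, fun x y h => by rcases G.col x y h with h | h <;> simp [h.1, h.2]⟩

lemma Good.shift {r b : V → V → ℝ} (G : Good r b) {u v : V} (huv : u ≠ v) :
    Good (sh max min r u v) (sh min max b u v) := by
  refine ⟨sh_symm _ _ G.rs huv, sh_symm _ _ G.bs huv, sh_diag _ _ G.rd, sh_diag _ _ G.bd, ?_⟩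
  have ku : ∀ y, y ≠ u → y ≠ v →
      (sh max min r u v u y = 1 ∧ sh min max b u v u y = 0) ∨
      (sh max min r u v u y = 0 ∧ sh min max b u v u y = 1) := by
    intro y h1 h2
    rw [sh_u _ _ _ h1 h2, sh_u _ _ _ h1 h2]
    rcases G.col u y h1.symm with a | a <;> rcases G.col v y h2.symm with c | c <;>
      simp [a.1, a.2, c.1, c.2]
  have kv : ∀ y, y ≠ u → y ≠ v →
      (sh max min r u v v y = 1 ∧ sh min max b u v v y = 0) ∨
      (sh max min r u v v y = 0 ∧ sh min max b u v v y = 1) := by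
    intro y h1 h2
    rw [sh_v _ _ _ huv h1 h2, sh_v _ _ _ huv h1 h2]
    rcases G.col u y h1.symm with a | a <;> rcases G.col v y h2.symm with c | c <;>
      simp [a.1, a.2, c.1, c.2]
  intro x y hxy
  by_cases a : x = u
  · subst a
    by_cases d : y = v
    · subst d
      rw [sh_uv, sh_uv]; exact G.col _ _ hxy
    · exact ku y (Ne.symm hxy) d
  by_cases b' : x = v
  · subst b'
    by_cases c : y = u
    · subst c
      rw [sh_symm _ _ G.rs huv, sh_symm _ _ G.bs huv, sh_uv, sh_uv]; exact G.col _ _ huv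
    · exact kv y c (Ne.symm hxy)
  by_cases c : y = u
  · subst c
    rw [sh_symm _ _ G.rs huv, sh_symm _ _ G.bs huv]; exact ku x a b'
  by_cases d : y = v
  · subst d
    rw [sh_symm _ _ G.rs huv, sh_symm _ _ G.bs huv]; exact kv x a b'
  rw [sh_out _ _ _ a b' c d, sh_out _ _ _ a b' c d]; exact G.col _ _ hxy

lemma rearr (a b c d : ℝ) : a * c + b * d ≤ max a b * max c d + min a b * min c d := by
  rcases le_total a b with h | h <;> rcases le_total c d with h' | h' <;>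
    simp only [max_eq_left, max_eq_right, min_eq_left, min_eq_right, h, h'] <;> nlinarith

lemma Good.shift_counts {r b : V → V → ℝ} (G : Good r b) {u v : V} (huv : u ≠ v) {S : Finset V}
    (hu : u ∈ S) (hv : v ∈ S) :
    t r S ≤ t (sh max min r u v) S ∧ t b S ≤ t (sh min max b u v) S ∧
      e (sh max min r u v) S = e r S ∧ e (sh min max b u v) S = e b S := by
  obtain ⟨T, hT⟩ : ∃ T, T = (S.erase u).erase v := ⟨_, rfl⟩
  have hS : S = insert u (insert v T) := by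
    rw [hT, insert_erase (mem_erase.2 ⟨huv.symm, hv⟩), insert_erase hu]
  have hvT : v ∉ T := by simp [hT]
  have huT : u ∉ insert v T := by simp [hT, huv]
  have hT1 : ∀ z ∈ T, z ≠ u := fun z hz h => huT (by simp [← h, hz])
  have hT2 : ∀ z ∈ T, z ≠ v := fun z hz h => hvT (h ▸ hz)
  have G' := G.shift huv
  rw [hS]
  refine ⟨shift_t G.rs G.rd G'.rs G'.rd G.r0 huT hvT ?_ (sh_uv _ _ _) ?_ ?_,
    shift_t G.bs G.bd G'.bs G'.bd G.swap.r0 huT hvT ?_ (sh_uv _ _ _) ?_ ?_,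
    shift_e G.rs G.rd G'.rs G'.rd huT hvT ?_ (sh_uv _ _ _) ?_,
    shift_e G.bs G.bd G'.bs G'.bd huT hvT ?_ (sh_uv _ _ _) ?_⟩
  · exact fun x hx y hy => sh_out _ _ _ (hT1 x hx) (hT2 x hx) (hT1 y hy) (hT2 y hy)
  · intro z hz
    rw [sh_u _ _ _ (hT1 z hz) (hT2 z hz), sh_v _ _ _ huv (hT1 z hz) (hT2 z hz), min_mul_max,
      mul_comm]
  · intro y hy z hz
    rw [sh_u _ _ _ (hT1 z hz) (hT2 z hz), sh_v _ _ _ huv (hT1 z hz) (hT2 z hz),
      sh_u _ _ _ (hT1 y hy) (hT2 y hy), sh_v _ _ _ huv (hT1 y hy) (hT2 y hy)]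
    exact rearr _ _ _ _
  · exact fun x hx y hy => sh_out _ _ _ (hT1 x hx) (hT2 x hx) (hT1 y hy) (hT2 y hy)
  · intro z hz
    rw [sh_u _ _ _ (hT1 z hz) (hT2 z hz), sh_v _ _ _ huv (hT1 z hz) (hT2 z hz), max_mul_min,
      mul_comm]
  · intro y hy z hz
    rw [sh_u _ _ _ (hT1 z hz) (hT2 z hz), sh_v _ _ _ huv (hT1 z hz) (hT2 z hz),
      sh_u _ _ _ (hT1 y hy) (hT2 y hy), sh_v _ _ _ huv (hT1 y hy) (hT2 y hy), add_comm (min _ _ * _)]
    exact rearr _ _ _ _
  · exact fun x hx y hy => sh_out _ _ _ (hT1 x hx) (hT2 x hx) (hT1 y hy) (hT2 y hy)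
  · intro z hz
    rw [sh_u _ _ _ (hT1 z hz) (hT2 z hz), sh_v _ _ _ huv (hT1 z hz) (hT2 z hz), max_add_min]
  · exact fun x hx y hy => sh_out _ _ _ (hT1 x hx) (hT2 x hx) (hT1 y hy) (hT2 y hy)
  · intro z hz
    rw [sh_u _ _ _ (hT1 z hz) (hT2 z hz), sh_v _ _ _ huv (hT1 z hz) (hT2 z hz), min_add_max]

open Classical in
lemma dominate {S : Finset V} {u : V} (hu : u ∈ S) : ∀ (k : ℕ) (r b : V → V → ℝ), Good r b →
    (S.filter fun z => b u z = 1).card ≤ k →
    ∃ r' b' : V → V → ℝ, Good r' b' ∧ t r S ≤ t r' S ∧ t b S ≤ t b' S ∧ e r' S = e r S ∧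
      e b' S = e b S ∧ ∃ v ∈ S, (∀ y ∈ S, y ≠ v → r' v y = 1) ∨ (∀ y ∈ S, y ≠ v → b' v y = 1) := by
  intro k
  induction k with
  | zero =>
    intro r b G hk
    refine ⟨r, b, G, le_rfl, le_rfl, rfl, rfl, u, hu, Or.inl fun y hy hyu => ?_⟩
    have h0 : (S.filter fun z => b u z = 1) = ∅ := card_eq_zero.1 (by omega)
    rcases G.col u y hyu.symm with h | h
    · exact h.1
    · have : y ∈ (S.filter fun z => b u z = 1) := mem_filter.2 ⟨hy, h.2⟩
      rw [h0] at this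
      simp at this
  | succ k ih =>
    intro r b G hk
    by_cases hex : ∃ v ∈ S, ∃ z ∈ S, v ≠ u ∧ z ≠ u ∧ z ≠ v ∧ b u z = 1 ∧ b v z = 0
    · obtain ⟨v, hv, z, hz, hvu, hzu, hzv, h1, h2⟩ := hex
      have huv : u ≠ v := hvu.symm
      obtain ⟨c1, c2, c3, c4⟩ := G.shift_counts huv hu hv
      obtain ⟨r', b', G', d1, d2, d3, d4, hdom⟩ := ih _ _ (G.shift huv) (by
        have : (S.filter fun y => sh min max b u v u y = 1) ⊂ (S.filter fun y => b u y = 1) := by
          rw [ssubset_iff_of_subset]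
          · refine ⟨z, mem_filter.2 ⟨hz, h1⟩, fun h => ?_⟩
            have h3 := (mem_filter.1 h).2
            rw [sh_u _ _ _ hzu hzv, h1, h2] at h3
            simp at h3
          · intro y hy
            obtain ⟨hy1, hy2⟩ := mem_filter.1 hy
            refine mem_filter.2 ⟨hy1, ?_⟩
            by_cases a : y = u
            · rw [a, sh_diag _ _ G.bd] at hy2
              simp at hy2
            by_cases c : y = v
            · rw [c, sh_uv] at hy2
              rw [c]; exact hy2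
            rw [sh_u _ _ _ a c] at hy2
            rcases G.col u y (Ne.symm a) with h | h
            · rw [h.2] at hy2
              have := min_le_left (0 : ℝ) (b v y)
              linarith
            · exact h.2
        have := card_lt_card this
        omega)
      exact ⟨r', b', G', c1.trans d1, c2.trans d2, d3.trans c3, d4.trans c4, hdom⟩
    · refine ⟨r, b, G, le_rfl, le_rfl, rfl, rfl, ?_⟩
      by_cases hr : ∀ y ∈ S, y ≠ u → r u y = 1
      · exact ⟨u, hu, Or.inl hr⟩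
      push Not at hr
      obtain ⟨z, hz, hzu, hz1⟩ := hr
      have hb : b u z = 1 := by
        rcases G.col u z hzu.symm with h | h
        · exact absurd h.1 hz1
        · exact h.2
      refine ⟨z, hz, Or.inr fun y hy hyz => ?_⟩
      by_cases a : y = u
      · rw [a, G.bs, hb]
      rcases G.col z y hyz.symm with h | h
      · exact absurd ⟨y, hy, z, hz, a, hzu, hyz.symm, hb, by rw [G.bs, h.2]⟩ hex
      · exact h.2

lemma remove_dom {r b : V → V → ℝ} (G : Good r b) {v : V} {S : Finset V} (hv : v ∉ S)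
    (h : ∀ y ∈ S, r v y = 1) :
    t r (insert v S) = t r S + 3 * e r S ∧ e r (insert v S) = e r S + 2 * S.card ∧
      t b (insert v S) = t b S ∧ e b (insert v S) = e b S := by
  have hb : ∀ y ∈ S, b v y = 0 := fun y hy => by
    rcases G.col v y (fun h => hv (h ▸ hy)) with h1 | h1
    · exact h1.2
    · have := h y hy
      rw [h1.1] at this
      simp at this
  rw [t_insert G.rs G.rd hv, t_insert G.bs G.bd hv, e_insert G.rs G.rd hv, e_insert G.bs G.bd hv]
  refine ⟨?_, ?_, ?_, ?_⟩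
  · congr 2
    exact sum_congr rfl fun y hy => sum_congr rfl fun z hz => by rw [h y hy, h z hz]; ring
  · rw [sum_congr rfl h]; simp
  · rw [sum_eq_zero fun y hy => sum_eq_zero fun z hz => by rw [hb y hy]; ring]; simp
  · rw [sum_eq_zero hb]; simp

theorem to_path : ∀ (m : ℕ) (S : Finset V), S.card = m + 1 → ∀ r b : V → V → ℝ, Good r b →
    ∀ X Y : ℝ, 0 ≤ X → 0 ≤ Y → ∃ l : List ℝ, (∀ x ∈ l, 0 ≤ x) ∧ l.sum = m ∧
      ∃ ρ σ : ℕ, ρ + σ = m ∧ ∃ Ea Eb : ℝ, 0 ≤ Ea ∧ 0 ≤ Eb ∧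
      t r S + 3 * X * e r S + 3 * X * (X - 1) * m + Ea ≤ (f l X Y).1 ∧
      t b S + 3 * Y * e b S + 3 * Y * (Y - 1) * m + Eb ≤ (f l X Y).2 ∧
      Ea + Eb = m + 3 * ((X + ρ) * (Y + σ) - X * Y) ∧
      (ρ = 0 → (f l X Y).1 ≤ 3 * m * X ^ 2) ∧ (σ = 0 → (f l X Y).2 ≤ 3 * m * Y ^ 2) := by
  intro m
  induction m with
  | zero =>
    intro S hS r b G X Y _ _
    obtain ⟨v, rfl⟩ := card_eq_one.1 hS
    refine ⟨[], by simp, by simp, 0, 0, rfl, 0, 0, le_rfl, le_rfl, ?_, ?_, by simp, ?_, ?_⟩ <;>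
      simp [f, t, e, G.rd, G.bd]
  | succ m ih =>
    intro S hS r b G X Y hX hY
    obtain ⟨u, hu⟩ : S.Nonempty := card_pos.1 (by omega)
    obtain ⟨r', b', G', c1, c2, c3, c4, v, hv, hdom⟩ := dominate hu _ r b G le_rfl
    obtain ⟨T, hT⟩ : ∃ T, T = S.erase v := ⟨_, rfl⟩
    have hST : S = insert v T := by rw [hT, insert_erase hv]
    have hvT : v ∉ T := by simp [hT]
    have hTc : T.card = m + 1 := by rw [hT, card_erase_of_mem hv, hS]; rfl
    have hTm : ∀ y ∈ T, y ∈ S ∧ y ≠ v := fun y hy => by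
      rw [hT] at hy; exact ⟨(mem_erase.1 hy).2, (mem_erase.1 hy).1⟩
    rw [← c3, ← c4]
    rcases hdom with hdom | hdom
    · obtain ⟨d1, d2, d3, d4⟩ := remove_dom G' hvT fun y hy => hdom y (hTm y hy).1 (hTm y hy).2
      rw [← hST] at d1 d2 d3 d4
      obtain ⟨l, l0, ls, ρ, σ, hρ, Ea, Eb, ha, hb, i1, i2, i3, i4, i5⟩ :=
        ih T hTc r' b' G' (X + 1) Y (by linarith) hY
      refine ⟨1 :: 0 :: l, ?_, by simp [ls]; ring, ρ + 1, σ, by omega, Ea + 1, Eb + 3 * Y,
        by linarith, by linarith, ?_, ?_, ?_, by omega, ?_⟩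
      · intro x hx
        simp only [List.mem_cons] at hx
        rcases hx with rfl | rfl | hx
        exacts [zero_le_one, le_rfl, l0 x hx]
      · simp only [f, add_zero]
        rw [d2, hTc]; push_cast; nlinarith
      · simp only [f, add_zero]
        rw [d4]; push_cast; nlinarith
      · push_cast; linarith
      · intro h
        have := i5 h
        simp only [f, add_zero]
        push_cast; nlinarith
    · obtain ⟨d1, d2, d3, d4⟩ := remove_dom G'.swap hvT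
        fun y hy => hdom y (hTm y hy).1 (hTm y hy).2
      rw [← hST] at d1 d2 d3 d4
      obtain ⟨l, l0, ls, ρ, σ, hρ, Ea, Eb, ha, hb, i1, i2, i3, i4, i5⟩ :=
        ih T hTc r' b' G' X (Y + 1) hX (by linarith)
      refine ⟨0 :: 1 :: l, ?_, by simp [ls]; ring, ρ, σ + 1, by omega, Ea + 3 * X, Eb + 1,
        by linarith, by linarith, ?_, ?_, ?_, ?_, by omega⟩
      · intro x hx
        simp only [List.mem_cons] at hx
        rcases hx with rfl | rfl | hx
        exacts [le_rfl, zero_le_one, l0 x hx]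
      · simp only [f, add_zero]
        rw [d4]; push_cast; nlinarith
      · simp only [f, add_zero]
        rw [d2, hTc]; push_cast; nlinarith
      · push_cast; linarith
      · intro h
        have := i4 h
        simp only [f, add_zero]
        push_cast; nlinarith

omit [DecidableEq V] in
lemma t_nonneg {r b : V → V → ℝ} (G : Good r b) (S : Finset V) : 0 ≤ t r S :=
  sum_nonneg fun x _ => sum_nonneg fun y _ => sum_nonneg fun z _ =>
    mul_nonneg (mul_nonneg (G.r0 _ _) (G.r0 _ _)) (G.r0 _ _)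

theorem product_bound {m : ℕ} (hm : 3 ≤ m) {S : Finset V} (hS : S.card = m + 1)
    {r b : V → V → ℝ} (G : Good r b) :
    t r S * t b S ≤ gam * ((m : ℝ) * (m ^ 2 - 1)) ^ 2 := by
  obtain ⟨l, l0, ls, ρ, σ, hρ, Ea, Eb, ha, hb, i1, i2, i3, i4, i5⟩ :=
    to_path m S hS r b G 0 0 le_rfl le_rfl
  have h1 := path_bound _ l le_rfl l0
  have h2 := f_sum_le l 0 0 l0 le_rfl le_rfl
  obtain ⟨h3, h4⟩ := f_nonneg l 0 0 l0 le_rfl le_rfl
  have ha0 := t_nonneg G S
  have hb0 := t_nonneg G.swap S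
  have hg := gam_nonneg
  simp only [ls, mul_zero, zero_mul, add_zero, zero_add, sub_zero] at h1 h2 i1 i2 i3 i4 i5
  generalize t r S = a at *
  generalize t b S = c at *
  generalize (f l 0 0).1 = fa at *
  generalize (f l 0 0).2 = fb at *
  by_cases z1 : ρ = 0
  · have := i4 z1
    have : a = 0 := by nlinarith
    rw [this, zero_mul]; positivity
  by_cases z2 : σ = 0
  · have := i5 z2
    have : c = 0 := by nlinarith
    rw [this, mul_zero]; positivity
  have hL : (3 : ℝ) ≤ m := by exact_mod_cast hm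
  have e1 : (ρ : ℝ) + σ = m := by exact_mod_cast hρ
  have e2 : (1 : ℝ) ≤ ρ := by exact_mod_cast Nat.one_le_iff_ne_zero.2 z1
  have e3 : (1 : ℝ) ≤ σ := by exact_mod_cast Nat.one_le_iff_ne_zero.2 z2
  have e4 : 4 * (m : ℝ) - 3 ≤ Ea + Eb := by nlinarith
  generalize (m : ℝ) = L at *
  by_contra hc
  push Not at hc
  obtain ⟨W, hW⟩ : ∃ W, W = gam * (L * (L ^ 2 - 1)) ^ 2 := ⟨_, rfl⟩
  rw [← hW] at hc
  have hW0 : 0 ≤ W := by rw [hW]; positivity
  have hL3 : 0 < L ^ 3 := by positivity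
  have ha3 : a ≤ L ^ 3 := by nlinarith
  have hc3 : c ≤ L ^ 3 := by nlinarith
  have k1 : W ≤ a * L ^ 3 := hc.le.trans (mul_le_mul_of_nonneg_left hc3 ha0)
  have k2 : W ≤ c * L ^ 3 := by
    have := mul_le_mul_of_nonneg_left ha3 hb0
    linarith
  have k3 : (a + Ea) * (c + Eb) ≤ gam * L ^ 6 :=
    (mul_le_mul i1 i2 (by linarith) h3).trans h1
  have k4 : a * c + a * Eb + c * Ea ≤ gam * L ^ 6 := by nlinarith [mul_nonneg ha hb]
  have k5 : W * (4 * L - 3) ≤ (a * Eb + c * Ea) * L ^ 3 := by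
    have p1 := mul_le_mul_of_nonneg_right k1 hb
    have p2 := mul_le_mul_of_nonneg_right k2 ha
    have p3 := mul_le_mul_of_nonneg_left e4 hW0
    nlinarith
  have k6 : W * L ^ 3 + W * (4 * L - 3) < gam * L ^ 6 * L ^ 3 := by
    have p1 := mul_lt_mul_of_pos_right hc hL3
    have p2 := mul_le_mul_of_nonneg_right k4 hL3.le
    nlinarith
  have k7 : 0 ≤ 2 * L ^ 5 - 3 * L ^ 4 - 7 * L ^ 3 + 6 * L ^ 2 + 4 * L - 3 := by
    obtain ⟨x, rfl⟩ : ∃ x, L = x + 3 := ⟨L - 3, by ring⟩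
    have hx : 0 ≤ x := by linarith
    ring_nf
    positivity
  have k8 : 0 ≤ gam * L ^ 2 * (2 * L ^ 5 - 3 * L ^ 4 - 7 * L ^ 3 + 6 * L ^ 2 + 4 * L - 3) := by
    positivity
  rw [hW] at k6
  nlinarith

end Pool.Agent.H20.Cross
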