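import Mathlib

set_option autoImplicit false

namespace Pool.Agent.H20.Gen
open MvPolynomial PrimeSpectrum

variable {σ ρ κ τ : Type}

noncomputable def pt (T : σ → ℂ) : PrimeSpectrum (MvPolynomial σ ℂ) :=
  ⟨RingHom.ker (eval T), RingHom.ker_isPrime _⟩

lemma mem_pt (T : σ → ℂ) (p : MvPolynomial σ ℂ) : p ∈ (pt T).asIdeal ↔ eval T p = 0 := Iff.rfl

/-- a polynomial system with parameters is generically solvable or generically unsolvable -/
theorem dich [Finite σ] [Finite ρ] [Finite κ] (E : κ → MvPolynomial (σ ⊕ ρ) ℂ) :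
    (∃ P : MvPolynomial σ ℂ, P ≠ 0 ∧ ∀ T, eval T P ≠ 0 →
      ∃ y : ρ → ℂ, ∀ k, eval (Sum.elim T y) (E k) = 0) ∨
    (∃ P : MvPolynomial σ ℂ, P ≠ 0 ∧ ∀ T, eval T P ≠ 0 →
      ¬ ∃ y : ρ → ℂ, ∀ k, eval (Sum.elim T y) (E k) = 0) := by
  classical
  let f : MvPolynomial σ ℂ →+* MvPolynomial (σ ⊕ ρ) ℂ := (rename Sum.inl).toRingHom
  have hf : f.FinitePresentation := by
    rw [← RingHom.FinitePresentation.of_finiteType]
    apply RingHom.FiniteType.of_comp_finiteType (f := algebraMap ℂ (MvPolynomial σ ℂ))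
    have : f.comp (algebraMap ℂ (MvPolynomial σ ℂ)) = algebraMap ℂ _ := by
      ext1 c; simp [f]
    rw [this]
    exact RingHom.finiteType_algebraMap.2 inferInstance
  have hs : Topology.IsConstructible (zeroLocus (Set.range E) : Set (PrimeSpectrum (MvPolynomial (σ ⊕ ρ) ℂ))) := by
    have := (isRetrocompact_zeroLocus_compl (Set.finite_range E)).isConstructible
      (isClosed_zeroLocus _).isOpen_compl
    simpa using this.compl
  obtain ⟨S, hS⟩ := exists_constructibleSetData_iff.2 (isConstructible_comap_image hf hs)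
  have key : ∀ T : σ → ℂ, (∃ y : ρ → ℂ, ∀ k, eval (Sum.elim T y) (E k) = 0) ↔ pt T ∈ S.toSet := by
    intro T
    rw [hS]
    constructor
    · rintro ⟨y, hy⟩
      refine ⟨pt (Sum.elim T y), ?_, ?_⟩
      · rintro _ ⟨k, rfl⟩; exact hy k
      · ext p
        simp only [comap_asIdeal, Ideal.mem_comap, mem_pt]
        simp [f, eval_rename]
    · rintro ⟨q, hq, hq'⟩
      obtain ⟨m, hm, hqm⟩ := Ideal.exists_le_maximal q.asIdeal q.isPrime.ne_top
      obtain ⟨x, rfl⟩ := isMaximal_iff_eq_vanishingIdeal_singleton.1 hm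
      have hx : Sum.elim T (x ∘ Sum.inr) = x := by
        funext i
        rcases i with i | i
        · have h1 : (X i - C (T i) : MvPolynomial σ ℂ) ∈ (comap f q).asIdeal := by
            rw [hq', mem_pt]; simp
          have h2 := hqm h1
          rw [mem_vanishingIdeal_singleton_iff] at h2
          simp [f] at h2
          simp only [Sum.elim_inl]
          linear_combination -h2
        · rfl
      refine ⟨x ∘ Sum.inr, fun k => ?_⟩
      rw [hx]
      have h2 := hqm (hq ⟨k, rfl⟩)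
      rw [mem_vanishingIdeal_singleton_iff] at h2
      simpa using h2
  by_cases h : ∃ D ∈ S, (∀ i, D.g i = 0) ∧ D.f ≠ 0
  · obtain ⟨D, hD, h1, h2⟩ := h
    refine Or.inl ⟨D.f, h2, fun T hT => (key T).2 ?_⟩
    refine Set.mem_biUnion hD ⟨?_, ?_⟩
    · rintro _ ⟨i, rfl⟩; rw [h1]; exact Ideal.zero_mem _
    · intro h; exact hT (h rfl)
  · have h' : ∀ D ∈ S, ∃ p : MvPolynomial σ ℂ, p ≠ 0 ∧ ∀ T, eval T p ≠ 0 → pt T ∉ D.toSet := by
      intro D hD
      by_cases h0 : D.f = 0
      · refine ⟨1, one_ne_zero, fun T _ hT => hT.2 ?_⟩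
        rintro _ rfl; rw [h0]; exact Ideal.zero_mem _
      · have : ∃ i, D.g i ≠ 0 := by
          by_contra hc
          push Not at hc
          exact h ⟨D, hD, hc, h0⟩
        obtain ⟨i, hi⟩ := this
        exact ⟨D.g i, hi, fun T hT hm => hT (hm.1 ⟨i, rfl⟩)⟩
    choose! p hp using h'
    refine Or.inr ⟨∏ D ∈ S, p D, Finset.prod_ne_zero_iff.2 fun D hD => (hp D hD).1, fun T hT h => ?_⟩
    obtain ⟨D, hD, hm⟩ := Set.mem_iUnion₂.1 ((key T).1 h)
    rw [map_prod] at hT
    exact (hp D hD).2 T (Finset.prod_ne_zero_iff.1 hT D hD) hm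

def Fib (Ψ : σ → MvPolynomial τ ℂ) (T : σ → ℂ) : Set (τ → ℂ) := {y | ∀ s, eval y (Ψ s) = T s}

lemma has_iff {α : Type} (F : Set α) (n : ℕ) :
    (∃ y : Fin n → α, Function.Injective y ∧ ∀ i, y i ∈ F) ↔ (n : ℕ∞) ≤ F.encard := by
  constructor
  · rintro ⟨y, hy, hF⟩
    have : (Set.range y).encard = n := by
      rw [← Set.image_univ, hy.encard_image]; simp
    rw [← this]
    exact Set.encard_le_encard (by rintro _ ⟨i, rfl⟩; exact hF i)
  · intro h
    obtain ⟨t, ht, h2⟩ := Set.exists_subset_encard_eq h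
    have hfin : t.Finite := Set.finite_of_encard_eq_coe h2
    have h3 : hfin.toFinset.card = n := by
      have := hfin.encard_eq_coe_toFinset_card
      rw [h2] at this; exact_mod_cast this.symm
    let e := (hfin.toFinset.equivFinOfCardEq h3).symm
    refine ⟨fun i => (e i : α), fun i j hij => e.injective (Subtype.ext hij), fun i => ht ?_⟩
    exact hfin.mem_toFinset.1 (e i).2

lemma dich_fib [Fintype σ] [Fintype τ] (Ψ : σ → MvPolynomial τ ℂ) (n : ℕ) :
    (∃ P : MvPolynomial σ ℂ, P ≠ 0 ∧ ∀ T, eval T P ≠ 0 → (n : ℕ∞) ≤ (Fib Ψ T).encard) ∨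
    (∃ P : MvPolynomial σ ℂ, P ≠ 0 ∧ ∀ T, eval T P ≠ 0 → ¬ (n : ℕ∞) ≤ (Fib Ψ T).encard) := by
  classical
  let ρ := (Fin n × τ) ⊕ (Fin n × Fin n × τ)
  let E : (Fin n × σ) ⊕ (Fin n × Fin n) → MvPolynomial (σ ⊕ ρ) ℂ := Sum.elim
    (fun q => rename (fun t => Sum.inr (Sum.inl (q.1, t))) (Ψ q.2) - X (Sum.inl q.2))
    (fun q => if q.1 = q.2 then 0 else ∑ t, X (Sum.inr (Sum.inr (q.1, q.2, t))) *
      (X (Sum.inr (Sum.inl (q.1, t))) - X (Sum.inr (Sum.inl (q.2, t)))) - 1)
  have key : ∀ T : σ → ℂ, (∃ y : ρ → ℂ, ∀ k, eval (Sum.elim T y) (E k) = 0) ↔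
      (n : ℕ∞) ≤ (Fib Ψ T).encard := by
    intro T
    rw [← has_iff]
    constructor
    · rintro ⟨y, hy⟩
      refine ⟨fun i t => y (Sum.inl (i, t)), fun i j hij => ?_, fun i s => ?_⟩
      · by_contra hne
        have := hy (Sum.inr (i, j))
        have h2 : ∀ t, y (Sum.inl (i, t)) = y (Sum.inl (j, t)) := fun t => congrFun hij t
        simp [E, hne, h2] at this
      · have := hy (Sum.inl (i, s))
        simp only [E, Sum.elim_inl, map_sub, eval_rename, eval_X] at this
        exact sub_eq_zero.1 this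
    · rintro ⟨y, hy, hF⟩
      have : ∀ i j : Fin n, ∃ z : τ → ℂ, i ≠ j → ∑ t, z t * (y i t - y j t) = 1 := by
        intro i j
        by_cases hij : i = j
        · exact ⟨0, fun h => absurd hij h⟩
        · obtain ⟨t, ht⟩ := Function.ne_iff.1 (hy.ne hij)
          refine ⟨Pi.single t (y i t - y j t)⁻¹, fun _ => ?_⟩
          rw [Finset.sum_eq_single t (fun b _ hb => by simp [Pi.single_eq_of_ne hb]) (by simp)]
          simp [inv_mul_cancel₀ (sub_ne_zero.2 ht)]
      choose z hz using this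
      refine ⟨Sum.elim (fun q => y q.1 q.2) (fun q => z q.1 q.2.1 q.2.2), ?_⟩
      rintro (⟨i, s⟩ | ⟨i, j⟩)
      · simp only [E, Sum.elim_inl, map_sub, eval_rename, eval_X]
        exact sub_eq_zero.2 (hF i s)
      · by_cases hij : i = j
        · simp [E, hij]
        · simp only [E, Sum.elim_inr, if_neg hij, map_sub, map_sum, map_mul, eval_X, map_one]
          exact sub_eq_zero.2 (hz i j hij)
  simpa only [key] using dich E

lemma bdd_fib [Fintype σ] [Fintype τ] (h : Fintype.card τ ≤ Fintype.card σ)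
    (Ψ : σ → MvPolynomial τ ℂ) :
    ∃ n : ℕ, ∃ P : MvPolynomial σ ℂ, P ≠ 0 ∧ ∀ T, eval T P ≠ 0 → ¬ (n : ℕ∞) ≤ (Fib Ψ T).encard := by
  classical
  have dep : ∀ t : τ, ∃ q : Polynomial (MvPolynomial σ ℂ), q ≠ 0 ∧ ∀ T, ∀ y ∈ Fib Ψ T,
      (q.map (eval T)).eval (y t) = 0 := by
    intro t
    have : ¬ AlgebraicIndependent ℂ (fun o : Option σ => o.elim (X t) Ψ) := by
      intro hi
      have := hi.cardinalMk_le_trdeg
      rw [MvPolynomial.trdeg_of_isDomain] at this
      simp only [Cardinal.mk_fintype, Fintype.card_option, Cardinal.lift_natCast, Nat.cast_le] at this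
      omega
    rw [algebraicIndependent_iff] at this
    push Not at this
    obtain ⟨Q, hQ, hQ0⟩ := this
    refine ⟨optionEquivLeft ℂ σ Q, by simpa using hQ0, fun T y hy => ?_⟩
    rw [← optionEquivLeft_elim_eval]
    have h2 := congrArg (eval y) hQ
    rw [map_zero] at h2
    rw [← h2]
    clear h2 hQ hQ0
    induction Q using MvPolynomial.induction_on with
    | C a => simp
    | add p q hp hq => simp only [map_add, hp, hq]
    | mul_X p o hp =>
      simp only [map_mul, hp, eval_X, aeval_X]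
      cases o
      · simp
      · simp [hy _]
  choose q hq0 hq using dep
  refine ⟨∏ t, (q t).natDegree + 1, ∏ t, (q t).leadingCoeff,
    Finset.prod_ne_zero_iff.2 fun t _ => Polynomial.leadingCoeff_ne_zero.2 (hq0 t), fun T hT hle => ?_⟩
  rw [map_prod] at hT
  have hne : ∀ t, (q t).map (eval T) ≠ 0 := by
    intro t h0
    apply Finset.prod_ne_zero_iff.1 hT t (Finset.mem_univ _)
    have := congrArg (fun p => Polynomial.coeff p (q t).natDegree) h0
    simpa using this
  have hsub : Fib Ψ T ⊆ ↑(Fintype.piFinset fun t => ((q t).map (eval T)).roots.toFinset) := by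
    intro y hy
    simp only [Finset.mem_coe, Fintype.mem_piFinset, Multiset.mem_toFinset]
    intro t
    exact (Polynomial.mem_roots (hne t)).2 (hq t T y hy)
  have h1 := hle.trans (Set.encard_le_encard hsub)
  rw [Set.encard_coe_eq_coe_finsetCard, Fintype.card_piFinset] at h1
  have h2 : ∏ t, ((q t).map (eval T)).roots.toFinset.card ≤ ∏ t, (q t).natDegree :=
    Finset.prod_le_prod' fun t _ => (Multiset.toFinset_card_le _).trans
      ((Polynomial.card_roots' _).trans Polynomial.natDegree_map_le)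
  have h3 : ∏ t, (q t).natDegree + 1 ≤ ∏ t, ((q t).map (eval T)).roots.toFinset.card := by
    exact_mod_cast h1
  omega

/-- the generic fibre cardinality of a polynomial map exists -/
theorem generic_count [Fintype σ] [Fintype τ] (h : Fintype.card τ ≤ Fintype.card σ)
    (Ψ : σ → MvPolynomial τ ℂ) :
    ∃ N : ℕ, ∃ P : MvPolynomial σ ℂ, P ≠ 0 ∧ ∀ T, eval T P ≠ 0 →
      (Fib Ψ T).Finite ∧ (Fib Ψ T).ncard = N := by
  classical
  have hex := bdd_fib h Ψ
  obtain ⟨P, hP, hP'⟩ := Nat.find_spec hex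
  have h0 : Nat.find hex ≠ 0 := by
    intro h0
    apply hP
    apply MvPolynomial.funext
    intro T
    by_contra hT
    exact hP' T (by simpa using hT) (by rw [h0]; exact zero_le)
  obtain ⟨N, hN⟩ := Nat.exists_eq_succ_of_ne_zero h0
  obtain ⟨Q, hQ, hQ'⟩ := (dich_fib Ψ N).resolve_right (Nat.find_min hex (by omega))
  refine ⟨N, P * Q, mul_ne_zero hP hQ, fun T hT => ?_⟩
  rw [map_mul] at hT
  have h1 := hP' T (left_ne_zero_of_mul hT)
  have h2 := hQ' T (right_ne_zero_of_mul hT)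
  rw [hN, not_le] at h1
  have h3 : (Fib Ψ T).encard = N := by
    refine le_antisymm ?_ h2
    push_cast at h1
    exact Order.le_of_lt_add_one h1
  exact ⟨Set.finite_of_encard_eq_coe h3, by simp [Set.ncard, h3]⟩

end Pool.Agent.H20.Gen
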