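import Mathlib

set_option autoImplicit false

namespace Pool.Agent.H20.Hyp

open Finset Filter Topology

structure Good (δ : ℝ) (c : ℚ × ℚ → ℝ) : Prop where
  bd : ∀ p, c p ∈ Set.Icc (0 : ℝ) 1
  pd : ∀ (ι : Type) [Fintype ι] (p : ι → ℚ × ℚ) (a : ι → ℝ),
    δ * (∑ i, a i) ^ 2 ≤ ∑ i, ∑ j, a i * a j * c (p i - p j)
  zero : ∀ x y : ℚ, (x * y = 1 ∨ x * y = -1) → c (x, y) = 0

def Inv (t : ℚ) (c : ℚ × ℚ → ℝ) : Prop := t ≠ 0 → ∀ x y, c (t * x, y / t) = c (x, y)

theorem exists_lim {κ : Type} (U : Ultrafilter κ) (c : κ → ℚ × ℚ → ℝ)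
    (hb : ∀ k p, c k p ∈ Set.Icc (0 : ℝ) 1) :
    ∃ F : ℚ × ℚ → ℝ, ∀ p, Tendsto (fun k => c k p) U (𝓝 (F p)) := by
  have : ∀ p, ∃ r, Tendsto (fun k => c k p) U (𝓝 r) := fun p => by
    obtain ⟨r, -, hr⟩ := (isCompact_Icc (a := (0 : ℝ)) (b := 1)).ultrafilter_le_nhds
      (U.map fun k => c k p) (by
        rw [Ultrafilter.coe_map, le_principal_iff, Filter.mem_map]
        exact univ_mem' fun k => hb k p)
    exact ⟨r, hr⟩
  choose F hF using this
  exact ⟨F, hF⟩

theorem good_of_lim {κ : Type} (l : Filter κ) [l.NeBot] (δ : ℝ) (c : κ → ℚ × ℚ → ℝ)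
    (F : ℚ × ℚ → ℝ) (hF : ∀ p, Tendsto (fun k => c k p) l (𝓝 (F p)))
    (hb : ∀ k p, c k p ∈ Set.Icc (0 : ℝ) 1)
    (hpd : ∀ (ι : Type) [Fintype ι] (p : ι → ℚ × ℚ) (a : ι → ℝ), ∀ᶠ k in l,
      δ * (∑ i, a i) ^ 2 ≤ ∑ i, ∑ j, a i * a j * c k (p i - p j))
    (hz : ∀ x y : ℚ, (x * y = 1 ∨ x * y = -1) → ∀ᶠ k in l, c k (x, y) = 0) : Good δ F := by
  refine ⟨fun p => isClosed_Icc.mem_of_tendsto (hF p) (Eventually.of_forall fun k => hb k p),
    fun ι _ p a => ?_, fun x y h => ?_⟩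
  · refine ge_of_tendsto (f := fun k => ∑ i, ∑ j, a i * a j * c k (p i - p j)) ?_ (hpd ι p a)
    exact tendsto_finsetSum _ fun i _ => tendsto_finsetSum _ fun j _ => (hF _).const_mul _
  · exact tendsto_nhds_unique (hF _) (tendsto_const_nhds.congr' ((hz x y h).mono
      fun k hk => hk.symm))

theorem Good.act {δ : ℝ} {c : ℚ × ℚ → ℝ} (h : Good δ c) {t : ℚ} (ht : t ≠ 0) :
    Good δ (fun p => c (t * p.1, p.2 / t)) := by
  refine ⟨fun p => h.bd _, fun ι _ p a => ?_, fun x y hxy => h.zero _ _ ?_⟩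
  · have := h.pd ι (fun i => (t * (p i).1, (p i).2 / t)) a
    refine this.trans (le_of_eq (sum_congr rfl fun i _ => sum_congr rfl fun j _ => ?_))
    simp [mul_sub, sub_div]
  · have : t * x * (y / t) = x * y := by field_simp
    rw [this]; exact hxy

theorem step {δ : ℝ} {c : ℚ × ℚ → ℝ} (h : Good δ c) (S : Finset ℚ) (hS : ∀ s ∈ S, Inv s c)
    (t : ℚ) : ∃ c', Good δ c' ∧ Inv t c' ∧ ∀ s ∈ S, Inv s c' := by
  by_cases ht : t = 0
  · exact ⟨c, h, fun h' => absurd ht h', hS⟩
  let d : ℕ → ℚ × ℚ → ℝ := fun n p =>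
    (∑ k ∈ range (n + 1), c (t ^ k * p.1, p.2 / t ^ k)) / (n + 1)
  have hb : ∀ n p, d n p ∈ Set.Icc (0 : ℝ) 1 := fun n p => by
    constructor
    · exact div_nonneg (sum_nonneg fun k _ => (h.bd _).1) (by positivity)
    · rw [div_le_one (by positivity)]
      refine (sum_le_card_nsmul _ _ 1 fun k _ => (h.bd _).2).trans ?_
      simp
  obtain ⟨F, hF⟩ := exists_lim (hyperfilter ℕ) d hb
  refine ⟨F, good_of_lim _ δ d F hF hb (fun ι _ p a => Eventually.of_forall fun n => ?_)
    (fun x y hxy => Eventually.of_forall fun n => ?_), fun _ x y => ?_, fun s hs hs0 x y => ?_⟩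
  · have e : ∑ i, ∑ j, a i * a j * d n (p i - p j) = (∑ k ∈ range (n + 1),
        ∑ i, ∑ j, a i * a j * c (t ^ k * (p i - p j).1, (p i - p j).2 / t ^ k)) / (n + 1) := by
      rw [sum_comm (s := range (n + 1)), sum_div]
      refine sum_congr rfl fun i _ => ?_
      rw [sum_comm (s := range (n + 1)), sum_div]
      refine sum_congr rfl fun j _ => ?_
      simp only [d]
      rw [← mul_sum, mul_div_assoc]
    rw [e, le_div_iff₀ (by positivity)]
    refine le_trans ?_ (card_nsmul_le_sum _ _ (δ * (∑ i, a i) ^ 2) fun k _ =>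
      (h.act (pow_ne_zero k ht)).pd ι p a)
    simp [mul_comm]
  · simp only [d]
    rw [sum_eq_zero fun k _ => (h.act (pow_ne_zero k ht)).zero x y hxy, zero_div]
  · have h1 : Tendsto (fun n => d n (t * x, y / t) - d n (x, y)) (hyperfilter ℕ) (𝓝 0) := by
      refine Tendsto.mono_left ?_ Nat.hyperfilter_le_atTop
      refine squeeze_zero_norm (a := fun n : ℕ => 1 / ((n : ℝ) + 1)) (fun n => ?_)
        tendsto_one_div_add_atTop_nhds_zero_nat
      have e : d n (t * x, y / t) - d n (x, y) =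
          (c (t ^ (n + 1) * x, y / t ^ (n + 1)) - c (x, y)) / (n + 1) := by
        simp only [d]
        rw [← sub_div]
        congr 1
        have e1 := sum_range_succ' (fun k => c (t ^ k * x, y / t ^ k)) (n + 1)
        have e2 := sum_range_succ (fun k => c (t ^ k * x, y / t ^ k)) (n + 1)
        have e3 : ∑ k ∈ range (n + 1), c (t ^ k * (t * x), y / t / t ^ k) =
            ∑ k ∈ range (n + 1), c (t ^ (k + 1) * x, y / t ^ (k + 1)) :=
          sum_congr rfl fun k _ => by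
            congr 2
            · ring
            · rw [div_div, pow_succ']
        simp only [pow_zero, one_mul, div_one] at e1
        rw [e3]; linarith
      rw [e, Real.norm_eq_abs, abs_div, abs_of_pos (by positivity : (0 : ℝ) < n + 1)]
      gcongr
      have := h.bd (t ^ (n + 1) * x, y / t ^ (n + 1))
      have := h.bd (x, y)
      simp only [Set.mem_Icc] at *
      rw [abs_le]; constructor <;> linarith
    have := tendsto_nhds_unique ((hF _).sub (hF _)) h1
    linarith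
  · refine tendsto_nhds_unique (hF _) ((hF _).congr fun n => ?_)
    simp only [d]
    congr 1
    refine sum_congr rfl fun k _ => ?_
    rw [← hS s hs hs0 (t ^ k * x) (y / t ^ k)]
    congr 2
    · ring
    · rw [div_div, div_div, mul_comm]

theorem exists_inv {δ : ℝ} {c : ℚ × ℚ → ℝ} (h : Good δ c) :
    ∃ F, Good δ F ∧ ∀ t, Inv t F := by
  classical
  have h1 : ∀ S : Finset ℚ, ∃ c', Good δ c' ∧ ∀ s ∈ S, Inv s c' := fun S => by
    induction S using Finset.induction_on with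
    | empty => exact ⟨c, h, by simp⟩
    | insert t S _ ih =>
      obtain ⟨c1, g1, i1⟩ := ih
      obtain ⟨c2, g2, i2, i3⟩ := step g1 S i1 t
      exact ⟨c2, g2, fun s hs => by
        rcases mem_insert.1 hs with rfl | hs
        exacts [i2, i3 s hs]⟩
  choose d hd hi using h1
  obtain ⟨F, hF⟩ := exists_lim (Ultrafilter.of (atTop : Filter (Finset ℚ))) d
    fun k => (hd k).bd
  refine ⟨F, good_of_lim _ δ d F hF (fun k => (hd k).bd)
    (fun ι _ p a => Eventually.of_forall fun n => (hd n).pd ι p a)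
    (fun x y hxy => Eventually.of_forall fun n => (hd n).zero x y hxy), fun t ht x y => ?_⟩
  refine tendsto_nhds_unique (hF _) ((hF _).congr' ?_)
  refine Eventually.filter_mono (Ultrafilter.of_le _) ?_
  filter_upwards [eventually_ge_atTop ({t} : Finset ℚ)] with S hS
  exact (hi S t (hS (mem_singleton_self t)) ht x y).symm

end Pool.Agent.H20.Hyp
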