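import Mathlib

set_option autoImplicit false

namespace Pool.Agent.H20.Hyp

open Finset Filter Topology Sum

abbrev V (n : ℕ) := Fin n ⊕ Fin n
abbrev E (n : ℕ) := Fin n × Fin n

def Ends {n : ℕ} (e : E n) (v w : V n) : Prop :=
  (v = inl e.1 ∧ w = inr e.2) ∨ (v = inr e.2 ∧ w = inl e.1)

theorem exists_primes (n B : ℕ) : ∃ p : E n → ℕ, Function.Injective p ∧
    ∀ e, (p e).Prime ∧ B < p e := by
  have h : {p : ℕ | p.Prime ∧ B < p}.Infinite := by
    have := Nat.infinite_setOfPred_prime.sdiff (Set.finite_Iic B)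
    refine this.mono fun p hp => ⟨hp.1, not_le.1 hp.2⟩
  refine ⟨fun e => (h.natEmbedding _ (Encodable.encode e)).1, fun e e' he => ?_,
    fun e => (h.natEmbedding _ (Encodable.encode e)).2⟩
  exact Encodable.encode_injective ((h.natEmbedding _).injective (Subtype.ext he))

theorem exists_y (n B : ℕ) : ∃ (p : E n → ℕ) (y : V n → ℤ), (∀ e, (p e).Prime ∧ B < p e) ∧
    (∀ e, (p e : ℤ) ∣ y (inl e.1) - y (inr e.2)) ∧
    ∀ e v w, v ≠ w → ¬ Ends e v w → ¬ (p e : ℤ) ∣ y v - y w := by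
  classical
  obtain ⟨p, hp, hB⟩ := exists_primes n (B + (n + n) + 1)
  let r : E n → V n → ℤ := fun e v =>
    if v = inl e.1 ∨ v = inr e.2 then 0 else (finSumFinEquiv v : ℕ) + 1
  let P : E n → ℤ := fun e => ∏ e' ∈ univ.erase e, (p e' : ℤ)
  let y : V n → ℤ := fun v => ∑ e, r e v * P e
  have key : ∀ e v w, (p e : ℤ) ∣ y v - y w ↔ (p e : ℤ) ∣ r e v - r e w := fun e v w => by
    have e1 : y v - y w = (r e v - r e w) * P e +
        ∑ e' ∈ univ.erase e, (r e' v - r e' w) * P e' := by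
      rw [add_sum_erase _ (fun e' => (r e' v - r e' w) * P e') (mem_univ e)]
      simp only [y, ← sum_sub_distrib, sub_mul]
    have e2 : (p e : ℤ) ∣ ∑ e' ∈ univ.erase e, (r e' v - r e' w) * P e' :=
      dvd_sum fun e' he' => Dvd.dvd.mul_left
        (dvd_prod_of_mem _ (mem_erase.2 ⟨(mem_erase.1 he').1.symm, mem_univ _⟩)) _
    have e3 : IsCoprime (p e : ℤ) (P e) := IsCoprime.prod_right fun e' he' => by
      rw [Nat.isCoprime_iff_coprime, Nat.coprime_primes (hB e).1 (hB e').1]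
      exact fun h => (mem_erase.1 he').1 (hp h).symm
    rw [e1, dvd_add_left e2]
    exact ⟨fun h => e3.dvd_of_dvd_mul_right h, fun h => h.mul_right _⟩
  refine ⟨p, y, fun e => ⟨(hB e).1, by have := (hB e).2; omega⟩, fun e => ?_,
    fun e v w hvw hE h => ?_⟩
  · rw [key]; simp [r]
  · rw [key] at h
    have hv := (finSumFinEquiv v).2
    have hw := (finSumFinEquiv w).2
    have hne : (finSumFinEquiv v : ℕ) ≠ finSumFinEquiv w :=
      fun h => hvw (finSumFinEquiv.injective (Fin.ext h))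
    have hb := (hB e).2
    have h0 : r e v - r e w = 0 := by
      refine Int.eq_zero_of_abs_lt_dvd h ?_
      simp only [r]
      rw [abs_lt]
      split_ifs <;> constructor <;> omega
    simp only [r] at h0
    split_ifs at h0 with h1 h2 h2
    · rcases h1 with rfl | rfl <;> rcases h2 with rfl | rfl
      · exact hvw rfl
      · exact hE (Or.inl ⟨rfl, rfl⟩)
      · exact hE (Or.inr ⟨rfl, rfl⟩)
      · exact hvw rfl
    · omega
    · omega
    · omega

theorem generic (n : ℕ) (hn : 2 ≤ n) (Bad : Finset ℚ) : ∃ y : V n → ℚ, Function.Injective y ∧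
    ∀ (ε : E n → ℤ), (∀ e, |ε e| ≤ 1) → ∀ v w, v ≠ w → ∀ e, ε e ≠ 0 → ¬ Ends e v w →
      (∑ e', (ε e' : ℚ) / (y (inl e'.1) - y (inr e'.2))) * (y v - y w) ∉ Bad := by
  classical
  obtain ⟨p, y, hp, hd, hnd⟩ := exists_y n (Bad.sup Rat.den + 1)
  have hinj : Function.Injective y := fun v w h => by
    by_contra hvw
    have h0 : (⟨0, by omega⟩ : Fin n) ≠ ⟨1, by omega⟩ := by simp
    by_cases h1 : Ends (⟨0, by omega⟩, ⟨0, by omega⟩) v w
    · refine hnd (⟨1, by omega⟩, ⟨1, by omega⟩) v w hvw ?_ (by simp [h])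
      rcases h1 with ⟨h2, h3⟩ | ⟨h2, h3⟩ <;> rw [h2, h3] <;> simp [Ends]
    · exact hnd _ v w hvw h1 (by simp [h])
  refine ⟨fun v => y v, fun v w h => hinj (Int.cast_injective h), fun ε hε v w hvw e he hE hB => ?_⟩
  have : Fact (p e).Prime := ⟨(hp e).1⟩
  have h1 : ∀ z ∈ Bad, padicNorm (p e) z ≤ 1 := fun z hz => by
    rw [← Rat.num_div_den z, padicNorm.div, (padicNorm.nat_eq_one_iff z.den).2, div_one]
    · exact padicNorm.of_int _
    · intro h
      have := Nat.le_of_dvd z.den_pos h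
      have h2 : z.den ≤ Bad.sup Rat.den := le_sup hz
      have := (hp e).2
      omega
  have h2 := h1 _ hB
  rw [padicNorm.mul, ← Int.cast_sub, (padicNorm.int_eq_one_iff _).2 (hnd e v w hvw hE), mul_one,
    ← add_sum_erase _ _ (mem_univ e)] at h2
  have h3 : padicNorm (p e) (∑ e' ∈ univ.erase e,
      (ε e' : ℚ) / ((y (inl e'.1) : ℚ) - y (inr e'.2))) ≤ 1 :=
    padicNorm.sum_le' (fun e' he' => by
      rw [padicNorm.div, ← Int.cast_sub, (padicNorm.int_eq_one_iff _).2 (hnd e _ _ (by simp) ?_),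
        div_one]
      · exact padicNorm.of_int _
      · have := (mem_erase.1 he').1
        rintro (⟨h1, h2⟩ | ⟨h1, h2⟩)
        · exact this (Prod.ext (inl.inj h1) (inr.inj h2))
        · cases h1) zero_le_one
  have h4 : 1 < padicNorm (p e) ((ε e : ℚ) / ((y (inl e.1) : ℚ) - y (inr e.2))) := by
    have hne : ((y (inl e.1) - y (inr e.2) : ℤ) : ℚ) ≠ 0 := by
      rw [Int.cast_ne_zero, sub_ne_zero]
      exact fun h => by simpa using hinj h
    rw [padicNorm.div, ← Int.cast_sub, (padicNorm.int_eq_one_iff _).2, one_div]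
    · exact (one_lt_inv₀ (lt_of_le_of_ne (padicNorm.nonneg _) (padicNorm.nonzero hne).symm)).2
        ((padicNorm.int_lt_one_iff _).2 (hd e))
    · intro h
      refine he (Int.eq_zero_of_abs_lt_dvd h ?_)
      have := hε e
      have := (hp e).1.two_le
      omega
  rw [padicNorm.add_eq_max_of_ne (h3.trans_lt h4).ne'] at h2
  have := le_max_left (padicNorm (p e) ((ε e : ℚ) / ((y (inl e.1) : ℚ) - y (inr e.2))))
    (padicNorm (p e) (∑ e' ∈ univ.erase e, (ε e' : ℚ) / ((y (inl e'.1) : ℚ) - y (inr e'.2))))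
  linarith

end Pool.Agent.H20.Hyp
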