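import Pool.Agent.H20.HypA
import Pool.Agent.H20.HypB

set_option autoImplicit false

namespace Pool.Agent.H20.Hyp

open Finset Filter Topology Sum

variable {δ : ℝ} {F : ℚ × ℚ → ℝ}

theorem hf (hi : ∀ t, Inv t F) (x y : ℚ) (hy : y ≠ 0) : F (x, y) = F (x * y, 1) := by
  rw [← hi y hy x y, div_self hy, mul_comm]

theorem hα (hi : ∀ t, Inv t F) (x : ℚ) (hx : x ≠ 0) : F (x, 0) = F (1, 0) := by
  rw [← hi x hx 1 0, mul_one, zero_div]

theorem sep (hδ : 0 < δ) (h : Good δ F) (hi : ∀ t, Inv t F) (u η : ℝ) (hη : 0 < η)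
    (h1 : {z : ℚ | u + η ≤ F (z, 1)}.Infinite) (h2 : {z : ℚ | F (z, 1) ≤ u}.Infinite) :
    False := by
  classical
  obtain ⟨K, hK⟩ := exists_nat_gt (2 / η ^ 2)
  let z : Fin K ⊕ Fin K → ℚ := Sum.elim (fun k => (h1.natEmbedding _ k).1)
    (fun k => (h2.natEmbedding _ k).1)
  have z1 : ∀ k, u + η ≤ F (z (inl k), 1) := fun k => (h1.natEmbedding _ k).2
  have z2 : ∀ k, F (z (inr k), 1) ≤ u := fun k => (h2.natEmbedding _ k).2
  have hz : Function.Injective z := by
    rintro (k | k) (l | l) hkl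
    · exact congrArg inl (Fin.ext ((h1.natEmbedding _).injective (Subtype.ext hkl)))
    · have := z1 k; have := z2 l; rw [hkl] at *; linarith
    · have := z2 k; have := z1 l; rw [hkl] at *; linarith
    · exact congrArg inr (Fin.ext ((h2.natEmbedding _).injective (Subtype.ext hkl)))
  let σ : Fin K ⊕ Fin K → ℝ := Sum.elim (fun _ => -1) (fun _ => 1)
  have σ0 : ∑ i, σ i = 0 := by simp [σ, Fintype.sum_sum_type]
  have σ1 : ∀ i, σ i * σ i = 1 := by rintro (i | i) <;> simp [σ]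
  have := h.pd (Option (Fin K ⊕ Fin K)) (fun o => o.elim (0, -1) fun i => (z i, 0))
    (fun o => o.elim (K * η) σ)
  simp only [Fintype.sum_option, Option.elim, Prod.mk_sub_mk, sub_self, sub_zero, zero_sub,
    neg_neg, sum_add_distrib] at this
  have e1 : ∑ i, K * η * σ i * F (-z i, -1) = K * η * ∑ i, σ i * F (z i, 1) := by
    rw [mul_sum]
    refine sum_congr rfl fun i _ => ?_
    rw [hf hi _ _ (by norm_num), mul_assoc]; simp
  have e2 : ∑ i, σ i * (K * η) * F (z i, 1) = K * η * ∑ i, σ i * F (z i, 1) := by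
    rw [mul_sum]
    exact sum_congr rfl fun i _ => by ring
  have e3 : ∑ i, ∑ j, σ i * σ j * F (z i - z j, 0) = (K + K) * (F (0, 0) - F (1, 0)) := by
    have : ∀ i j, σ i * σ j * F (z i - z j, 0) = σ i * F (1, 0) * σ j +
        if i = j then F (0, 0) - F (1, 0) else 0 := fun i j => by
      split_ifs with hij
      · subst hij; rw [sub_self]; linear_combination (F (0, 0) - F (1, 0)) * σ1 i
      · rw [hα hi _ (sub_ne_zero.2 fun h => hij (hz h))]; ring
    simp only [this, sum_add_distrib, ← mul_sum, σ0]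
    simp
    ring
  have e4 : ∑ i, σ i * F (z i, 1) ≤ - (K * η) := by
    rw [Fintype.sum_sum_type]
    have a1 : ∑ k : Fin K, σ (inl k) * F (z (inl k), 1) ≤ ∑ k : Fin K, -(u + η) :=
      sum_le_sum fun k _ => by have := z1 k; simp only [σ, Sum.elim_inl]; linarith
    have a2 : ∑ k : Fin K, σ (inr k) * F (z (inr k), 1) ≤ ∑ k : Fin K, u :=
      sum_le_sum fun k _ => by have := z2 k; simp only [σ, Sum.elim_inr]; linarith
    simp only [sum_const, card_univ, Fintype.card_fin, nsmul_eq_mul] at a1 a2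
    linarith
  rw [e1, e2, e3] at this
  have b0 := h.bd (0, 0)
  have b1 := h.bd (1, 0)
  simp only [Set.mem_Icc] at b0 b1
  rw [div_lt_iff₀ (by positivity)] at hK
  have hK0 : (0 : ℝ) < K := by
    by_contra hh
    have : (K : ℝ) * η ^ 2 ≤ 0 := mul_nonpos_of_nonpos_of_nonneg (not_lt.1 hh) (by positivity)
    linarith
  have hp : 0 ≤ δ * (K * η + ∑ i, σ i) ^ 2 := by positivity
  have hKη : 0 < K * η := by positivity
  have a1 := mul_le_mul_of_nonneg_left e4 hKη.le
  have a2 : K * η * (K * η) * F 0 ≤ K * η * (K * η) :=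
    mul_le_of_le_one_right (by positivity) b0.2
  have a3 : (K + K) * (F (0, 0) - F (1, 0)) ≤ K + K :=
    mul_le_of_le_one_right (by positivity) (by linarith)
  have a4 := mul_lt_mul_of_pos_left hK hK0
  nlinarith

theorem exists_a (hδ : 0 < δ) (h : Good δ F) (hi : ∀ t, Inv t F) :
    ∃ a : ℝ, 0 < a ∧ a ≤ 1 ∧ ∀ η, 0 < η → {z : ℚ | η ≤ |F (z, 1) - a|}.Finite := by
  obtain ⟨G, hG⟩ := exists_lim (hyperfilter ℚ) (fun z _ => F (z, 1)) fun z _ => h.bd _
  have hl := hG 0
  set a := G 0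
  have ha : a ∈ Set.Icc (0 : ℝ) 1 :=
    isClosed_Icc.mem_of_tendsto hl (Eventually.of_forall fun k => h.bd _)
  have hfin : ∀ η, 0 < η → {z : ℚ | η ≤ |F (z, 1) - a|}.Finite := fun η hη => by
    have g1 : {z : ℚ | |F (z, 1) - a| < η / 2}.Infinite := fun hf =>
      hf.notMem_hyperfilter (by
        have := Metric.tendsto_nhds.1 hl (η / 2) (by positivity)
        simp only [Real.dist_eq] at this
        exact this)
    have f1 : {z : ℚ | a + η / 2 + η / 2 ≤ F (z, 1)}.Finite := by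
      by_contra hh
      exact sep hδ h hi _ _ (by positivity) hh (g1.mono fun z hz => by
        have := abs_lt.1 (show |F (z, 1) - a| < η / 2 from hz)
        rw [Set.mem_ofPred_eq]; linarith)
    have f2 : {z : ℚ | F (z, 1) ≤ a - η}.Finite := by
      by_contra hh
      exact sep hδ h hi _ (η / 2) (by positivity) (g1.mono fun z hz => by
        have := abs_lt.1 (show |F (z, 1) - a| < η / 2 from hz)
        rw [Set.mem_ofPred_eq]; linarith) hh
    refine (f1.union f2).subset fun z hz => ?_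
    rcases le_abs.1 (show η ≤ |F (z, 1) - a| from hz) with h | h
    · left; rw [Set.mem_ofPred_eq]; linarith
    · right; rw [Set.mem_ofPred_eq]; linarith
  refine ⟨a, ?_, ha.2, hfin⟩
  obtain ⟨R, hR⟩ := (hfin (δ / 4) (by positivity)).bddAbove
  obtain ⟨K, hK⟩ := exists_nat_gt (4 / δ)
  have hK0 : (0 : ℝ) < K := lt_trans (by positivity) hK
  have := h.pd (Fin K) (fun k => ((|R| + 1) * (k : ℕ), (k : ℕ))) (fun _ => 1)
  have e : ∑ i : Fin K, ∑ j : Fin K, (1 : ℝ) * 1 *
      F ((((|R| + 1) * (i : ℕ), (i : ℕ)) : ℚ × ℚ) - ((|R| + 1) * (j : ℕ), ((j : ℕ) : ℚ))) ≤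
      ∑ i : Fin K, ∑ j : Fin K, ((a + δ / 4) + if i = j then 1 else 0) := by
    refine sum_le_sum fun i _ => sum_le_sum fun j _ => ?_
    split_ifs with hij
    · have := (h.bd ((((|R| + 1) * (i : ℕ), (i : ℕ)) : ℚ × ℚ) - ((|R| + 1) * (j : ℕ), ((j : ℕ) : ℚ)))).2
      have := ha.1
      linarith
    · have hne : (((i : ℕ) : ℤ) - (j : ℕ)) ≠ 0 := by
        have : (i : ℕ) ≠ j := fun h => hij (Fin.ext h)
        omega
      have h1 : (1 : ℤ) ≤ (((i : ℕ) : ℤ) - (j : ℕ)) ^ 2 := by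
        have := sq_pos_of_ne_zero hne
        omega
      have h2 : (1 : ℚ) ≤ (((i : ℕ) : ℚ) - (j : ℕ)) ^ 2 := by exact_mod_cast h1
      have h3 : (((i : ℕ) : ℚ) - (j : ℕ)) ≠ 0 := by exact_mod_cast hne
      rw [Prod.mk_sub_mk, hf hi _ _ h3]
      by_contra hh
      have := hR (show δ / 4 ≤ |F (((|R| + 1) * (i : ℕ) - (|R| + 1) * (j : ℕ)) *
        (((i : ℕ) : ℚ) - (j : ℕ)), 1) - a| from le_abs.2 (Or.inl (by linarith)))
      have := le_abs_self R
      have := abs_nonneg R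
      nlinarith
  have e2 := this.trans e
  simp only [sum_add_distrib, sum_const, card_univ, Fintype.card_fin, nsmul_eq_mul, sum_ite_eq,
    mem_univ, if_true, mul_one] at e2
  rw [div_lt_iff₀ hδ] at hK
  by_contra hh
  have a1 : (K : ℝ) * (K * a) ≤ 0 :=
    mul_nonpos_of_nonneg_of_nonpos hK0.le (mul_nonpos_of_nonneg_of_nonpos hK0.le (not_lt.1 hh))
  have a2 := mul_lt_mul_of_pos_left hK hK0
  nlinarith

end Pool.Agent.H20.Hyp
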