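import Pool.Agent.H20.HypC

set_option autoImplicit false

namespace Pool.Agent.H20.Hyp

open Finset Filter Topology Sum

abbrev X (n : ℕ) := E n → Bool

variable {n : ℕ}

def sg (S : X n) : ℝ := ∏ e, (if S e then -1 else 1)
def fl (e : E n) (S : X n) : X n := Function.update S e (!S e)
def σ : V n → ℝ := Sum.elim (fun _ => 1) (fun _ => -1)

theorem sg_sq (S : X n) : sg S * sg S = 1 := by
  rw [sg, ← prod_mul_distrib]
  exact prod_eq_one fun e _ => by split_ifs <;> norm_num

theorem sg_fl (e : E n) (S : X n) : sg (fl e S) = - sg S := by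
  rw [sg, sg, ← mul_prod_erase _ _ (mem_univ e), ← mul_prod_erase _ _ (mem_univ e), ← neg_mul]
  congr 1
  · simp only [fl, Function.update_self]
    cases S e <;> simp
  · exact prod_congr rfl fun e' he' => by
      rw [fl, Function.update_of_ne (mem_erase.1 he').1]

theorem sum_sg (e : E n) : ∑ S : X n, sg S = 0 := by
  have := prod_univ_sum (fun _ : E n => (univ : Finset Bool))
    (fun _ b => (if b then -1 else 1 : ℝ))
  rw [Fintype.piFinset_univ] at this
  rw [show ∑ S : X n, sg S = _ from this.symm]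
  exact prod_eq_zero (mem_univ e) (by simp)

theorem fl_ne (e : E n) (S : X n) : S ≠ fl e S := fun h => by
  have := congrFun h e
  simp [fl] at this

theorem Ends.unique {e e' : E n} {v w : V n} (h : Ends e v w) (h' : Ends e' v w) : e = e' := by
  rcases h with ⟨rfl, rfl⟩ | ⟨rfl, rfl⟩ <;> rcases h' with ⟨h1, h2⟩ | ⟨h1, h2⟩
  · exact Prod.ext (inl.inj h1) (inr.inj h2)
  · cases h1
  · cases h1
  · exact Prod.ext (inl.inj h2) (inr.inj h1)

theorem Ends.ne {e : E n} {v w : V n} (h : Ends e v w) : v ≠ w := by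
  rcases h with ⟨rfl, rfl⟩ | ⟨rfl, rfl⟩ <;> simp

def Q1 (A : V n → V n → ℝ) : ℝ := ∑ v, ∑ w, σ v * σ w * A v w
def Q2 (B : X n → X n → ℝ) : ℝ := ∑ S, ∑ T, sg S * sg T * B S T

theorem fac (A : V n → V n → ℝ) (B : X n → X n → ℝ) :
    ∑ i : V n × X n, ∑ j : V n × X n, (σ i.1 * sg i.2) * (σ j.1 * sg j.2) *
      (A i.1 j.1 * B i.2 j.2) = Q1 A * Q2 B := by
  rw [Q1, Q2, sum_mul_sum, Fintype.sum_prod_type]
  refine sum_congr rfl fun v _ => sum_congr rfl fun S _ => ?_
  rw [sum_mul_sum, Fintype.sum_prod_type]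
  exact sum_congr rfl fun w _ => sum_congr rfl fun T _ => by ring

theorem σ_sum : ∑ v : V n, σ v = 0 := by simp [σ, Fintype.sum_sum_type]
theorem σ_sq (v : V n) : σ v * σ v = 1 := by rcases v with v | v <;> simp [σ]

theorem Q1_one : Q1 (n := n) (fun _ _ => 1) = 0 := by
  simp only [Q1, mul_one, ← mul_sum, σ_sum, mul_zero, sum_const_zero]

theorem Q2_one (e : E n) : Q2 (n := n) (fun _ _ => 1) = 0 := by
  simp only [Q2, mul_one, ← mul_sum, sum_sg e, mul_zero, sum_const_zero]

theorem Q1_eq : Q1 (n := n) (fun v w => if v = w then 1 else 0) = 2 * n := by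
  simp [Q1, σ_sq, two_mul]

theorem Q2_eq : Q2 (n := n) (fun v w => if v = w then 1 else 0) = Fintype.card (X n) := by
  simp [Q2, sg_sq]

theorem Q2_fl (e : E n) : Q2 (n := n) (fun S T => if T = fl e S then 1 else 0) =
    - Fintype.card (X n) := by
  simp [Q2, sg_fl, sg_sq]

open Classical in
theorem Q1_ends (e : E n) : Q1 (fun v w => if Ends e v w then 1 else 0) = -2 := by
  have : ∀ v w, (if Ends e v w then 1 else 0 : ℝ) =
      (if v = inl e.1 then 1 else 0) * (if w = inr e.2 then 1 else 0) +
      (if v = inr e.2 then 1 else 0) * (if w = inl e.1 then 1 else 0) := fun v w => by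
    unfold Ends
    by_cases h1 : v = inl e.1 <;> by_cases h2 : w = inr e.2 <;> by_cases h3 : v = inr e.2 <;>
      by_cases h4 : w = inl e.1 <;> simp_all
  simp only [Q1, this, mul_add, sum_add_distrib]
  simp [σ]
  norm_num

open Classical in
theorem core {δ : ℝ} {F : ℚ × ℚ → ℝ} (hδ : 0 < δ) (h : Good δ F) (hi : ∀ t, Inv t F) :
    False := by
  obtain ⟨a, ha, ha1, hfin⟩ := exists_a hδ h hi
  obtain ⟨n, hn⟩ := exists_nat_gt (3 / a + 2)
  have hn2 : 2 ≤ n := by
    have : (0 : ℝ) < 3 / a := by positivity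
    have : (2 : ℝ) ≤ n := by linarith
    exact_mod_cast this
  have hna : 3 < n * a := by
    rw [← div_lt_iff₀ ha]; linarith
  set m : ℝ := (Fintype.card (X n) : ℝ) with hm
  have hm0 : 0 < m := by rw [hm]; exact_mod_cast Fintype.card_pos
  set η := a / (8 * m) with hη
  have hη0 : 0 < η := by positivity
  obtain ⟨y, hy, hg⟩ := generic n hn2 (insert 0 (hfin η hη0).toFinset)
  let s : X n → ℚ := fun S => ∑ e, (if S e then 1 else 0) / (y (inl e.1) - y (inr e.2))
  let ε : X n → X n → E n → ℤ := fun S T e => (if S e then 1 else 0) - (if T e then 1 else 0)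
  have hs : ∀ S T, s S - s T = ∑ e, (ε S T e : ℚ) / (y (inl e.1) - y (inr e.2)) := fun S T => by
    simp only [s, ε, ← sum_sub_distrib, ← sub_div]
    push_cast
    rfl
  have hε : ∀ S T e, |ε S T e| ≤ 1 := fun S T e => by
    simp only [ε]; split_ifs <;> norm_num
  have hε0 : ∀ S T e, S e ≠ T e → ε S T e ≠ 0 := fun S T e => by
    simp only [ε]; cases S e <;> cases T e <;> simp
  set α := F (1, 0)
  set β := F (0, 1)
  set γ := F (0, 0) - α - β + a
  let G : V n × X n → V n × X n → ℝ := fun i j =>
    a * (1 * 1) + (α - a) * ((if i.1 = j.1 then 1 else 0) * 1) +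
      (β - a) * (1 * if i.2 = j.2 then 1 else 0) +
      γ * ((if i.1 = j.1 then 1 else 0) * if i.2 = j.2 then 1 else 0) -
      a * ∑ e, (if Ends e i.1 j.1 then 1 else 0) * (if j.2 = fl e i.2 then 1 else 0)
  have hG : ∀ i j : V n × X n, |F ((s i.2, y i.1) - (s j.2, y j.1)) - G i j| ≤ η := by
    rintro ⟨v, S⟩ ⟨w, T⟩
    simp only [Prod.mk_sub_mk, G]
    by_cases hvw : v = w
    · subst hvw
      rw [sum_eq_zero fun e _ => by rw [if_neg fun h => Ends.ne h rfl, zero_mul]]
      by_cases hST : S = T
      · subst hST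
        simp only [sub_self, if_true, γ]
        ring_nf
        simpa using hη0.le
      · obtain ⟨e, he⟩ := Function.ne_iff.1 hST
        have := hg _ (hε S T) (inl ⟨0, by omega⟩) (inl ⟨1, by omega⟩) (by simp) e (hε0 S T e he)
          (by simp [Ends])
        rw [← hs] at this
        have h0 : s S - s T ≠ 0 := fun h0 => this (by simp [h0])
        rw [sub_self, hα hi _ h0]
        simp only [if_true, if_neg hST]
        ring_nf
        simpa [α] using hη0.le
    · have hyy : y v - y w ≠ 0 := sub_ne_zero.2 fun h => hvw (hy h)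
      rw [hf hi _ _ hyy]
      by_cases hST : S = T
      · subst hST
        rw [sum_eq_zero fun e _ => by rw [if_neg (fl_ne e S), mul_zero]]
        simp only [sub_self, if_true, if_neg hvw, zero_mul]
        ring_nf
        simpa [β] using hη0.le
      by_cases hsp : ∃ e, Ends e v w ∧ T = fl e S
      · obtain ⟨e, he, hT⟩ := hsp
        rw [sum_eq_single e (fun e' _ hne => by rw [if_neg fun h => hne (h.unique he), zero_mul])
          (by simp), if_pos he, if_pos hT, h.zero]
        · simp only [if_neg hvw, if_neg hST]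
          ring_nf
          simpa using hη0.le
        · rw [hs, sum_eq_single e (fun e' _ hne => by
            simp [ε, hT, fl, Function.update_of_ne hne]) (by simp)]
          have hd : y (inl e.1) - y (inr e.2) ≠ 0 := sub_ne_zero.2 fun h => by simpa using hy h
          have h1 : (ε S T e : ℚ) = 1 ∨ (ε S T e : ℚ) = -1 := by
            simp only [ε, hT, fl, Function.update_self]
            cases S e <;> simp
          rcases he with ⟨rfl, rfl⟩ | ⟨rfl, rfl⟩
          · rw [div_mul_cancel₀ _ hd, mul_one]; exact h1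
          · rw [← neg_sub (y (inl e.1)), mul_neg, div_mul_cancel₀ _ hd, mul_one]
            rcases h1 with h1 | h1 <;> rw [h1] <;> simp
      · rw [sum_eq_zero fun e _ => by
          by_cases h1 : Ends e v w
          · rw [if_neg fun h2 => hsp ⟨e, h1, h2⟩, mul_zero]
          · rw [if_neg h1, zero_mul]]
        have : ∃ e, S e ≠ T e ∧ ¬ Ends e v w := by
          by_contra hh
          push Not at hh
          obtain ⟨e, he⟩ := Function.ne_iff.1 hST
          refine hsp ⟨e, hh e he, funext fun e' => ?_⟩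
          by_cases h1 : e' = e
          · subst h1
            simp only [fl, Function.update_self]
            revert he
            cases S e' <;> cases T e' <;> simp
          · rw [fl, Function.update_of_ne h1]
            by_contra h2
            exact h1 ((hh e' (Ne.symm h2)).unique (hh e he))
        obtain ⟨e, he, hE⟩ := this
        have := hg _ (hε S T) v w hvw e (hε0 S T e he) hE
        rw [← hs, mem_insert, not_or, Set.Finite.mem_toFinset, Set.mem_ofPred_eq, not_le] at this
        simp only [if_neg hvw, if_neg hST]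
        ring_nf
        ring_nf at this
        exact this.2.le
  have hpd := h.pd (V n × X n) (fun i => (s i.2, y i.1)) (fun i => σ i.1 * sg i.2)
  have hc : ∀ i : V n × X n, |σ i.1 * sg i.2| = 1 := fun i => by
    have h1 := σ_sq i.1
    have h2 := sg_sq i.2
    rw [← sq_eq_sq₀ (abs_nonneg _) zero_le_one, sq_abs]
    linear_combination (sg i.2 * sg i.2) * h1 + h2
  have e1 : ∑ i : V n × X n, ∑ j : V n × X n, (σ i.1 * sg i.2) * (σ j.1 * sg j.2) *
      F ((s i.2, y i.1) - (s j.2, y j.1)) ≤ ∑ i : V n × X n, ∑ j : V n × X n,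
      ((σ i.1 * sg i.2) * (σ j.1 * sg j.2) * G i j + η) :=
    sum_le_sum fun i _ => sum_le_sum fun j _ => by
      have h1 := le_abs_self ((σ i.1 * sg i.2) * (σ j.1 * sg j.2) *
        (F ((s i.2, y i.1) - (s j.2, y j.1)) - G i j))
      rw [abs_mul, abs_mul, hc, hc] at h1
      have := hG i j
      linarith
  have e0 : E n := (⟨0, by omega⟩, ⟨0, by omega⟩)
  have e2 : ∑ i : V n × X n, ∑ j : V n × X n, (σ i.1 * sg i.2) * (σ j.1 * sg j.2) * G i j =
      γ * (2 * n * m) - a * (n * n * (2 * m)) := by
    have f1 := fac (n := n) (fun _ _ => 1) (fun _ _ => 1)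
    have f2 := fac (n := n) (fun v w => if v = w then 1 else 0) (fun _ _ => 1)
    have f3 := fac (n := n) (fun _ _ => 1) (fun v w => if v = w then 1 else 0)
    have f4 := fac (n := n) (fun v w => if v = w then 1 else 0) (fun v w => if v = w then 1 else 0)
    have f5 : ∑ i : V n × X n, ∑ j : V n × X n, (σ i.1 * sg i.2) * (σ j.1 * sg j.2) *
        ∑ e, (if Ends e i.1 j.1 then 1 else 0) * (if j.2 = fl e i.2 then 1 else 0) =
        n * n * (2 * m) := by
      simp only [mul_sum]
      rw [sum_congr rfl fun i _ => sum_comm, sum_comm, sum_congr rfl fun e _ => fac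
        (fun v w => if Ends e v w then 1 else 0) (fun S T => if T = fl e S then 1 else 0)]
      simp only [Q1_ends, Q2_fl]
      simp [hm]
    rw [Q1_one, zero_mul] at f1 f3
    rw [Q2_one e0, mul_zero] at f2
    rw [Q1_eq, Q2_eq] at f4
    have : ∀ i j : V n × X n, (σ i.1 * sg i.2) * (σ j.1 * sg j.2) * G i j =
        a * ((σ i.1 * sg i.2) * (σ j.1 * sg j.2) * (1 * 1)) +
        (α - a) * ((σ i.1 * sg i.2) * (σ j.1 * sg j.2) * ((if i.1 = j.1 then 1 else 0) * 1)) +
        (β - a) * ((σ i.1 * sg i.2) * (σ j.1 * sg j.2) * (1 * if i.2 = j.2 then 1 else 0)) +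
        γ * ((σ i.1 * sg i.2) * (σ j.1 * sg j.2) *
          ((if i.1 = j.1 then 1 else 0) * if i.2 = j.2 then 1 else 0)) -
        a * ((σ i.1 * sg i.2) * (σ j.1 * sg j.2) *
          ∑ e, (if Ends e i.1 j.1 then 1 else 0) * (if j.2 = fl e i.2 then 1 else 0)) :=
      fun i j => by simp only [G]; ring
    simp only [this, sum_add_distrib, sum_sub_distrib, ← mul_sum]
    rw [f1, f2, f3, f4, f5]
    ring
  simp only [sum_add_distrib, e2, sum_const, card_univ, nsmul_eq_mul, Fintype.card_prod,
    Fintype.card_sum, Fintype.card_fin, Nat.cast_mul, Nat.cast_add, ← hm] at e1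
  have hp : 0 ≤ δ * (∑ i : V n × X n, σ i.1 * sg i.2) ^ 2 := by positivity
  have e3 := hp.trans (hpd.trans e1)
  have hγ : γ ≤ 2 := by
    have := (h.bd (0, 0)).2
    have := (h.bd (1, 0)).1
    have := (h.bd (0, 1)).1
    simp only [γ]; linarith
  have e4 : m * η = a / 8 := by rw [hη]; field_simp
  have hn0 : (0 : ℝ) < n := by exact_mod_cast (by omega : 0 < n)
  have e5 : (n + n) * m * ((n + n) * m * η) = n * m * (n * a / 2) := by
    linear_combination (4 * n * n * m) * e4
  have e6 : 0 < n * m := by positivity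
  have e7 := mul_le_mul_of_nonneg_left hγ e6.le
  have e8 := mul_lt_mul_of_pos_left hna e6
  nlinarith

end Pool.Agent.H20.Hyp
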