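import Pool.Agent.H20.HypD

set_option autoImplicit false

namespace Pool.Agent.H20.Hyp

open Finset Filter Topology

theorem corr {G : Type} [AddCommGroup G] [DecidableEq G] (A W : Finset G) {ι : Type} [Fintype ι]
    (τ : ι → G) (a : ι → ℝ) (hW : ∀ i, ∀ u ∈ A, u - τ i ∈ W) :
    0 ≤ ∑ i, ∑ j, a i * a j * (#(A.filter fun u => u + (τ i - τ j) ∈ A) : ℝ) ∧
    (∑ i, a i) ^ 2 * (#A : ℝ) ^ 2 ≤
      #W * ∑ i, ∑ j, a i * a j * (#(A.filter fun u => u + (τ i - τ j) ∈ A) : ℝ) := by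
  let I : G → ℝ := fun u => if u ∈ A then 1 else 0
  have h2 : ∀ i j, ∑ w ∈ W, I (w + τ i) * I (w + τ j) =
      (#(A.filter fun u => u + (τ i - τ j) ∈ A) : ℝ) := fun i j => by
    have : ∀ w, I (w + τ i) * I (w + τ j) = if w + τ i ∈ A ∧ w + τ j ∈ A then 1 else 0 :=
      fun w => by simp only [I]; split_ifs <;> simp_all
    simp only [this, sum_boole]
    congr 1
    refine card_bij' (fun w _ => w + τ j) (fun u _ => u - τ j) (fun w hw => ?_) (fun u hu => ?_)
      (fun _ _ => by simp) (fun _ _ => by simp)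
    · rw [mem_filter] at hw ⊢
      exact ⟨hw.2.2, by convert hw.2.1 using 1; abel⟩
    · rw [mem_filter] at hu ⊢
      exact ⟨hW j u hu.1, by convert hu.2 using 1; abel, by simpa using hu.1⟩
  have h1 : ∀ i, ∑ w ∈ W, I (w + τ i) = #A := fun i => by
    have := h2 i i
    rw [sub_self, filter_true_of_mem fun u hu => by simpa using hu] at this
    rw [← this]
    exact sum_congr rfl fun w _ => by simp only [I]; split_ifs <;> simp
  have h3 := sq_sum_le_card_mul_sum_sq (s := W) (f := fun w => ∑ i, a i * I (w + τ i))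
  have h4 : ∑ w ∈ W, (∑ i, a i * I (w + τ i)) ^ 2 =
      ∑ i, ∑ j, a i * a j * (#(A.filter fun u => u + (τ i - τ j) ∈ A) : ℝ) := by
    simp only [sq, sum_mul_sum]
    simp only [← h2, mul_sum]
    rw [sum_comm]
    refine sum_congr rfl fun i _ => ?_
    rw [sum_comm]
    exact sum_congr rfl fun j _ => sum_congr rfl fun w _ => by ring
  have h5 : ∑ w ∈ W, (∑ i, a i * I (w + τ i)) = (∑ i, a i) * #A := by
    rw [sum_comm]
    simp only [← mul_sum, h1, ← sum_mul]
  rw [← mul_pow, ← h4, ← h5]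
  exact ⟨sum_nonneg fun _ _ => sq_nonneg _, h3⟩

theorem ev_int (x : ℚ) : ∀ᶠ k : ℕ in hyperfilter ℕ, ∃ X : ℤ,
    ((k.factorial : ℕ) : ℚ) * x = X ∧ |X| ≤ k * k.factorial := by
  refine Eventually.filter_mono Nat.hyperfilter_le_atTop ?_
  filter_upwards [eventually_ge_atTop x.den, eventually_ge_atTop x.num.natAbs] with k h1 h2
  obtain ⟨c, hc⟩ := Nat.dvd_factorial x.den_pos h1
  refine ⟨c * x.num, ?_, ?_⟩
  · rw [hc]; push_cast
    rw [mul_comm (x.den : ℚ), mul_assoc, Rat.den_mul_eq_num]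
  · have : c ≤ k.factorial := Nat.le_of_dvd k.factorial_pos ⟨x.den, by rw [hc, mul_comm]⟩
    rw [abs_mul, mul_comm, Int.abs_natCast, Int.abs_eq_natAbs]
    exact_mod_cast Nat.mul_le_mul h2 this

theorem exists_good (A : Set (ℕ × ℕ)) (ε : ℝ) (hε : 0 < ε)
    (hA : ∀ N : ℕ, ∃ a b m n : ℕ, N ≤ m ∧ N ≤ n ∧ ε * ((m : ℝ) * (n : ℝ)) ≤
      (({p : ℕ × ℕ | p ∈ A ∧ a ≤ p.1 ∧ p.1 < a + m ∧ b ≤ p.2 ∧ p.2 < b + n}.ncard : ℕ) : ℝ))
    (z : ℕ → ℤ) (hz : ∀ k : ℕ, ∀ p ∈ A, ∀ q ∈ A,
      ((p.1 : ℤ) - q.1) * ((p.2 : ℤ) - q.2) ≠ z k * (k.factorial * k.factorial)) :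
    ∃ F, Good (ε ^ 4 / 16) F := by
  classical
  let R : ℕ → ℕ := fun k => ((z k).natAbs + 1) * (k * k.factorial)
  choose a b m n hm hn hc using fun k => hA (2 * R k + 1)
  let B : ℕ → Finset (ℕ × ℕ) := fun k =>
    (Ico (a k) (a k + m k) ×ˢ Ico (b k) (b k + n k)).filter (· ∈ A)
  let E0 : ℕ → Finset (ℤ × ℤ) := fun k => (B k).image fun p => ((p.1 : ℤ), (p.2 : ℤ))
  have hE0 : ∀ k, #(E0 k) = #(B k) := fun k => card_image_of_injective _ fun p q h => by
    simp only [Prod.mk.injEq, Nat.cast_inj] at h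
    exact Prod.ext h.1 h.2
  have hlo : ∀ k, ε * (m k * n k) ≤ #(E0 k) := fun k => by
    rw [hE0, ← Set.ncard_coe_finset]
    convert hc k using 3
    ext p
    simp only [B, coe_filter, mem_product, mem_Ico, Set.mem_ofPred_eq]
    tauto
  have hup : ∀ k, (#(E0 k) : ℝ) ≤ m k * n k := fun k => by
    rw [hE0]
    have := card_filter_le (Ico (a k) (a k + m k) ×ˢ Ico (b k) (b k + n k)) (· ∈ A)
    simp only [card_product, Nat.card_Ico, add_tsub_cancel_left] at this
    exact_mod_cast this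
  have hpos : ∀ k, (0 : ℝ) < m k * n k := fun k => by
    have h1 : 0 < m k := by have := hm k; omega
    have h2 : 0 < n k := by have := hn k; omega
    positivity
  let τ : ℕ → ℚ × ℚ → (ℤ × ℤ) × (ℤ × ℤ) := fun k p =>
    ((⌊(k.factorial : ℚ) * p.1⌋, z k * ⌊(k.factorial : ℚ) * p.2⌋),
      (⌊(k.factorial : ℚ) * p.1⌋, -(z k * ⌊(k.factorial : ℚ) * p.2⌋)))
  let c : ℕ → ℚ × ℚ → ℝ := fun k p =>
    (#((E0 k ×ˢ E0 k).filter fun u => u + τ k p ∈ E0 k ×ˢ E0 k) : ℝ) / (m k * n k) ^ 2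
  have hb : ∀ k p, c k p ∈ Set.Icc (0 : ℝ) 1 := fun k p => by
    refine ⟨by positivity, (div_le_one (pow_pos (hpos k) 2)).2 ?_⟩
    have h1 : (#((E0 k ×ˢ E0 k).filter fun u => u + τ k p ∈ E0 k ×ˢ E0 k) : ℝ) ≤
        #(E0 k) * #(E0 k) := by
      exact_mod_cast (card_filter_le _ _).trans (card_product _ _).le
    exact h1.trans (by rw [sq]; exact mul_self_le_mul_self (by positivity) (hup k))
  obtain ⟨F, hF⟩ := exists_lim (hyperfilter ℕ) c hb
  refine ⟨F, good_of_lim _ _ c F hF hb (fun ι _ p α => ?_) (fun x y hxy => ?_)⟩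
  · filter_upwards [eventually_all.2 fun i => ev_int (p i).1,
      eventually_all.2 fun i => ev_int (p i).2] with k h1 h2
    choose X hX hX' using h1
    choose Y hY hY' using h2
    have hτ : ∀ i j, τ k (p i - p j) = τ k (p i) - τ k (p j) := fun i j => by
      simp only [τ, Prod.fst_sub, Prod.snd_sub, mul_sub, hX, hY, ← Int.cast_sub, Int.floor_intCast,
        Prod.mk_sub_mk]
      congr 2
      ring
    let W0 : Finset (ℤ × ℤ) := Ico ((a k : ℤ) - R k) (a k + m k + R k) ×ˢ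
      Ico ((b k : ℤ) - R k) (b k + n k + R k)
    have hW0 : (#W0 : ℝ) ≤ 4 * (m k * n k) := by
      have e1 : ((a k : ℤ) + m k + R k - (a k - R k)).toNat ≤ 2 * m k := by have := hm k; omega
      have e2 : ((b k : ℤ) + n k + R k - (b k - R k)).toNat ≤ 2 * n k := by have := hn k; omega
      have : #W0 ≤ 4 * (m k * n k) := by
        simp only [W0, card_product, Int.card_Ico]
        exact (Nat.mul_le_mul e1 e2).trans (le_of_eq (by ring))
      exact_mod_cast this
    have hin : ∀ u ∈ E0 k, ∀ s t : ℤ, |s| ≤ R k → |t| ≤ R k → u - (s, t) ∈ W0 := by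
      intro u hu s t hs ht
      obtain ⟨q, hq, rfl⟩ := mem_image.1 hu
      simp only [B, mem_filter, mem_product, mem_Ico] at hq
      simp only [W0, mem_product, mem_Ico, Prod.mk_sub_mk]
      rw [abs_le] at hs ht
      omega
    have hR : (R k : ℤ) = (|z k| + 1) * (k * k.factorial) := by simp [R]
    have hk0 : (0 : ℤ) ≤ k * k.factorial := by positivity
    have b1 : ∀ i, |X i| ≤ R k := fun i => by
      have := hX' i
      have := mul_nonneg (abs_nonneg (z k)) hk0
      rw [hR]; linarith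
    have b2 : ∀ i, |z k * Y i| ≤ R k := fun i => by
      have := mul_le_mul_of_nonneg_left (hY' i) (abs_nonneg (z k))
      rw [hR, abs_mul]; linarith
    have key := corr (E0 k ×ˢ E0 k) (W0 ×ˢ W0) (fun i => τ k (p i)) α fun i u hu => by
      rw [mem_product] at hu ⊢
      simp only [τ, hX, hY, Int.floor_intCast]
      exact ⟨hin _ hu.1 _ _ (b1 i) (b2 i), hin _ hu.2 _ _ (b1 i) (by rw [abs_neg]; exact b2 i)⟩
    have e : ∑ i, ∑ j, α i * α j * c k (p i - p j) = (∑ i, ∑ j, α i * α j *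
        (#((E0 k ×ˢ E0 k).filter fun u => u + (τ k (p i) - τ k (p j)) ∈ E0 k ×ˢ E0 k) : ℝ)) /
        (m k * n k) ^ 2 := by
      simp only [c, hτ, sum_div, mul_div_assoc]
    rw [e, le_div_iff₀ (pow_pos (hpos k) 2)]
    rw [card_product, card_product] at key
    push_cast at key
    generalize (∑ i, ∑ j, α i * α j *
        (#((E0 k ×ˢ E0 k).filter fun u => u + (τ k (p i) - τ k (p j)) ∈ E0 k ×ˢ E0 k) : ℝ)) = S
        at key ⊢
    obtain ⟨hS, key⟩ := key
    have hp := hpos k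
    have hl := hlo k
    generalize (m k * n k : ℝ) = M at *
    generalize (#(E0 k) : ℝ) = e at *
    have w0 : (0 : ℝ) ≤ #W0 := by positivity
    generalize (#W0 : ℝ) = w at *
    have s0 : 0 ≤ (∑ i, α i) ^ 2 := by positivity
    generalize (∑ i, α i) ^ 2 = s at *
    have a1 : (ε * M) ^ 4 ≤ e ^ 4 := pow_le_pow_left₀ (by positivity) hl 4
    have a2 : s * (ε * M) ^ 4 ≤ w * w * S := by nlinarith [mul_le_mul_of_nonneg_left a1 s0]
    have a3 : w * w ≤ (4 * M) * (4 * M) := mul_self_le_mul_self w0 hW0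
    have a4 : 0 ≤ s * (ε * M) ^ 4 := by positivity
    have a5 := mul_le_mul_of_nonneg_right a3 hS
    refine le_of_mul_le_mul_left (a := 16 * M ^ 2) ?_ (by positivity)
    nlinarith
  · filter_upwards [ev_int x, ev_int y] with k ⟨X, hX, _⟩ ⟨Y, hY, _⟩
    have hXY : X * Y = k.factorial * k.factorial ∨ X * Y = -(k.factorial * k.factorial) := by
      have : ((X * Y : ℤ) : ℚ) = k.factorial * k.factorial * (x * y) := by
        push_cast; rw [← hX, ← hY]; ring
      rcases hxy with h | h <;> rw [h] at this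
      · left; exact_mod_cast (by rw [this, mul_one] : ((X * Y : ℤ) : ℚ) = k.factorial * k.factorial)
      · right
        exact_mod_cast (by rw [this]; ring : ((X * Y : ℤ) : ℚ) = -(k.factorial * k.factorial))
    simp only [c]
    rw [filter_false_of_mem, card_empty, Nat.cast_zero, zero_div]
    intro u hu hu'
    simp only [mem_product, τ, hX, hY, Int.floor_intCast] at hu hu'
    have key : ∀ u ∈ E0 k, ∀ s t : ℤ, u + (s, t) ∈ E0 k →
        s * t ≠ z k * (k.factorial * k.factorial) := by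
      intro u hu s t hu'
      obtain ⟨q, hq, rfl⟩ := mem_image.1 hu
      obtain ⟨p, hp, h⟩ := mem_image.1 hu'
      simp only [Prod.mk_add_mk, Prod.mk.injEq] at h
      have := hz k p (mem_filter.1 hp).2 q (mem_filter.1 hq).2
      rwa [h.1, h.2, add_sub_cancel_left, add_sub_cancel_left] at this
    rcases hXY with h | h
    · exact key _ hu.1 _ _ hu'.1 (by rw [← h]; ring)
    · exact key _ hu.2 _ _ hu'.2 (by linear_combination (-z k) * h)

end Pool.Agent.H20.Hyp
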