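import Mathlib

set_option autoImplicit false

open Set MeasureTheory Metric Real
open scoped Pointwise

namespace Pool.Agent.H20.Iso

/-- Euclidean space of dimension `d`. -/
abbrev V (d : ℕ) := EuclideanSpace ℝ (Fin d)

/-- A polytope with at most `N` facets: a compact set with nonempty interior that is an
intersection of at most `N` closed half-spaces. -/
def IsPolytope {d : ℕ} (N : ℕ) (K : Set (V d)) : Prop :=
  IsCompact K ∧ (interior K).Nonempty ∧
    ∃ S : Finset (V d × ℝ), S.card ≤ N ∧ K = {x | ∀ p ∈ S, inner ℝ p.1 x ≤ p.2}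

/-- The uniform distribution on `K` has mean zero and identity covariance. -/
def Isotropic {d : ℕ} (K : Set (V d)) : Prop :=
  (volume.real K)⁻¹ • (∫ x in K, x) = 0 ∧
    ∀ i j : Fin d, (volume.real K)⁻¹ * ∫ x in K, x i * x j = if i = j then 1 else 0

/-- The `(d-1)`-dimensional volume of the section of `K` by the hyperplane orthogonal to `θ`. -/
noncomputable def sec {d : ℕ} (K : Set (V d)) (θ : V d) : ℝ :=
  (volume : Measure (ℝ ∙ θ)ᗮ).real {y | (y : V d) ∈ K}

/-- The relative central sectional area: the `(d-1)`-dimensional volume (Hausdorff measure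
normalised to agree with Lebesgue measure on hyperplanes) of the central section orthogonal
to `θ`, divided by the volume. -/
noncomputable def relSec {d : ℕ} (K : Set (V d)) (θ : V d) : ℝ :=
  (μHE[d - 1] : Measure (V d)).real (K ∩ {x | inner ℝ θ x = 0}) / volume.real K

lemma ball_le {E : Type*} [NormedAddCommGroup E] [InnerProductSpace ℝ E] [FiniteDimensional ℝ E]
    [MeasurableSpace E] [BorelSpace E] (x : E) (r l : ℝ) (hl : 0 < l) :
    (volume : Measure E).real (closedBall x r) ≤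
      exp (π * r ^ 2 / l ^ 2) * l ^ Module.finrank ℝ E := by
  have hb : 0 < π / l ^ 2 := by positivity
  have hI := GaussianFourier.integral_rexp_neg_mul_sq_norm (V := E) hb
  have hv : (π / (π / l ^ 2)) ^ (Module.finrank ℝ E / 2 : ℝ) = l ^ Module.finrank ℝ E := by
    have : π / (π / l ^ 2) = l ^ (2 : ℝ) := by
      rw [Real.rpow_two]; field_simp
    rw [this, ← Real.rpow_mul hl.le, ← Real.rpow_natCast]
    congr 1; ring
  rw [hv] at hI
  have hi : Integrable (fun v : E => exp (-(π / l ^ 2) * ‖v‖ ^ 2)) :=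
    .of_integral_ne_zero (by rw [hI]; positivity)
  have h1 : exp (-(π / l ^ 2) * r ^ 2) * (volume : Measure E).real (closedBall 0 r) ≤
      ∫ v in closedBall (0 : E) r, exp (-(π / l ^ 2) * ‖v‖ ^ 2) := by
    have := setIntegral_ge_of_const_le (μ := (volume : Measure E)) (s := closedBall (0 : E) r)
      (c := exp (-(π / l ^ 2) * r ^ 2)) (f := fun v : E => exp (-(π / l ^ 2) * ‖v‖ ^ 2))
      measurableSet_closedBall measure_closedBall_lt_top.ne (fun v hv => by
        rw [mem_closedBall_zero_iff] at hv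
        have : ‖v‖ ^ 2 ≤ r ^ 2 := by gcongr
        exact exp_le_exp.2 (by nlinarith)) hi.integrableOn
    simpa [mul_comm] using this
  have h2 : ∫ v in closedBall (0 : E) r, exp (-(π / l ^ 2) * ‖v‖ ^ 2) ≤ l ^ Module.finrank ℝ E :=
    hI ▸ setIntegral_le_integral hi (Filter.Eventually.of_forall fun v => (exp_pos _).le)
  have h3 : (volume : Measure E).real (closedBall x r) = volume.real (closedBall (0 : E) r) := by
    simp only [Measure.real, Measure.addHaar_closedBall_center]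
  have h4 : exp (π * r ^ 2 / l ^ 2) * exp (-(π / l ^ 2) * r ^ 2) = 1 := by
    rw [← exp_add, exp_eq_one_iff]; ring
  rw [h3]
  calc _ = exp (π * r ^ 2 / l ^ 2) * (exp (-(π / l ^ 2) * r ^ 2) *
        (volume : Measure E).real (closedBall 0 r)) := by rw [← mul_assoc, h4, one_mul]
    _ ≤ _ := by gcongr; exact h1.trans h2

lemma fr {d : ℕ} {θ : V d} (h : ‖θ‖ = 1) : Module.finrank ℝ (ℝ ∙ θ)ᗮ + 1 = d := by
  have h0 : θ ≠ 0 := fun e => by simp [e] at h
  have := (ℝ ∙ θ).finrank_add_finrank_orthogonal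
  rw [finrank_span_singleton h0, finrank_euclideanSpace_fin] at this
  omega

lemma relSec_eq {d : ℕ} (K : Set (V d)) {θ : V d} (h : ‖θ‖ = 1) :
    relSec K θ = sec K θ / volume.real K := by
  have e : d - 1 = Module.finrank ℝ (ℝ ∙ θ)ᗮ := by have := fr h; omega
  have e2 : {x : V d | inner ℝ θ x = 0} = range (Subtype.val : (ℝ ∙ θ)ᗮ → V d) := by
    ext x; simp [Submodule.mem_orthogonal_singleton_iff_inner_right]
  rw [relSec, sec, ← InnerProductSpace.euclideanHausdorffMeasure_eq_volume (V := (ℝ ∙ θ)ᗮ), e, e2,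
    Measure.real, ← isometry_subtype_coe.euclideanHausdorffMeasure_preimage]
  rfl

lemma pre_ball {d : ℕ} (θ v : V d) (r : ℝ) :
    {y : (ℝ ∙ θ)ᗮ | (y : V d) ∈ closedBall v r} ⊆
      closedBall ((ℝ ∙ θ)ᗮ.orthogonalProjectionOnto v) r := fun y hy => by
  simp only [mem_ofPred_eq, mem_closedBall, dist_eq_norm] at hy ⊢
  have := (ℝ ∙ θ)ᗮ.norm_orthogonalProjectionOnto_apply_le ((y : V d) - v)
  rw [map_sub, Submodule.orthogonalProjectionOnto_mem_subspace_eq_self] at this
  exact this.trans hy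

lemma sec_ball {d : ℕ} {θ : V d} (h : ‖θ‖ = 1) (v : V d) (r l : ℝ) (hl : 0 < l) :
    (volume : Measure (ℝ ∙ θ)ᗮ) {y | (y : V d) ∈ closedBall v r} ≠ ⊤ ∧
    l * sec (closedBall v r) θ ≤ exp (π * r ^ 2 / l ^ 2) * l ^ d := by
  refine ⟨measure_ne_top_of_subset (pre_ball θ v r) measure_closedBall_lt_top.ne, ?_⟩
  have h1 : sec (closedBall v r) θ ≤ _ :=
    (measureReal_mono (pre_ball θ v r) measure_closedBall_lt_top.ne).trans (ball_le _ r l hl)
  calc _ ≤ l * (exp (π * r ^ 2 / l ^ 2) * l ^ Module.finrank ℝ (ℝ ∙ θ)ᗮ) := by gcongr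
    _ = exp (π * r ^ 2 / l ^ 2) * l ^ (Module.finrank ℝ (ℝ ∙ θ)ᗮ + 1) := by ring
    _ = _ := by rw [fr h]

lemma cover_le {X ι : Type*} [MeasurableSpace X] [Fintype ι] (μ : Measure X) {K C : Set X}
    (B : ι → Set X) (w : ℝ) (hK : μ K ≠ ⊤) (hB : ∀ a, μ (B a) ≠ ⊤) (hw : ∀ a, μ.real (B a) ≤ w)
    (h : C ⊆ K ∪ ⋃ a, B a) : μ.real C ≤ μ.real K + Fintype.card ι * w := by
  have h1 : μ (⋃ a, B a) ≠ ⊤ := by
    refine ((measure_iUnion_fintype_le μ B).trans_lt ?_).ne
    exact ENNReal.sum_lt_top.2 fun a _ => (hB a).lt_top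
  calc μ.real C ≤ μ.real (K ∪ ⋃ a, B a) :=
        measureReal_mono h (measure_union_ne_top hK h1)
    _ ≤ μ.real K + μ.real (⋃ a, B a) := measureReal_union_le _ _
    _ ≤ μ.real K + ∑ a, μ.real (B a) := by gcongr; exact measureReal_iUnion_fintype_le B
    _ ≤ μ.real K + ∑ _a : ι, w := by gcongr with a; exact hw a
    _ = _ := by simp

lemma vol_smul {d : ℕ} (K : Set (V d)) {s : ℝ} (hs : 0 < s) :
    volume.real (s • K) = s ^ d * volume.real K := by
  simp only [Measure.real, Measure.addHaar_smul, finrank_euclideanSpace_fin, ENNReal.toReal_mul]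
  rw [ENNReal.toReal_ofReal (abs_nonneg _), abs_of_pos (pow_pos hs _)]

lemma relSec_smul {d : ℕ} (K : Set (V d)) {s : ℝ} (hs : 0 < s) {θ : V d} (h : ‖θ‖ = 1) :
    relSec (s • K) θ = sec K θ / (volume.real K * s) := by
  have e : {y : (ℝ ∙ θ)ᗮ | (y : V d) ∈ s • K} = s • {y : (ℝ ∙ θ)ᗮ | (y : V d) ∈ K} := by
    ext y
    simp only [mem_ofPred_eq, mem_smul_set_iff_inv_smul_mem₀ hs.ne', Submodule.coe_smul]
  have e2 : sec (s • K) θ = s ^ Module.finrank ℝ (ℝ ∙ θ)ᗮ * sec K θ := by
    simp only [sec, e, Measure.real, Measure.addHaar_smul, ENNReal.toReal_mul]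
    rw [ENNReal.toReal_ofReal (abs_nonneg _), abs_of_pos (pow_pos hs _)]
  have e3 : s ^ d = s ^ Module.finrank ℝ (ℝ ∙ θ)ᗮ * s := by rw [← pow_succ, fr h]
  rw [relSec_eq _ h, e2, vol_smul K hs, e3, mul_assoc, mul_div_mul_left _ _ (pow_pos hs _).ne',
    mul_comm s]

lemma int_inv {d : ℕ} {F : Type*} [NormedAddCommGroup F] [NormedSpace ℝ F] {K : Set (V d)}
    (g : V d ≃ₗᵢ[ℝ] V d) (hg : ∀ x, g x ∈ K ↔ x ∈ K) (f : V d → F) :
    ∫ x in K, f (g x) = ∫ x in K, f x := by
  have e : g ⁻¹' K = K := by ext x; exact hg x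
  have := g.measurePreserving.setIntegral_preimage_emb g.toHomeomorph.measurableEmbedding f K
  rwa [e] at this

/-- Sign change. -/
noncomputable def sg {d : ℕ} (ε : Fin d → ℝ) (h : ∀ i, ε i ^ 2 = 1) : V d ≃ₗᵢ[ℝ] V d :=
  LinearIsometry.toLinearIsometryEquiv
    { toFun := fun x => WithLp.toLp 2 fun i => ε i * x i
      map_add' := fun x y => by ext i; simp [mul_add]
      map_smul' := fun c x => by ext i; simp; ring
      norm_map' := fun x => by
        simp [EuclideanSpace.norm_eq, mul_pow, sq_abs, h] } rfl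

lemma sg_apply {d : ℕ} (ε : Fin d → ℝ) (h : ∀ i, ε i ^ 2 = 1) (x : V d) (i : Fin d) :
    sg ε h x i = ε i * x i := rfl

/-- Permutation of coordinates. -/
noncomputable def pm {d : ℕ} (σ : Equiv.Perm (Fin d)) : V d ≃ₗᵢ[ℝ] V d :=
  LinearIsometryEquiv.piLpCongrLeft 2 ℝ ℝ σ.symm

lemma pm_apply {d : ℕ} (σ : Equiv.Perm (Fin d)) (x : V d) (i : Fin d) :
    pm σ x i = x (σ i) := by simp [pm]

lemma iso_of_sym {d : ℕ} {K : Set (V d)} (z : Fin d) (hv : 0 < volume.real K)
    (hM : 0 < ∫ x in K, x z * x z) (hneg : ∀ x, -x ∈ K ↔ x ∈ K)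
    (hs : ∀ i j, i ≠ j → ∃ ε h, ε i * ε j = -1 ∧ ∀ x, sg ε h x ∈ K ↔ x ∈ K)
    (hp : ∀ i, ∃ σ : Equiv.Perm (Fin d), σ z = i ∧ ∀ x, pm σ x ∈ K ↔ x ∈ K) :
    Isotropic (√(volume.real K / ∫ x in K, x z * x z) • K) := by
  set s := √(volume.real K / ∫ x in K, x z * x z) with hs'
  have s0 : 0 < s := sqrt_pos.2 (by positivity)
  have s2 : s ^ 2 = volume.real K / ∫ x in K, x z * x z := sq_sqrt (by positivity)
  have sc : ∀ {F : Type} [NormedAddCommGroup F] [NormedSpace ℝ F] (f : V d → F),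
      ∫ x in s • K, f x = s ^ d • ∫ x in K, f (s • x) := fun f => by
    rw [Measure.setIntegral_comp_smul_of_pos _ f K s0, finrank_euclideanSpace_fin, smul_smul,
      mul_inv_cancel₀ (pow_pos s0 _).ne', one_smul]
  constructor
  · have h1 := int_inv (LinearIsometryEquiv.neg ℝ) (K := K) hneg (fun x => x)
    replace h1 : ∫ x in K, -x = ∫ x in K, x := h1
    rw [integral_neg] at h1
    have h2 : ∫ x in K, x = (0 : V d) := by
      have : (2 : ℝ) • ∫ x in K, x = (0 : V d) := by rw [two_smul]; nth_rw 1 [← h1]; simp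
      simpa using this
    rw [sc, integral_smul, h2]; simp
  · intro i j
    rw [sc, vol_smul K s0]
    have e : ∫ x in K, (s • x) i * (s • x) j = s ^ 2 * ∫ x in K, x i * x j := by
      rw [← integral_const_mul]; congr 1; ext x; simp; ring
    rw [e]
    split_ifs with hij
    · subst hij
      obtain ⟨σ, h1, h2⟩ := hp i
      have := int_inv (pm σ) h2 (fun x => x z * x z)
      simp only [pm_apply, h1] at this
      rw [this, s2, smul_eq_mul, div_mul_cancel₀ _ hM.ne']; field_simp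
    · obtain ⟨ε, h, h1, h2⟩ := hs i j hij
      have := int_inv (sg ε h) h2 (fun x => x i * x j)
      simp only [sg_apply] at this
      have e2 : ∫ x in K, ε i * x i * (ε j * x j) = -∫ x in K, x i * x j := by
        rw [← integral_neg]; congr 1; ext x; linear_combination (x i * x j) * h1
      have : ∫ x in K, x i * x j = 0 := by linarith
      simp [this]

end Pool.Agent.H20.Iso
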