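import Pool.Agent.H20.Iso1

set_option autoImplicit false

open Set MeasureTheory Metric Real
open scoped Pointwise

namespace Pool.Agent.H20.Iso

lemma num1 {u p q η : ℝ} (h0 : 0 ≤ η) (h1 : η ≤ 1 / 32) (hu : 1 - η ≤ u) (hu1 : u ≤ 1)
    (hp : 1 / 16 ≤ p) (hp1 : p ≤ 1) (hq : p - η ≤ q) (hqp : q ≤ p) (hqu : q ≤ u) :
    1 ≤ √(1 / p) ∧ 1 ≤ √(u / q) ∧ |√(1 / p) - √(u / q)| ≤ 256 * η := by
  have p0 : 0 < p := by linarith
  have q0 : 1 / 32 ≤ q := by linarith
  have q1 : 0 < q := by linarith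
  have a1 : 1 ≤ √(1 / p) := one_le_sqrt.2 ((one_le_div p0).2 hp1)
  have a2 : 1 ≤ √(u / q) := one_le_sqrt.2 ((one_le_div q1).2 hqu)
  refine ⟨a1, a2, ?_⟩
  have e1 : √(1 / p) ^ 2 = 1 / p := sq_sqrt (by positivity)
  have e2 : √(u / q) ^ 2 = u / q := sq_sqrt (div_nonneg (by linarith) q1.le)
  have e3 : |1 / p - u / q| ≤ 512 * η := by
    have : 1 / p - u / q = (q - u * p) / (p * q) := by field_simp
    rw [this, abs_div, abs_of_pos (mul_pos p0 q1), div_le_iff₀ (mul_pos p0 q1)]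
    have b1 : |q - u * p| ≤ η := abs_le.2 ⟨by nlinarith, by nlinarith⟩
    have b2 : 1 / 512 ≤ p * q := by nlinarith
    nlinarith
  have e4 : |√(1 / p) - √(u / q)| * (√(1 / p) + √(u / q)) ≤ 512 * η := by
    rw [← abs_of_pos (show 0 < √(1 / p) + √(u / q) by linarith), ← abs_mul]
    have : (√(1 / p) - √(u / q)) * (√(1 / p) + √(u / q)) = 1 / p - u / q := by
      linear_combination e1 - e2
    rwa [this]
  nlinarith [abs_nonneg (√(1 / p) - √(u / q))]

lemma num2 {u s t η a b B : ℝ} (h0 : 0 ≤ η) (h1 : η ≤ 1 / 32) (hu : 1 - η ≤ u) (hu1 : u ≤ 1)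
    (hs : 1 ≤ s) (ht : 1 ≤ t) (hst : |s - t| ≤ 256 * η) (hb : 0 ≤ b) (hba : b ≤ a)
    (hab : a ≤ b + 2 * η) (hB : a ≤ B) (hB1 : 1 ≤ B) : |a / s - b / (u * t)| ≤ 518 * B * η := by
  have u0 : 1 / 2 ≤ u := by linarith
  have u1 : 0 < u := by linarith
  have s0 : 0 < s := by linarith
  have t0 : 0 < t := by linarith
  have e : a / s - b / (u * t) = a * ((u * t - s) / (s * (u * t))) + (a - b) / (u * t) := by
    field_simp; ring
  have ut : 1 / 2 ≤ u * t := by nlinarith
  have c1 : |(a - b) / (u * t)| ≤ 4 * η := by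
    rw [abs_of_nonneg (div_nonneg (by linarith) (by positivity)), div_le_iff₀ (by positivity)]
    nlinarith
  have c2 : |(u * t - s) / (s * (u * t))| ≤ 514 * η := by
    rw [abs_div, abs_of_pos (show 0 < s * (u * t) by positivity), div_le_iff₀ (by positivity)]
    rw [abs_le] at hst
    have d1 : |u * t - s| ≤ 257 * η * t := abs_le.2 ⟨by nlinarith, by nlinarith⟩
    have d2 : t / 2 ≤ s * (u * t) := by nlinarith [mul_nonneg (sub_nonneg.2 hs) (mul_pos u1 t0).le]
    nlinarith
  rw [e]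
  refine (abs_add_le _ _).trans ?_
  rw [abs_mul, abs_of_nonneg (hb.trans hba)]
  have : a * |(u * t - s) / (s * (u * t))| ≤ B * (514 * η) := by gcongr
  nlinarith

/-- The cube. -/
def cube (d : ℕ) : Set (V d) := {x | ∀ i, |x i| ≤ 1}

/-- The cube with some corners cut off. -/
def cut {d : ℕ} {ι : Type} (v : ι → Fin d → ℝ) (r : ℝ) : Set (V d) :=
  {x | x ∈ cube d ∧ ∀ a, ∑ i, v a i * x i ≤ d - r}

lemma cube_sub (d : ℕ) : cube d ⊆ closedBall 0 √d := fun x hx => by
  rw [mem_closedBall_zero_iff, EuclideanSpace.norm_eq]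
  refine sqrt_le_sqrt ?_
  calc ∑ i, ‖x i‖ ^ 2 ≤ ∑ _i : Fin d, (1 : ℝ) :=
        Finset.sum_le_sum fun i _ => by
          have := hx i
          rw [Real.norm_eq_abs]; nlinarith [abs_nonneg (x i)]
    _ = d := by simp

lemma cube_cpt (d : ℕ) : IsCompact (cube d) := by
  refine (isCompact_closedBall 0 √d).of_isClosed_subset ?_ (cube_sub d)
  simp only [cube, ofPred_forall]
  exact isClosed_iInter fun i => isClosed_le (by fun_prop) continuous_const

lemma cut_cpt {d : ℕ} {ι : Type} (v : ι → Fin d → ℝ) (r : ℝ) : IsCompact (cut v r) := by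
  refine (cube_cpt d).inter_right (t := {x : V d | ∀ a, ∑ i, v a i * x i ≤ d - r}) ?_
  simp only [ofPred_forall]
  exact isClosed_iInter fun i => isClosed_le (by fun_prop) continuous_const

lemma vol_box {d : ℕ} (a b : Fin d → ℝ) (h : a ≤ b) :
    volume.real ((WithLp.ofLp : V d → Fin d → ℝ) ⁻¹' Icc a b) = ∏ i, (b i - a i) := by
  rw [Measure.real, (PiLp.volume_preserving_ofLp (Fin d)).measure_preimage
    measurableSet_Icc.nullMeasurableSet, Real.volume_Icc_pi_toReal h]

lemma vol_cube (d : ℕ) : volume.real (cube d) = 2 ^ d := by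
  have : cube d = (WithLp.ofLp : V d → Fin d → ℝ) ⁻¹' Icc (fun _ => -1) (fun _ => 1) := by
    ext x; simp [cube, abs_le, Pi.le_def, forall_and]
  rw [this, vol_box _ _ (fun i => by norm_num)]
  norm_num

lemma mom_cube {d : ℕ} (z : Fin d) : 2 ^ d / 16 ≤ ∫ x in cube d, x z * x z := by
  set a : Fin d → ℝ := Function.update (fun _ => -1) z (1 / 2) with ha
  set B := (WithLp.ofLp : V d → Fin d → ℝ) ⁻¹' Icc a (fun _ => 1) with hB
  have a1 : ∀ i, -1 ≤ a i ∧ a i ≤ 1 := fun i => by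
    by_cases h : i = z
    · subst h; simp [ha]; norm_num
    · simp [ha, h]
  have hsub : B ⊆ cube d := fun x hx i => abs_le.2 ⟨(a1 i).1.trans (hx.1 i), hx.2 i⟩
  have hv : volume.real B = 2 ^ d / 4 := by
    rw [hB, vol_box _ _ (fun i => (a1 i).2), ← Finset.mul_prod_erase _ _ (Finset.mem_univ z),
      Finset.prod_congr rfl (g := fun _ => (2 : ℝ)) fun i hi => by
        simp [ha, Finset.ne_of_mem_erase hi]; norm_num]
    obtain ⟨n, rfl⟩ : ∃ n, d = n + 1 := ⟨d - 1, by have := z.pos; omega⟩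
    simp [ha]; ring
  have ci : IntegrableOn (fun x : V d => x z * x z) (cube d) :=
    (by fun_prop : Continuous fun x : V d => x z * x z).continuousOn.integrableOn_compact
      (cube_cpt d)
  have mB : MeasurableSet B := measurableSet_Icc.preimage (by fun_prop)
  have h1 := setIntegral_ge_of_const_le (μ := volume) (c := (1 / 4 : ℝ))
    (f := fun x : V d => x z * x z) mB
    (measure_ne_top_of_subset hsub (cube_cpt d).measure_lt_top.ne) (fun x hx => by
      have : a z ≤ x z := hx.1 z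
      simp only [ha, Function.update_self] at this
      nlinarith) (ci.mono_set hsub)
  have h2 := setIntegral_mono_set ci (Filter.Eventually.of_forall fun x => mul_self_nonneg _)
    hsub.eventuallyLE
  rw [hv, smul_eq_mul] at h1
  linarith

lemma mom_cmp {d : ℕ} (z : Fin d) {K : Set (V d)} (hK : IsCompact K) (h : K ⊆ cube d) :
    (∫ x in K, x z * x z) ≤ ∫ x in cube d, x z * x z ∧
    (∫ x in K, x z * x z) ≤ volume.real K ∧
    (∫ x in cube d, x z * x z) - (2 ^ d - volume.real K) ≤ ∫ x in K, x z * x z := by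
  have c : Continuous fun x : V d => x z * x z := by fun_prop
  have ci := c.continuousOn.integrableOn_compact (μ := volume) (cube_cpt d)
  have c1 : IntegrableOn (fun _ : V d => (1 : ℝ)) (cube d) :=
    continuous_const.continuousOn.integrableOn_compact (cube_cpt d)
  have pos : ∀ x ∈ cube d, 0 ≤ 1 - x z * x z := fun x hx => by
    have := abs_le.1 (hx z); nlinarith
  have e1 := integral_sub c1 ci
  have e2 := integral_sub (c1.mono_set h) (ci.mono_set h)
  simp only [integral_const, MeasurableSet.univ, measureReal_restrict_apply, univ_inter,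
    smul_eq_mul, mul_one, vol_cube] at e1 e2
  have h1 := setIntegral_mono_set (c1.sub ci)
    ((ae_restrict_iff' (cube_cpt d).measurableSet).2 (Filter.Eventually.of_forall pos))
    h.eventuallyLE
  have h2 : 0 ≤ ∫ x in K, 1 - x z * x z :=
    setIntegral_nonneg hK.measurableSet fun x hx => pos x (h hx)
  refine ⟨setIntegral_mono_set ci (Filter.Eventually.of_forall fun x => mul_self_nonneg _)
    h.eventuallyLE, by linarith, ?_⟩
  simp only [Pi.sub_apply] at h1
  linarith

lemma cover {d : ℕ} {ι : Type} (v : ι → Fin d → ℝ) (hv : ∀ a i, v a i ^ 2 = 1) (r : ℝ) :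
    cube d ⊆ cut v r ∪ ⋃ a, closedBall (WithLp.toLp 2 (v a)) r := fun x hx => by
  by_cases h : x ∈ cut v r
  · exact Or.inl h
  right
  simp only [cut, mem_ofPred_eq, hx, true_and, not_forall, not_le] at h
  obtain ⟨a, ha⟩ := h
  refine mem_iUnion.2 ⟨a, ?_⟩
  have p : ∀ i, 0 ≤ 1 - v a i * x i := fun i => by
    have := abs_le.1 (hx i)
    nlinarith [hv a i, sq_nonneg (v a i - x i)]
  have s1 : ∑ i, (1 - v a i * x i) ≤ r := by
    rw [Finset.sum_sub_distrib]; simp; linarith
  have s0 : 0 ≤ ∑ i, (1 - v a i * x i) := Finset.sum_nonneg fun i _ => p i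
  rw [mem_closedBall, EuclideanSpace.dist_eq, sqrt_le_left (s0.trans s1)]
  calc ∑ i, dist (x i) (v a i) ^ 2 = ∑ i, (1 - v a i * x i) ^ 2 :=
        Finset.sum_congr rfl fun i _ => by
          rw [Real.dist_eq, sq_abs]; linear_combination (1 - x i ^ 2) * hv a i
    _ ≤ (∑ i, (1 - v a i * x i)) ^ 2 := Finset.sum_sq_le_sq_sum_of_nonneg fun i _ => p i
    _ ≤ r ^ 2 := by gcongr

lemma poly_of {d N : ℕ} {ι : Type} [Fintype ι] (a : ι → V d) (b : ι → ℝ) {K : Set (V d)}
    (hK : IsCompact K) (hi : ball 0 (1 / 2) ⊆ K) (h : ∀ x, x ∈ K ↔ ∀ l, inner ℝ (a l) x ≤ b l)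
    (hN : Fintype.card ι ≤ N) {s : ℝ} (hs : 0 < s) : IsPolytope N (s • K) := by
  classical
  refine ⟨hK.smul s, ?_, Finset.univ.image fun l => (a l, s * b l),
    Finset.card_image_le.trans hN, ?_⟩
  · rw [interior_smul₀ hs.ne']
    exact Nonempty.smul_set ⟨0, interior_mono hi (by simp [isOpen_ball.interior_eq])⟩
  · ext x
    simp only [mem_smul_set_iff_inv_smul_mem₀ hs.ne', h, inner_smul_right, mem_ofPred_eq,
      Finset.mem_image, Finset.mem_univ, true_and, forall_exists_index, forall_apply_eq_imp_iff,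
      inv_mul_le_iff₀ hs]

lemma ball_cut {d : ℕ} {ι : Type} (v : ι → Fin d → ℝ) (hv : ∀ a i, v a i ^ 2 = 1) {r : ℝ}
    (hr : r ≤ d / 2) : ball 0 (1 / 2) ⊆ cut v r := fun x hx => by
  have h : ∀ i, |x i| ≤ 1 / 2 := fun i =>
    (PiLp.norm_apply_le x i).trans (mem_ball_zero_iff.1 hx).le
  refine ⟨fun i => (h i).trans (by norm_num), fun a => ?_⟩
  calc ∑ i, v a i * x i ≤ ∑ _i : Fin d, (1 / 2 : ℝ) := Finset.sum_le_sum fun i _ => by
        have := abs_le.1 (h i)
        rcases sq_eq_one_iff.1 (hv a i) with e | e <;> rw [e] <;> linarith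
    _ ≤ d - r := by simp; linarith

end Pool.Agent.H20.Iso
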