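import Pool.Agent.H20.Iso2

set_option autoImplicit false

open Set MeasureTheory Metric Real
open scoped Pointwise

namespace Pool.Agent.H20.Iso

/-- The sign character of `ZMod 2`. -/
def chi (t : ZMod 2) : ℝ := if t = 0 then 1 else -1

lemma chi_add (s t : ZMod 2) : chi (s + t) = chi s * chi t := by
  have h : ∀ t : ZMod 2, t = 0 ∨ t = 1 := by decide
  have h2 : (1 + 1 : ZMod 2) = 0 := by decide
  rcases h s with rfl | rfl <;> rcases h t with rfl | rfl <;> simp [chi, h2]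

lemma exists_fam (k : ℕ) : ∃ v : ((Fin k → ZMod 2) × ZMod 2) → Fin (2 ^ k) → ℝ,
    (∀ a i, v a i ^ 2 = 1) ∧ (∀ a, ∃ b, ∀ i, v b i = -v a i) ∧
    (∀ a b, ∃ c, ∀ i, v c i = v a i * v b i) ∧ (∀ i j, i ≠ j → ∃ a, v a i * v a j = -1) ∧
    (∀ z i, ∃ σ : Equiv.Perm (Fin (2 ^ k)), σ z = i ∧ (∀ l, σ (σ l) = l) ∧
      ∀ a, ∃ c, ∀ l, v c l = v a (σ l)) := by
  obtain ⟨φ⟩ : Nonempty (Fin (2 ^ k) ≃ (Fin k → ZMod 2)) :=
    ⟨(Fintype.equivFinOfCardEq (by simp)).symm⟩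
  have c1 : chi 1 = -1 := by simp [chi]
  have tw : ∀ t : ZMod 2, t + t = 0 := by decide
  have tw2 : ∀ s t : ZMod 2, s ≠ t → s + t = 1 := by decide
  refine ⟨fun a i => chi (a.1 ⬝ᵥ φ i + a.2), fun a i => ?_, fun a => ⟨(a.1, a.2 + 1), fun i => ?_⟩,
    fun a b => ⟨(a.1 + b.1, a.2 + b.2), fun i => ?_⟩, fun i j hij => ?_, fun z i => ?_⟩
  · rw [sq, ← chi_add, tw]; simp [chi]
  · simp only [← add_assoc]; rw [chi_add _ 1, c1]; ring
  · simp only [← chi_add, add_dotProduct]; congr 1; ring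
  · obtain ⟨m, hm⟩ := Function.ne_iff.1 (φ.injective.ne hij)
    refine ⟨(Pi.single m 1, 0), ?_⟩
    simp only [← chi_add, single_dotProduct, one_mul, add_zero]
    rw [tw2 _ _ hm, c1]
  · refine ⟨φ.trans ((Equiv.addRight (φ z + φ i)).trans φ.symm), ?_, fun l => ?_,
      fun a => ⟨(a.1, a.1 ⬝ᵥ (φ z + φ i) + a.2), fun l => ?_⟩⟩
    · have : φ z + (φ z + φ i) = φ i := by ext m; simp [← add_assoc, tw]
      simp only [Equiv.trans_apply, Equiv.coe_addRight, this, Equiv.symm_apply_apply]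
    · have : φ l + (φ z + φ i) + (φ z + φ i) = φ l := by
        ext m; simp only [Pi.add_apply]; rw [add_assoc, tw, add_zero]
      simp only [Equiv.trans_apply, Equiv.coe_addRight, Equiv.apply_symm_apply, this,
        Equiv.symm_apply_apply]
    · simp only [Equiv.trans_apply, Equiv.coe_addRight, Equiv.apply_symm_apply, dotProduct_add]
      congr 1; ring

lemma iff_of_inv {X : Type} {K : Set X} {g : X → X} (h1 : ∀ x, g (g x) = x)
    (h2 : ∀ x ∈ K, g x ∈ K) (x : X) : g x ∈ K ↔ x ∈ K :=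
  ⟨fun h => h1 x ▸ h2 _ h, h2 x⟩

lemma cut_sym {d : ℕ} {ι κ : Type} (v : ι → Fin d → ℝ) (w : κ → Fin d → ℝ) (r : ℝ) (z : Fin d)
    (h1 : ∀ a i, v a i ^ 2 = 1) (h2 : ∀ a, ∃ b, ∀ i, w b i = -w a i)
    (h3 : ∀ a b, ∃ c, ∀ i, w c i = w a i * v b i) (h4 : ∀ i j, i ≠ j → ∃ a, v a i * v a j = -1)
    (h5 : ∀ i, ∃ σ : Equiv.Perm (Fin d), σ z = i ∧ (∀ l, σ (σ l) = l) ∧
      ∀ a, ∃ c, ∀ l, w c l = w a (σ l)) :
    (∀ x, -x ∈ cut w r ↔ x ∈ cut w r) ∧
    (∀ i j, i ≠ j → ∃ ε h, ε i * ε j = -1 ∧ ∀ x, sg ε h x ∈ cut w r ↔ x ∈ cut w r) ∧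
    (∀ i, ∃ σ : Equiv.Perm (Fin d), σ z = i ∧ ∀ x, pm σ x ∈ cut w r ↔ x ∈ cut w r) := by
  refine ⟨iff_of_inv neg_neg fun x hx => ⟨fun i => by simpa using hx.1 i, fun a => ?_⟩,
    fun i j hij => ?_, fun i => ?_⟩
  · obtain ⟨b, hb⟩ := h2 a
    simpa [hb] using hx.2 b
  · obtain ⟨b, hb⟩ := h4 i j hij
    refine ⟨v b, h1 b, hb, iff_of_inv (fun x => ?_) fun x hx => ⟨fun i => ?_, fun a => ?_⟩⟩
    · ext l; simp only [sg_apply]; linear_combination x l * h1 b l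
    · rw [sg_apply, abs_mul]
      rcases sq_eq_one_iff.1 (h1 b i) with e | e <;> simpa [e] using hx.1 i
    · obtain ⟨c, hc⟩ := h3 a b
      simpa [hc, sg_apply, mul_assoc] using hx.2 c
  · obtain ⟨σ, e1, e2, e3⟩ := h5 i
    refine ⟨σ, e1, iff_of_inv (fun x => ?_) fun x hx => ⟨fun i => ?_, fun a => ?_⟩⟩
    · ext l; simp only [pm_apply, e2]
    · rw [pm_apply]; exact hx.1 _
    · obtain ⟨c, hc⟩ := e3 a
      have := hx.2 c
      rw [← Equiv.sum_comp σ] at this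
      simpa [hc, pm_apply, e2] using this

lemma cut_empty (d : ℕ) (r : ℝ) : cut (fun (_ : Empty) (_ : Fin d) => (0 : ℝ)) r = cube d := by
  ext x; simp [cut]

lemma mem_cube_iff {d : ℕ} (x : V d) : x ∈ cube d ↔ ∀ l : Fin d × Bool,
    inner ℝ (EuclideanSpace.single l.1 (if l.2 then (1 : ℝ) else -1)) x ≤ 1 := by
  simp [cube, EuclideanSpace.inner_single_left, abs_le, forall_and, neg_le]

lemma haus {d : ℕ} {ι : Type} (v : ι → Fin d → ℝ) (hv : ∀ a i, v a i ^ 2 = 1) (a : ι)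
    (hd : 0 < d) {s t δ : ℝ} (hs : 1 ≤ s) (ht : 1 ≤ t) (hst : |s - t| * √d ≤ δ)
    (hne : (cut v (√d / 8)).Nonempty) :
    1 / 8 - δ ≤ hausdorffDist (s • cube d) (t • cut v (√d / 8)) := by
  set p : V d := WithLp.toLp 2 (v a) with hp
  have pc : p ∈ cube d := fun i => by
    rcases sq_eq_one_iff.1 (hv a i) with e | e <;> simp [hp, e]
  have q0 : 0 < √(d : ℝ) := sqrt_pos.2 (by exact_mod_cast hd)
  have q2 : √(d : ℝ) * √d = d := mul_self_sqrt (by positivity)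
  have pp : inner ℝ p p = (d : ℝ) := by
    rw [real_inner_self_eq_norm_sq, EuclideanSpace.real_norm_sq_eq]; simp [hp, hv]
  have pn : ‖p‖ = √d := by rw [← pp, real_inner_self_eq_norm_sq, sqrt_sq (norm_nonneg _)]
  refine le_trans ?_ (infDist_le_hausdorffDist_of_mem (smul_mem_smul_set pc)
    (hausdorffEDist_ne_top_of_nonempty_of_bounded ⟨_, smul_mem_smul_set pc⟩ hne.smul_set
      ((cube_cpt d).smul s).isBounded ((cut_cpt v _).smul t).isBounded))
  rw [le_infDist hne.smul_set]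
  rintro _ ⟨y, hy, rfl⟩
  have h1 : inner ℝ p y ≤ d - √d / 8 := by
    simpa [hp, PiLp.inner_apply, mul_comm] using hy.2 a
  have h2 := real_inner_le_norm p (s • p - t • y)
  rw [inner_sub_right, inner_smul_right, inner_smul_right, pp, pn, ← dist_eq_norm] at h2
  refine le_of_mul_le_mul_left (le_trans ?_ h2) q0
  have h3 : t * inner ℝ p y ≤ t * (d - √d / 8) := by gcongr
  have h4 : (t - s) * √d ≤ δ := le_trans (by gcongr; rw [abs_sub_comm]; exact le_abs_self _) hst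
  have h5 : √d * ((t - s) * √d) ≤ √d * δ := by gcongr
  have h6 : √d * ((t - s) * √d) = (t - s) * d := by linear_combination (t - s) * q2
  nlinarith

end Pool.Agent.H20.Iso
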