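import Mathlib

set_option autoImplicit false

namespace Pool.Agent.H20.LSS
open DirectSum

theorem transfer {S B : Type*} [CommRing S] [CommRing B] (θ : S →+* B) (q : Ideal B)
    (I : Ideal S) (h1 : I ≤ q.comap θ) (l : B →+* S ⧸ I) (h2 : ∀ x, l (θ x) = Ideal.Quotient.mk I x)
    (h3 : q ≤ RingHom.ker l) : I = q.comap θ :=
  le_antisymm h1 fun x hx => by
    rw [← Ideal.Quotient.eq_zero_iff_mem, ← h2]; exact h3 hx

/-- `I` is closed in the `a`-adic topology -/
def Sep {T : Type*} [CommRing T] (I : Ideal T) (a : T) : Prop :=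
  ∀ h, (∀ k : ℕ, ∃ c, h - a ^ k * c ∈ I) → h ∈ I

section plain
variable {T : Type*} [CommRing T] {I : Ideal T} {a : T}

lemma mem_sup_iff {x : T} : x ∈ I ⊔ Ideal.span {a} ↔ ∃ c, x - a * c ∈ I := by
  constructor
  · intro h
    obtain ⟨i, hi, j, hj, rfl⟩ := Submodule.mem_sup.1 h
    obtain ⟨c, rfl⟩ := Ideal.mem_span_singleton'.1 hj
    exact ⟨c, by simpa [mul_comm] using hi⟩
  · rintro ⟨c, hc⟩
    have : x = (x - a * c) + a * c := by ring
    rw [this]
    exact Submodule.add_mem_sup hc (Ideal.mul_mem_right _ _ (Ideal.mem_span_singleton_self a))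

theorem Sep.prime (hs : Sep I a) (hr : ∀ u, a * u ∈ I → u ∈ I) (hp : (I ⊔ Ideal.span {a}).IsPrime) :
    I.IsPrime := by
  have key : ∀ w, w ∉ I → ∃ (k : ℕ) (c : T), w - a ^ k * c ∈ I ∧ c ∉ I ⊔ Ideal.span {a} := by
    intro w hw
    by_contra hcon
    push Not at hcon
    refine hw (hs w fun k => ?_)
    induction k with
    | zero => exact ⟨w, by simp⟩
    | succ k ih =>
      obtain ⟨c, hc⟩ := ih
      obtain ⟨c', hc'⟩ := mem_sup_iff.1 (hcon k c hc)
      refine ⟨c', ?_⟩
      convert I.add_mem hc (I.mul_mem_left (a ^ k) hc') using 1; ring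
  have hr' : ∀ (k : ℕ) u, a ^ k * u ∈ I → u ∈ I := by
    intro k
    induction k with
    | zero => intro u hu; simpa using hu
    | succ k ih => intro u hu; exact ih u (hr _ (by convert hu using 1; ring))
  refine ⟨fun h => hp.ne_top (by rw [h]; simp), fun {u v} huv => ?_⟩
  by_contra hcon
  push Not at hcon
  obtain ⟨k, c, hc, hc'⟩ := key u hcon.1
  obtain ⟨l, d, hd, hd'⟩ := key v hcon.2
  have : c * d ∈ I := by
    refine hr' (k + l) _ ?_
    convert I.sub_mem (I.sub_mem huv (I.mul_mem_left v hc)) (I.mul_mem_left (a ^ k * c) hd) using 1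
    ring
  rcases hp.mem_or_mem (Ideal.mem_sup_left this) with h | h
  · exact hc' h
  · exact hd' h

theorem Sep.eq_of_between (hs : Sep I a) {Q : Ideal T} (hQ : Q.IsPrime) (h1 : I ≤ Q)
    (h2 : Q ≤ I ⊔ Ideal.span {a}) (ha : a ∉ Q) : I = Q := by
  refine le_antisymm h1 fun h hh => hs h fun k => ?_
  have : ∃ c ∈ Q, h - a ^ k * c ∈ I := by
    induction k with
    | zero => exact ⟨h, hh, by simp⟩
    | succ k ih =>
      obtain ⟨c, hcQ, hc⟩ := ih
      obtain ⟨c', hc'⟩ := mem_sup_iff.1 (h2 hcQ)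
      have : a * c' ∈ Q := by
        have := Q.sub_mem hcQ (h1 hc')
        simpa using this
      refine ⟨c', (hQ.mem_or_mem this).resolve_left ha, ?_⟩
      convert I.add_mem hc (I.mul_mem_left (a ^ k) hc') using 1; ring
  obtain ⟨c, -, hc⟩ := this
  exact ⟨c, hc⟩

/-- swapping a regular sequence of length two -/
theorem swap {b : T} (hI : I.IsPrime) (ha : a ∉ I) (hp : (I ⊔ Ideal.span {a}).IsPrime)
    (hb : b ∉ I ⊔ Ideal.span {a}) (u : T) (hu : a * u ∈ I ⊔ Ideal.span {b}) :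
    u ∈ I ⊔ Ideal.span {b} := by
  obtain ⟨c, hc⟩ := mem_sup_iff.1 hu
  have : b * c ∈ I ⊔ Ideal.span {a} := mem_sup_iff.2 ⟨u, by simpa using I.neg_mem hc⟩
  obtain ⟨c', hc'⟩ := mem_sup_iff.1 ((hp.mem_or_mem this).resolve_left hb)
  have : a * (u - b * c') ∈ I := by
    convert I.add_mem hc (I.mul_mem_left b hc') using 1; ring
  exact mem_sup_iff.2 ⟨c', (hI.mem_or_mem this).resolve_left ha⟩

end plain

section graded
variable {T σ : Type*} [CommRing T] [SetLike σ T] [AddSubmonoidClass σ T] (𝒜 : ℕ → σ) [GradedRing 𝒜]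

theorem sep_of_homogeneous {I : Ideal T} (hI : I.IsHomogeneous 𝒜) {a : T} {e : ℕ} (he : 0 < e)
    (ha : a ∈ 𝒜 e) : Sep I a := by
  intro h hh
  rw [hI.mem_iff]
  intro m
  obtain ⟨c, hc⟩ := hh (m + 1)
  have h1 := hI m hc
  have h2 : (decompose 𝒜 (a ^ (m + 1) * c) m : T) = 0 :=
    coe_decompose_mul_of_left_mem_of_not_le 𝒜 (SetLike.pow_mem_graded (m + 1) ha)
      (by rw [smul_eq_mul]; nlinarith)
  have h3 : h = (h - a ^ (m + 1) * c) + a ^ (m + 1) * c := by ring
  rw [h3, decompose_add, DirectSum.add_apply, AddMemClass.coe_add, h2, add_zero]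
  exact h1

theorem mem_of_mem_dehom {J : Ideal T} (hJ : J.IsHomogeneous 𝒜) (hp : J.IsPrime) {t : T} (ht : t ∈ 𝒜 1)
    (htJ : t ∉ J) {D : ℕ} {h : T} (hh : h ∈ 𝒜 D) (hm : h ∈ J ⊔ Ideal.span {t - 1}) : h ∈ J := by
  classical
  obtain ⟨u, hu⟩ := mem_sup_iff.1 hm
  have e1 : h - (t - 1) * u + t * u = h + u := by ring
  have comp : ∀ m, (decompose 𝒜 h m : T) + decompose 𝒜 u m - decompose 𝒜 (t * u) m ∈ J := by
    intro m
    have := congrArg (fun x => (decompose 𝒜 x m : T)) e1
    simp only [decompose_add, DirectSum.add_apply, AddMemClass.coe_add] at this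
    rw [← this, add_sub_cancel_right]
    exact hJ m hu
  have key : ∀ m, (m < D → (decompose 𝒜 u m : T) ∈ J) ∧
      (D ≤ m → (decompose 𝒜 u m : T) + t ^ (m - D) * h ∈ J) := by
    intro m
    induction m with
    | zero =>
      have c0 := comp 0
      rw [coe_decompose_mul_of_left_mem_of_not_le 𝒜 ht (by omega), sub_zero] at c0
      constructor
      · intro hD
        rwa [decompose_of_mem_ne 𝒜 hh (by omega), zero_add] at c0
      · intro hD
        obtain rfl : D = 0 := by omega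
        rw [decompose_of_mem_same 𝒜 hh] at c0
        simpa [add_comm] using c0
    | succ m ih =>
      have c0 := comp (m + 1)
      rw [coe_decompose_mul_of_left_mem_of_le 𝒜 ht (by omega), Nat.add_sub_cancel] at c0
      constructor
      · intro hD
        rw [decompose_of_mem_ne 𝒜 hh (by omega), zero_add] at c0
        simpa using J.add_mem c0 (J.mul_mem_left t (ih.1 (by omega)))
      · intro hD
        rcases hD.eq_or_lt with rfl | hlt
        · rw [decompose_of_mem_same 𝒜 hh] at c0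
          convert J.add_mem c0 (J.mul_mem_left t (ih.1 (by omega))) using 1
          simp; ring
        · rw [decompose_of_mem_ne 𝒜 hh (by omega), zero_add] at c0
          convert J.add_mem c0 (J.mul_mem_left t (ih.2 (by omega))) using 1
          rw [show m + 1 - D = (m - D) + 1 by omega]; ring
  obtain ⟨m, hm1, hm2⟩ : ∃ m, D ≤ m ∧ m ∉ (decompose 𝒜 u).support := by
    obtain ⟨N, hN⟩ := (decompose 𝒜 u).support.bddAbove
    exact ⟨max D (N + 1), le_max_left _ _, fun hmem => by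
      have := hN hmem
      have := le_max_right D (N + 1)
      omega⟩
  have h0 : (decompose 𝒜 u m : T) = 0 := by
    rw [DFinsupp.notMem_support_iff.1 hm2]; rfl
  have := (key m).2 hm1
  rw [h0, zero_add] at this
  exact (hp.mem_or_mem this).resolve_left fun h => htJ (hp.mem_of_pow_mem _ h)

theorem exists_hom {t : T} (ht : t ∈ 𝒜 1) (x : T) :
    ∃ (D : ℕ) (h : T), h ∈ 𝒜 D ∧ x - h ∈ Ideal.span {t - 1} := by
  induction x using Decomposition.inductionOn 𝒜 with
  | zero => exact ⟨0, 0, zero_mem _, by simp⟩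
  | homogeneous m => exact ⟨_, m, m.2, by simp⟩
  | add x y hx hy =>
    obtain ⟨p, a, ha, hx⟩ := hx
    obtain ⟨q, b, hb, hy⟩ := hy
    have hp : ∀ k : ℕ, t ^ k - 1 ∈ Ideal.span {t - 1} := fun k =>
      Ideal.mem_span_singleton.2 (by simpa using sub_dvd_pow_sub_pow t 1 k)
    refine ⟨p + q, t ^ q * a + t ^ p * b, add_mem ?_ ?_, ?_⟩
    · simpa [add_comm] using SetLike.mul_mem_graded (SetLike.pow_mem_graded q ht) ha
    · simpa using SetLike.mul_mem_graded (SetLike.pow_mem_graded p ht) hb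
    · convert sub_mem (sub_mem (add_mem hx hy) (Ideal.mul_mem_left _ a (hp q)))
        (Ideal.mul_mem_left _ b (hp p)) using 1
      ring

theorem dehom_prime {J : Ideal T} (hJ : J.IsHomogeneous 𝒜) (hp : J.IsPrime) {t : T} (ht : t ∈ 𝒜 1)
    (htJ : t ∉ J) : (J ⊔ Ideal.span {t - 1}).IsPrime := by
  refine ⟨fun h => hp.ne_top ?_, fun {x y} hxy => ?_⟩
  · rw [Ideal.eq_top_iff_one] at h ⊢
    exact mem_of_mem_dehom 𝒜 hJ hp ht htJ SetLike.GradedOne.one_mem h
  · obtain ⟨p, a, ha, hx⟩ := exists_hom 𝒜 ht x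
    obtain ⟨q, b, hb, hy⟩ := exists_hom 𝒜 ht y
    have hx' : x - a ∈ J ⊔ Ideal.span {t - 1} := Ideal.mem_sup_right hx
    have hy' : y - b ∈ J ⊔ Ideal.span {t - 1} := Ideal.mem_sup_right hy
    have : a * b ∈ J ⊔ Ideal.span {t - 1} := by
      convert sub_mem (sub_mem hxy (Ideal.mul_mem_left _ y hx')) (Ideal.mul_mem_left _ a hy') using 1
      ring
    rcases hp.mem_or_mem (mem_of_mem_dehom 𝒜 hJ hp ht htJ (SetLike.mul_mem_graded ha hb) this) with h | h
    · left; simpa using add_mem hx' (Ideal.mem_sup_left h)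
    · right; simpa using add_mem hy' (Ideal.mem_sup_left h)

end graded

end Pool.Agent.H20.LSS
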