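import Mathlib

set_option autoImplicit false

namespace Pool.Agent.H20.LSS
open MvPolynomial

theorem matching_prime {R V : Type*} [CommRing R] [IsDomain R] [Fintype V] [DecidableEq V]
    (M : Finset (Finset V)) (hne : ∀ A ∈ M, A.Nonempty)
    (hdis : ∀ A ∈ M, ∀ B ∈ M, A ≠ B → Disjoint A B) (c : Finset V → R) (hc : ∀ A ∈ M, c A ≠ 0) :
    (Ideal.span ((fun A : Finset V => ∏ i ∈ A, (X i : MvPolynomial V R) + C (c A)) '' (M : Set _))).IsPrime := by
  classical
  set I := Ideal.span ((fun A : Finset V => ∏ i ∈ A, (X i : MvPolynomial V R) + C (c A)) '' (M : Set _))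
  have hρ : ∀ A : Finset V, ∃ o : Option V, A ∈ M → ∃ i ∈ A, o = some i := by
    intro A
    by_cases h : A ∈ M
    · obtain ⟨i, hi⟩ := hne A h
      exact ⟨some i, fun _ => ⟨i, hi, rfl⟩⟩
    · exact ⟨none, fun h' => absurd h' h⟩
  choose ρ hρ using hρ
  have uniq : ∀ A ∈ M, ∀ B ∈ M, ∀ i, i ∈ A → i ∈ B → A = B := by
    intro A hA B hB i hiA hiB
    by_contra h
    exact Finset.disjoint_left.1 (hdis A hA B hB h) hiA hiB
  let v : V → V → ℤ := fun i k =>
    (if k = i then 1 else 0) - ∑ A ∈ M, if ρ A = some i ∧ k ∈ A then 1 else 0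
  let γ : V → R := fun i => ∏ A ∈ M, if ρ A = some i then -c A else 1
  have hγ : ∀ i, γ i ≠ 0 := fun i => Finset.prod_ne_zero_iff.2 fun A hA => by
    split_ifs
    · exact neg_ne_zero.2 (hc A hA)
    · exact one_ne_zero
  let ψ : MvPolynomial V R →ₐ[R] AddMonoidAlgebra R (V → ℤ) :=
    aeval fun i => AddMonoidAlgebra.single (v i) (γ i)
  let W : (V →₀ ℕ) → V → ℤ := fun α => ∑ i, α i • v i
  have hψ : ∀ (α : V →₀ ℕ) (r : R),
      ψ (monomial α r) = AddMonoidAlgebra.single (W α) (r * ∏ i, γ i ^ α i) := by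
    intro α r
    simp only [ψ, aeval_monomial]
    rw [Finsupp.prod_fintype _ _ (by simp)]
    simp only [AddMonoidAlgebra.single_pow]
    have : ∀ s : Finset V, ∏ i ∈ s, (AddMonoidAlgebra.single (α i • v i) (γ i ^ α i) :
        AddMonoidAlgebra R (V → ℤ)) =
        AddMonoidAlgebra.single (∑ i ∈ s, α i • v i) (∏ i ∈ s, γ i ^ α i) := by
      intro s
      induction s using Finset.induction_on with
      | empty => simp [AddMonoidAlgebra.one_def]
      | insert a s ha ih =>
        rw [Finset.prod_insert ha, Finset.sum_insert ha, Finset.prod_insert ha, ih,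
          AddMonoidAlgebra.single_mul_single]
    rw [this, AddMonoidAlgebra.coe_algebraMap]
    simp [AddMonoidAlgebra.single_mul_single, W]
  have hW1 : ∀ (α : V →₀ ℕ) (k : V), (∀ A ∈ M, k ∉ A) → W α k = α k := by
    intro α k hk
    simp only [W, v, Finset.sum_apply, Pi.smul_apply]
    rw [Finset.sum_eq_single k]
    · rw [Finset.sum_eq_zero fun A hA => by simp [hk A hA]]; simp
    · intro i _ hi
      rw [Finset.sum_eq_zero fun A hA => by simp [hk A hA]]; simp [Ne.symm hi]
    · simp
  have hW2 : ∀ (α : V →₀ ℕ) (A : Finset V), A ∈ M → ∀ i0, ρ A = some i0 → ∀ k ∈ A,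
      W α k = α k - α i0 := by
    intro α A hA i0 hi0 k hk
    have h1 : ∀ i, v i k = (if k = i then 1 else 0) - if i0 = i then 1 else 0 := by
      intro i
      simp only [v]
      rw [Finset.sum_eq_single A]
      · simp [hi0, hk]
      · intro B hB hBA
        rw [if_neg]
        exact fun h => hBA (uniq B hB A hA k h.2 hk)
      · exact fun h => absurd hA h
    simp only [W, Finset.sum_apply, Pi.smul_apply, h1, smul_sub, Finset.sum_sub_distrib]
    simp
  let e : Finset V → (V →₀ ℕ) := fun A => ∑ i ∈ A, Finsupp.single i 1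
  have he : ∀ A k, e A k = if k ∈ A then 1 else 0 := by
    intro A k
    simp [e, Finsupp.finset_sum_apply, Finsupp.single_apply]
  have hprod : ∀ A : Finset V, ∏ i ∈ A, (X i : MvPolynomial V R) = monomial (e A) 1 := by
    intro A
    simp only [e]
    rw [monomial_sum_one]
    rfl
  have hI : I ≤ RingHom.ker ψ := by
    refine Ideal.span_le.2 ?_
    rintro _ ⟨A, hA, rfl⟩
    obtain ⟨i0, hi0, h0⟩ := hρ A hA
    have h1 : W (e A) = 0 := by
      funext k
      by_cases hk : ∃ B ∈ M, k ∈ B
      · obtain ⟨B, hB, hk⟩ := hk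
        obtain ⟨j0, hj0, hj⟩ := hρ B hB
        rw [hW2 _ B hB j0 hj k hk, he, he]
        by_cases hAB : A = B
        · subst hAB; simp [hk, hj0]
        · rw [if_neg fun h => hAB (uniq A hA B hB k h hk), if_neg fun h => hAB (uniq A hA B hB j0 h hj0)]
          simp
      · push Not at hk
        rw [hW1 _ k hk, he, if_neg (hk A hA)]; simp
    have h2 : ∏ i, γ i ^ e A i = -c A := by
      simp only [he, pow_ite, pow_one, pow_zero, Finset.prod_ite_mem, Finset.univ_inter, γ]
      rw [Finset.prod_comm, Finset.prod_eq_single A]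
      · rw [Finset.prod_eq_single i0]
        · simp [h0]
        · intro b _ hb; rw [if_neg]; rw [h0]; exact fun h => hb (Option.some.inj h).symm
        · exact fun h => absurd hi0 h
      · intro B hB hBA
        refine Finset.prod_eq_one fun i hi => if_neg fun h => ?_
        obtain ⟨j0, hj0, hj⟩ := hρ B hB
        rw [hj] at h
        obtain rfl := Option.some.inj h
        exact hBA (uniq B hB A hA _ hj0 hi)
      · exact fun h => absurd hA h
    show ψ (_ + _) = 0
    rw [map_add, hprod, hψ, h1, h2, ← monomial_zero', hψ]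
    simp [W, ← AddMonoidAlgebra.single_add]
  let N : Set (V →₀ ℕ) := {α | ∀ A ∈ M, ∃ i ∈ A, α i = 0}
  have hinj : ∀ α ∈ N, ∀ β ∈ N, W α = W β → α = β := by
    intro α hα β hβ h
    ext k
    by_cases hk : ∃ B ∈ M, k ∈ B
    · obtain ⟨B, hB, hk⟩ := hk
      obtain ⟨j0, hj0, hj⟩ := hρ B hB
      obtain ⟨a, ha, ha0⟩ := hα B hB
      obtain ⟨b, hb, hb0⟩ := hβ B hB
      have h1 := congrFun h k
      have h2 := congrFun h a
      have h3 := congrFun h b
      rw [hW2 _ B hB j0 hj _ hk, hW2 _ B hB j0 hj _ hk] at h1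
      rw [hW2 _ B hB j0 hj _ ha, hW2 _ B hB j0 hj _ ha] at h2
      rw [hW2 _ B hB j0 hj _ hb, hW2 _ B hB j0 hj _ hb] at h3
      omega
    · push Not at hk
      have h1 := congrFun h k
      rw [hW1 _ k hk, hW1 _ k hk] at h1
      exact_mod_cast h1
  have hmono : ∀ (n : ℕ) (α : V →₀ ℕ), ∑ i, α i = n → ∀ r : R,
      ∃ q : MvPolynomial V R, (∀ β ∈ q.support, β ∈ N) ∧ monomial α r - q ∈ I := by
    intro n
    induction n using Nat.strong_induction_on with
    | _ n ih =>
      intro α hα r
      by_cases hN : α ∈ N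
      · refine ⟨monomial α r, fun β hβ => ?_, by simp⟩
        rw [Finset.mem_singleton.1 (support_monomial_subset hβ)]; exact hN
      · simp only [N, Set.mem_setOf_eq] at hN
        push Not at hN
        obtain ⟨A, hA, hA'⟩ := hN
        have hle : e A ≤ α := fun k => by
          rw [he]; split_ifs with h
          · exact Nat.one_le_iff_ne_zero.2 (hA' k h)
          · exact Nat.zero_le _
        obtain ⟨β, rfl⟩ := exists_add_of_le hle
        have hlt : ∑ i, β i < n := by
          rw [← hα]
          obtain ⟨i, hi⟩ := hne A hA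
          refine Finset.sum_lt_sum (fun k _ => by simp) ⟨i, Finset.mem_univ _, ?_⟩
          simp [he, hi]
        obtain ⟨q, hq, hq'⟩ := ih _ hlt β rfl (-(c A * r))
        refine ⟨q, hq, ?_⟩
        have hg : ∏ i ∈ A, (X i : MvPolynomial V R) + C (c A) ∈ I := Ideal.subset_span ⟨A, hA, rfl⟩
        convert I.add_mem hq' (I.mul_mem_left (monomial β r) hg) using 1
        rw [hprod, mul_add, monomial_mul, mul_comm (monomial β r), C_mul_monomial, map_neg, add_comm β,
          mul_one]
        ring
  have hnf : ∀ p : MvPolynomial V R, ∃ q : MvPolynomial V R, (∀ β ∈ q.support, β ∈ N) ∧ p - q ∈ I := by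
    intro p
    induction p using MvPolynomial.induction_on' with
    | monomial α r => exact hmono _ α rfl r
    | add p p' hp hp' =>
      obtain ⟨q, hq, h⟩ := hp
      obtain ⟨q', hq', h'⟩ := hp'
      refine ⟨q + q', fun β hβ => ?_, by convert I.add_mem h h' using 1; ring⟩
      rcases Finset.mem_union.1 (support_add hβ) with h | h
      · exact hq β h
      · exact hq' β h
  have : I = RingHom.ker ψ := by
    refine le_antisymm hI fun p hp => ?_
    obtain ⟨q, hq, h⟩ := hnf p
    have h1 : ψ q = 0 := by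
      have := sub_mem hp (hI h)
      simpa using this
    have h2 : q = 0 := by
      by_contra h0
      obtain ⟨α, hα⟩ := Finset.nonempty_iff_ne_empty.2 (mt support_eq_empty.1 h0)
      have h3 : ψ q = ∑ β ∈ q.support, AddMonoidAlgebra.single (W β) (coeff β q * ∏ i, γ i ^ β i) := by
        conv_lhs => rw [q.as_sum]
        rw [map_sum]
        exact Finset.sum_congr rfl fun β _ => hψ β _
      have h4 := congrArg (fun z : AddMonoidAlgebra R (V → ℤ) => z.coeff (W α)) (h3.symm.trans h1)
      simp only [AddMonoidAlgebra.coeff_sum, AddMonoidAlgebra.coeff_single, Finsupp.finset_sum_apply,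
        AddMonoidAlgebra.coeff_zero, Finsupp.zero_apply] at h4
      rw [Finset.sum_eq_single α] at h4
      · rw [Finsupp.single_eq_same] at h4
        exact mul_ne_zero (mem_support_iff.1 hα)
          (Finset.prod_ne_zero_iff.2 fun i _ => pow_ne_zero _ (hγ i)) h4
      · intro β hβ hne'
        exact Finsupp.single_eq_of_ne' fun h => hne' (hinj β (hq β hβ) α (hq α hα) h)
      · exact fun h => absurd hα h
    simpa [h2] using h
  rw [this]
  exact RingHom.ker_isPrime _

end Pool.Agent.H20.LSS
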