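import Mathlib
import Pool.Agent.H20.LSS1
import Pool.Agent.H20.LSS2

set_option autoImplicit false

namespace Pool.Agent.H20.LSS
open MvPolynomial

variable (K : Type*) [Field K] {V : Type*} [Fintype V] [DecidableEq V]

noncomputable def f (d : ℕ) (A : Finset V) : MvPolynomial (V × Fin d) K :=
  ∑ j : Fin d, ∏ i ∈ A, X (i, j)

noncomputable def L (d : ℕ) (E : Finset (Finset V)) : Ideal (MvPolynomial (V × Fin d) K) :=
  Ideal.span (f K d '' (E : Set (Finset V)))

def Clutter (E : Finset (Finset V)) : Prop :=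
  (∀ A ∈ E, A.Nonempty) ∧ ∀ A ∈ E, ∀ B ∈ E, A ⊆ B → A = B

variable {K}

omit [Fintype V] in
lemma prod_pt {d : ℕ} (j0 j : Fin d) (A B : Finset V) (hB : B.Nonempty) :
    ∏ i ∈ B, (if j = j0 ∧ i ∈ A then (1 : K) else 0) = if j = j0 ∧ B ⊆ A then 1 else 0 := by
  split_ifs with h
  · exact Finset.prod_eq_one fun i hi => if_pos ⟨h.1, h.2 hi⟩
  · by_cases hj : j = j0
    · obtain ⟨i, hi, hi'⟩ := Finset.not_subset.1 fun h' => h ⟨hj, h'⟩
      exact Finset.prod_eq_zero hi (if_neg fun h' => hi' h'.2)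
    · obtain ⟨i, hi⟩ := hB
      exact Finset.prod_eq_zero hi (if_neg fun h' => hj h'.1)

omit [Fintype V] in
lemma eval_f {d : ℕ} (j0 : Fin d) (A B : Finset V) (hB : B.Nonempty) :
    eval (fun p : V × Fin d => if p.2 = j0 ∧ p.1 ∈ A then (1 : K) else 0) (f K d B) =
      if B ⊆ A then 1 else 0 := by
  simp only [f, map_sum, map_prod, eval_X, prod_pt j0 _ A B hB]
  rw [Finset.sum_eq_single j0] <;> simp +contextual

omit [Fintype V] in
lemma f_notMem {d : ℕ} (hd : 0 < d) {E E' : Finset (Finset V)} (hE : Clutter E) (h : E' ⊆ E)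
    {A : Finset V} (hA : A ∈ E) (hA' : A ∉ E') : f K d A ∉ L K d E' := by
  intro hm
  have : L K d E' ≤ RingHom.ker
      (eval (fun p : V × Fin d => if p.2 = ⟨0, hd⟩ ∧ p.1 ∈ A then (1 : K) else 0)) := by
    refine Ideal.span_le.2 ?_
    rintro _ ⟨B, hB, rfl⟩
    show eval _ _ = 0
    rw [eval_f _ _ _ (hE.1 B (h hB)), if_neg]
    intro hBA
    exact hA' (hE.2 B (h hB) A hA hBA ▸ hB)
  have h2 := this hm
  rw [RingHom.mem_ker, eval_f _ _ _ (hE.1 A hA)] at h2
  simp at h2

variable (K) in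
noncomputable def F0 (d : ℕ) (M : Finset (Finset V)) (A : Finset V) : MvPolynomial (V × Fin (d + 1)) K :=
  (if A ∈ M then ∏ i ∈ A, X (i, 0) else 0) + rename (Prod.map id Fin.succ) (f K d A)

omit [Fintype V] in
lemma F0_notMem {d : ℕ} (hd : 0 < d) {E E' : Finset (Finset V)} (M : Finset (Finset V)) (hE : Clutter E)
    (h : E' ⊆ E) {A : Finset V} (hA : A ∈ E) (hA' : A ∉ E') :
    F0 K d M A ∉ Ideal.span (F0 K d M '' (E' : Set (Finset V))) := by
  intro hm
  let π : MvPolynomial (V × Fin (d + 1)) K →ₐ[K] MvPolynomial (V × Fin d) K :=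
    aeval fun p => Fin.cases 0 (fun j => X (p.1, j)) p.2
  have hπ : ∀ B ∈ E, π (F0 K d M B) = f K d B := by
    intro B hB
    obtain ⟨i, hi⟩ := hE.1 B hB
    have h1 : π (∏ i ∈ B, X (i, 0)) = 0 := by
      rw [map_prod]; exact Finset.prod_eq_zero hi (by simp [π])
    rw [F0, map_add]
    split_ifs
    · rw [h1]; simp [π, f]
    · simp [π, f]
  have : Ideal.span (F0 K d M '' (E' : Set (Finset V))) ≤ (L K d E').comap π := by
    refine Ideal.span_le.2 ?_
    rintro _ ⟨B, hB, rfl⟩
    show π _ ∈ L K d E'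
    rw [hπ B (h hB)]
    exact Ideal.subset_span ⟨B, hB, rfl⟩
  have h2 : π _ ∈ L K d E' := this hm
  rw [hπ A hA] at h2
  exact f_notMem hd hE h hA hA' h2

lemma F0_prime {d : ℕ} (hd : 0 < d) {E E' M : Finset (Finset V)} (hE : Clutter E) (h : E' ⊆ E)
    (hdis : ∀ A ∈ M, ∀ B ∈ M, A ≠ B → Disjoint A B) (hp : (L K d (E' \ M)).IsPrime) :
    (Ideal.span (F0 K d M '' (E' : Set (Finset V)))).IsPrime := by
  set I := Ideal.span (F0 K d M '' (E' : Set (Finset V)))
  let R := MvPolynomial (V × Fin d) K ⧸ L K d (E' \ M)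
  let mk : MvPolynomial (V × Fin d) K →+* R := Ideal.Quotient.mk _
  have hq := matching_prime (R := R) (E' ∩ M) (fun A hA => hE.1 A (h (Finset.mem_inter.1 hA).1))
    (fun A hA B hB => hdis A (Finset.mem_inter.1 hA).2 B (Finset.mem_inter.1 hB).2)
    (fun A => mk (f K d A)) (fun A hA h0 => f_notMem hd hE (Finset.sdiff_subset.trans h)
      (h (Finset.mem_inter.1 hA).1) (fun h' => (Finset.mem_sdiff.1 h').2 (Finset.mem_inter.1 hA).2)
      (Ideal.Quotient.eq_zero_iff_mem.1 h0))
  let θ : MvPolynomial (V × Fin (d + 1)) K →+* MvPolynomial V R :=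
    eval₂Hom (C.comp (mk.comp C)) fun p => Fin.cases (X p.1) (fun j => C (mk (X (p.1, j)))) p.2
  have hθ : ∀ x, θ (rename (Prod.map id Fin.succ) x) = C (mk x) := by
    intro x
    induction x using MvPolynomial.induction_on with
    | C a => simp [θ]
    | add p q hp hq => simp only [map_add, hp, hq]
    | mul_X p i hp => simp only [map_mul, hp]; simp [θ]
  have hl : ∀ x ∈ L K d (E' \ M), ((Ideal.Quotient.mk I).comp
      (rename (Prod.map id Fin.succ) : MvPolynomial (V × Fin d) K →ₐ[K] _).toRingHom) x = 0 := by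
    intro x hx
    refine (Ideal.span_le (I := RingHom.ker _)).2 ?_ hx
    rintro _ ⟨B, hB, rfl⟩
    have hB' := Finset.mem_sdiff.1 hB
    refine Ideal.Quotient.eq_zero_iff_mem.2 (Ideal.subset_span ⟨B, hB'.1, ?_⟩)
    simp [F0, hB'.2]
  let l : MvPolynomial V R →+* _ ⧸ I :=
    eval₂Hom (Ideal.Quotient.lift _ _ hl) fun i => Ideal.Quotient.mk I (X (i, 0))
  have hl2 : ∀ x, l (C (mk x)) = Ideal.Quotient.mk I (rename (Prod.map id Fin.succ) x) := by
    intro x
    simp only [l, mk, eval₂Hom_C]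
    exact Ideal.Quotient.lift_mk _ _ hl
  have := transfer (B := MvPolynomial V R) θ (Ideal.span ((fun A : Finset V =>
    ∏ i ∈ A, (X i : MvPolynomial V R) + C (mk (f K d A))) '' ((E' ∩ M : Finset (Finset V)) : Set _))) I ?_ l ?_ ?_
  · rw [this]; exact Ideal.comap_isPrime θ _
  · refine Ideal.span_le.2 ?_
    rintro _ ⟨B, hB, rfl⟩
    rw [SetLike.mem_coe, Ideal.mem_comap, F0, map_add, hθ]
    split_ifs with hM
    · refine Ideal.subset_span ⟨B, Finset.mem_coe.2 (Finset.mem_inter.2 ⟨hB, hM⟩), ?_⟩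
      simp [θ]
    · have : mk (f K d B) = 0 := Ideal.Quotient.eq_zero_iff_mem.2
        (Ideal.subset_span ⟨B, Finset.mem_coe.2 (Finset.mem_sdiff.2 ⟨hB, hM⟩), rfl⟩)
      simp [this]
  · intro x
    induction x using MvPolynomial.induction_on with
    | C a =>
      have : θ (C a) = C (mk (C a)) := by simp [θ]
      rw [this, hl2]; simp
    | add p q hp hq => simp only [map_add, hp, hq]
    | mul_X p i hp =>
      simp only [map_mul, hp]
      congr 1
      obtain ⟨i, j⟩ := i
      refine Fin.cases ?_ (fun j => ?_) j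
      · simp [θ, l]
      · have : θ (X (i, j.succ)) = C (mk (X (i, j))) := by simp [θ]
        rw [this, hl2]; simp
  · refine Ideal.span_le.2 ?_
    rintro _ ⟨B, hB, rfl⟩
    have hB' := Finset.mem_inter.1 hB
    show l _ = 0
    rw [map_add, hl2, map_prod]
    have : ∀ i, l (X i) = Ideal.Quotient.mk I (X (i, 0)) := fun i => by simp [l]
    simp only [this]
    rw [← map_prod, ← map_add]
    refine Ideal.Quotient.eq_zero_iff_mem.2 (Ideal.subset_span ⟨B, hB'.1, ?_⟩)
    simp [F0, hB'.2]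

omit [Fintype V] [DecidableEq V] in
lemma f_succ (d : ℕ) (A : Finset V) :
    f K (d + 1) A = ∏ i ∈ A, X (i, 0) + rename (Prod.map id Fin.succ) (f K d A) := by
  simp [f, Fin.sum_univ_succ]

/-- the degeneration step -/
theorem step {d : ℕ} (hd : 0 < d) {E M : Finset (Finset V)} (hE : Clutter E)
    (hdis : ∀ A ∈ M, ∀ B ∈ M, A ≠ B → Disjoint A B) (N : ℕ) (u : V → ℕ) (g : Finset V → ℕ)
    (hg : ∀ A ∈ E, g A + ∑ i ∈ A, u i = N * A.card) (hg0 : ∀ A ∈ E, g A = 0 ↔ A ∈ M)
    (hp : ∀ E' ⊆ E \ M, (L K d E').IsPrime) : ∀ E' ⊆ E, (L K (d + 1) E').IsPrime := by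
  let W : Option (V × Fin (d + 1)) → ℕ := fun o => match o with
    | none => 1
    | some p => if p.2 = 0 then u p.1 else N
  let _ := weightedGradedAlgebra K W
  let t : MvPolynomial (Option (V × Fin (d + 1))) K := X none
  let rn : MvPolynomial (V × Fin (d + 1)) K →+* MvPolynomial (Option (V × Fin (d + 1))) K :=
    (rename some : MvPolynomial (V × Fin (d + 1)) K →ₐ[K] _).toRingHom
  let G : Finset V → MvPolynomial (Option (V × Fin (d + 1))) K := fun A =>
    t ^ g A * rn (∏ i ∈ A, X (i, 0)) + rn (rename (Prod.map id Fin.succ) (f K d A))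
  have ht : t ∈ weightedHomogeneousSubmodule K W 1 := isWeightedHomogeneous_X K W none
  have hG : ∀ A ∈ E, G A ∈ weightedHomogeneousSubmodule K W (N * A.card) := by
    intro A hA
    refine add_mem ?_ ?_
    · rw [← hg A hA]
      refine IsWeightedHomogeneous.mul ?_ ?_
      · simpa using (IsWeightedHomogeneous.pow ht (g A))
      · rw [map_prod]
        refine IsWeightedHomogeneous.prod _ _ _ fun i _ => ?_
        simpa [rn, W] using isWeightedHomogeneous_X K W (some (i, 0))
    · simp only [f, map_sum, map_prod]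
      refine sum_mem fun j _ => ?_
      have : N * A.card = ∑ _i ∈ A, N := by simp [mul_comm]
      rw [this]
      refine IsWeightedHomogeneous.prod _ _ _ fun i _ => ?_
      simpa [rn, W] using isWeightedHomogeneous_X K W (some (i, j.succ))
  let J : Finset (Finset V) → Ideal (MvPolynomial (Option (V × Fin (d + 1))) K) := fun E' =>
    Ideal.span (G '' (E' : Set (Finset V)))
  have hJ : ∀ E' ⊆ E, (J E').IsHomogeneous (weightedHomogeneousSubmodule K W) := by
    intro E' h
    refine Ideal.homogeneous_span _ _ ?_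
    rintro _ ⟨A, hA, rfl⟩
    exact ⟨_, hG A (h hA)⟩
  let ev : K → MvPolynomial (Option (V × Fin (d + 1))) K →+* MvPolynomial (V × Fin (d + 1)) K :=
    fun c => eval₂Hom C fun o => o.elim (C c) X
  have ev_rn : ∀ c x, ev c (rn x) = x := by
    intro c x
    induction x using MvPolynomial.induction_on with
    | C a => simp [ev, rn]
    | add p q hp hq => simp only [map_add, hp, hq]
    | mul_X p i hp => simp only [map_mul, hp]; simp [ev, rn]
  have ev_t : ∀ c, ev c t = C c := fun c => by simp [ev, t]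
  have ev0 : ∀ A ∈ E, ev 0 (G A) = F0 K d M A := by
    intro A hA
    simp only [G, map_add, map_mul, map_pow, ev_rn, ev_t, F0]
    by_cases hM : A ∈ M
    · simp [hM, (hg0 A hA).2 hM]
    · simp [hM, mt (hg0 A hA).1 hM]
  have ev1 : ∀ A, ev 1 (G A) = f K (d + 1) A := by
    intro A
    simp only [G, map_add, map_mul, map_pow, ev_rn, ev_t, f_succ]
    simp
  have hJt : ∀ E' ⊆ E, J E' ⊔ Ideal.span {t} =
      (Ideal.span (F0 K d M '' (E' : Set (Finset V)))).comap (ev 0) := by
    intro E' h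
    have h2 : ∀ x, ((Ideal.Quotient.mk (J E' ⊔ Ideal.span {t})).comp rn) (ev 0 x) =
        Ideal.Quotient.mk _ x := by
      intro x
      induction x using MvPolynomial.induction_on with
      | C a => simp [ev, rn]
      | add p q hp hq => simp only [map_add, hp, hq]
      | mul_X p i hp =>
        simp only [map_mul, hp]
        congr 1
        cases i with
        | none =>
          have : Ideal.Quotient.mk (J E' ⊔ Ideal.span {t}) (X none) = 0 :=
            Ideal.Quotient.eq_zero_iff_mem.2 (Ideal.mem_sup_right (Ideal.mem_span_singleton_self t))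
          rw [this]; simp [ev]
        | some p => simp [ev, rn]
    refine transfer (ev 0) _ _ (sup_le (Ideal.span_le.2 ?_) (Ideal.span_le.2 ?_)) _ h2
      (Ideal.span_le.2 ?_)
    · rintro _ ⟨A, hA, rfl⟩
      rw [SetLike.mem_coe, Ideal.mem_comap, ev0 A (h hA)]
      exact Ideal.subset_span ⟨A, hA, rfl⟩
    · rintro _ rfl
      rw [SetLike.mem_coe, Ideal.mem_comap]
      simp [ev_t]
    · rintro _ ⟨A, hA, rfl⟩
      show ((Ideal.Quotient.mk (J E' ⊔ Ideal.span {t})).comp rn) _ = 0
      rw [← ev0 A (h hA), h2]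
      exact Ideal.Quotient.eq_zero_iff_mem.2 (Ideal.mem_sup_left (Ideal.subset_span ⟨A, hA, rfl⟩))
  have hJtp : ∀ E' ⊆ E, (J E' ⊔ Ideal.span {t}).IsPrime := by
    intro E' h
    rw [hJt E' h]
    have := F0_prime hd hE h hdis (hp _ (Finset.sdiff_subset_sdiff h le_rfl))
    exact Ideal.comap_isPrime _ _
  have hmain : ∀ E' ⊆ E, (J E').IsPrime ∧ t ∉ J E' := by
    intro E'
    induction E' using Finset.induction_on with
    | empty =>
      intro _
      have : J ∅ = ⊥ := by simp [J]
      rw [this]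
      exact ⟨Ideal.isPrime_bot, by simp [t]⟩
    | insert A E' hA ih =>
      intro h
      have h' : E' ⊆ E := (Finset.subset_insert _ _).trans h
      have hAE : A ∈ E := h (Finset.mem_insert_self _ _)
      have e1 : J (insert A E') = J E' ⊔ Ideal.span {G A} := by
        simp only [J, Finset.coe_insert, Set.image_insert_eq]
        rw [Ideal.span_insert, sup_comm]
      have hreg : ∀ x, t * x ∈ J (insert A E') → x ∈ J (insert A E') := by
        rw [e1]
        refine swap (ih h').1 (ih h').2 (hJtp E' h') ?_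
        rw [hJt E' h', Ideal.mem_comap, ev0 A hAE]
        exact F0_notMem hd M hE h' hAE hA
      have hpr := (sep_of_homogeneous _ (hJ _ h) one_pos ht).prime hreg (hJtp _ h)
      exact ⟨hpr, fun hm => hpr.ne_top ((Ideal.eq_top_iff_one _).2 (hreg 1 (by simpa using hm)))⟩
  intro E' h
  have hq := dehom_prime _ (hJ E' h) (hmain E' h).1 ht (hmain E' h).2
  rw [transfer rn (J E' ⊔ Ideal.span {t - 1}) (L K (d + 1) E') (Ideal.span_le.2 ?_)
    ((Ideal.Quotient.mk _).comp (ev 1)) (fun x => by simp [ev_rn])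
    (sup_le (Ideal.span_le.2 ?_) (Ideal.span_le.2 ?_))]
  · exact Ideal.comap_isPrime _ _
  · rintro _ ⟨A, hA, rfl⟩
    rw [SetLike.mem_coe, Ideal.mem_comap]
    have h1 : G A ∈ J E' ⊔ Ideal.span {t - 1} := Ideal.mem_sup_left (Ideal.subset_span ⟨A, hA, rfl⟩)
    have h2 : t ^ g A - 1 ∈ J E' ⊔ Ideal.span {t - 1} := Ideal.mem_sup_right
      (Ideal.mem_span_singleton.2 (by simpa using sub_dvd_pow_sub_pow t 1 (g A)))
    convert sub_mem h1 (Ideal.mul_mem_left _ (rn (∏ i ∈ A, X (i, 0))) h2) using 1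
    rw [f_succ, map_add]; simp only [G]; ring
  · rintro _ ⟨A, hA, rfl⟩
    show Ideal.Quotient.mk _ (ev 1 _) = 0
    rw [ev1]
    exact Ideal.Quotient.eq_zero_iff_mem.2 (Ideal.subset_span ⟨A, hA, rfl⟩)
  · rintro _ rfl
    show Ideal.Quotient.mk _ (ev 1 _) = 0
    simp [ev_t]

end Pool.Agent.H20.LSS
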