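import Mathlib

set_option autoImplicit false

namespace Pool.Agent.H20.Mni

open Finset

/-- The covering polyhedron of the minor obtained by deleting `I` and contracting `J`. -/
def Pol {n : ℕ} (C : Finset (Finset (Fin n))) (I J : Finset (Fin n)) : Set (Fin n → ℝ) :=
  {x : Fin n → ℝ | (∀ i, 0 ≤ x i) ∧ (∀ i ∈ I ∪ J, x i = 0) ∧
    ∀ S ∈ C, Disjoint S I → (1 : ℝ) ≤ ∑ i ∈ S, x i}

/-- Key LP lemma: on an integral polyhedron, a point that is tight on a covering family
of members can be replaced by a transversal that meets each tight member once and is no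
worse for a given linear functional. -/
theorem KL {n : ℕ} (C : Finset (Finset (Fin n))) (I J : Finset (Fin n))
    (hint : ∀ x ∈ Set.extremePoints ℝ (Pol C I J), ∀ i : Fin n, ∃ z : ℤ, x i = (z : ℝ))
    (T : Set (Finset (Fin n))) (hT : ∀ L ∈ T, L ∈ C ∧ Disjoint L I)
    (hcov : ∀ i, i ∉ I ∪ J → ∃ L ∈ T, i ∈ L)
    (x : Fin n → ℝ) (hx : x ∈ Pol C I J) (hxT : ∀ L ∈ T, ∑ i ∈ L, x i = 1) (c : Fin n → ℝ) :
    ∃ N : Finset (Fin n), (∀ i ∈ N, i ∉ I ∪ J) ∧ (∀ S ∈ C, Disjoint S I → ∃ i ∈ S, i ∈ N) ∧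
      (∀ L ∈ T, ∀ i ∈ L, ∀ i' ∈ L, i ∈ N → i' ∈ N → i = i') ∧
      ∑ i ∈ N, c i ≤ ∑ i, c i * x i := by
  classical
  set F : Set (Fin n → ℝ) := {z | z ∈ Pol C I J ∧ ∀ L ∈ T, ∑ i ∈ L, z i = 1} with hF
  have hle : ∀ z ∈ F, ∀ i, z i ≤ 1 := by
    intro z hz i
    by_cases hi : i ∈ I ∪ J
    · rw [hz.1.2.1 i hi]; norm_num
    · obtain ⟨L, hL, hiL⟩ := hcov i hi
      rw [← hz.2 L hL]
      exact Finset.single_le_sum (f := fun i => z i) (fun j _ => hz.1.1 j) hiL
  have hFc : IsClosed F := by
    have h1 : IsClosed {z : Fin n → ℝ | ∀ i, 0 ≤ z i} := by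
      simp only [Set.ofPred_forall]
      exact isClosed_iInter fun i => isClosed_le continuous_const (continuous_apply i)
    have h2 : IsClosed {z : Fin n → ℝ | ∀ i ∈ I ∪ J, z i = 0} := by
      simp only [Set.ofPred_forall]
      exact isClosed_iInter fun i => isClosed_iInter fun _ =>
        isClosed_eq (continuous_apply i) continuous_const
    have h3 : IsClosed {z : Fin n → ℝ | ∀ S ∈ C, Disjoint S I → (1 : ℝ) ≤ ∑ i ∈ S, z i} := by
      simp only [Set.ofPred_forall]
      exact isClosed_iInter fun S => isClosed_iInter fun _ => isClosed_iInter fun _ =>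
        isClosed_le continuous_const (continuous_finsetSum _ fun i _ => continuous_apply i)
    have h4 : IsClosed {z : Fin n → ℝ | ∀ L ∈ T, ∑ i ∈ L, z i = 1} := by
      simp only [Set.ofPred_forall]
      exact isClosed_iInter fun S => isClosed_iInter fun _ =>
        isClosed_eq (continuous_finsetSum _ fun i _ => continuous_apply i) continuous_const
    exact (h1.inter (h2.inter h3)).inter h4
  have hFk : IsCompact F := by
    refine (isCompact_Icc (a := (0 : Fin n → ℝ)) (b := 1)).of_isClosed_subset hFc ?_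
    intro z hz
    exact ⟨fun i => hz.1.1 i, fun i => hle z hz i⟩
  set φ : (Fin n → ℝ) → ℝ := fun z => ∑ i, c i * z i with hφ
  have hφc : Continuous φ :=
    continuous_finsetSum _ fun i _ => continuous_const.mul (continuous_apply i)
  obtain ⟨z0, hz0, hmin⟩ := hFk.exists_isMinOn ⟨x, hx, hxT⟩ hφc.continuousOn
  set G : Set (Fin n → ℝ) := {z | z ∈ F ∧ φ z = φ z0} with hG
  have hGk : IsCompact G :=
    hFk.of_isClosed_subset (hFc.inter (isClosed_eq hφc continuous_const)) fun z hz => hz.1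
  have hGe : IsExtreme ℝ (Pol C I J) G := by
    refine ⟨fun z hz => hz.1.1, ?_⟩
    intro u hu v hv z hz hseg
    obtain ⟨a, b, ha, hb, hab, rfl⟩ := hseg
    have key : ∀ L ∈ T, ∑ i ∈ L, u i = 1 ∧ ∑ i ∈ L, v i = 1 := by
      intro L hL
      have h1 := hu.2.2 L (hT L hL).1 (hT L hL).2
      have h2 := hv.2.2 L (hT L hL).1 (hT L hL).2
      have h3 := hz.1.2 L hL
      simp only [Pi.add_apply, Pi.smul_apply, smul_eq_mul, Finset.sum_add_distrib,
        ← Finset.mul_sum] at h3
      constructor <;> nlinarith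
    have huF : u ∈ F := ⟨hu, fun L hL => (key L hL).1⟩
    have hvF : v ∈ F := ⟨hv, fun L hL => (key L hL).2⟩
    have h1 : φ z0 ≤ φ u := hmin huF
    have h2 : φ z0 ≤ φ v := hmin hvF
    have h3 : φ (a • u + b • v) = a * φ u + b * φ v := by
      simp only [hφ, Pi.add_apply, Pi.smul_apply, smul_eq_mul, Finset.mul_sum,
        ← Finset.sum_add_distrib]
      exact Finset.sum_congr rfl fun i _ => by ring
    have h4 := hz.2
    rw [h3] at h4
    refine ⟨huF, ?_⟩
    have : φ z0 = a * φ z0 + b * φ z0 := by rw [← add_mul, hab, one_mul]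
    nlinarith
  obtain ⟨z, hz⟩ := hGk.extremePoints_nonempty ⟨z0, hz0, rfl⟩
  have hzG : z ∈ G := hz.1
  have hzP := hGe.extremePoints_subset_extremePoints hz
  have h01 : ∀ i, z i = 0 ∨ z i = 1 := by
    intro i
    obtain ⟨k, hk⟩ := hint z hzP i
    have h0 := hzG.1.1.1 i
    have h1 := hle z hzG.1 i
    rw [hk] at h0 h1 ⊢
    have h0' : (0 : ℤ) ≤ k := by exact_mod_cast h0
    have h1' : k ≤ 1 := by exact_mod_cast h1
    rcases (by omega : k = 0 ∨ k = 1) with h | h <;> simp [h]
  refine ⟨Finset.univ.filter fun i => z i = 1, ?_, ?_, ?_, ?_⟩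
  · intro i hi hIJ
    have := hzG.1.1.2.1 i hIJ
    simp only [mem_filter, mem_univ, true_and] at hi
    linarith
  · intro S hS hSI
    have h1 := hzG.1.1.2.2 S hS hSI
    by_contra hcon
    push Not at hcon
    have : ∑ i ∈ S, z i = 0 := Finset.sum_eq_zero fun i hi => by
      have := hcon i hi
      simp only [mem_filter, mem_univ, true_and] at this
      exact (h01 i).resolve_right this
    linarith
  · intro L hL i hi i' hi' hiN hiN'
    simp only [mem_filter, mem_univ, true_and] at hiN hiN'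
    by_contra hne
    have h1 := hzG.1.2 L hL
    have h2 : ∑ j ∈ ({i, i'} : Finset (Fin n)), z j ≤ ∑ j ∈ L, z j :=
      Finset.sum_le_sum_of_subset_of_nonneg (by
        intro j hj
        simp only [mem_insert, mem_singleton] at hj
        rcases hj with rfl | rfl <;> assumption) fun j _ _ => hzG.1.1.1 j
    rw [Finset.sum_pair hne] at h2
    linarith
  · have h1 : ∑ i ∈ Finset.univ.filter (fun i => z i = 1), c i = φ z := by
      rw [Finset.sum_filter]
      refine Finset.sum_congr rfl fun i _ => ?_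
      rcases h01 i with h | h <;> simp [h]
    rw [h1, hzG.2]
    exact hmin ⟨hx, hxT⟩

end Pool.Agent.H20.Mni
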