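import Pool.Agent.H20.Mni1

set_option autoImplicit false

namespace Pool.Agent.H20.Mni

open Finset

/-- `L` is a member of minimum size. -/
def IsL {n : ℕ} (C : Finset (Finset (Fin n))) (r : ℕ) (L : Finset (Fin n)) : Prop :=
  L ∈ C ∧ L.card = r

structure Pl {n : ℕ} (C : Finset (Finset (Fin n))) (r : ℕ)
    (ln : Fin n → Fin n → Finset (Fin n)) : Prop where
  four : 4 ≤ r
  big : ∀ S ∈ C, r ≤ S.card
  lnL : ∀ p q, p ≠ q → IsL C r (ln p q)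
  ln1 : ∀ p q, p ≠ q → p ∈ ln p q
  ln2 : ∀ p q, p ≠ q → q ∈ ln p q
  uniq : ∀ {l m : Finset (Fin n)} {p q : Fin n}, IsL C r l → IsL C r m → p ≠ q →
    p ∈ l → q ∈ l → p ∈ m → q ∈ m → l = m
  meet : ∀ l m, IsL C r l → IsL C r m → ∃ p, p ∈ l ∧ p ∈ m
  off : ∀ l, IsL C r l → ∃ p, p ∉ l
  int : ∀ I J : Finset (Fin n), Disjoint I J → (I ∪ J).Nonempty →
    ∀ x ∈ Set.extremePoints ℝ (Pol C I J), ∀ i : Fin n, ∃ z : ℤ, x i = (z : ℝ)

variable {n : ℕ} {C : Finset (Finset (Fin n))} {r : ℕ} {ln : Fin n → Fin n → Finset (Fin n)}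

theorem Pl.KL (h : Pl C r ln) (I J : Finset (Fin n)) (hIJ : Disjoint I J) (hne : (I ∪ J).Nonempty)
    (T : Set (Finset (Fin n))) (hT : ∀ L ∈ T, L ∈ C ∧ Disjoint L I)
    (hcov : ∀ i, i ∉ I ∪ J → ∃ L ∈ T, i ∈ L)
    (x : Fin n → ℝ) (hx : x ∈ Pol C I J) (hxT : ∀ L ∈ T, ∑ i ∈ L, x i = 1)
    (s : ℝ) (E : Finset (Fin n)) :
    ∃ N : Finset (Fin n), (∀ i ∈ N, i ∉ I ∪ J) ∧ (∀ S ∈ C, Disjoint S I → ∃ i ∈ S, i ∈ N) ∧
      (∀ L ∈ T, ∀ i ∈ L, ∀ i' ∈ L, i ∈ N → i' ∈ N → i = i') ∧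
      s * ((N ∩ E).card : ℝ) ≤ s * ∑ i ∈ E, x i := by
  obtain ⟨N, h1, h2, h3, h4⟩ := Mni.KL C I J (h.int I J hIJ hne) T hT hcov x hx hxT
    (fun i => if i ∈ E then s else 0)
  refine ⟨N, h1, h2, h3, ?_⟩
  rw [Finset.sum_ite_mem] at h4
  simp only [ite_mul, zero_mul, Finset.sum_ite_mem, univ_inter, ← Finset.mul_sum,
    Finset.sum_const, nsmul_eq_mul] at h4
  linarith

theorem two_of_card {N E : Finset (Fin n)} (h : ((N ∩ E).card : ℝ) < 2) {p q : Fin n}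
    (hp : p ∈ N) (hq : q ∈ N) (hp' : p ∈ E) (hq' : q ∈ E) : p = q := by
  have h1 : (N ∩ E).card ≤ 1 := by
    have : (N ∩ E).card < 2 := by exact_mod_cast h
    omega
  exact Finset.card_le_one.1 h1 p (mem_inter.2 ⟨hp, hp'⟩) q (mem_inter.2 ⟨hq, hq'⟩)

/-- Every line meets every member. -/
theorem Pl.line_trans (h : Pl C r ln) {L0 : Finset (Fin n)} (hL0 : IsL C r L0) :
    ∀ S ∈ C, ∃ i ∈ S, i ∈ L0 := by
  obtain ⟨j, hj⟩ := h.off L0 hL0
  have hr := h.four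
  have hr1 : (0 : ℝ) < (r : ℝ) - 1 := by
    have : (4 : ℝ) ≤ r := by exact_mod_cast hr
    linarith
  set x : Fin n → ℝ := fun i => if i = j then 0 else 1 / ((r : ℝ) - 1) with hx
  have hsum : ∀ S : Finset (Fin n), ∑ i ∈ S, x i = ((S.erase j).card : ℝ) / ((r : ℝ) - 1) := by
    intro S
    rw [← Finset.sum_erase (f := x) (a := j) S (by simp [hx])]
    rw [Finset.sum_congr rfl (g := fun _ => 1 / ((r : ℝ) - 1))
      (fun i hi => by simp [hx, (mem_erase.1 hi).1])]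
    simp [div_eq_mul_inv]
  obtain ⟨N, h1, h2, h3, h4⟩ := h.KL ∅ {j} (by simp) (by simp) {L | IsL C r L ∧ j ∈ L}
    (fun L hL => ⟨hL.1.1, by simp⟩)
    (fun i hi => by
      have hij : j ≠ i := by rintro rfl; simp at hi
      exact ⟨ln j i, ⟨h.lnL _ _ hij, h.ln1 _ _ hij⟩, h.ln2 _ _ hij⟩)
    x ⟨fun i => by simp only [hx]; split_ifs <;> positivity, fun i hi => by
        have : i = j := by simpa using hi
        simp [hx, this], fun S hS _ => by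
        rw [hsum, le_div_iff₀ hr1]
        have h1 := h.big S hS
        have h2 := Finset.pred_card_le_card_erase (s := S) (a := j)
        have h3 : r ≤ (S.erase j).card + 1 := by omega
        have : (r : ℝ) ≤ (S.erase j).card + 1 := by exact_mod_cast h3
        linarith⟩
    (fun L hL => by
      rw [hsum, Finset.card_erase_of_mem hL.2, hL.1.2, Nat.cast_sub (by omega)]
      simp only [Nat.cast_one]
      exact div_self hr1.ne')
    (-1) L0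
  have hNj : ∀ i ∈ N, j ≠ i := by
    intro i hi e
    exact h1 i hi (by simp [e])
  have h2' : ∀ S ∈ C, ∃ i ∈ S, i ∈ N := fun S hS => h2 S hS (by simp)
  have hcard : 1 < (N ∩ L0).card := by
    rw [hsum, Finset.erase_eq_of_notMem hj, hL0.2] at h4
    have h5 : (1 : ℝ) < (r : ℝ) / ((r : ℝ) - 1) := by
      rw [lt_div_iff₀ hr1]; linarith
    have : (1 : ℝ) < (N ∩ L0).card := by linarith
    exact_mod_cast this
  obtain ⟨p1, hp1, p2, hp2, hp12⟩ := Finset.one_lt_card.1 hcard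
  rw [mem_inter] at hp1 hp2
  have hπ : ∀ y, ∃ t, j ≠ y → t ∈ ln j y ∧ t ∈ L0 := by
    intro y
    by_cases hy : j ≠ y
    · obtain ⟨t, ht⟩ := h.meet _ _ (h.lnL _ _ hy) hL0
      exact ⟨t, fun _ => ht⟩
    · exact ⟨y, fun e => absurd e hy⟩
  choose π hπ using hπ
  have hone : ∀ y ∈ N, ∀ t ∈ N, t ∈ ln j y → t = y := fun y hy t ht hty =>
    h3 _ ⟨h.lnL _ _ (hNj y hy), h.ln1 _ _ (hNj y hy)⟩ t hty y (h.ln2 _ _ (hNj y hy)) ht hy
  have hsub : L0 ⊆ N := by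
    intro p hp
    by_contra hpN
    have hjp1 := hNj p1 hp1.1
    set M := ln j p1 with hM
    have hML := h.lnL _ _ hjp1
    have hzL : ∀ z ∈ M.erase p1, z ∉ L0 := by
      intro z hz hzL
      rw [mem_erase] at hz
      exact hj (h.uniq hML hL0 hz.1 hz.2 (h.ln2 _ _ hjp1) hzL hp1.2 ▸ h.ln1 _ _ hjp1)
    have hpz : ∀ z ∈ M.erase p1, p ≠ z := fun z hz e => hzL z hz (e ▸ hp)
    have hg : ∀ z, ∃ t, z ∈ M.erase p1 → t ∈ ln p z ∧ t ∈ N := by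
      intro z
      by_cases hz : z ∈ M.erase p1
      · obtain ⟨t, ht⟩ := h2' _ (h.lnL _ _ (hpz z hz)).1
        exact ⟨t, fun _ => ht⟩
      · exact ⟨z, fun e => absurd e hz⟩
    choose g hg using hg
    have hgp : ∀ z ∈ M.erase p1, p ≠ g z := fun z hz e => hpN (e ▸ (hg z hz).2)
    have hgL : ∀ z ∈ M.erase p1, g z ∉ L0 := by
      intro z hz hgz
      exact hzL z hz (h.uniq (h.lnL _ _ (hpz z hz)) hL0 (hgp z hz) (h.ln1 _ _ (hpz z hz))
        (hg z hz).1 hp hgz ▸ h.ln2 _ _ (hpz z hz))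
    have hle := Finset.card_le_card_of_injOn (s := M.erase p1) (t := (L0.erase p1).erase p2)
      (fun z => π (g z)) (by
        intro z hz
        have hz' : z ∈ M.erase p1 := hz
        have hN := (hg z hz').2
        have := hπ _ (hNj _ hN)
        simp only [coe_erase, Set.mem_sdiff, mem_coe, Set.mem_singleton_iff]
        refine ⟨⟨this.2, fun e => hgL z hz' ?_⟩, fun e => hgL z hz' ?_⟩
        · rw [← hone _ hN p1 hp1.1 (e ▸ this.1)]; exact hp1.2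
        · rw [← hone _ hN p2 hp2.1 (e ▸ this.1)]; exact hp2.2) (by
        intro z hz z' hz' e
        have hz1 : z ∈ M.erase p1 := hz
        have hz1' : z' ∈ M.erase p1 := hz'
        have hN := (hg z hz1).2
        have hN' := (hg z' hz1').2
        have t1 := hπ _ (hNj _ hN)
        have t2 := hπ _ (hNj _ hN')
        have e' : π (g z) = π (g z') := e
        have hjt : j ≠ π (g z) := fun e => hj (e ▸ t1.2)
        have e1 := h.uniq (h.lnL _ _ (hNj _ hN)) (h.lnL _ _ (hNj _ hN')) hjt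
          (h.ln1 _ _ (hNj _ hN)) t1.1 (h.ln1 _ _ (hNj _ hN')) (e' ▸ t2.1)
        have e2 : g z' = g z := hone _ hN _ hN' (e1 ▸ h.ln2 _ _ (hNj _ hN'))
        have e3 := h.uniq (h.lnL _ _ (hpz z hz1)) (h.lnL _ _ (hpz z' hz1')) (hgp z hz1)
          (h.ln1 _ _ (hpz z hz1)) (hg z hz1).1 (h.ln1 _ _ (hpz z' hz1')) (e2 ▸ (hg z' hz1').1)
        by_contra hne
        have e4 := h.uniq (h.lnL _ _ (hpz z hz1)) hML hne (h.ln2 _ _ (hpz z hz1))
          (e3 ▸ h.ln2 _ _ (hpz z' hz1')) (mem_erase.1 hz1).2 (mem_erase.1 hz1').2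
        have hpM : p ∈ M := by rw [hM, ← e4]; exact h.ln1 _ _ (hpz z hz1)
        exact hpz p (mem_erase.2 ⟨fun e => hpN (e ▸ hp1.1), hpM⟩) rfl)
    rw [Finset.card_erase_of_mem (h.ln2 _ _ hjp1), hML.2,
      Finset.card_erase_of_mem (mem_erase.2 ⟨hp12.symm, hp2.2⟩),
      Finset.card_erase_of_mem hp1.2, hL0.2] at hle
    omega
  intro S hS
  obtain ⟨y, hyS, hyN⟩ := h2' S hS
  have t1 := hπ _ (hNj _ hyN)
  exact ⟨y, hyS, hone _ hyN _ (hsub t1.2) t1.1 ▸ t1.2⟩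

/-- A triangle with vertices `a b c` and opposite sides `A B D`. -/
structure Tri (C : Finset (Finset (Fin n))) (r : ℕ) (a b c : Fin n)
    (A B D : Finset (Fin n)) : Prop where
  hA : IsL C r A
  hB : IsL C r B
  hD : IsL C r D
  bA : b ∈ A
  cA : c ∈ A
  aB : a ∈ B
  cB : c ∈ B
  aD : a ∈ D
  bD : b ∈ D
  aA : a ∉ A
  bB : b ∉ B
  cD : c ∉ D

variable {a b c : Fin n} {A B D : Finset (Fin n)}

theorem Tri.rot (t : Tri C r a b c A B D) : Tri C r b c a B D A :=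
  ⟨t.hB, t.hD, t.hA, t.cB, t.aB, t.bD, t.aD, t.bA, t.cA, t.bB, t.cD, t.aA⟩

theorem Tri.ab (t : Tri C r a b c A B D) : a ≠ b := fun e => t.aA (e ▸ t.bA)
theorem Tri.ac (t : Tri C r a b c A B D) : a ≠ c := fun e => t.aA (e ▸ t.cA)
theorem Tri.bc (t : Tri C r a b c A B D) : b ≠ c := fun e => t.bB (e ▸ t.cB)

theorem Tri.BD (h : Pl C r ln) (t : Tri C r a b c A B D) {y : Fin n} (h1 : y ∈ B) (h2 : y ∈ D) :
    y = a := by
  by_contra hne
  exact t.bB (h.uniq t.hD t.hB hne h2 t.aD h1 t.aB ▸ t.bD)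

theorem Tri.mk' (h : Pl C r ln) (hA : IsL C r A) (hb : b ∈ A) (hc : c ∈ A) (hbc : b ≠ c)
    (ha : a ∉ A) : Tri C r a b c A (ln a c) (ln a b) := by
  have hab : a ≠ b := fun e => ha (e ▸ hb)
  have hac : a ≠ c := fun e => ha (e ▸ hc)
  refine ⟨hA, h.lnL _ _ hac, h.lnL _ _ hab, hb, hc, h.ln1 _ _ hac, h.ln2 _ _ hac, h.ln1 _ _ hab,
    h.ln2 _ _ hab, ha, fun e => ha ?_, fun e => ha ?_⟩
  · exact h.uniq (h.lnL _ _ hac) hA hbc e (h.ln2 _ _ hac) hb hc ▸ h.ln1 _ _ hac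
  · exact h.uniq (h.lnL _ _ hab) hA hbc (h.ln2 _ _ hab) e hb hc ▸ h.ln1 _ _ hab

theorem Tri.apex (h : Pl C r ln) (t : Tri C r a b c A B D) {L : Finset (Fin n)}
    (hL : IsL C r L) (haL : a ∈ L) (hB : L ≠ B) (hD : L ≠ D) :
    ∃ y, y ∈ A ∧ y ∈ L ∧ y ≠ a ∧ ∀ i ∈ L, (i ∈ A ∨ i ∈ B ∨ i ∈ D) → i = a ∨ i = y := by
  obtain ⟨y, hyL, hyA⟩ := h.meet _ _ hL t.hA
  refine ⟨y, hyA, hyL, fun e => t.aA (e ▸ hyA), ?_⟩
  intro i hi hU
  by_contra hcon
  push Not at hcon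
  rcases hU with h1 | h1 | h1
  · exact t.aA (h.uniq hL t.hA hcon.2 hi hyL h1 hyA ▸ haL)
  · exact hB (h.uniq hL t.hB hcon.1 hi haL h1 t.aB)
  · exact hD (h.uniq hL t.hD hcon.1 hi haL h1 t.aD)

theorem Pl.third (h : Pl C r ln) {L : Finset (Fin n)} (hL : IsL C r L) (p q s : Fin n) :
    ∃ y ∈ L, y ≠ p ∧ y ≠ q ∧ y ≠ s := by
  by_contra hcon
  push Not at hcon
  have h1 : L ⊆ {p, q, s} := by
    intro y hy
    simp only [mem_insert, mem_singleton]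
    have := hcon y hy
    tauto
  have h2 := Finset.card_le_card h1
  have h3 : ({p, q, s} : Finset (Fin n)).card ≤ 3 := Finset.card_le_three
  have := hL.2
  have := h.four
  omega

theorem Tri.intA (h : Pl C r ln) (t : Tri C r a b c A B D) {y : Fin n} (hy : y ∈ A)
    (hb : y ≠ b) (hc : y ≠ c) :
    a ≠ y ∧ y ∉ B ∧ y ∉ D ∧ ln a y ≠ B ∧ ln a y ≠ D := by
  have h0 : a ≠ y := fun e => t.aA (e ▸ hy)
  have h1 : y ∉ B := fun e => hc (t.rot.rot.BD h hy e)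
  have h2 : y ∉ D := fun e => hb (t.rot.BD h e hy)
  exact ⟨h0, h1, h2, fun e => h1 (e ▸ h.ln2 _ _ h0), fun e => h2 (e ▸ h.ln2 _ _ h0)⟩

theorem Tri.out (h : Pl C r ln) (t : Tri C r a b c A B D) :
    ∃ w, ¬ (w ∈ A ∨ w ∈ B ∨ w ∈ D) := by
  obtain ⟨y, hy, hb, hc, -⟩ := h.third t.hA b c c
  obtain ⟨h0, h1, h2, h3, h4⟩ := t.intA h hy hb hc
  obtain ⟨y', -, -, -, h5⟩ := t.apex h (h.lnL _ _ h0) (h.ln1 _ _ h0) h3 h4
  obtain ⟨w, hw, hw1, hw2, -⟩ := h.third (h.lnL _ _ h0) a y' y'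
  exact ⟨w, fun e => by have := h5 w hw e; tauto⟩

end Pool.Agent.H20.Mni
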