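import Pool.Agent.H20.Mni2

set_option autoImplicit false

namespace Pool.Agent.H20.Mni

open Finset

variable {n : ℕ} {C : Finset (Finset (Fin n))} {r : ℕ} {ln : Fin n → Fin n → Finset (Fin n)}
variable {a b c : Fin n} {A B D : Finset (Fin n)}

theorem sum_half (U L : Finset (Fin n)) :
    ∑ i ∈ L, (if i ∈ U then (1 / 2 : ℝ) else 0) = ((L ∩ U).card : ℝ) / 2 := by
  rw [Finset.sum_ite_mem]; simp [div_eq_mul_inv]

theorem Tri.apex_card (h : Pl C r ln) (t : Tri C r a b c A B D) {L : Finset (Fin n)}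
    (hL : IsL C r L) (haL : a ∈ L) (hB : L ≠ B) (hD : L ≠ D) {U : Finset (Fin n)}
    (hU : ∀ i, i ∈ U ↔ (i ∈ A ∨ i ∈ B ∨ i ∈ D)) : (L ∩ U).card = 2 := by
  obtain ⟨y, hyA, hyL, hya, hy⟩ := t.apex h hL haL hB hD
  rw [Finset.card_eq_two]
  refine ⟨y, a, hya, ?_⟩
  ext i
  simp only [mem_inter, mem_insert, mem_singleton, hU]
  constructor
  · rintro ⟨h1, h2⟩
    exact (hy i h1 h2).symm
  · rintro (rfl | rfl)
    · exact ⟨hyL, Or.inl hyA⟩
    · exact ⟨haL, Or.inr (Or.inl t.aB)⟩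

/-- Every member meets every triangle in a point that is not a vertex. -/
theorem Tri.trans (h : Pl C r ln) (t : Tri C r a b c A B D) :
    ∀ S ∈ C, ∃ i ∈ S, (i ∈ A ∨ i ∈ B ∨ i ∈ D) ∧ i ≠ a ∧ i ≠ b ∧ i ≠ c := by
  set U := A ∪ B ∪ D with hUdef
  have hU : ∀ i, i ∈ U ↔ (i ∈ A ∨ i ∈ B ∨ i ∈ D) := by
    intro i; simp only [hUdef, mem_union]; tauto
  obtain ⟨w, hw⟩ := t.out h
  have hcov : ∀ {a b c : Fin n} {A B D : Finset (Fin n)}, Tri C r a b c A B D →
      (∃ L, IsL C r L ∧ a ∈ L ∧ L ≠ B ∧ L ≠ D) ∧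
      ∀ y ∈ A, y ≠ b → y ≠ c → ∃ L, (IsL C r L ∧ a ∈ L ∧ L ≠ B ∧ L ≠ D) ∧ y ∈ L := by
    intro a b c A B D t
    have key : ∀ y ∈ A, y ≠ b → y ≠ c → ∃ L, (IsL C r L ∧ a ∈ L ∧ L ≠ B ∧ L ≠ D) ∧ y ∈ L := by
      intro y hy hb hc
      obtain ⟨h0, h1, h2, h3, h4⟩ := t.intA h hy hb hc
      exact ⟨ln a y, ⟨h.lnL _ _ h0, h.ln1 _ _ h0, h3, h4⟩, h.ln2 _ _ h0⟩
    obtain ⟨y, hy, hb, hc, -⟩ := h.third t.hA b c c
    obtain ⟨L, hL, -⟩ := key y hy hb hc
    exact ⟨⟨L, hL⟩, key⟩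
  obtain ⟨N, h1, h2, h3, h4⟩ := h.KL ∅ Uᶜ (by simp) ⟨w, by simpa [hU] using hw⟩
    {L | (IsL C r L ∧ a ∈ L ∧ L ≠ B ∧ L ≠ D) ∨ (IsL C r L ∧ b ∈ L ∧ L ≠ D ∧ L ≠ A) ∨
      (IsL C r L ∧ c ∈ L ∧ L ≠ A ∧ L ≠ B)}
    (fun L hL => ⟨by rcases hL with e | e | e <;> exact e.1.1, by simp⟩)
    (fun i hi => by
      have hi' : i ∈ A ∨ i ∈ B ∨ i ∈ D := (hU i).1 (by simpa using hi)
      by_cases ha : i = a
      · obtain ⟨L, hL⟩ := (hcov t).1
        exact ⟨L, Or.inl hL, ha ▸ hL.2.1⟩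
      by_cases hb : i = b
      · obtain ⟨L, hL⟩ := (hcov t.rot).1
        exact ⟨L, Or.inr (Or.inl hL), hb ▸ hL.2.1⟩
      by_cases hc : i = c
      · obtain ⟨L, hL⟩ := (hcov t.rot.rot).1
        exact ⟨L, Or.inr (Or.inr hL), hc ▸ hL.2.1⟩
      rcases hi' with e | e | e
      · obtain ⟨L, hL, hi⟩ := (hcov t).2 i e hb hc
        exact ⟨L, Or.inl hL, hi⟩
      · obtain ⟨L, hL, hi⟩ := (hcov t.rot).2 i e hc ha
        exact ⟨L, Or.inr (Or.inl hL), hi⟩
      · obtain ⟨L, hL, hi⟩ := (hcov t.rot.rot).2 i e ha hb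
        exact ⟨L, Or.inr (Or.inr hL), hi⟩)
    (fun i => if i ∈ U then (1 / 2 : ℝ) else 0)
    ⟨fun i => by beta_reduce; split_ifs <;> norm_num, fun i hi => by
        have : i ∉ U := by simpa using hi
        simp [this], fun S hS _ => by
        rw [sum_half]
        have : 1 < (S ∩ U).card := by
          by_contra hle
          have hle' := Finset.card_le_one.1 (not_lt.1 hle)
          obtain ⟨u, hu, huA⟩ := h.line_trans t.hA S hS
          obtain ⟨v, hv, hvB⟩ := h.line_trans t.hB S hS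
          obtain ⟨z, hz, hzD⟩ := h.line_trans t.hD S hS
          have e1 := hle' u (mem_inter.2 ⟨hu, (hU _).2 (Or.inl huA)⟩) v
            (mem_inter.2 ⟨hv, (hU _).2 (Or.inr (Or.inl hvB))⟩)
          have e2 := hle' v (mem_inter.2 ⟨hv, (hU _).2 (Or.inr (Or.inl hvB))⟩) z
            (mem_inter.2 ⟨hz, (hU _).2 (Or.inr (Or.inr hzD))⟩)
          have e3 := t.BD h hvB (e2 ▸ hzD)
          exact t.aA (e3 ▸ e1 ▸ huA)
        have : (2 : ℝ) ≤ (S ∩ U).card := by exact_mod_cast this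
        linarith⟩
    (fun L hL => by
      rw [sum_half]
      rcases hL with e | e | e
      · rw [t.apex_card h e.1 e.2.1 e.2.2.1 e.2.2.2 hU]; norm_num
      · rw [t.rot.apex_card h e.1 e.2.1 e.2.2.1 e.2.2.2 (fun i => by rw [hU]; tauto)]; norm_num
      · rw [t.rot.rot.apex_card h e.1 e.2.1 e.2.2.1 e.2.2.2 (fun i => by rw [hU]; tauto)]
        norm_num)
    1 {a, b, c}
  have h5 : ((N ∩ {a, b, c}).card : ℝ) < 2 := by
    rw [sum_half] at h4
    have h6 : (({a, b, c} : Finset (Fin n)) ∩ U).card ≤ 3 :=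
      (Finset.card_le_card inter_subset_left).trans Finset.card_le_three
    have : ((({a, b, c} : Finset (Fin n)) ∩ U).card : ℝ) ≤ 3 := by exact_mod_cast h6
    linarith
  have h2' : ∀ S ∈ C, ∃ i ∈ S, i ∈ N := fun S hS => h2 S hS (by simp)
  have key : ∀ {a b c : Fin n} {A B D : Finset (Fin n)}, Tri C r a b c A B D →
      (∀ L, (IsL C r L ∧ a ∈ L ∧ L ≠ B ∧ L ≠ D) → ∀ i ∈ L, ∀ i' ∈ L, i ∈ N → i' ∈ N → i = i') →
      (a ∈ N → b ∉ N ∧ c ∉ N) → a ∉ N := by
    intro a b c A B D t h3 h4 ha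
    obtain ⟨y, hyA, hyN⟩ := h2' A t.hA.1
    obtain ⟨L, hL, hy⟩ := (hcov t).2 y hyA (fun e => (h4 ha).1 (e ▸ hyN))
      (fun e => (h4 ha).2 (e ▸ hyN))
    exact t.aA (h3 L hL y hy a hL.2.1 hyN ha ▸ hyA)
  have ha : a ∉ N := key t (fun L hL => h3 L (Or.inl hL)) fun ha =>
    ⟨fun hb => t.ab (two_of_card h5 ha hb (by simp) (by simp)),
      fun hc => t.ac (two_of_card h5 ha hc (by simp) (by simp))⟩
  have hb : b ∉ N := key t.rot (fun L hL => h3 L (Or.inr (Or.inl hL))) fun hb =>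
    ⟨fun hc => t.bc (two_of_card h5 hb hc (by simp) (by simp)), fun _ => ha ‹_›⟩
  have hc : c ∉ N := key t.rot.rot (fun L hL => h3 L (Or.inr (Or.inr hL))) fun _ => ⟨ha, hb⟩
  intro S hS
  obtain ⟨i, hiS, hiN⟩ := h2' S hS
  refine ⟨i, hiS, ?_, fun e => ha (e ▸ hiN), fun e => hb (e ▸ hiN), fun e => hc (e ▸ hiN)⟩
  exact (hU i).1 (by simpa using h1 i hiN)

/-- Order three: members inside a triangle contain one end of each side. -/
theorem Tri.ends (h : Pl C r ln) (h4 : r = 4) (t : Tri C r a b c A B D) {S : Finset (Fin n)}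
    (hS : S ∈ C) (hSU : ∀ i ∈ S, i ∈ A ∨ i ∈ B ∨ i ∈ D) : b ∈ S ∨ c ∈ S := by
  obtain ⟨y, hy, hyb, hyc, -⟩ := h.third t.hA b c c
  obtain ⟨y', hy', hyb', hyc', hyy⟩ := h.third t.hA b c y
  have hA : A = {b, c, y, y'} := by
    symm
    apply Finset.eq_of_subset_of_card_le
    · intro i hi
      simp only [mem_insert, mem_singleton] at hi
      rcases hi with rfl | rfl | rfl | rfl
      exacts [t.bA, t.cA, hy, hy']
    · rw [t.hA.2, h4, Finset.card_insert_of_notMem (by simp [t.bc, hyb.symm, hyb'.symm]),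
        Finset.card_insert_of_notMem (by simp [hyc.symm, hyc'.symm]),
        Finset.card_pair hyy.symm]
  have t' := Tri.mk' h t.hA hy hy' hyy.symm t.aA
  obtain ⟨i, hiS, hiU, hia, hiy, hiy'⟩ := t'.trans h S hS
  have key : ∀ z ∈ A, z ≠ b → z ≠ c → i ∈ ln a z → i = z := by
    intro z hz hb hc hi
    obtain ⟨h0, h1, h2, h3, h4⟩ := t.intA h hz hb hc
    obtain ⟨u, -, -, -, h5⟩ := t.apex h (h.lnL _ _ h0) (h.ln1 _ _ h0) h3 h4
    have e1 := (h5 i hi (hSU i hiS)).resolve_left hia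
    have e2 := (h5 z (h.ln2 _ _ h0) (Or.inl hz)).resolve_left h0.symm
    rw [e1, e2]
  rcases hiU with e | e | e
  · rw [hA] at e
    simp only [mem_insert, mem_singleton] at e
    rcases e with e | e | e | e
    · exact Or.inl (e ▸ hiS)
    · exact Or.inr (e ▸ hiS)
    · exact absurd e hiy
    · exact absurd e hiy'
  · exact absurd (key y' hy' hyb' hyc' e) hiy'
  · exact absurd (key y hy hyb hyc e) hiy

theorem Tri.order_three (h : Pl C r ln) (h4 : r = 4) (t : Tri C r a b c A B D) : False := by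
  set U := A ∪ B ∪ D with hUdef
  have hU : ∀ i, i ∈ U ↔ (i ∈ A ∨ i ∈ B ∨ i ∈ D) := by
    intro i; simp only [hUdef, mem_union]; tauto
  set K : Finset (Fin n) := {a, b, c} with hK
  obtain ⟨w, hw⟩ := t.out h
  have hmem : ∀ i, i ∉ Uᶜ ∪ (U \ K) → i = a ∨ i = b ∨ i = c := by
    intro i hi
    simp only [mem_union, mem_compl, mem_sdiff, hK, mem_insert, mem_singleton] at hi
    tauto
  have hdis : ∀ L : Finset (Fin n), L = A ∨ L = B ∨ L = D → Disjoint L Uᶜ := by
    intro L hL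
    rw [Finset.disjoint_left]
    intro i hi
    rw [mem_compl, not_not, hU]
    rcases hL with rfl | rfl | rfl <;> tauto
  have hside : ∀ {a b c : Fin n} {A B D : Finset (Fin n)}, Tri C r a b c A B D →
      (∀ i, i ∈ K ↔ i = a ∨ i = b ∨ i = c) → ((A ∩ K).card : ℝ) / 2 = 1 := by
    intro a b c A B D t hK
    have : A ∩ K = {b, c} := by
      ext i
      simp only [mem_inter, hK, mem_insert, mem_singleton]
      constructor
      · rintro ⟨h1, rfl | rfl | rfl⟩
        · exact absurd h1 t.aA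
        · exact Or.inl rfl
        · exact Or.inr rfl
      · rintro (rfl | rfl)
        · exact ⟨t.bA, by tauto⟩
        · exact ⟨t.cA, by tauto⟩
    rw [this, Finset.card_pair t.bc]; norm_num
  obtain ⟨N, h1, h2, h3, h5⟩ := h.KL Uᶜ (U \ K)
    (by rw [Finset.disjoint_left]; intro i hi hi'; exact (mem_compl.1 hi) (mem_sdiff.1 hi').1)
    ⟨w, by simp only [mem_union, mem_compl, hU]; exact Or.inl hw⟩
    {L | L = A ∨ L = B ∨ L = D}
    (fun L hL => ⟨by rcases hL with rfl | rfl | rfl; exacts [t.hA.1, t.hB.1, t.hD.1], hdis L hL⟩)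
    (fun i hi => by
      rcases hmem i hi with rfl | rfl | rfl
      · exact ⟨B, by simp, t.aB⟩
      · exact ⟨A, by simp, t.bA⟩
      · exact ⟨A, by simp, t.cA⟩)
    (fun i => if i ∈ K then (1 / 2 : ℝ) else 0)
    ⟨fun i => by beta_reduce; split_ifs <;> norm_num, fun i hi => by
        have : i ∉ K := by
          intro hiK
          rcases mem_union.1 hi with e | e
          · apply mem_compl.1 e
            simp only [hK, mem_insert, mem_singleton] at hiK
            rw [hU]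
            rcases hiK with rfl | rfl | rfl
            · exact Or.inr (Or.inl t.aB)
            · exact Or.inl t.bA
            · exact Or.inl t.cA
          · exact (mem_sdiff.1 e).2 hiK
        simp [this], fun S hS hSI => by
        rw [sum_half]
        have hSU : ∀ i ∈ S, i ∈ A ∨ i ∈ B ∨ i ∈ D := by
          intro i hi
          have := Finset.disjoint_left.1 hSI hi
          rwa [mem_compl, not_not, hU] at this
        have e1 := t.ends h h4 hS hSU
        have e2 := t.rot.ends h h4 hS (fun i hi => by have := hSU i hi; tauto)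
        have e3 := t.rot.rot.ends h h4 hS (fun i hi => by have := hSU i hi; tauto)
        have : 1 < (S ∩ K).card := by
          rw [Finset.one_lt_card]
          by_cases ha : a ∈ S
          · rcases e1 with e | e
            · exact ⟨a, by simp [hK, ha], b, by simp [hK, e], t.ab⟩
            · exact ⟨a, by simp [hK, ha], c, by simp [hK, e], t.ac⟩
          · exact ⟨b, by simp [hK, e3.resolve_left ha], c, by simp [hK, e2.resolve_right ha], t.bc⟩
        have : (2 : ℝ) ≤ (S ∩ K).card := by exact_mod_cast this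
        linarith⟩
    (fun L hL => by
      rw [sum_half]
      rcases hL with rfl | rfl | rfl
      · exact hside t (fun i => by simp [hK])
      · exact hside t.rot (fun i => by simp only [hK, mem_insert, mem_singleton]; tauto)
      · exact hside t.rot.rot (fun i => by simp only [hK, mem_insert, mem_singleton]; tauto))
    1 K
  have h6 : ((N ∩ K).card : ℝ) < 2 := by
    rw [sum_half] at h5
    have h6 : (K ∩ K).card ≤ 3 :=
      (Finset.card_le_card inter_subset_left).trans Finset.card_le_three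
    have : ((K ∩ K).card : ℝ) ≤ 3 := by exact_mod_cast h6
    linarith
  have hNK : ∀ i ∈ N, i ∈ K := fun i hi => by simpa [hK] using hmem i (h1 i hi)
  obtain ⟨u, huA, hu⟩ := h2 A t.hA.1 (hdis _ (by simp))
  obtain ⟨v, hvB, hv⟩ := h2 B t.hB.1 (hdis _ (by simp))
  obtain ⟨z, hzD, hz⟩ := h2 D t.hD.1 (hdis _ (by simp))
  have e1 := two_of_card h6 hu hv (hNK _ hu) (hNK _ hv)
  have e2 := two_of_card h6 hv hz (hNK _ hv) (hNK _ hz)
  have e3 := t.BD h hvB (e2 ▸ hzD)
  exact t.aA (e3 ▸ e1 ▸ huA)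

/-- A line avoiding the vertices of a triangle. -/
theorem Tri.gen (h : Pl C r ln) (t : Tri C r a b c A B D) {P z : Fin n} (hP : P ∈ A)
    (hPb : P ≠ b) (hPc : P ≠ c) (hz : z ∉ A) :
    P ≠ z ∧ b ∉ ln P z ∧ c ∉ ln P z := by
  have h0 : P ≠ z := fun e => hz (e ▸ hP)
  refine ⟨h0, fun e => hz ?_, fun e => hz ?_⟩
  · exact h.uniq (h.lnL _ _ h0) t.hA hPb (h.ln1 _ _ h0) e hP t.bA ▸ h.ln2 _ _ h0
  · exact h.uniq (h.lnL _ _ h0) t.hA hPc (h.ln1 _ _ h0) e hP t.cA ▸ h.ln2 _ _ h0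

theorem Tri.count (h : Pl C r ln) (h5 : 5 ≤ r) (t : Tri C r a b c A B D) (N : Finset (Fin n))
    (h1 : ∀ i ∈ N, i ∉ A → i ∉ B ∧ i ∉ D) (h2 : ∀ S ∈ C, ∃ i ∈ S, i ∈ N)
    (h3 : ∀ L, IsL C r L → a ∉ L → b ∉ L → c ∉ L → ∀ i ∈ L, ∀ i' ∈ L, i ∈ N → i' ∈ N → i = i')
    (h4 : ∀ i ∈ N, i ∈ A → i = b ∨ i = c) : False := by
  set s := (A.erase b).erase c with hs
  set Q := N.filter (fun i => i ∉ A) with hQ
  have hsm : ∀ P, P ∈ s ↔ P ≠ c ∧ P ≠ b ∧ P ∈ A := by intro P; simp [hs]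
  have hsc : s.card = r - 2 := by
    rw [hs, Finset.card_erase_of_mem (mem_erase.2 ⟨t.bc.symm, t.cA⟩),
      Finset.card_erase_of_mem t.bA, t.hA.2]
    omega
  have hBc : ((B.erase c).erase a).card = r - 2 := by
    rw [Finset.card_erase_of_mem (mem_erase.2 ⟨t.ac, t.aB⟩),
      Finset.card_erase_of_mem t.cB, t.hB.2]
    omega
  have key := Finset.card_mul_eq_card_mul (s := s) (t := Q) (m := r - 2) (n := r - 3)
    (fun P z => a ∉ ln P z) (by
      intro P hP
      obtain ⟨hPc, hPb, hPA⟩ := (hsm P).1 hP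
      have hPB := (t.intA h hPA hPb hPc).2.1
      have hu : ∀ u ∈ (B.erase c).erase a, P ≠ u ∧ a ∉ ln P u ∧ b ∉ ln P u ∧ c ∉ ln P u := by
        intro u hu
        simp only [mem_erase] at hu
        have huA : u ∉ A := fun e => hu.2.1 (t.rot.rot.BD h e hu.2.2)
        obtain ⟨g1, g2, g3⟩ := t.gen h hPA hPb hPc huA
        refine ⟨g1, fun e => hPB ?_, g2, g3⟩
        exact h.uniq (h.lnL _ _ g1) t.hB hu.1 (h.ln2 _ _ g1) e hu.2.2 t.aB ▸ h.ln1 _ _ g1
      have hg : ∀ u, ∃ z, u ∈ (B.erase c).erase a → z ∈ ln P u ∧ z ∈ N := by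
        intro u
        by_cases hu' : u ∈ (B.erase c).erase a
        · obtain ⟨z, hz⟩ := h2 _ (h.lnL _ _ (hu u hu').1).1
          exact ⟨z, fun _ => hz⟩
        · exact ⟨u, fun e => absurd e hu'⟩
      choose g hg using hg
      have hgA : ∀ u ∈ (B.erase c).erase a, g u ∉ A := by
        intro u hu' e
        rcases h4 _ (hg u hu').2 e with e' | e'
        · exact (hu u hu').2.2.1 (e' ▸ (hg u hu').1)
        · exact (hu u hu').2.2.2 (e' ▸ (hg u hu').1)
      have hgl : ∀ u ∈ (B.erase c).erase a, ln P (g u) = ln P u := by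
        intro u hu'
        have g1 : P ≠ g u := fun e => hgA u hu' (e ▸ hPA)
        exact h.uniq (h.lnL _ _ g1) (h.lnL _ _ (hu u hu').1) g1 (h.ln1 _ _ g1) (h.ln2 _ _ g1)
          (h.ln1 _ _ (hu u hu').1) (hg u hu').1
      rw [← hBc]
      symm
      refine Finset.card_bij (fun u _ => g u) ?_ ?_ ?_
      · intro u hu'
        rw [Finset.mem_bipartiteAbove]
        refine ⟨mem_filter.2 ⟨(hg u hu').2, hgA u hu'⟩, ?_⟩
        rw [hgl u hu']; exact (hu u hu').2.1
      · intro u hu1 u' hu2 e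
        have e' : g u = g u' := e
        have e1 : ln P u = ln P u' := by rw [← hgl u hu1, ← hgl u' hu2, e']
        by_contra hne
        have e2 := h.uniq (h.lnL _ _ (hu u hu1).1) t.hB hne (h.ln2 _ _ (hu u hu1).1)
          (e1 ▸ h.ln2 _ _ (hu u' hu2).1) (mem_erase.1 (mem_erase.1 hu1).2).2
          (mem_erase.1 (mem_erase.1 hu2).2).2
        exact (hu u hu1).2.1 (e2 ▸ t.aB)
      · intro z hz
        rw [Finset.mem_bipartiteAbove] at hz
        obtain ⟨hzQ, hza⟩ := hz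
        obtain ⟨hzN, hzA⟩ := mem_filter.1 hzQ
        obtain ⟨g1, g2, g3⟩ := t.gen h hPA hPb hPc hzA
        obtain ⟨u, hu1, hu2⟩ := h.meet _ _ (h.lnL _ _ g1) t.hB
        have hu' : u ∈ (B.erase c).erase a :=
          mem_erase.2 ⟨fun e => hza (e ▸ hu1), mem_erase.2 ⟨fun e => g3 (e ▸ hu1), hu2⟩⟩
        have e1 : ln P u = ln P z := h.uniq (h.lnL _ _ (hu u hu').1) (h.lnL _ _ g1) (hu u hu').1
          (h.ln1 _ _ (hu u hu').1) (h.ln2 _ _ (hu u hu').1) (h.ln1 _ _ g1) hu1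
        exact ⟨u, hu', h3 _ (h.lnL _ _ g1) hza g2 g3 _ (e1 ▸ (hg u hu').1) _ (h.ln2 _ _ g1)
          (hg u hu').2 hzN⟩) (by
      intro z hz
      obtain ⟨hzN, hzA⟩ := mem_filter.1 hz
      obtain ⟨hzB, hzD⟩ := h1 z hzN hzA
      have haz : a ≠ z := fun e => hzB (e ▸ t.aB)
      obtain ⟨p, hp1, hp2⟩ := h.meet _ _ (h.lnL _ _ haz) t.hA
      have hps : p ∈ s := by
        refine (hsm p).2 ⟨fun e => hzB ?_, fun e => hzD ?_, hp2⟩
        · exact h.uniq (h.lnL _ _ haz) t.hB t.ac (h.ln1 _ _ haz) (e ▸ hp1) t.aB t.cB ▸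
            h.ln2 _ _ haz
        · exact h.uniq (h.lnL _ _ haz) t.hD t.ab (h.ln1 _ _ haz) (e ▸ hp1) t.aD t.bD ▸
            h.ln2 _ _ haz
      have : s.bipartiteBelow (fun P z => a ∉ ln P z) z = s.erase p := by
        ext P
        rw [Finset.mem_bipartiteBelow, mem_erase (b := p)]
        constructor
        · rintro ⟨hP, ha⟩
          refine ⟨fun e => ha ?_, hP⟩
          have g1 : P ≠ z := fun e => hzA (e ▸ ((hsm P).1 hP).2.2)
          exact h.uniq (h.lnL _ _ haz) (h.lnL _ _ g1) g1 (e ▸ hp1) (h.ln2 _ _ haz)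
            (h.ln1 _ _ g1) (h.ln2 _ _ g1) ▸ h.ln1 _ _ haz
        · rintro ⟨hne, hP⟩
          refine ⟨hP, fun ha => t.aA ?_⟩
          have g1 : P ≠ z := fun e => hzA (e ▸ ((hsm P).1 hP).2.2)
          have e1 := h.uniq (h.lnL _ _ haz) (h.lnL _ _ g1) haz (h.ln1 _ _ haz) (h.ln2 _ _ haz)
            ha (h.ln2 _ _ g1)
          exact h.uniq (h.lnL _ _ g1) t.hA hne (h.ln1 _ _ g1) (e1 ▸ hp1) ((hsm P).1 hP).2.2 hp2 ▸ ha
      rw [this, Finset.card_erase_of_mem hps, hsc]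
      omega)
  rw [hsc] at key
  obtain ⟨k, rfl⟩ : ∃ k, r = k + 3 := ⟨r - 3, by omega⟩
  have e1 : k + 3 - 2 = k + 1 := by omega
  have e2 : k + 3 - 3 = k := by omega
  rw [e1, e2] at key
  have h6 : k ∣ 1 := by
    have h7 : k ∣ (k + 1) * (k + 1) := key ▸ Dvd.intro_left _ rfl
    have h8 : (k + 1) * (k + 1) = k * (k + 2) + 1 := by ring
    rw [h8] at h7
    exact (Nat.dvd_add_right (Dvd.intro _ rfl)).1 h7
  have := Nat.le_of_dvd one_pos h6
  omega

theorem sum_eq_of (k : ℝ) (x : Fin n → ℝ) (E : Finset (Fin n)) (hE : ∀ i ∈ E, x i = k) :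
    ∑ i ∈ E, x i = E.card * k := by
  rw [Finset.sum_congr rfl hE]; simp

theorem Tri.order_big (h : Pl C r ln) (h5 : 5 ≤ r) (t : Tri C r a b c A B D) : False := by
  set k : ℝ := (r : ℝ) - 2 with hk
  have hk3 : 3 ≤ k := by
    have : (5 : ℝ) ≤ r := by exact_mod_cast h5
    linarith
  have hk0 : 0 < k := by linarith
  have hkc : ((r - 2 : ℕ) : ℝ) = k := by rw [Nat.cast_sub (by omega)]; simp [hk]
  set x : Fin n → ℝ := fun i => if i = a then (k - 2) / k else if i = b ∨ i = c then 2 / k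
    else if i ∈ B ∨ i ∈ D then 0 else 1 / k with hx
  have hx0 : ∀ i, 0 ≤ x i := by
    intro i
    have : 0 ≤ k - 2 := by linarith
    simp only [hx]; split_ifs <;> positivity
  have hxa : x a = (k - 2) / k := by simp [hx]
  have hxb : x b = 2 / k := by simp [hx, t.ab.symm]
  have hxc : x c = 2 / k := by simp [hx, t.ac.symm]
  have hx1 : ∀ i, i ∉ B → i ∉ D → x i = 1 / k := by
    intro i hB hD
    have h1 : i ≠ a := fun e => hB (e ▸ t.aB)
    have h2 : i ≠ b := fun e => hD (e ▸ t.bD)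
    have h3 : i ≠ c := fun e => hB (e ▸ t.cB)
    simp [hx, h1, h2, h3, hB, hD]
  have hxz : ∀ i, i ≠ a → i ≠ b → i ≠ c → i ∈ B ∨ i ∈ D → x i = 0 := by
    intro i h1 h2 h3 h4
    simp [hx, h1, h2, h3, h4]
  set J := (B ∪ D) \ {a, b, c} with hJ
  have hJm : ∀ i, i ∈ ∅ ∪ J ↔ (i ∈ B ∨ i ∈ D) ∧ i ≠ a ∧ i ≠ b ∧ i ≠ c := by
    intro i; simp [hJ, not_or]
  set s := (A.erase b).erase c with hs
  have hsm : ∀ P, P ∈ s ↔ P ≠ c ∧ P ≠ b ∧ P ∈ A := by intro P; simp [hs]
  have hsc : s.card = r - 2 := by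
    rw [hs, Finset.card_erase_of_mem (mem_erase.2 ⟨t.bc.symm, t.cA⟩),
      Finset.card_erase_of_mem t.bA, t.hA.2]
    omega
  -- points of a line through the apex
  have hap : ∀ P ∈ A, P ≠ b → P ≠ c → ∀ z ∈ ln a P, z ≠ a → z ∉ B ∧ z ∉ D ∧ (z ∈ A → z = P) := by
    intro P hP hb hc z hz hza
    obtain ⟨g0, g1, g2, g3, g4⟩ := t.intA h hP hb hc
    obtain ⟨u, huA, -, -, g5⟩ := t.apex h (h.lnL _ _ g0) (h.ln1 _ _ g0) g3 g4
    have e2 := (g5 P (h.ln2 _ _ g0) (Or.inl hP)).resolve_left g0.symm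
    refine ⟨fun e => g1 ?_, fun e => g2 ?_, fun e => ?_⟩
    · rw [e2, ← (g5 z hz (Or.inr (Or.inl e))).resolve_left hza]; exact e
    · rw [e2, ← (g5 z hz (Or.inr (Or.inr e))).resolve_left hza]; exact e
    · rw [e2, (g5 z hz (Or.inl e)).resolve_left hza]
  have hab : (k - 2) / k + 2 / k = 1 := by field_simp; ring
  have hpair : ∀ (S : Finset (Fin n)) (u v : Fin n), u ≠ v → u ∈ S → v ∈ S →
      x u + x v ≤ ∑ i ∈ S, x i := by
    intro S u v huv hu hv
    rw [← Finset.sum_pair huv]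
    exact Finset.sum_le_sum_of_subset_of_nonneg (by
      intro j hj
      simp only [mem_insert, mem_singleton] at hj
      rcases hj with rfl | rfl <;> assumption) fun j _ _ => hx0 j
  obtain ⟨w, hwB, hwa, hwc, -⟩ := h.third t.hB a c c
  obtain ⟨N, h1, h2, h3, h4⟩ := h.KL ∅ J (by simp)
    ⟨w, (hJm w).2 ⟨Or.inl hwB, hwa, fun e => t.bB (e ▸ hwB), hwc⟩⟩
    {L | IsL C r L ∧ (L = B ∨ L = D ∨ (a ∉ L ∧ b ∉ L ∧ c ∉ L))}
    (fun L hL => ⟨hL.1.1, by simp⟩)
    (fun i hi => by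
      by_cases hB : i ∈ B
      · exact ⟨B, ⟨t.hB, Or.inl rfl⟩, hB⟩
      by_cases hD : i ∈ D
      · exact ⟨D, ⟨t.hD, Or.inr (Or.inl rfl)⟩, hD⟩
      by_cases hA : i ∈ A
      · have hb : i ≠ b := fun e => hD (e ▸ t.bD)
        have hc : i ≠ c := fun e => hB (e ▸ t.cB)
        have hwA : w ∉ A := fun e => hwc (t.rot.rot.BD h e hwB)
        obtain ⟨g1, g2, g3⟩ := t.gen h hA hb hc hwA
        refine ⟨ln i w, ⟨h.lnL _ _ g1, Or.inr (Or.inr ⟨fun e => hB ?_, g2, g3⟩)⟩, h.ln1 _ _ g1⟩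
        exact h.uniq (h.lnL _ _ g1) t.hB hwa (h.ln2 _ _ g1) e hwB t.aB ▸ h.ln1 _ _ g1
      · have hai : a ≠ i := fun e => hB (e ▸ t.aB)
        obtain ⟨p, hp1, hp2⟩ := h.meet _ _ (h.lnL _ _ hai) t.hA
        obtain ⟨P, hP, hPb, hPc, hPp⟩ := h.third t.hA b c p
        obtain ⟨g1, g2, g3⟩ := t.gen h hP hPb hPc hA
        refine ⟨ln P i, ⟨h.lnL _ _ g1, Or.inr (Or.inr ⟨fun e => t.aA ?_, g2, g3⟩)⟩, h.ln2 _ _ g1⟩
        have e1 := h.uniq (h.lnL _ _ hai) (h.lnL _ _ g1) hai (h.ln1 _ _ hai) (h.ln2 _ _ hai)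
          e (h.ln2 _ _ g1)
        exact h.uniq (h.lnL _ _ g1) t.hA hPp (h.ln1 _ _ g1) (e1 ▸ hp1) hP hp2 ▸ e)
    x ⟨hx0, fun i hi => by
        obtain ⟨g1, g2, g3, g4⟩ := (hJm i).1 hi
        exact hxz i g2 g3 g4 g1, fun S hS _ => by
        by_cases ha : a ∈ S
        · by_cases hb : b ∈ S
          · have := hpair S a b t.ab ha hb
            rw [hxa, hxb] at this; linarith
          by_cases hc : c ∈ S
          · have := hpair S a c t.ac ha hc
            rw [hxa, hxc] at this; linarith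
          obtain ⟨P0, hP0S, hP0⟩ := h.line_trans t.hA S hS
          have hP0b : P0 ≠ b := fun e => hb (e ▸ hP0S)
          have hP0c : P0 ≠ c := fun e => hc (e ▸ hP0S)
          obtain ⟨P1, hP1, hP1b, hP1c, hP10⟩ := h.third t.hA b c P0
          have t' := Tri.mk' h t.hA hP0 hP1 hP10.symm t.aA
          obtain ⟨p, hpS, hpU, hpa, hp0, hp1⟩ := t'.trans h S hS
          have hp : p ∉ B ∧ p ∉ D := by
            rcases hpU with e | e | e
            · have := t.intA h e (fun e => hb (e ▸ hpS)) (fun e => hc (e ▸ hpS))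
              exact ⟨this.2.1, this.2.2.1⟩
            · have := hap P1 hP1 hP1b hP1c p e hpa
              exact ⟨this.1, this.2.1⟩
            · have := hap P0 hP0 hP0b hP0c p e hpa
              exact ⟨this.1, this.2.1⟩
          have g := t.intA h hP0 hP0b hP0c
          have e1 := hpair (S.erase a) p P0 hp0 (mem_erase.2 ⟨hpa, hpS⟩)
            (mem_erase.2 ⟨g.1.symm, hP0S⟩)
          rw [hx1 p hp.1 hp.2, hx1 P0 g.2.1 g.2.2.1] at e1
          rw [← Finset.add_sum_erase S x ha, hxa]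
          have : 1 / k + 1 / k = 2 / k := by ring
          linarith
        · have hg : ∀ P, ∃ z, P ∈ s → z ∈ S ∧ z ∈ ln a P := by
            intro P
            by_cases hP : P ∈ s
            · obtain ⟨hPc, hPb, hPA⟩ := (hsm P).1 hP
              obtain ⟨z, hz⟩ := h.line_trans (h.lnL _ _ (t.intA h hPA hPb hPc).1) S hS
              exact ⟨z, fun _ => hz⟩
            · exact ⟨P, fun e => absurd e hP⟩
          choose g hg using hg
          have hga : ∀ P ∈ s, g P ≠ a := fun P hP e => ha (e ▸ (hg P hP).1)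
          have hinj : Set.InjOn g s := by
            intro P hP P' hP' e
            obtain ⟨hPc, hPb, hPA⟩ := (hsm P).1 hP
            obtain ⟨hPc', hPb', hPA'⟩ := (hsm P').1 hP'
            have g1 := (t.intA h hPA hPb hPc).1
            have g2 := (t.intA h hPA' hPb' hPc').1
            have e1 := h.uniq (h.lnL _ _ g1) (h.lnL _ _ g2) (hga P hP) (hg P hP).2
              (h.ln1 _ _ g1) (e ▸ (hg P' hP').2) (h.ln1 _ _ g2)
            exact (hap P' hPA' hPb' hPc' P (e1 ▸ h.ln2 _ _ g1) g1.symm).2.2 hPA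
          have e1 : ∑ i ∈ s.image g, x i ≤ ∑ i ∈ S, x i :=
            Finset.sum_le_sum_of_subset_of_nonneg (by
              intro j hj
              obtain ⟨P, hP, rfl⟩ := mem_image.1 hj
              exact (hg P hP).1) fun j _ _ => hx0 j
          rw [sum_eq_of (1 / k) x _ (by
              intro j hj
              obtain ⟨P, hP, rfl⟩ := mem_image.1 hj
              obtain ⟨hPc, hPb, hPA⟩ := (hsm P).1 hP
              have := hap P hPA hPb hPc _ (hg P hP).2 (hga P hP)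
              exact hx1 _ this.1 this.2.1),
            Finset.card_image_of_injOn hinj, hsc, hkc] at e1
          have : k * (1 / k) = 1 := by field_simp
          linarith⟩
    (fun L hL => by
      rcases hL.2 with rfl | rfl | ⟨ha, hb, hc⟩
      · rw [← hab, ← hxa, ← hxc, ← Finset.sum_pair t.ac]
        symm
        refine Finset.sum_subset (by
          intro j hj
          simp only [mem_insert, mem_singleton] at hj
          rcases hj with rfl | rfl
          exacts [t.aB, t.cB]) fun j hj hj' => ?_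
        simp only [mem_insert, mem_singleton, not_or] at hj'
        exact hxz j hj'.1 (fun e => t.bB (e ▸ hj)) hj'.2 (Or.inl hj)
      · rw [← hab, ← hxa, ← hxb, ← Finset.sum_pair t.ab]
        symm
        refine Finset.sum_subset (by
          intro j hj
          simp only [mem_insert, mem_singleton] at hj
          rcases hj with rfl | rfl
          exacts [t.aD, t.bD]) fun j hj hj' => ?_
        simp only [mem_insert, mem_singleton, not_or] at hj'
        exact hxz j hj'.1 hj'.2 (fun e => t.cD (e ▸ hj)) (Or.inr hj)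
      · obtain ⟨u, huL, huB⟩ := h.meet _ _ hL.1 t.hB
        obtain ⟨v, hvL, hvD⟩ := h.meet _ _ hL.1 t.hD
        have huv : u ≠ v := fun e => ha (t.BD h huB (e ▸ hvD) ▸ huL)
        have hz : ∀ j ∈ L, j ∈ B ∨ j ∈ D → x j = 0 := fun j hj =>
          hxz j (fun e => ha (e ▸ hj)) (fun e => hb (e ▸ hj)) (fun e => hc (e ▸ hj))
        rw [← Finset.sum_erase L (hz u huL (Or.inl huB)),
          ← Finset.sum_erase (L.erase u) (hz v hvL (Or.inr hvD)), sum_eq_of (1 / k) x _ (by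
            intro j hj
            simp only [mem_erase] at hj
            exact hx1 j (fun e => ha (h.uniq hL.1 t.hB hj.2.1 hj.2.2 huL e huB ▸ t.aB))
              (fun e => ha (h.uniq hL.1 t.hD hj.1 hj.2.2 hvL e hvD ▸ t.aD))),
          Finset.card_erase_of_mem (mem_erase.2 ⟨huv.symm, hvL⟩), Finset.card_erase_of_mem huL,
          hL.1.2, show r - 1 - 1 = r - 2 by omega, hkc]
        field_simp)
    1 (insert a s)
  have has : a ∉ s := fun e => t.aA ((hsm a).1 e).2.2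
  have h6 : ((N ∩ insert a s).card : ℝ) < 2 := by
    rw [Finset.sum_insert has, hxa, sum_eq_of (1 / k) x _ (by
      intro P hP
      obtain ⟨hPc, hPb, hPA⟩ := (hsm P).1 hP
      have := t.intA h hPA hPb hPc
      exact hx1 P this.2.1 this.2.2.1), hsc, hkc] at h4
    have e1 : k * (1 / k) = 1 := by field_simp
    have e2 : 0 < 2 / k := by positivity
    linarith
  have h2' : ∀ S ∈ C, ∃ i ∈ S, i ∈ N := fun S hS => h2 S hS (by simp)
  have h3' : ∀ L, IsL C r L → a ∉ L → b ∉ L → c ∉ L →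
      ∀ i ∈ L, ∀ i' ∈ L, i ∈ N → i' ∈ N → i = i' :=
    fun L hL ha hb hc => h3 L ⟨hL, Or.inr (Or.inr ⟨ha, hb, hc⟩)⟩
  by_cases hcase : ∃ P ∈ s, P ∈ N
  · obtain ⟨P0, hP0, hP0N⟩ := hcase
    have haN : a ∉ N := fun e =>
      has (two_of_card h6 e hP0N (by simp) (mem_insert_of_mem hP0) ▸ hP0)
    obtain ⟨hPc, hPb, hPA⟩ := (hsm P0).1 hP0
    obtain ⟨P1, hP1, hP1b, hP1c, hP10⟩ := h.third t.hA b c P0
    have g1 := (t.intA h hP1 hP1b hP1c).1
    obtain ⟨z, hz, hzN⟩ := h2' _ (h.lnL _ _ g1).1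
    have hza : z ≠ a := fun e => haN (e ▸ hzN)
    have hzA : z ∉ A := fun e => by
      have e1 := (hap P1 hP1 hP1b hP1c z hz hza).2.2 e
      exact hP10 (two_of_card h6 (e1 ▸ hzN) hP0N
        (mem_insert_of_mem ((hsm P1).2 ⟨hP1c, hP1b, hP1⟩)) (mem_insert_of_mem hP0))
    obtain ⟨g2, g3, g4⟩ := t.gen h hPA hPb hPc hzA
    have g5 : a ∉ ln P0 z := fun e => by
      have e1 := h.uniq (h.lnL _ _ g2) (h.lnL _ _ g1) hza (h.ln2 _ _ g2) e hz (h.ln1 _ _ g1)
      exact hP10 ((hap P1 hP1 hP1b hP1c P0 (e1 ▸ h.ln1 _ _ g2)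
        (fun e => t.aA (e ▸ hPA))).2.2 hPA).symm
    exact g2 (h3' _ (h.lnL _ _ g2) g5 g3 g4 _ (h.ln1 _ _ g2) _ (h.ln2 _ _ g2) hP0N hzN)
  · have h4' : ∀ i ∈ N, i ∈ A → i = b ∨ i = c := by
      intro i hi hA
      by_contra hcon
      push Not at hcon
      exact hcase ⟨i, (hsm i).2 ⟨hcon.2, hcon.1, hA⟩, hi⟩
    have haN : a ∉ N := fun e => by
      obtain ⟨y, hyA, hyN⟩ := h2' A t.hA.1
      rcases h4' y hyN hyA with rfl | rfl
      · exact t.ab (h3 D ⟨t.hD, Or.inr (Or.inl rfl)⟩ _ t.aD _ t.bD e hyN)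
      · exact t.ac (h3 B ⟨t.hB, Or.inl rfl⟩ _ t.aB _ t.cB e hyN)
    refine t.count h h5 N (fun i hi hA => ?_) h2' h3' h4'
    have := h1 i hi
    rw [hJm] at this
    have g1 : i ≠ a := fun e => haN (e ▸ hi)
    have g2 : i ≠ b := fun e => hA (e ▸ t.bA)
    have g3 : i ≠ c := fun e => hA (e ▸ t.cA)
    tauto

theorem Pl.false (h : Pl C r ln) {A : Finset (Fin n)} (hA : IsL C r A) : False := by
  obtain ⟨a, ha⟩ := h.off A hA
  obtain ⟨b, hb, -⟩ := h.third hA a a a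
  obtain ⟨c, hc, hcb, -⟩ := h.third hA b b b
  have t := Tri.mk' h hA hb hc hcb.symm ha
  rcases h.four.eq_or_lt with e | e
  · exact t.order_three h e.symm
  · exact t.order_big h e

end Pool.Agent.H20.Mni
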