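import Pool.Agent.H29.BBL

set_option autoImplicit false

open Set MeasureTheory Filter
open scoped ENNReal

namespace Pool.Agent.H20.PL

lemma amgm {A B C : ℝ≥0∞} (h : ENNReal.ofReal (1 / 2) * A + ENNReal.ofReal (1 - 1 / 2) * B ≤ C) :
    A * B ≤ C ^ 2 := by
  rcases eq_or_ne C ⊤ with rfl | hC
  · simp
  have h2 : ENNReal.ofReal (1 / 2) ≠ 0 := by simp
  rw [show (1 - 1 / 2 : ℝ) = 1 / 2 by norm_num] at h
  have hA : A ≠ ⊤ := fun e => by simp [e, hC] at h
  have hB : B ≠ ⊤ := fun e => by simp [e, hC] at h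
  lift A to NNReal using hA
  lift B to NNReal using hB
  lift C to NNReal using hC
  rw [show ENNReal.ofReal (1 / 2) = ((1 / 2 : NNReal) : ℝ≥0∞) by
    rw [← ENNReal.ofReal_coe_nnreal]; norm_num] at h
  have h' : (1 / 2 : ℝ) * A + 1 / 2 * B ≤ C := by exact_mod_cast h
  have : (A : ℝ) * B ≤ C ^ 2 := by nlinarith [A.2, B.2, sq_nonneg ((A : ℝ) - B)]
  exact_mod_cast this

lemma pl_bdd {f g h : ℝ → ℝ} (mf : Measurable f) (mg : Measurable g) (mh : Measurable h)
    (f0 : ∀ x, 0 ≤ f x) (g0 : ∀ x, 0 ≤ g x) (h0 : ∀ x, 0 ≤ h x) {M : ℝ} (fM : ∀ x, f x ≤ M)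
    (gM : ∀ x, g x ≤ M) (H : ∀ x y, f x * g y ≤ h ((x + y) / 2) ^ 2) :
    (∫⁻ x, ENNReal.ofReal (f x)) * (∫⁻ x, ENNReal.ofReal (g x)) ≤
      (∫⁻ x, ENNReal.ofReal (h x)) ^ 2 := by
  by_cases fp : ∫⁻ x, ENNReal.ofReal (f x) = 0
  · simp [fp]
  by_cases gp : ∫⁻ x, ENNReal.ofReal (g x) = 0
  · simp [gp]
  obtain ⟨α, a0, a1, a2⟩ := H29.BBL.sup_root 2 two_ne_zero fM fp
  obtain ⟨β, b0, b1, b2⟩ := H29.BBL.sup_root 2 two_ne_zero gM gp
  have := amgm (H29.BBL.norm1 (f := fun x => α ^ 2 * f x) (g := fun x => β ^ 2 * g x)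
    (h := fun x => α * β * h x) (by fun_prop) (by fun_prop) (by fun_prop)
    (fun x => by have := f0 x; positivity) (fun x => by have := g0 x; positivity)
    (fun x => by have := h0 x; positivity) a1 b1 a2 b2 (t := 1 / 2) (by norm_num) (by norm_num)
    (fun s hs x y hx hy => by
      rw [show 1 / 2 * x + (1 - 1 / 2) * y = (x + y) / 2 by ring]
      have h1 := h0 ((x + y) / 2)
      refine (pow_le_pow_iff_left₀ hs.le (by positivity) two_ne_zero).1 ?_
      calc s ^ 2 = s * s := sq s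
        _ ≤ α ^ 2 * f x * (β ^ 2 * g y) := mul_le_mul hx.le hy.le hs.le (hs.trans hx).le
        _ = (α * β) ^ 2 * (f x * g y) := by ring
        _ ≤ (α * β) ^ 2 * h ((x + y) / 2) ^ 2 := by gcongr; exact H x y
        _ = _ := by ring))
  simp only [ENNReal.ofReal_mul (pow_pos a0 2).le, ENNReal.ofReal_mul (pow_pos b0 2).le,
    ENNReal.ofReal_mul (mul_pos a0 b0).le, lintegral_const_mul' _ _ ENNReal.ofReal_ne_top] at this
  rw [mul_mul_mul_comm, mul_pow, ← ENNReal.ofReal_mul (pow_pos a0 2).le,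
    ← ENNReal.ofReal_pow (mul_pos a0 b0).le, mul_pow α] at this
  exact (ENNReal.mul_le_mul_iff_right (by simp; positivity) ENNReal.ofReal_ne_top).1 this

lemma trunc {f : ℝ → ℝ≥0∞} (mf : Measurable f) : ∫⁻ x, f x = ⨆ n : ℕ, ∫⁻ x, min (f x) n := by
  rw [← lintegral_iSup (fun n => mf.min measurable_const)
    (fun n m h x => min_le_min_left _ (by exact_mod_cast h))]
  congr 1; ext x
  rw [← inf_iSup_eq, ENNReal.iSup_natCast, inf_top_eq]

/-- The Prekopa-Leindler inequality on the line. -/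
lemma pl1 {f g h : ℝ → ℝ≥0∞} (mf : Measurable f) (mg : Measurable g) (mh : Measurable h)
    (H : ∀ x y, f x * g y ≤ h ((x + y) / 2) ^ 2) :
    (∫⁻ x, f x) * (∫⁻ x, g x) ≤ (∫⁻ x, h x) ^ 2 := by
  rw [trunc mf, trunc mg, ENNReal.iSup_mul]
  refine iSup_le fun n => ?_
  rw [ENNReal.mul_iSup]
  refine iSup_le fun m => ?_
  have fin : ∀ (a : ℝ≥0∞) (k : ℕ), min a k ≠ ⊤ := fun a k =>
    ne_top_of_le_ne_top (ENNReal.natCast_ne_top k) (min_le_right _ _)
  have bd : ∀ (a : ℝ≥0∞) (k : ℕ), (min a k).toReal ≤ k := fun a k =>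
    (ENNReal.toReal_mono (ENNReal.natCast_ne_top k) (min_le_right _ _)).trans_eq (by simp)
  have := pl_bdd (f := fun x => (min (f x) n).toReal) (g := fun x => (min (g x) m).toReal)
    (h := fun x => (min (h x) (n + m : ℕ)).toReal) (by fun_prop) (by fun_prop) (by fun_prop)
    (fun x => ENNReal.toReal_nonneg) (fun x => ENNReal.toReal_nonneg)
    (fun x => ENNReal.toReal_nonneg) (M := n + m)
    (fun x => (bd _ _).trans (le_add_of_nonneg_right m.cast_nonneg))
    (fun x => (bd _ _).trans (le_add_of_nonneg_left n.cast_nonneg)) (fun x y => by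
      rw [← ENNReal.toReal_mul, ← ENNReal.toReal_pow]
      refine ENNReal.toReal_mono (ENNReal.pow_ne_top (fin _ _)) ?_
      rcases le_total (h ((x + y) / 2)) (n + m : ℕ) with e | e
      · rw [min_eq_left e]
        exact (mul_le_mul' (min_le_left _ _) (min_le_left _ _)).trans (H x y)
      · rw [min_eq_right e, sq]
        exact mul_le_mul' ((min_le_right _ _).trans (by simp))
          ((min_le_right _ _).trans (by simp)))
  simp only [ENNReal.ofReal_toReal (fin _ _)] at this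
  exact this.trans (pow_le_pow_left' (lintegral_mono fun x => min_le_left _ _) 2)

lemma int_exp (f : ℝ → ℝ≥0∞) :
    ∫⁻ x in Ioi 0, f x = ∫⁻ s, ENNReal.ofReal (Real.exp s) * f (Real.exp s) := by
  have := lintegral_image_eq_lintegral_abs_deriv_mul (f := Real.exp) (f' := Real.exp)
    MeasurableSet.univ (fun x _ => (Real.hasDerivAt_exp x).hasDerivWithinAt)
    Real.exp_injective.injOn f
  simpa [Real.range_exp, abs_of_pos (Real.exp_pos _)] using this

lemma pl_mul {f g h : ℝ → ℝ≥0∞} (mf : Measurable f) (mg : Measurable g) (mh : Measurable h)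
    (fs : ∀ x, f x ≠ 0 → 0 ≤ x) (gs : ∀ x, g x ≠ 0 → 0 ≤ x)
    (H : ∀ x y, f x * g y ≤ h √(x * y) ^ 2) :
    (∫⁻ x, f x) * (∫⁻ x, g x) ≤ (∫⁻ x, h x) ^ 2 := by
  have e : ∀ {f : ℝ → ℝ≥0∞}, (∀ x, f x ≠ 0 → 0 ≤ x) → ∫⁻ x, f x = ∫⁻ x in Ioi 0, f x :=
    fun {f} fs => by
      rw [restrict_Ioi_eq_restrict_Ici, setLIntegral_eq_of_support_subset (s := Ici 0) fun x hx => fs x hx]
  rw [e fs, e gs, int_exp, int_exp]
  refine le_trans ?_ (pow_le_pow_left' (setLIntegral_le_lintegral (Ioi 0) h) 2)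
  rw [int_exp]
  refine pl1 (by fun_prop) (by fun_prop) (by fun_prop) fun x y => ?_
  have e1 : Real.exp ((x + y) / 2) = √(Real.exp x * Real.exp y) := by
    rw [← Real.exp_add, Real.exp_half]
  rw [mul_mul_mul_comm, mul_pow, ← ENNReal.ofReal_mul (Real.exp_pos _).le,
    ← ENNReal.ofReal_pow (Real.exp_pos _).le, e1, Real.sq_sqrt (by positivity)]
  gcongr
  exact H _ _

/-- The multiplicative Prekopa-Leindler inequality on the orthant. -/
theorem pl_pi (n : ℕ) : ∀ {f g h : (Fin n → ℝ) → ℝ≥0∞}, Measurable f → Measurable g →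
    Measurable h → (∀ x, f x ≠ 0 → 0 ≤ x) → (∀ x, g x ≠ 0 → 0 ≤ x) →
    (∀ x y, f x * g y ≤ h (fun i => √(x i * y i)) ^ 2) →
    (∫⁻ x, f x) * (∫⁻ x, g x) ≤ (∫⁻ x, h x) ^ 2 := by
  induction n with
  | zero =>
    intro f g h _ _ _ _ _ H
    rw [volume_pi, Measure.pi_of_empty, lintegral_dirac, lintegral_dirac, lintegral_dirac]
    exact (H _ _).trans_eq (by congr 2; exact Subsingleton.elim _ _)
  | succ n ih =>
    intro f g h mf mg mh fs gs H
    set e := (MeasurableEquiv.piFinSuccAbove (fun _ : Fin (n + 1) => ℝ) 0).symm with he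
    have me : ∀ a : ℝ, Measurable fun x => e (a, x) := fun a => by fun_prop
    have ee : ∀ a x, e (a, x) = Fin.cons a x := fun a x => by
      simp [he, MeasurableEquiv.piFinSuccAbove_symm_apply, Fin.insertNthEquiv]
    have fub : ∀ {f : (Fin (n + 1) → ℝ) → ℝ≥0∞}, Measurable f →
        (∫⁻ x, f x = ∫⁻ a, ∫⁻ x, f (e (a, x))) ∧ Measurable fun a => ∫⁻ x, f (e (a, x)) :=
      fun {f} mf => ⟨by
        rw [← ((volume_preserving_piFinSuccAbove (fun _ : Fin (n + 1) => ℝ) 0).symm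
          _).lintegral_comp mf, Measure.volume_eq_prod]
        exact lintegral_prod _ (mf.comp e.measurable).aemeasurable,
        (mf.comp e.measurable).lintegral_prod_right'⟩
    have sup : ∀ {f : (Fin (n + 1) → ℝ) → ℝ≥0∞}, (∀ x, f x ≠ 0 → 0 ≤ x) →
        ∀ a, ∫⁻ x, f (e (a, x)) ≠ 0 → 0 ≤ a := fun {f} fs a ha => by
      by_contra hn
      refine ha (lintegral_eq_zero_of_ae_eq_zero (Eventually.of_forall fun x => ?_))
      by_contra h2
      exact hn (by simpa [ee] using fs _ h2 0)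
    rw [(fub mf).1, (fub mg).1, (fub mh).1]
    refine pl_mul (fub mf).2 (fub mg).2 (fub mh).2 (sup fs) (sup gs) fun a b => ?_
    refine ih (mf.comp (me a)) (mg.comp (me b)) (mh.comp (me _))
      (fun x hx i => by simpa [ee] using fs _ hx i.succ)
      (fun x hx i => by simpa [ee] using gs _ hx i.succ) fun x y => (H _ _).trans_eq ?_
    simp only [ee]
    congr 2; ext i
    refine Fin.cases ?_ (fun i => ?_) i <;> simp

end Pool.Agent.H20.PL
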