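import Pool.Agent.H20.PL1
import Pool.Agent.H20.Iso2

set_option autoImplicit false

open Set MeasureTheory Filter
open scoped ENNReal

namespace Pool.Agent.H20.PL

/-- The Prekopa-Leindler inequality in `R^n`. -/
theorem pl_add (n : ℕ) : ∀ {f g h : (Fin n → ℝ) → ℝ≥0∞}, Measurable f → Measurable g →
    Measurable h → (∀ x y, f x * g y ≤ h (fun i => (x i + y i) / 2) ^ 2) →
    (∫⁻ x, f x) * (∫⁻ x, g x) ≤ (∫⁻ x, h x) ^ 2 := by
  induction n with
  | zero =>
    intro f g h _ _ _ H
    rw [volume_pi, Measure.pi_of_empty, lintegral_dirac, lintegral_dirac, lintegral_dirac]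
    exact (H _ _).trans_eq (by congr 2; exact Subsingleton.elim _ _)
  | succ n ih =>
    intro f g h mf mg mh H
    set e := (MeasurableEquiv.piFinSuccAbove (fun _ : Fin (n + 1) => ℝ) 0).symm with he
    have me : ∀ a : ℝ, Measurable fun x => e (a, x) := fun a => by fun_prop
    have ee : ∀ a x, e (a, x) = Fin.cons a x := fun a x => by
      simp [he, MeasurableEquiv.piFinSuccAbove_symm_apply, Fin.insertNthEquiv]
    have fub : ∀ {f : (Fin (n + 1) → ℝ) → ℝ≥0∞}, Measurable f →
        (∫⁻ x, f x = ∫⁻ a, ∫⁻ x, f (e (a, x))) ∧ Measurable fun a => ∫⁻ x, f (e (a, x)) :=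
      fun {f} mf => ⟨by
        rw [← ((volume_preserving_piFinSuccAbove (fun _ : Fin (n + 1) => ℝ) 0).symm
          _).lintegral_comp mf, Measure.volume_eq_prod]
        exact lintegral_prod _ (mf.comp e.measurable).aemeasurable,
        (mf.comp e.measurable).lintegral_prod_right'⟩
    rw [(fub mf).1, (fub mg).1, (fub mh).1]
    refine pl1 (fub mf).2 (fub mg).2 (fub mh).2 fun a b => ?_
    refine ih (mf.comp (me a)) (mg.comp (me b)) (mh.comp (me _)) fun x y => (H _ _).trans_eq ?_
    simp only [ee]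
    congr 2; ext i
    refine Fin.cases ?_ (fun i => ?_) i <;> simp

/-- Anderson type inequality. -/
lemma anderson {n : ℕ} {A C : Set (Fin n → ℝ)} (hA : MeasurableSet A) (hC : MeasurableSet C)
    (h : ∀ x ∈ A, ∀ y ∈ A, (fun i => (x i - y i) / 2) ∈ C) : volume A ≤ volume C := by
  have := pl_add n (measurable_one.indicator hA) (measurable_one.indicator hA.neg)
    (measurable_one.indicator hC) (fun x y => by
      by_cases hx : x ∈ A
      swap
      · rw [indicator_of_notMem hx, zero_mul]; exact zero_le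
      by_cases hy : y ∈ -A
      swap
      · rw [indicator_of_notMem hy, mul_zero]; exact zero_le
      have hz : (fun i => (x i + y i) / 2) ∈ C := by simpa using h x hx (-y) hy
      rw [indicator_of_mem hx, indicator_of_mem hy, indicator_of_mem hz]; simp)
  rw [lintegral_indicator_one hA, lintegral_indicator_one hA.neg, lintegral_indicator_one hC,
    Measure.measure_neg, ← sq] at this
  exact (ENNReal.pow_le_pow_left_iff two_ne_zero).1 this

open Pool.Agent.H20.Iso

lemma int_cube {d : ℕ} {f : V d → ℝ} (hf : Continuous f) : IntegrableOn f (cube d) :=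
  hf.continuousOn.integrableOn_compact (cube_cpt d)

lemma mom1 {d : ℕ} (z : Fin d) : ∫ x in cube d, |x z| ≤ 3 / 4 * 2 ^ d := by
  set a : Fin d → ℝ := Function.update (fun _ => -1) z (-1 / 2) with ha
  set b : Fin d → ℝ := Function.update (fun _ => 1) z (1 / 2) with hb
  set B := (WithLp.ofLp : V d → Fin d → ℝ) ⁻¹' Icc a b with hB
  have a1 : ∀ i, -1 ≤ a i ∧ a i ≤ b i ∧ b i ≤ 1 := fun i => by
    by_cases h : i = z
    · subst h; simp [ha, hb]; norm_num
    · simp [ha, hb, h]
  have hsub : B ⊆ cube d := fun x hx i =>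
    abs_le.2 ⟨(a1 i).1.trans (hx.1 i), (hx.2 i).trans (a1 i).2.2⟩
  have hv : volume.real B = 2 ^ d / 2 := by
    rw [hB, vol_box _ _ (fun i => (a1 i).2.1), ← Finset.mul_prod_erase _ _ (Finset.mem_univ z),
      Finset.prod_congr rfl (g := fun _ => (2 : ℝ)) fun i hi => by
        simp [ha, hb, Finset.ne_of_mem_erase hi]; norm_num]
    obtain ⟨n, rfl⟩ : ∃ n, d = n + 1 := ⟨d - 1, by have := z.pos; omega⟩
    simp [ha, hb]; ring
  have ci : IntegrableOn (fun x : V d => 1 - |x z|) (cube d) := int_cube (by fun_prop)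
  have mB : MeasurableSet B := measurableSet_Icc.preimage (by fun_prop)
  have h1 := setIntegral_ge_of_const_le (μ := volume) (c := (1 / 2 : ℝ))
    (f := fun x : V d => 1 - |x z|) mB
    (measure_ne_top_of_subset hsub (cube_cpt d).measure_lt_top.ne) (fun x hx => by
      have h1 : a z ≤ x z := hx.1 z
      have h2 : x z ≤ b z := hx.2 z
      simp only [ha, hb, Function.update_self] at h1 h2
      have : |x z| ≤ 1 / 2 := abs_le.2 ⟨by linarith, h2⟩
      linarith) (ci.mono_set hsub)
  have h2 := setIntegral_mono_set ci ((ae_restrict_iff' (cube_cpt d).measurableSet).2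
    (Eventually.of_forall fun x hx => sub_nonneg.2 (hx z))) hsub.eventuallyLE
  have e1 := integral_sub (int_cube (f := fun _ : V d => (1 : ℝ)) continuous_const)
    (int_cube (f := fun x : V d => |x z|) (by fun_prop))
  simp only [integral_const, MeasurableSet.univ, measureReal_restrict_apply, univ_inter,
    smul_eq_mul, mul_one, vol_cube] at e1
  rw [hv, smul_eq_mul] at h1
  linarith

lemma mom2 {d : ℕ} (a : Fin d → ℝ) (ha : ∀ i, |a i| ≤ 2) :
    ∫ x in cube d, (∑ i, a i * x i) ^ 2 ≤ 4 * d * 2 ^ d := by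
  have off : ∀ i j : Fin d, i ≠ j → ∫ x in cube d, x i * x j = 0 := fun i j hij => by
    have h : ∀ l, Function.update (fun _ => (1 : ℝ)) i (-1) l ^ 2 = 1 := fun l => by
      by_cases e : l = i <;> simp [e]
    have := int_inv (sg _ h) (K := cube d) (fun x => forall_congr' fun l => by
      rw [sg_apply]; by_cases e : l = i <;> simp [e]) (fun x => x i * x j)
    simp only [sg_apply, Function.update_self, Function.update_of_ne hij.symm, one_mul, neg_mul,
      integral_neg] at this
    linarith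
  simp only [sq, Finset.sum_mul_sum]
  rw [integral_finsetSum _ fun i _ => int_cube (by fun_prop)]
  calc _ ≤ ∑ _i : Fin d, (4 * 2 ^ d : ℝ) := Finset.sum_le_sum fun i _ => by
        rw [integral_finsetSum _ fun j _ => int_cube (by fun_prop),
          Finset.sum_eq_single i (fun j _ hj => by
            simp only [mul_mul_mul_comm (a i), integral_const_mul, off i j hj.symm, mul_zero])
            (by simp)]
        simp only [mul_mul_mul_comm (a i), integral_const_mul]
        have h1 := (mom_cmp i (cube_cpt d) subset_rfl).2.1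
        have h0 : 0 ≤ ∫ x in cube d, x i * x i := integral_nonneg fun x => mul_self_nonneg _
        rw [vol_cube] at h1
        have := abs_le.1 (ha i)
        exact mul_le_mul (by nlinarith) h1 h0 (by norm_num)
    _ = _ := by simp; ring

/-- The part of the cube used below. -/
def slab {d : ℕ} (a : Fin d → ℝ) (t r : ℝ) : Set (Fin d → ℝ) :=
  {x | (∀ i, |x i| ≤ 1) ∧ ∑ i, |x i| ≤ 7 / 8 * d ∧ |∑ i, a i * x i - t| ≤ r}

lemma slab_meas {d : ℕ} (a : Fin d → ℝ) (t r : ℝ) : MeasurableSet (slab a t r) := by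
  unfold slab; measurability

lemma slab_big {k d : ℕ} (hk : 0 < k) (hd : d = k ^ 2) (a : Fin d → ℝ) (ha : ∀ i, |a i| ≤ 2) :
    ENNReal.ofReal (2 ^ d / 16) ≤ volume (slab a 0 (8 * k)) := by
  have d0 : (0 : ℝ) < d := by rw [hd]; positivity
  have dk : (d : ℝ) = k ^ 2 := by rw [hd]; push_cast; rfl
  set f : V d → ℝ := fun x => 8 / (7 * d) * ∑ i, |x i| + 1 / (64 * d) * (∑ i, a i * x i) ^ 2
  have cf : Continuous f := by fun_prop
  have h1 : ∫ x in cube d, f x ≤ 103 / 112 * 2 ^ d := by
    rw [integral_add (int_cube (by fun_prop)) (int_cube (by fun_prop)), integral_const_mul,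
      integral_const_mul, integral_finsetSum _ fun i _ => int_cube (by fun_prop)]
    have s1 : ∑ i, ∫ x in cube d, |x i| ≤ d * (3 / 4 * 2 ^ d) :=
      (Finset.sum_le_sum fun i _ => mom1 i).trans_eq (by simp)
    calc _ ≤ 8 / (7 * d) * (d * (3 / 4 * 2 ^ d)) + 1 / (64 * d) * (4 * d * 2 ^ d : ℝ) := by
          gcongr; exact mom2 a ha
      _ = _ := by field_simp; ring
  have h2 := mul_meas_ge_le_integral_of_nonneg (μ := volume.restrict (cube d)) (f := f)
    (Eventually.of_forall fun x => by positivity) (int_cube cf) 1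
  have m1 : MeasurableSet {x | 1 ≤ f x} := (isClosed_le continuous_const cf).measurableSet
  rw [one_mul, measureReal_restrict_apply m1] at h2
  have fin := (cube_cpt d).measure_lt_top (μ := volume)
  have h3 : volume.real (cube d) ≤ volume.real ({x | 1 ≤ f x} ∩ cube d) +
      volume.real ((WithLp.ofLp : V d → Fin d → ℝ) ⁻¹' slab a 0 (8 * k)) := by
    refine le_trans (measureReal_mono (fun x hx => ?_) (measure_union_ne_top
      (measure_ne_top_of_subset inter_subset_right fin.ne)
      (measure_ne_top_of_subset (fun x hx => hx.1) fin.ne))) (measureReal_union_le _ _)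
    by_cases h : 1 ≤ f x
    · exact Or.inl ⟨h, hx⟩
    have p1 : 0 ≤ 8 / (7 * d) * ∑ i, |x i| := by positivity
    have p2 : 0 ≤ 1 / (64 * d) * (∑ i, a i * x i) ^ 2 := by positivity
    have q1 : 8 / (7 * d) * ∑ i, |x i| ≤ 1 := by simp only [f] at h; linarith
    have q2 : 1 / (64 * d) * (∑ i, a i * x i) ^ 2 ≤ 1 := by simp only [f] at h; linarith
    rw [div_mul_eq_mul_div, div_le_one (by positivity)] at q1 q2
    refine Or.inr ⟨hx, by linarith, ?_⟩
    rw [sub_zero]
    exact abs_le_of_sq_le_sq' (by rw [dk] at q2; nlinarith) (by positivity) |> abs_le.2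
  rw [vol_cube] at h3
  rw [← (PiLp.volume_preserving_ofLp (Fin d)).measure_preimage (slab_meas _ _ _).nullMeasurableSet]
  refine ENNReal.ofReal_le_of_le_toReal ?_
  have : (0 : ℝ) < 2 ^ d := by positivity
  rw [← Measure.real]; linarith

lemma small_ball {k d : ℕ} (hk : 0 < k) (hd : d = k ^ 2) (a : Fin d → ℝ) (ha : ∀ i, |a i| ≤ 2) :
    ENNReal.ofReal (2 ^ d / 16) ≤ (12 * k + 1 : ℕ) * volume (slab a 0 (2 / 3)) := by
  refine (slab_big hk hd a ha).trans ?_
  have cov : slab a 0 (8 * k) ⊆
      ⋃ j : Fin (12 * k + 1), slab a (-8 * k + 4 / 3 * j + 2 / 3) (2 / 3) := fun x hx => by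
    have h := abs_le.1 hx.2.2
    set s := ∑ i, a i * x i with hs
    have p : 0 ≤ 3 / 4 * (s + 8 * k) := by linarith [h.1]
    have l1 := Nat.floor_le p
    have l2 := Nat.lt_floor_add_one (3 / 4 * (s + 8 * k))
    refine mem_iUnion.2 ⟨⟨⌊3 / 4 * (s + 8 * k)⌋₊, Nat.lt_succ_of_le (Nat.floor_le_of_le ?_)⟩,
      hx.1, hx.2.1, abs_le.2 ⟨?_, ?_⟩⟩
    · push_cast; linarith [h.2]
    · simp only [← hs]; linarith
    · simp only [← hs]; linarith
  refine (measure_mono cov).trans ((measure_iUnion_fintype_le _ _).trans ?_)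
  refine (Finset.sum_le_card_nsmul _ _ _ fun j _ => anderson (slab_meas _ _ _)
    (slab_meas a 0 (2 / 3)) fun x hx y hy => ?_).trans_eq (by simp)
  have ab : ∀ i, |(x i - y i) / 2| ≤ (|x i| + |y i|) / 2 := fun i => by
    rw [abs_div, abs_two]; gcongr; exact abs_sub _ _
  refine ⟨fun i => (ab i).trans (by linarith [hx.1 i, hy.1 i]),
    (Finset.sum_le_sum fun i _ => ab i).trans ?_, ?_⟩
  · rw [← Finset.sum_div, Finset.sum_add_distrib]; linarith [hx.2.1, hy.2.1]
  · have e : ∑ i, a i * ((x i - y i) / 2) = (∑ i, a i * x i - ∑ i, a i * y i) / 2 := by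
      rw [← Finset.sum_sub_distrib, Finset.sum_div]
      exact Finset.sum_congr rfl fun i _ => by ring
    have h1 := abs_le.1 hx.2.2
    have h2 := abs_le.1 hy.2.2
    rw [e, abs_le]; constructor <;> linarith [h1.1, h1.2, h2.1, h2.2]

end Pool.Agent.H20.PL
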