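import Pool.Agent.H20.PL2

set_option autoImplicit false

open Set MeasureTheory Matrix
open scoped ENNReal

namespace Pool.Agent.H20.PL

lemma det_r1 {n : ℕ} (p q : Fin n → ℝ) : (1 + vecMulVec p q).det = 1 + q ⬝ᵥ p := by
  rw [vecMulVec_eq Unit, det_one_add_replicateCol_mul_replicateRow]

lemma mul_r1 {n : ℕ} (p q x : Fin n → ℝ) : (1 + vecMulVec p q) *ᵥ x = x + (q ⬝ᵥ x) • p := by
  rw [add_mulVec, one_mulVec, vecMulVec_mulVec, op_smul_eq_smul]

lemma lower {n : ℕ} (hn : 16 ≤ n) (z : Fin n) (M N : Matrix (Fin n) (Fin n) ℝ) (hM : Mᵀ = M)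
    (hN : M * N = 1) (u ν : Fin n → ℝ) {ρ : ℝ} (hρ : ρ ≠ 0) (hv : M *ᵥ u = ρ • ν)
    (hν : ∀ i, 2 / 3 ≤ ν i ∧ ν i ≤ 4 / 3) (hu : u ⬝ᵥ u = 1) {Z : Set (Fin n → ℝ)}
    (hZ : ∀ w m : Fin n → ℝ, (∀ i, |m i| + |w i| ≤ 1) → (M *ᵥ u) ⬝ᵥ w = 0 →
      M *ᵥ w + ((M *ᵥ u) ⬝ᵥ m) • u ∈ Z) :
    ENNReal.ofReal (|M.det| * (n / 32)) * volume (slab (Function.update ν z 0) 0 (2 / 3)) ≤
      volume Z := by
  have n16 : (16 : ℝ) ≤ n := by exact_mod_cast hn
  have ν0 : 0 < ν z := by linarith [(hν z).1]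
  set e : Fin n → ℝ := Pi.single z 1 with he
  set c : ℝ := n / 24 with hc
  set g := ρ • N *ᵥ u with hg
  have gν : ν ⬝ᵥ g = 1 := by
    rw [hg, dotProduct_smul, ← smul_dotProduct, ← hv, ← hM, mulVec_transpose, ← dotProduct_mulVec,
      mulVec_mulVec, hN, one_mulVec, hu]
  have νe : ν ⬝ᵥ e = ν z := by simp [he]
  set T1 := 1 + vecMulVec e ((ν z)⁻¹ • (c • e - ν)) with hT1
  set T2 := 1 + vecMulVec (g - (ν z)⁻¹ • e) ν with hT2
  have d1 : T1.det = c / ν z := by
    rw [hT1, det_r1, smul_dotProduct, sub_dotProduct, νe]; simp [he]; field_simp; ring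
  have d2 : T2.det = 1 := by
    rw [hT2, det_r1, dotProduct_sub, gν, dotProduct_smul, νe]; simp [ν0.ne']
  have hd : |M.det| * (n / 32) ≤ |(M * T2 * T1).det| := by
    rw [det_mul, det_mul, d1, d2, mul_one, abs_mul, abs_of_pos (show 0 < c / ν z by positivity)]
    refine mul_le_mul_of_nonneg_left ?_ (abs_nonneg _)
    rw [le_div_iff₀ ν0]; nlinarith [(hν z).2]
  refine le_trans ?_ (measure_mono
    (s := toLin' (M * T2 * T1) '' slab (Function.update ν z 0) 0 (2 / 3)) ?_)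
  · rw [Measure.addHaar_image_linearMap, LinearMap.det_toLin']; gcongr
  rintro _ ⟨x, hx, rfl⟩
  set w := x - ((ν z)⁻¹ * (ν ⬝ᵥ x)) • e with hw
  have νw : ν ⬝ᵥ w = 0 := by
    rw [hw, dotProduct_sub, dotProduct_smul, νe]; simp; field_simp; ring
  have wi : ∀ i, i ≠ z → w i = x i := fun i hi => by simp [hw, he, hi]
  have wz : |w z| ≤ 1 := by
    have h1 := hx.2.2
    have e1 : ∑ i, Function.update ν z 0 i * x i = ν ⬝ᵥ x - ν z * x z := by
      rw [dotProduct, ← Finset.add_sum_erase _ _ (Finset.mem_univ z),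
        ← Finset.add_sum_erase _ _ (Finset.mem_univ z), Function.update_self,
        Finset.sum_congr rfl fun i hi => by rw [Function.update_of_ne (Finset.ne_of_mem_erase hi)]]
      ring
    have e2 : w z = -((ν ⬝ᵥ x - ν z * x z) / ν z) := by simp [hw, he]; field_simp; ring
    rw [sub_zero, e1] at h1
    rw [e2, abs_neg, abs_div, abs_of_pos ν0, div_le_one ν0]
    exact h1.trans (hν z).1
  have w1 : ∀ i, |w i| ≤ 1 := fun i => by
    by_cases h : i = z
    · rw [h]; exact wz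
    · rw [wi i h]; exact hx.1 i
  set R := ν ⬝ᵥ fun i => 1 - |w i| with hR
  have Rc : c ≤ R := by
    have : ∑ i, 2 / 3 * (1 - |x i| - e i) ≤ R := Finset.sum_le_sum fun i _ => by
      by_cases h : i = z
      · subst h
        simp only [he, Pi.single_eq_same]
        nlinarith [abs_nonneg (x i), mul_nonneg ν0.le (sub_nonneg.2 wz)]
      · simp only [he, Pi.single_eq_of_ne h, wi i h]
        nlinarith [hx.1 i, (hν i).1]
    rw [← Finset.mul_sum, Finset.sum_sub_distrib, Finset.sum_sub_distrib] at this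
    simp only [he, Finset.sum_const, Finset.card_univ, Fintype.card_fin, nsmul_eq_mul, mul_one,
      Finset.sum_pi_single', Finset.mem_univ, if_true] at this
    linarith [hx.2.1]
  have c0 : 0 < c := by positivity
  have R0 : 0 < R := c0.trans_le Rc
  have θ1 : |c * x z / R| ≤ 1 := by
    rw [abs_div, abs_of_pos R0, div_le_one R0, abs_mul, abs_of_pos c0]
    nlinarith [hx.1 z]
  have := hZ w ((c * x z / R) • fun i => 1 - |w i|) (fun i => by
    rw [Pi.smul_apply, smul_eq_mul, abs_mul, abs_of_nonneg (sub_nonneg.2 (w1 i))]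
    nlinarith [w1 i]) (by rw [hv, smul_dotProduct, νw, smul_zero])
  convert this using 1
  have t1 : T1 *ᵥ x = w + (c * x z / ν z) • e := by
    rw [hT1, mul_r1, smul_dotProduct, sub_dotProduct, smul_dotProduct, hw, sub_add, ← sub_smul,
      sub_eq_add_neg x, ← neg_smul]
    congr 2; simp [he]; field_simp
  have t2 : T2 *ᵥ (T1 *ᵥ x) = w + (c * x z) • g := by
    rw [t1, hT2, mul_r1, dotProduct_add, νw, dotProduct_smul, νe, zero_add, smul_eq_mul,
      div_mul_cancel₀ _ ν0.ne', smul_sub, smul_smul _ (ν z)⁻¹, div_eq_mul_inv]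
    abel
  rw [toLin'_apply, ← mulVec_mulVec, ← mulVec_mulVec, t2, mulVec_add, mulVec_smul, hg,
    mulVec_smul, mulVec_mulVec, hN, one_mulVec, hv, smul_dotProduct, dotProduct_smul, ← hR,
    smul_smul, smul_eq_mul, smul_eq_mul, div_mul_cancel₀ _ R0.ne', mul_comm ρ]

end Pool.Agent.H20.PL
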