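import Mathlib

set_option autoImplicit false

namespace Pool.Agent.H20.Pair

open Finset

variable {ι : Type} [Fintype ι] [DecidableEq ι]

/-- weight of an outcome in a product of two point spaces -/
def wt (q : ι → ℝ) (ω : ι → Bool) : ℝ := ∏ i, if ω i = true then q i else 1 - q i

def Ex (q : ι → ℝ) (F : (ι → Bool) → ℝ) : ℝ := ∑ ω, wt q ω * F ω

def ind (ω : ι → Bool) (i : ι) : ℝ := if ω i = true then 1 else 0

omit [Fintype ι] [DecidableEq ι] in
lemma ind_nonneg (ω : ι → Bool) (i : ι) : 0 ≤ ind ω i := by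
  unfold ind; split_ifs <;> norm_num

omit [Fintype ι] [DecidableEq ι] in
lemma ind_le (ω : ι → Bool) (i : ι) : ind ω i ≤ 1 := by
  unfold ind; split_ifs <;> norm_num

omit [DecidableEq ι] in
lemma wt_nonneg {q : ι → ℝ} (h0 : ∀ i, 0 ≤ q i) (h1 : ∀ i, q i ≤ 1) (ω : ι → Bool) :
    0 ≤ wt q ω :=
  prod_nonneg fun i _ => by
    split_ifs
    · exact h0 i
    · linarith [h1 i]

lemma Ex_mono (q : ι → ℝ) (S : Finset ι) :
    Ex q (fun ω => ∏ i ∈ S, ind ω i) = ∏ i ∈ S, q i := by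
  have h1 := Finset.prod_univ_sum (fun _ : ι => (univ : Finset Bool))
    (fun i (b : Bool) => (if b = true then q i else 1 - q i) *
      (if i ∈ S then (if b = true then (1 : ℝ) else 0) else 1))
  rw [Fintype.piFinset_univ] at h1
  have h2 : ∀ ω : ι → Bool, wt q ω * ∏ i ∈ S, ind ω i = ∏ i, (if ω i = true then q i else 1 - q i) *
      (if i ∈ S then (if ω i = true then (1 : ℝ) else 0) else 1) := by
    intro ω
    rw [prod_mul_distrib, prod_ite_mem, univ_inter]; rfl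
  simp only [Ex, h2, ← h1]
  rw [← univ_inter S, ← prod_ite_mem]
  refine prod_congr rfl fun i _ => ?_
  by_cases h : i ∈ S <;> simp [h]

lemma Ex_one (q : ι → ℝ) : Ex q (fun _ => 1) = 1 := by
  simpa using Ex_mono q ∅

lemma Ex_add (q : ι → ℝ) (F G : (ι → Bool) → ℝ) :
    Ex q (fun ω => F ω + G ω) = Ex q F + Ex q G := by
  simp only [Ex, mul_add, sum_add_distrib]

lemma Ex_sub (q : ι → ℝ) (F G : (ι → Bool) → ℝ) :
    Ex q (fun ω => F ω - G ω) = Ex q F - Ex q G := by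
  simp only [Ex, mul_sub, sum_sub_distrib]

lemma Ex_sum {κ : Type} (q : ι → ℝ) (s : Finset κ) (F : κ → (ι → Bool) → ℝ) :
    Ex q (fun ω => ∑ k ∈ s, F k ω) = ∑ k ∈ s, Ex q (F k) := by
  simp only [Ex, mul_sum]
  rw [sum_comm]

lemma Ex_smul (q : ι → ℝ) (a : ℝ) (F : (ι → Bool) → ℝ) :
    Ex q (fun ω => a * F ω) = a * Ex q F := by
  simp only [Ex, mul_sum]
  exact sum_congr rfl fun ω _ => by ring

lemma Ex_le {q : ι → ℝ} (h0 : ∀ i, 0 ≤ q i) (h1 : ∀ i, q i ≤ 1) {F : (ι → Bool) → ℝ} {c : ℝ}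
    (h : ∀ ω, F ω ≤ c) : Ex q F ≤ c := by
  have e : c = Ex q (fun _ => c * 1) := by rw [Ex_smul, Ex_one, mul_one]
  rw [e]
  exact sum_le_sum fun ω _ => mul_le_mul_of_nonneg_left (by simpa using h ω) (wt_nonneg h0 h1 ω)

lemma le_Ex {q : ι → ℝ} (h0 : ∀ i, 0 ≤ q i) (h1 : ∀ i, q i ≤ 1) {F : (ι → Bool) → ℝ} {c : ℝ}
    (h : ∀ ω, c ≤ F ω) : c ≤ Ex q F := by
  have e : c = Ex q (fun _ => c * 1) := by rw [Ex_smul, Ex_one, mul_one]
  rw [e]
  exact sum_le_sum fun ω _ => mul_le_mul_of_nonneg_left (by simpa using h ω) (wt_nonneg h0 h1 ω)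

lemma Ex_prod {κ : Type} [DecidableEq κ] (q : ι → ℝ) (C : Finset κ) (S : κ → Finset ι)
    (hS : ∀ c ∈ C, ∀ c' ∈ C, c ≠ c' → Disjoint (S c) (S c')) (a : ℝ) :
    Ex q (fun ω => ∏ c ∈ C, (1 + a * ∏ i ∈ S c, ind ω i)) =
      ∏ c ∈ C, (1 + a * ∏ i ∈ S c, q i) := by
  simp only [prod_one_add]
  rw [Ex_sum]
  refine sum_congr rfl fun U hU => ?_
  have hd : (U : Set κ).PairwiseDisjoint S := fun c hc c' hc' h =>
    hS c (mem_powerset.1 hU hc) c' (mem_powerset.1 hU hc') h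
  simp only [prod_mul_distrib, ← prod_biUnion hd]
  rw [Ex_smul, Ex_mono]

end Pool.Agent.H20.Pair
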