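import Mathlib
import Pool.Agent.H20.Pair1

set_option autoImplicit false

namespace Pool.Agent.H20.Pair

open Finset

variable {n : ℕ} {B : Type} [Fintype B] [DecidableEq B] (L R : Fin n → Finset B)

def kb (b : B) : ℝ :=
  ((univ.filter fun u => b ∈ L u).card : ℝ) + ((univ.filter fun v => b ∈ R v).card : ℝ)

noncomputable def rho (K : ℝ) (b : B) : ℝ := if kb L R b ≤ K then kb L R b / (2 * K) else 1

def cm (e : Fin n × Fin n) : Finset B := L e.1 ∩ R e.2

noncomputable def pr (K : ℝ) (e : Fin n × Fin n) : ℝ := ∏ b ∈ cm L R e, rho L R K b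

variable {L R}

omit [Fintype B] in
lemma kb_nonneg (b : B) : 0 ≤ kb L R b := by unfold kb; positivity

omit [Fintype B] in
lemma one_le_kb {b : B} {u : Fin n} (h : b ∈ L u) : 1 ≤ kb L R b := by
  have h1 : 1 ≤ (univ.filter fun u => b ∈ L u).card :=
    card_pos.2 ⟨u, mem_filter.2 ⟨mem_univ _, h⟩⟩
  have h2 : (1 : ℝ) ≤ (univ.filter fun u => b ∈ L u).card := by exact_mod_cast h1
  unfold kb
  have : (0 : ℝ) ≤ (univ.filter fun v => b ∈ R v).card := by positivity
  linarith

omit [Fintype B] in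
lemma rho_nonneg {K : ℝ} (hK : 0 < K) (b : B) : 0 ≤ rho L R K b := by
  unfold rho
  have := kb_nonneg (L := L) (R := R) b
  split_ifs <;> positivity

omit [Fintype B] in
lemma rho_half {K : ℝ} (hK : 0 < K) {b : B} (h : kb L R b ≤ K) : rho L R K b ≤ 1 / 2 := by
  unfold rho
  rw [if_pos h, div_le_iff₀ (by positivity)]
  linarith

omit [Fintype B] in
lemma rho_le_one {K : ℝ} (hK : 0 < K) (b : B) : rho L R K b ≤ 1 := by
  by_cases h : kb L R b ≤ K
  · linarith [rho_half hK h]
  · unfold rho; rw [if_neg h]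

omit [Fintype B] in
lemma rho_le {K : ℝ} (hK : 0 < K) (b : B) : rho L R K b ≤ kb L R b / K := by
  unfold rho
  have := kb_nonneg (L := L) (R := R) b
  split_ifs with h
  · exact div_le_div_of_nonneg_left this hK (by linarith)
  · rw [le_div_iff₀ hK]; linarith

omit [Fintype B] in
lemma rho_pos {K : ℝ} (hK : 0 < K) {b : B} {u : Fin n} (h : b ∈ L u) : 0 < rho L R K b := by
  unfold rho
  have := one_le_kb (R := R) h
  split_ifs <;> positivity

omit [Fintype B] in
lemma pr_pos {K : ℝ} (hK : 0 < K) (e : Fin n × Fin n) : 0 < pr L R K e :=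
  prod_pos fun _ hb => rho_pos hK (mem_inter.1 hb).1

lemma sum_card_filter (L : Fin n → Finset B) :
    ∑ b, ((univ.filter fun u => b ∈ L u).card : ℝ) = ∑ u, ((L u).card : ℝ) := by
  simp only [card_filter]
  push_cast
  rw [sum_comm]
  refine sum_congr rfl fun u _ => ?_
  simp

lemma sum_rho {K d : ℝ} (hK : 0 < K) (hL : ∀ u, ((L u).card : ℝ) ≤ d)
    (hR : ∀ u, ((R u).card : ℝ) ≤ d) : ∑ b, rho L R K b ≤ 2 * n * d / K := by
  refine le_trans (sum_le_sum fun b _ => rho_le hK b) ?_
  rw [← sum_div]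
  refine div_le_div_of_nonneg_right ?_ hK.le
  simp only [kb, sum_add_distrib, sum_card_filter]
  have h1 : ∑ u, ((L u).card : ℝ) ≤ n * d := by
    simpa using sum_le_card_nsmul univ _ d fun u _ => hL u
  have h2 : ∑ u, ((R u).card : ℝ) ≤ n * d := by
    simpa using sum_le_card_nsmul univ _ d fun u _ => hR u
  linarith

omit [Fintype B] in
lemma cost_nonneg {K : ℝ} (hK : 0 < K) (b : B) : 0 ≤ -Real.log (rho L R K b) :=
  neg_nonneg.2 (Real.log_nonpos (rho_nonneg hK b) (rho_le_one hK b))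

omit [Fintype B] in
lemma kb_cost {K : ℝ} (hK : 0 < K) {b : B} {u : Fin n} (h : b ∈ L u) :
    kb L R b * -Real.log (rho L R K b) ≤ 2 * K := by
  have h1 := one_le_kb (R := R) h
  have h2 := Real.one_sub_inv_le_log_of_pos (rho_pos (R := R) hK h)
  unfold rho at h2 ⊢
  split_ifs at h2 ⊢ with h3
  · rw [inv_div] at h2
    have h4 : kb L R b * (2 * K / kb L R b) = 2 * K := by field_simp
    nlinarith
  · simp; linarith

omit [Fintype B] in
lemma log_pr {K : ℝ} (hK : 0 < K) (e : Fin n × Fin n) :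
    -Real.log (pr L R K e) = ∑ b ∈ cm L R e, -Real.log (rho L R K b) := by
  rw [pr, Real.log_prod (s := cm L R e) (f := rho L R K)
    fun b hb => (rho_pos hK (mem_inter.1 hb).1).ne', sum_neg_distrib]

omit [Fintype B] in
lemma bad_count {K d T : ℝ} (hK : 0 < K) (u : Fin n) (hL : ((L u).card : ℝ) ≤ d) :
    ((univ.filter fun v => ¬ Real.exp (-T) ≤ pr L R K (u, v)).card : ℝ) * T ≤ 2 * K * d := by
  calc ((univ.filter fun v => ¬ Real.exp (-T) ≤ pr L R K (u, v)).card : ℝ) * T
      = ∑ v ∈ univ.filter fun v => ¬ Real.exp (-T) ≤ pr L R K (u, v), T := by simp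
    _ ≤ ∑ v ∈ univ.filter fun v => ¬ Real.exp (-T) ≤ pr L R K (u, v),
          -Real.log (pr L R K (u, v)) := by
        refine sum_le_sum fun v hv => ?_
        have h1 := (mem_filter.1 hv).2
        have h2 := Real.log_le_log (pr_pos hK (u, v)) (not_le.1 h1).le
        rw [Real.log_exp] at h2
        linarith
    _ ≤ ∑ v, -Real.log (pr L R K (u, v)) := by
        refine sum_le_sum_of_subset_of_nonneg (filter_subset _ _) fun v _ _ => ?_
        rw [log_pr hK]
        exact sum_nonneg fun b _ => cost_nonneg hK b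
    _ = ∑ b ∈ L u, ((univ.filter fun v => b ∈ R v).card : ℝ) * -Real.log (rho L R K b) := by
        simp only [log_pr hK, cm, ← sum_ite_mem]
        rw [sum_comm]
        refine sum_congr rfl fun b _ => ?_
        rw [← sum_filter]; simp
    _ ≤ ∑ b ∈ L u, 2 * K := by
        refine sum_le_sum fun b hb => le_trans ?_ (kb_cost (R := R) hK hb)
        refine mul_le_mul_of_nonneg_right ?_ (cost_nonneg hK b)
        unfold kb
        have : (0 : ℝ) ≤ (univ.filter fun u => b ∈ L u).card := by positivity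
        linarith
    _ ≤ 2 * K * d := by
        rw [sum_const, nsmul_eq_mul]
        nlinarith

omit [Fintype B] in
lemma small_count {K T : ℝ} (hK : 0 < K) {e : Fin n × Fin n} (h : Real.exp (-T) ≤ pr L R K e) :
    (((cm L R e).filter fun b => kb L R b ≤ K).card : ℝ) ≤ 2 * T := by
  have h1 := Real.log_le_log (Real.exp_pos _) h
  rw [Real.log_exp] at h1
  have h2 := log_pr (L := L) (R := R) hK e
  have h3 : ∑ b ∈ (cm L R e).filter fun b => kb L R b ≤ K, (1 / 2 : ℝ) ≤
      ∑ b ∈ cm L R e, -Real.log (rho L R K b) := by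
    refine le_trans (sum_le_sum fun b hb => ?_)
      (sum_le_sum_of_subset_of_nonneg (filter_subset _ _) fun b _ _ => cost_nonneg hK b)
    obtain ⟨hb1, hb2⟩ := mem_filter.1 hb
    have h4 := Real.log_le_sub_one_of_pos (rho_pos (R := R) hK (mem_inter.1 hb1).1)
    linarith [rho_half hK hb2]
  rw [sum_const, nsmul_eq_mul] at h3
  linarith

def adj (e e' : Fin n × Fin n) : Prop := e ≠ e' ∧ (e.1 = e'.1 ∨ e.2 = e'.2)

instance (e e' : Fin n × Fin n) : Decidable (adj e e') := by unfold adj; infer_instance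

lemma adj_count (e : Fin n × Fin n) : ((univ.filter fun e' => adj e e').card : ℝ) ≤ 2 * n := by
  have h1 : (univ.filter fun e' => adj e e') ⊆
      (univ.image fun v => (e.1, v)) ∪ (univ.image fun u => (u, e.2)) := by
    intro e' he'
    rcases (mem_filter.1 he').2.2 with h | h
    · exact mem_union_left _ (mem_image.2 ⟨e'.2, mem_univ _, by rw [h]⟩)
    · exact mem_union_right _ (mem_image.2 ⟨e'.1, mem_univ _, by rw [h]⟩)
  have h2 := (card_le_card h1).trans ((card_union_le _ _).trans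
    (add_le_add card_image_le card_image_le))
  simp only [card_univ, Fintype.card_fin] at h2
  have : ((univ.filter fun e' => adj e e').card : ℝ) ≤ (n + n : ℕ) := by exact_mod_cast h2
  push_cast at this
  linarith

omit [Fintype B] in
open Classical in
lemma share_count {K T : ℝ} (hK : 0 < K) {e : Fin n × Fin n} (h : Real.exp (-T) ≤ pr L R K e) :
    ((univ.filter fun e' => adj e e' ∧ ∃ b ∈ cm L R e ∩ cm L R e', kb L R b ≤ K).card : ℝ) ≤
      2 * T * K := by
  have h1 : (univ.filter fun e' => adj e e' ∧ ∃ b ∈ cm L R e ∩ cm L R e', kb L R b ≤ K) ⊆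
      ((cm L R e).filter fun b => kb L R b ≤ K).biUnion fun b =>
        ((univ.filter fun u => b ∈ L u).image fun u => (u, e.2)) ∪
          ((univ.filter fun v => b ∈ R v).image fun v => (e.1, v)) := by
    intro e' he'
    obtain ⟨ha, b, hb, hk⟩ := (mem_filter.1 he').2
    obtain ⟨hb1, hb2⟩ := mem_inter.1 hb
    refine mem_biUnion.2 ⟨b, mem_filter.2 ⟨hb1, hk⟩, ?_⟩
    rcases ha.2 with h | h
    · exact mem_union_right _ (mem_image.2 ⟨e'.2,
        mem_filter.2 ⟨mem_univ _, (mem_inter.1 hb2).2⟩, by rw [h]⟩)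
    · exact mem_union_left _ (mem_image.2 ⟨e'.1,
        mem_filter.2 ⟨mem_univ _, (mem_inter.1 hb2).1⟩, by rw [h]⟩)
  have h2 := (card_le_card h1).trans (card_biUnion_le.trans (sum_le_sum fun b _ =>
    (card_union_le _ _).trans (add_le_add card_image_le card_image_le)))
  have h3 : ((univ.filter fun e' => adj e e' ∧ ∃ b ∈ cm L R e ∩ cm L R e', kb L R b ≤ K).card : ℝ)
      ≤ ∑ b ∈ (cm L R e).filter fun b => kb L R b ≤ K, kb L R b := by
    unfold kb at *
    exact_mod_cast h2
  refine h3.trans ((sum_le_card_nsmul _ _ K fun b hb => (mem_filter.1 hb).2).trans ?_)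
  rw [nsmul_eq_mul]
  exact mul_le_mul_of_nonneg_right (small_count hK h) hK.le

lemma prod_ind_mul {ι : Type} [DecidableEq ι] (ω : ι → Bool) (s t : Finset ι) :
    (∏ i ∈ s, ind ω i) * ∏ i ∈ t, ind ω i = ∏ i ∈ s ∪ t, ind ω i := by
  by_cases h : ∀ i ∈ s ∪ t, ω i = true
  · have h1 : ∀ r : Finset ι, r ⊆ s ∪ t → ∏ i ∈ r, ind ω i = 1 := fun r hr =>
      prod_eq_one fun i hi => if_pos (h i (hr hi))
    rw [h1 s subset_union_left, h1 t subset_union_right, h1 _ Subset.rfl, mul_one]
  · push Not at h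
    obtain ⟨i, hi, h⟩ := h
    have h0 : ind ω i = 0 := if_neg h
    rw [prod_eq_zero hi h0]
    rcases mem_union.1 hi with h1 | h1
    · rw [prod_eq_zero h1 h0, zero_mul]
    · rw [prod_eq_zero h1 h0, mul_zero]

lemma prod_ind_cases {ι : Type} (ω : ι → Bool) (s : Finset ι) :
    (∏ i ∈ s, ind ω i = 1 ∧ ∀ i ∈ s, ω i = true) ∨ ∏ i ∈ s, ind ω i = 0 := by
  by_cases h : ∀ i ∈ s, ω i = true
  · exact Or.inl ⟨prod_eq_one fun i hi => if_pos (h i hi), h⟩
  · push Not at h
    obtain ⟨i, hi, h⟩ := h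
    exact Or.inr (prod_eq_zero hi (if_neg h))

/-- the deterministic step: isolated captured pairs form a matching that needs distinct blocks -/
lemma phi_le (hσ : ∀ σ : Equiv.Perm (Fin n), ∃ k : Fin n → B, Function.Injective k ∧
      ∀ s, k s ∈ L s ∧ k s ∈ R (σ s))
    (G : Finset (Fin n × Fin n)) (ω : B ⊕ (Fin n × Fin n) → Bool) :
    ∑ e ∈ G, ((∏ i ∈ (cm L R e).disjSum {e}, ind ω i) -
        ∑ e' ∈ G.filter (adj e), (∏ i ∈ (cm L R e).disjSum {e}, ind ω i) *
          ∏ i ∈ (cm L R e').disjSum {e'}, ind ω i) - ∑ b, ind ω (Sum.inl b) ≤ 0 := by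
  classical
  obtain ⟨Y, hY⟩ : ∃ Y : Fin n × Fin n → ℝ, Y = fun e => ∏ i ∈ (cm L R e).disjSum {e}, ind ω i :=
    ⟨_, rfl⟩
  have hY' : ∀ e, ∏ i ∈ (cm L R e).disjSum {e}, ind ω i = Y e := fun e => by rw [hY]
  simp only [hY']
  have hc : ∀ e, (Y e = 1 ∧ ∀ b ∈ cm L R e, ω (Sum.inl b) = true) ∨ Y e = 0 := by
    intro e
    rcases prod_ind_cases ω ((cm L R e).disjSum {e}) with h | h
    · exact Or.inl ⟨hY' e ▸ h.1, fun b hb => h.2 _ (by simpa using hb)⟩
    · exact Or.inr (hY' e ▸ h)
  have h0 : ∀ e, 0 ≤ Y e := fun e => by rcases hc e with h | h <;> simp [h]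
  let M := G.filter fun e => Y e = 1 ∧ ∀ e' ∈ G, adj e e' → Y e' = 0
  have h1 : ∑ e ∈ G, (Y e - ∑ e' ∈ G.filter (adj e), Y e * Y e') ≤ M.card := by
    rw [card_filter]
    push_cast
    refine sum_le_sum fun e _ => ?_
    have hs : 0 ≤ ∑ e' ∈ G.filter (adj e), Y e * Y e' :=
      sum_nonneg fun e' _ => mul_nonneg (h0 e) (h0 e')
    rcases hc e with h | h
    · split_ifs with h2
      · linarith [h.1]
      · have h3 : ∃ e' ∈ G, adj e e' ∧ Y e' ≠ 0 := by
          by_contra h4
          push Not at h4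
          exact h2 ⟨h.1, h4⟩
        obtain ⟨e', he', ha, h4⟩ := h3
        have h5 : Y e' = 1 := ((hc e').resolve_right h4).1
        have h6 := single_le_sum (f := fun e' => Y e * Y e')
          (fun e' _ => mul_nonneg (h0 e) (h0 e')) (mem_filter.2 ⟨he', ha⟩)
        simp only [h.1, h5] at h6 ⊢
        linarith
    · split_ifs <;> linarith
  have hM : ∀ e ∈ M, ∀ e' ∈ M, (e.1 = e'.1 ∨ e.2 = e'.2) → e = e' := by
    intro e he e' he' h
    by_contra hne
    have a1 := (mem_filter.1 he).2.2 e' (mem_filter.1 he').1 ⟨hne, h⟩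
    have a2 := (mem_filter.1 he').2.1
    linarith
  obtain ⟨σ, hs⟩ := Equiv.Perm.exists_extending_pair (fun e : M => e.1.1) (fun e : M => e.1.2)
    (fun e e' h => Subtype.ext (hM _ e.2 _ e'.2 (Or.inl h)))
    (fun e e' h => Subtype.ext (hM _ e.2 _ e'.2 (Or.inr h)))
  obtain ⟨k, hk, hk'⟩ := hσ σ
  have h2 : M.card ≤ (univ.filter fun b => ω (Sum.inl b) = true).card := by
    refine card_le_card_of_injOn (fun e => k e.1) ?_ ?_
    · intro e he
      have he' : e ∈ M := mem_coe.1 he
      have a1 := (mem_filter.1 he').2.1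
      have a2 := ((hc e).resolve_right (by rw [a1]; norm_num)).2
      have a3 : σ e.1 = e.2 := hs ⟨e, he'⟩
      exact mem_coe.2 (mem_filter.2 ⟨mem_univ _, a2 _ (mem_inter.2 ⟨(hk' _).1, a3 ▸ (hk' _).2⟩)⟩)
    · intro e he e' he' h
      exact hM e (mem_coe.1 he) e' (mem_coe.1 he') (Or.inl (hk h))
  have h3 : ((univ.filter fun b => ω (Sum.inl b) = true).card : ℝ) = ∑ b, ind ω (Sum.inl b) := by
    rw [card_filter]; push_cast; rfl
  have h4 : (M.card : ℝ) ≤ (univ.filter fun b => ω (Sum.inl b) = true).card := by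
    exact_mod_cast h2
  linarith

theorem core (hn : 0 < n)
    (hσ : ∀ σ : Equiv.Perm (Fin n), ∃ k : Fin n → B, Function.Injective k ∧
      ∀ s, k s ∈ L s ∧ k s ∈ R (σ s))
    {d T : ℝ} (hd : 0 < d) (hT : 0 < T) (hL : ∀ u, ((L u).card : ℝ) ≤ d)
    (hR : ∀ u, ((R u).card : ℝ) ≤ d) (h1 : Real.exp T ≤ 8 * n)
    (h2 : T * (128 * d) * Real.exp T ≤ n) : n * T < 512 * d ^ 2 := by
  classical
  by_contra hc
  push Not at hc
  obtain ⟨K, hKd⟩ : ∃ K : ℝ, K = 128 * d := ⟨_, rfl⟩
  rw [← hKd] at h2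
  have hK : 0 < K := by rw [hKd]; positivity
  have hn' : (0 : ℝ) < n := by exact_mod_cast hn
  obtain ⟨p, hp⟩ : ∃ p : ℝ, p = 1 / (8 * n) := ⟨_, rfl⟩
  have hp0 : 0 < p := by rw [hp]; positivity
  have hpn : p * (8 * n) = 1 := by rw [hp]; field_simp
  have hE := Real.exp_pos T
  have hEE : Real.exp (-T) * Real.exp T = 1 := by rw [← Real.exp_add]; simp
  let G : Finset (Fin n × Fin n) := univ.filter fun e => Real.exp (-T) ≤ pr L R K e
  let τ : Fin n × Fin n → ℝ := fun e => if Real.exp (-T) ≤ pr L R K e then p / pr L R K e else 0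
  have τ0 : ∀ e, 0 ≤ τ e := fun e => by
    have := pr_pos (L := L) (R := R) hK e
    simp only [τ]; split_ifs <;> positivity
  have τ1 : ∀ e, τ e ≤ p * Real.exp T := fun e => by
    have := pr_pos (L := L) (R := R) hK e
    simp only [τ]
    split_ifs with h
    · rw [div_le_iff₀ this]
      have := mul_le_mul_of_nonneg_left h (mul_pos hp0 hE).le
      nlinarith
    · positivity
  have τ2 : ∀ e ∈ G, τ e * pr L R K e = p := fun e he => by
    have := pr_pos (L := L) (R := R) hK e
    simp only [τ]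
    rw [if_pos (mem_filter.1 he).2]; field_simp
  let q : B ⊕ (Fin n × Fin n) → ℝ := Sum.elim (rho L R K) τ
  have q0 : ∀ i, 0 ≤ q i := by
    rintro (b | e)
    exacts [rho_nonneg hK b, τ0 e]
  have q1 : ∀ i, q i ≤ 1 := by
    rintro (b | e)
    · exact rho_le_one hK b
    · refine (τ1 e).trans ?_
      nlinarith
  have main := Ex_le q0 q1 (phi_le hσ G)
  rw [Ex_sub, Ex_sum, Ex_sum] at main
  have e1 : ∀ b, Ex q (fun ω => ind ω (Sum.inl b)) = rho L R K b := fun b => by
    simpa [q] using Ex_mono q {Sum.inl b}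
  simp only [e1] at main
  have e2 := sum_rho hK hL hR
  have e3 : 2 * n * d / K = n / 64 := by rw [hKd]; field_simp; ring
  have e4 : ∀ e ∈ G, p / 2 ≤ Ex q fun ω => (∏ i ∈ (cm L R e).disjSum {e}, ind ω i) -
      ∑ e' ∈ G.filter (adj e), (∏ i ∈ (cm L R e).disjSum {e}, ind ω i) *
        ∏ i ∈ (cm L R e').disjSum {e'}, ind ω i := by
    intro e he
    rw [Ex_sub, Ex_sum, Ex_mono]
    have a1 : ∏ i ∈ (cm L R e).disjSum {e}, q i = p := by
      rw [prod_disjSum, ← τ2 e he, mul_comm]; simp [q, pr]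
    have a2 : ∀ e' ∈ G.filter (adj e), (Ex q fun ω => (∏ i ∈ (cm L R e).disjSum {e}, ind ω i) *
        ∏ i ∈ (cm L R e').disjSum {e'}, ind ω i) ≤ p * p +
          if adj e e' ∧ ∃ b ∈ cm L R e ∩ cm L R e', kb L R b ≤ K then p * (p * Real.exp T)
          else 0 := by
      intro e' he'
      obtain ⟨g1, g2⟩ := mem_filter.1 he'
      simp only [prod_ind_mul]
      rw [Ex_mono]
      have b1 : (cm L R e).disjSum {e} ∪ (cm L R e').disjSum {e'} =
          (cm L R e ∪ cm L R e').disjSum ({e, e'} : Finset (Fin n × Fin n)) := by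
        ext (x | x) <;> simp
      rw [b1, prod_disjSum, prod_pair g2.1]
      simp only [q, Sum.elim_inl, Sum.elim_inr]
      split_ifs with h
      · have b2 : ∏ b ∈ cm L R e ∪ cm L R e', rho L R K b ≤ pr L R K e :=
          prod_le_prod_of_subset_of_le_one subset_union_left (fun b _ => rho_nonneg hK b)
            fun b _ _ => rho_le_one hK b
        have b3 := mul_le_mul_of_nonneg_right b2 (mul_nonneg (τ0 e) (τ0 e'))
        have b4 : pr L R K e * (τ e * τ e') = p * τ e' := by rw [← τ2 e he]; ring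
        have b5 := mul_le_mul_of_nonneg_left (τ1 e') hp0.le
        nlinarith
      · have b2 : ∏ b ∈ cm L R e ∩ cm L R e', rho L R K b = 1 := prod_eq_one fun b hb => by
          unfold rho
          rw [if_neg fun h3 => h ⟨g2, b, hb, h3⟩]
        have b3 := prod_union_inter (s₁ := cm L R e) (s₂ := cm L R e') (f := rho L R K)
        rw [b2, mul_one] at b3
        rw [b3, add_zero]
        refine le_of_eq ?_
        nth_rewrite 1 [← τ2 e he]
        rw [← τ2 e' g1]
        simp only [pr]; ring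
    have a3 := sum_le_sum a2
    rw [sum_add_distrib, sum_const, nsmul_eq_mul, ← sum_filter, sum_const, nsmul_eq_mul] at a3
    have a4 : ((G.filter (adj e)).card : ℝ) ≤ 2 * n :=
      le_trans (by exact_mod_cast card_le_card (filter_subset_filter _ (subset_univ G)))
        (adj_count e)
    have a5 : (((G.filter (adj e)).filter fun e' =>
        adj e e' ∧ ∃ b ∈ cm L R e ∩ cm L R e', kb L R b ≤ K).card : ℝ) ≤ 2 * T * K :=
      le_trans (by exact_mod_cast card_le_card (filter_subset_filter _ (subset_univ _)))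
        (share_count hK (mem_filter.1 he).2)
    have a6 := mul_le_mul_of_nonneg_right a4 (mul_pos hp0 hp0).le
    have a7 := mul_le_mul_of_nonneg_right a5 (mul_pos hp0 (mul_pos hp0 hE)).le
    have a8 : 2 * n * (p * p) = p / 4 := by
      have : 2 * n * (p * p) = p * (p * (8 * n)) / 4 := by ring
      rw [this, hpn, mul_one]
    have a9 : 2 * T * K * (p * (p * Real.exp T)) ≤ p / 4 := by
      have := mul_le_mul_of_nonneg_left h2 (mul_pos hp0 hp0).le
      nlinarith
    rw [a1]
    linarith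
  have e5 := card_nsmul_le_sum _ _ _ e4
  rw [nsmul_eq_mul] at e5
  have e6 : (n : ℝ) * (n / 2) ≤ G.card := by
    have b1 : ∀ u : Fin n, (n : ℝ) / 2 ≤
        (univ.filter fun v => Real.exp (-T) ≤ pr L R K (u, v)).card := by
      intro u
      have c1 := bad_count (R := R) (T := T) hK u (hL u)
      have c2 := card_filter_add_card_filter_not (s := (univ : Finset (Fin n)))
        (fun v => Real.exp (-T) ≤ pr L R K (u, v))
      rw [card_univ, Fintype.card_fin] at c2
      have c3 : ((univ.filter fun v => Real.exp (-T) ≤ pr L R K (u, v)).card : ℝ) +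
          (univ.filter fun v => ¬ Real.exp (-T) ≤ pr L R K (u, v)).card = n := by
        exact_mod_cast c2
      have c4 : ((univ.filter fun v => ¬ Real.exp (-T) ≤ pr L R K (u, v)).card : ℝ) * T ≤
          n / 2 * T := by
        rw [hKd] at c1 ⊢
        nlinarith
      have c5 := le_of_mul_le_mul_right c4 hT
      linarith
    have b2 : (G.card : ℝ) =
        ∑ u, ((univ.filter fun v => Real.exp (-T) ≤ pr L R K (u, v)).card : ℝ) := by
      simp only [G, card_filter]
      push_cast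
      rw [← univ_product_univ, sum_product]
    have b3 := card_nsmul_le_sum univ _ _ fun u _ => b1 u
    rw [b2]
    simpa using b3
  have e7 := mul_le_mul_of_nonneg_right e6 (by positivity : 0 ≤ p / 2)
  have e8 : (n : ℝ) * (n / 2) * (p / 2) = n / 32 := by
    have : (n : ℝ) * (n / 2) * (p / 2) = n * (p * (8 * n)) / 32 := by ring
    rw [this, hpn, mul_one]
  linarith

end Pool.Agent.H20.Pair
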