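import Mathlib
import Pool.Agent.H20.Pair2

set_option autoImplicit false

namespace Pool.Agent.H20.Pair

open Finset

variable {A B : Type} [Fintype A] [DecidableEq A] [Fintype B] [DecidableEq B]

def nb (ω : A × B → Bool) (a : A) : Finset B := univ.filter fun b => ω (a, b) = true

def valid (Q : Finset (A × A)) : Prop :=
  ∀ c ∈ Q, ∀ c' ∈ Q, c.1 ≠ c'.2 ∧ (c.1 = c'.1 → c = c') ∧ (c.2 = c'.2 → c = c')

def miss (Q : Finset (A × A)) (W : Finset B) (ω : A × B → Bool) : ℝ :=
  ∏ c ∈ Q ×ˢ Wᶜ, (1 + (-1) * ∏ i ∈ ({(c.1.1, c.2), (c.1.2, c.2)} : Finset (A × B)), ind ω i)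

omit [Fintype A] in
lemma miss_nonneg (Q : Finset (A × A)) (W : Finset B) (ω : A × B → Bool) : 0 ≤ miss Q W ω :=
  prod_nonneg fun c _ => by
    rcases prod_ind_cases ω ({(c.1.1, c.2), (c.1.2, c.2)} : Finset (A × B)) with h | h
    · rw [h.1]; norm_num
    · rw [h]; norm_num

lemma Ex_miss {Q : Finset (A × A)} (hQ : valid Q) (W : Finset B) (q : ℝ) :
    Ex (fun _ => q) (miss Q W) = (1 - q ^ 2) ^ (Q.card * Wᶜ.card) := by
  unfold miss
  rw [Ex_prod]
  · rw [← card_product, ← prod_const]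
    refine prod_congr rfl fun c hc => ?_
    have h := (hQ _ (mem_product.1 hc).1 _ (mem_product.1 hc).1).1
    rw [prod_pair (by simpa using h)]; ring
  · rintro ⟨c, b⟩ hc ⟨c', b'⟩ hc' hne
    have h := hQ _ (mem_product.1 hc).1 _ (mem_product.1 hc').1
    have h' := hQ _ (mem_product.1 hc').1 _ (mem_product.1 hc).1
    simp only at h h'
    rw [disjoint_left]
    intro x hx hx'
    simp only [mem_insert, mem_singleton] at hx hx'
    apply hne
    rcases hx with rfl | rfl <;> rcases hx' with h1 | h1 <;> obtain ⟨h2, h3⟩ := Prod.mk.inj h1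
    · rw [h.2.1 h2, h3]
    · exact absurd h2 h.1
    · exact absurd h2.symm h'.1
    · rw [h.2.2 h2, h3]

omit [Fintype A] in
lemma two_pow_nb (ω : A × B → Bool) (a : A) :
    (2 : ℝ) ^ (nb ω a).card = ∏ b, (1 + 1 * ∏ i ∈ ({(a, b)} : Finset (A × B)), ind ω i) := by
  rw [nb, ← prod_const, prod_filter]
  refine prod_congr rfl fun b _ => ?_
  rw [prod_singleton, ind]
  split_ifs <;> norm_num

lemma Ex_deg (a : A) (q : ℝ) :
    Ex (fun _ => q) (fun ω : A × B → Bool => (2 : ℝ) ^ (nb ω a).card) =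
      (1 + q) ^ Fintype.card B := by
  simp only [two_pow_nb]
  rw [Ex_prod]
  · simp
  · intro b _ b' _ h
    simpa using h

lemma geo (N : ℕ) : ∑ t ∈ range N, (1 / 4 : ℝ) ^ (t + 1) ≤ 1 / 3 := by
  have : ∑ t ∈ range N, (1 / 4 : ℝ) ^ (t + 1) = 1 / 3 - (1 / 4) ^ N / 3 := by
    induction N with
    | zero => simp
    | succ N ih => rw [sum_range_succ, ih]; ring
  rw [this]
  have : (0 : ℝ) ≤ (1 / 4) ^ N / 3 := by positivity
  linarith

open Classical in
theorem upper {n : ℕ} (hA : Fintype.card A = 2 * n) (hB : Fintype.card B = 2 * n) {q D : ℝ}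
    (hq0 : 0 ≤ q) (hq1 : q ≤ 1) (h1 : 32 * (n : ℝ) ^ 3 * Real.exp (-(q ^ 2 * n)) ≤ 1)
    (hD : 0 < D) (h2 : 6 * n * Real.exp (2 * n * q) ≤ D) :
    ∃ G : A → Finset B, (∀ a, (2 : ℝ) ^ (G a).card < D) ∧ ∀ e : Fin n ⊕ Fin n → A,
      Function.Injective e → ∃ k : Fin n → B, Function.Injective k ∧
        ∀ s, k s ∈ G (e (Sum.inl s)) ∧ k s ∈ G (e (Sum.inr s)) := by
  let Ψ : (A × B → Bool) → ℝ := fun ω => D⁻¹ * ∑ a, (2 : ℝ) ^ (nb ω a).card +
    ∑ t ∈ range n, ∑ x ∈ ((powersetCard (t + 1) univ).filter valid) ×ˢ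
      powersetCard (t + 1) (univ : Finset B), miss x.1 x.2 ω
  have hE : Ex (fun _ => q) Ψ < 1 := by
    simp only [Ψ]
    rw [Ex_add, Ex_smul, Ex_sum, Ex_sum]
    have a1 : D⁻¹ * ∑ a : A, Ex (fun _ => q)
        (fun ω : A × B → Bool => (2 : ℝ) ^ (nb ω a).card) ≤ 1 / 3 := by
      simp only [Ex_deg, sum_const, card_univ, hA, hB, nsmul_eq_mul]
      have b1 : (1 + q) ^ (2 * n) ≤ Real.exp (2 * n * q) := by
        have := pow_le_pow_left₀ (by linarith) (by linarith [Real.add_one_le_exp q] :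
          1 + q ≤ Real.exp q) (2 * n)
        rw [← Real.exp_nat_mul] at this
        simpa using this
      rw [inv_mul_le_iff₀ hD]
      push_cast
      have : (0 : ℝ) ≤ n := by positivity
      nlinarith
    have a2 : ∀ t ∈ range n, Ex (fun _ => q) (fun ω =>
        ∑ x ∈ ((powersetCard (t + 1) (univ : Finset (A × A))).filter valid) ×ˢ
          powersetCard (t + 1) (univ : Finset B), miss x.1 x.2 ω) ≤ (1 / 4 : ℝ) ^ (t + 1) := by
      intro t ht
      have ht' := mem_range.1 ht
      rw [Ex_sum]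
      have b1 : ∀ x ∈ ((powersetCard (t + 1) (univ : Finset (A × A))).filter valid) ×ˢ
          powersetCard (t + 1) (univ : Finset B), Ex (fun _ => q) (miss x.1 x.2) ≤
            Real.exp (-(q ^ 2 * n)) ^ (t + 1) := by
        intro x hx
        obtain ⟨x1, x2⟩ := mem_product.1 hx
        obtain ⟨x3, x4⟩ := mem_filter.1 x1
        rw [Ex_miss x4, (mem_powersetCard.1 x3).2, card_compl, (mem_powersetCard.1 x2).2, hB,
          mul_comm, pow_mul]
        have c0 : 0 ≤ 1 - q ^ 2 := by nlinarith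
        refine pow_le_pow_left₀ (by positivity) ?_ _
        calc (1 - q ^ 2) ^ (2 * n - (t + 1)) ≤ (1 - q ^ 2) ^ n :=
              pow_le_pow_of_le_one c0 (by nlinarith) (by omega)
          _ ≤ Real.exp (-q ^ 2) ^ n :=
              pow_le_pow_left₀ c0 (by linarith [Real.add_one_le_exp (-q ^ 2)]) n
          _ = _ := by rw [← Real.exp_nat_mul]; congr 1; ring
      refine (sum_le_card_nsmul _ _ _ b1).trans ?_
      have b2 : (((powersetCard (t + 1) (univ : Finset (A × A))).filter valid) ×ˢ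
          powersetCard (t + 1) (univ : Finset B)).card ≤ (8 * n ^ 3) ^ (t + 1) := by
        rw [card_product]
        have c1 := (card_filter_le (powersetCard (t + 1) (univ : Finset (A × A))) valid).trans
          ((card_powersetCard _ _).le.trans (Nat.choose_le_pow _ _))
        have c2 := (card_powersetCard (t + 1) (univ : Finset B)).le.trans (Nat.choose_le_pow _ _)
        refine (Nat.mul_le_mul c1 c2).trans (le_of_eq ?_)
        rw [← mul_pow, card_univ, card_univ, Fintype.card_prod, hA, hB]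
        congr 1; ring
      rw [nsmul_eq_mul]
      have b3 : ((((powersetCard (t + 1) (univ : Finset (A × A))).filter valid) ×ˢ
          powersetCard (t + 1) (univ : Finset B)).card : ℝ) ≤ (8 * (n : ℝ) ^ 3) ^ (t + 1) := by
        exact_mod_cast b2
      refine (mul_le_mul_of_nonneg_right b3 (by positivity)).trans ?_
      rw [← mul_pow]
      exact pow_le_pow_left₀ (by positivity) (by linarith) _
    have a3 := (sum_le_sum a2).trans (geo n)
    linarith
  obtain ⟨ω, hω⟩ : ∃ ω, Ψ ω < 1 := by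
    by_contra hc
    push Not at hc
    linarith [le_Ex (q := fun _ : A × B => q) (fun _ => hq0) (fun _ => hq1) hc]
  have s1 : 0 ≤ D⁻¹ * ∑ a, (2 : ℝ) ^ (nb ω a).card := by positivity
  have s2 : ∀ t, 0 ≤ ∑ x ∈ ((powersetCard (t + 1) (univ : Finset (A × A))).filter valid) ×ˢ
      powersetCard (t + 1) (univ : Finset B), miss x.1 x.2 ω :=
    fun t => sum_nonneg fun x _ => miss_nonneg _ _ _
  simp only [Ψ] at hω
  refine ⟨nb ω, fun a => ?_, fun e he => ?_⟩
  · have b1 := sum_nonneg (s := range n) fun t _ => s2 t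
    have b2 : D⁻¹ * ∑ a, (2 : ℝ) ^ (nb ω a).card < 1 := by linarith
    rw [inv_mul_lt_iff₀ hD, mul_one] at b2
    exact lt_of_le_of_lt (single_le_sum (f := fun a => (2 : ℝ) ^ (nb ω a).card)
      (fun a _ => by positivity) (mem_univ a)) b2
  · obtain ⟨k, hk, hk'⟩ := (all_card_le_biUnion_card_iff_exists_injective
      (fun s : Fin n => nb ω (e (Sum.inl s)) ∩ nb ω (e (Sum.inr s)))).1 (by
      intro S
      by_contra hc
      push Not at hc
      obtain ⟨t, ht⟩ : ∃ t, S.card = t + 1 := ⟨S.card - 1, by omega⟩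
      have htn : t < n := by
        have := card_le_univ S
        rw [Fintype.card_fin] at this
        omega
      obtain ⟨W, hW1, -, hW2⟩ := exists_subsuperset_card_eq (subset_univ
        (S.biUnion fun s : Fin n => nb ω (e (Sum.inl s)) ∩ nb ω (e (Sum.inr s)))) (n := t + 1)
        (by omega) (by rw [card_univ, hB]; omega)
      let Q : Finset (A × A) := S.image fun s => (e (Sum.inl s), e (Sum.inr s))
      have hQc : Q.card = t + 1 := by
        rw [card_image_of_injective _ fun s s' h => Sum.inl_injective (he (Prod.mk.inj h).1), ht]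
      have hQv : valid Q := by
        intro c hc c' hc'
        obtain ⟨s, -, rfl⟩ := mem_image.1 hc
        obtain ⟨s', -, rfl⟩ := mem_image.1 hc'
        refine ⟨fun h => Sum.inl_ne_inr (he h), fun h => ?_, fun h => ?_⟩
        · rw [Sum.inl_injective (he h)]
        · rw [Sum.inr_injective (he h)]
      have hm : miss Q W ω = 1 := prod_eq_one fun c hc => by
        obtain ⟨c1, c2⟩ := mem_product.1 hc
        obtain ⟨s, hs, h⟩ := mem_image.1 c1
        rcases prod_ind_cases ω ({(c.1.1, c.2), (c.1.2, c.2)} : Finset (A × B)) with h1 | h1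
        · exfalso
          refine mem_compl.1 c2 (hW1 (mem_biUnion.2 ⟨s, hs, mem_inter.2 ⟨?_, ?_⟩⟩))
          · exact mem_filter.2 ⟨mem_univ _, h1.2 _ (by rw [← h]; simp)⟩
          · exact mem_filter.2 ⟨mem_univ _, h1.2 _ (by rw [← h]; simp)⟩
        · rw [h1]; norm_num
      have b1 := single_le_sum (f := fun x : Finset (A × A) × Finset B => miss x.1 x.2 ω)
        (s := ((powersetCard (t + 1) (univ : Finset (A × A))).filter valid) ×ˢ
          powersetCard (t + 1) (univ : Finset B)) (fun x _ => miss_nonneg _ _ _) (a := (Q, W))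
        (mem_product.2 ⟨mem_filter.2 ⟨mem_powersetCard.2 ⟨subset_univ _, hQc⟩, hQv⟩,
          mem_powersetCard.2 ⟨subset_univ _, hW2⟩⟩)
      have b2 := single_le_sum (fun t _ => s2 t) (mem_range.2 htn)
      simp only [hm] at b1
      linarith)
    exact ⟨k, hk, fun s => mem_inter.1 (hk' s)⟩

end Pool.Agent.H20.Pair
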