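import Mathlib

/-! Back-and-forth and rigid paths for graphs with the extension property on a countable set. -/

namespace Pool.Agent.H20.Rado

open Classical

variable {X I : Type}

def Good (G : SimpleGraph X) (C : Set X) (c : X → I) (F : Finset (X × X)) : Prop :=
  (∀ p ∈ F, p.1 ∈ C ∧ p.2 ∈ C ∧ c p.1 = c p.2) ∧
    ∀ p ∈ F, ∀ q ∈ F, (p.1 = q.1 ↔ p.2 = q.2) ∧ (G.Adj p.1 q.1 ↔ G.Adj p.2 q.2)

def Ext (G : SimpleGraph X) (C : Set X) (c : X → I) : Prop :=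
  ∀ (F : Finset X), (∀ a ∈ F, a ∈ C) → ∀ (p : X → Prop), ∀ y ∈ C,
    ∃ z ∈ C, z ∉ F ∧ c z = c y ∧ ∀ a ∈ F, (G.Adj a z ↔ p a)

theorem forth {G : SimpleGraph X} {C : Set X} {c : X → I} (h : Ext G C c) {F : Finset (X × X)}
    (hF : Good G C c F) {x : X} (hx : x ∈ C) :
    ∃ F', F ⊆ F' ∧ Good G C c F' ∧ ∃ z, (x, z) ∈ F' := by
  by_cases h0 : ∃ z, (x, z) ∈ F
  · exact ⟨F, subset_rfl, hF, h0⟩
  obtain ⟨z, hz, hzF, hc, hadj⟩ := h (F.image Prod.snd)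
    (by intro a ha; obtain ⟨p, hp, rfl⟩ := Finset.mem_image.1 ha; exact (hF.1 p hp).2.1)
    (fun a => ∃ p ∈ F, p.2 = a ∧ G.Adj p.1 x) x hx
  have key : ∀ p ∈ F, (p.1 = x ↔ p.2 = z) ∧ (G.Adj p.1 x ↔ G.Adj p.2 z) := by
    intro p hp
    refine ⟨⟨fun e => (h0 ⟨p.2, e ▸ hp⟩).elim,
      fun e => (hzF (e ▸ Finset.mem_image_of_mem _ hp)).elim⟩, ?_⟩
    rw [hadj _ (Finset.mem_image_of_mem _ hp)]
    refine ⟨fun e => ⟨p, hp, rfl, e⟩, ?_⟩
    rintro ⟨q, hq, e, e'⟩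
    rwa [← (hF.2 q hq p hp).1.2 e]
  refine ⟨insert (x, z) F, Finset.subset_insert _ _, ⟨?_, ?_⟩, z, Finset.mem_insert_self _ _⟩
  · intro p hp
    rcases Finset.mem_insert.1 hp with rfl | hp
    · exact ⟨hx, hz, hc.symm⟩
    · exact hF.1 p hp
  · intro p hp q hq
    rcases Finset.mem_insert.1 hp with rfl | hp <;> rcases Finset.mem_insert.1 hq with rfl | hq
    · simp
    · obtain ⟨k1, k2⟩ := key q hq
      exact ⟨by rw [eq_comm, k1, eq_comm], by rw [G.adj_comm, k2, G.adj_comm]⟩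
    · exact key p hp
    · exact hF.2 p hp q hq

theorem good_swap {G : SimpleGraph X} {C : Set X} {c : X → I} {F : Finset (X × X)}
    (hF : Good G C c F) : Good G C c (F.image Prod.swap) := by
  refine ⟨?_, ?_⟩
  · intro p hp
    obtain ⟨a, ha, rfl⟩ := Finset.mem_image.1 hp
    exact ⟨(hF.1 a ha).2.1, (hF.1 a ha).1, (hF.1 a ha).2.2.symm⟩
  · intro p hp q hq
    obtain ⟨a, ha, rfl⟩ := Finset.mem_image.1 hp
    obtain ⟨b, hb, rfl⟩ := Finset.mem_image.1 hq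
    exact ⟨(hF.2 a ha b hb).1.symm, (hF.2 a ha b hb).2.symm⟩

theorem both {G : SimpleGraph X} {C : Set X} {c : X → I} (h : Ext G C c) {F : Finset (X × X)}
    (hF : Good G C c F) {x : X} (hx : x ∈ C) :
    ∃ F', F ⊆ F' ∧ Good G C c F' ∧ (∃ z, (x, z) ∈ F') ∧ ∃ z, (z, x) ∈ F' := by
  obtain ⟨F1, a1, a2, z, a3⟩ := forth h hF hx
  obtain ⟨F2, b1, b2, w, b3⟩ := forth h (good_swap a2) hx
  have hs : F1 ⊆ F2.image Prod.swap := fun p hp =>
    Finset.mem_image.2 ⟨p.swap, b1 (Finset.mem_image_of_mem _ hp), by simp⟩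
  exact ⟨F2.image Prod.swap, a1.trans hs, good_swap b2, ⟨z, hs a3⟩,
    ⟨w, Finset.mem_image.2 ⟨_, b3, rfl⟩⟩⟩

/-- a nontrivial colour preserving automorphism -/
theorem exists_aut {G : SimpleGraph X} {C : Set X} {c : X → I} (h : Ext G C c)
    (hC : C.Countable) (hne : C.Nonempty) (hcl : ∀ a b, G.Adj a b → a ∈ C → b ∈ C) :
    ∃ φ : G ≃g G, (∀ x, c (φ x) = c x) ∧ ∃ x, φ x ≠ x := by
  obtain ⟨e, he⟩ := hC.exists_eq_range hne
  have heC : ∀ n, e n ∈ C := fun n => he ▸ ⟨n, rfl⟩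
  obtain ⟨y1, hy1, hy0, hc1, -⟩ := h {e 0} (by simpa using heC 0) (fun _ => True) (e 0) (heC 0)
  have g0 : Good G C c {(e 0, y1)} := by
    refine ⟨by simpa using ⟨heC 0, hy1, hc1.symm⟩, by simp⟩
  choose nx hn1 hn2 hn3 hn4 using
    fun (F : {F // Good G C c F}) (n : ℕ) => both h F.2 (heC n)
  let T : ℕ → {F // Good G C c F} := fun n =>
    Nat.rec ⟨_, g0⟩ (fun n F => ⟨nx F n, hn2 F n⟩) n
  have hmono : Monotone (fun n => (T n).1) := monotone_nat_of_le_succ fun n => hn1 (T n) n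
  let R : X → X → Prop := fun a b => ∃ n, (a, b) ∈ (T n).1
  have hR : ∀ a b a' b', R a b → R a' b' → (a = a' ↔ b = b') ∧ (G.Adj a a' ↔ G.Adj b b') := by
    rintro a b a' b' ⟨n, h1⟩ ⟨m, h2⟩
    exact (T (max n m)).2.2 _ (hmono (le_max_left _ _) h1) _ (hmono (le_max_right _ _) h2)
  have hRC : ∀ a b, R a b → a ∈ C ∧ b ∈ C ∧ c a = c b := by
    rintro a b ⟨n, h1⟩
    exact (T n).2.1 _ h1
  have hf : ∀ a, ∃ b, (a ∈ C → R a b) ∧ (a ∉ C → b = a) := fun a => by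
    by_cases ha : a ∈ C
    · obtain ⟨n, rfl⟩ : a ∈ Set.range e := he ▸ ha
      obtain ⟨z, hz⟩ := hn3 (T n) n
      exact ⟨z, fun _ => ⟨n + 1, hz⟩, fun h => absurd ha h⟩
    · exact ⟨a, fun h => absurd h ha, fun _ => rfl⟩
  choose f hf1 hf2 using hf
  have hfC : ∀ a, f a ∈ C ↔ a ∈ C := fun a => by
    by_cases ha : a ∈ C
    · exact ⟨fun _ => ha, fun _ => (hRC _ _ (hf1 a ha)).2.1⟩
    · rw [hf2 a ha]
  have hinj : Function.Injective f := fun a b hab => by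
    by_cases ha : a ∈ C
    · have hb : b ∈ C := (hfC b).1 (hab ▸ (hfC a).2 ha)
      exact (hR _ _ _ _ (hf1 a ha) (hf1 b hb)).1.2 hab
    · have hb : b ∉ C := fun hb => ha ((hfC a).1 (hab ▸ (hfC b).2 hb))
      rwa [hf2 a ha, hf2 b hb] at hab
  have hsurj : Function.Surjective f := fun b => by
    by_cases hb : b ∈ C
    · obtain ⟨n, rfl⟩ : b ∈ Set.range e := he ▸ hb
      obtain ⟨z, hz⟩ := hn4 (T n) n
      have h1 : R z (e n) := ⟨n + 1, hz⟩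
      exact ⟨z, (hR _ _ _ _ (hf1 z (hRC _ _ h1).1) h1).1.1 rfl⟩
    · exact ⟨b, hf2 b hb⟩
  refine ⟨⟨Equiv.ofBijective f ⟨hinj, hsurj⟩, fun {a b} => ?_⟩, fun x => ?_, e 0, ?_⟩
  · show G.Adj (f a) (f b) ↔ G.Adj a b
    by_cases ha : a ∈ C <;> by_cases hb : b ∈ C
    · exact (hR _ _ _ _ (hf1 a ha) (hf1 b hb)).2.symm
    · exact ⟨fun h => absurd ((hfC b).1 (hcl _ _ h ((hfC a).2 ha))) hb,
        fun h => absurd (hcl _ _ h ha) hb⟩
    · exact ⟨fun h => absurd ((hfC a).1 (hcl _ _ h.symm ((hfC b).2 hb))) ha,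
        fun h => absurd (hcl _ _ h.symm hb) ha⟩
    · rw [hf2 a ha, hf2 b hb]
  · show c (f x) = c x
    by_cases hx : x ∈ C
    · exact (hRC _ _ (hf1 x hx)).2.2.symm
    · rw [hf2 x hx]
  · show f (e 0) ≠ e 0
    have h1 : R (e 0) y1 := ⟨0, Finset.mem_singleton_self _⟩
    rw [(hR _ _ _ _ (hf1 _ (heC 0)) h1).1.1 rfl]
    simpa using hy0

/-- an induced ray separating the remaining points -/
theorem exists_ray {G : SimpleGraph X} {C : Set X} (h : Ext G C (fun _ => ()))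
    (hC : C.Countable) (hne : C.Nonempty) :
    ∃ s : ℕ → X, Function.Injective s ∧ (∀ n, s n ∈ C) ∧
      (∀ i j, i < j → (G.Adj (s i) (s j) ↔ i + 1 = j)) ∧
      ∀ u ∈ C, ∀ v ∈ C, u ∉ Set.range s → v ∉ Set.range s →
        ∃ n, G.Adj u (s n) ∧ (v ≠ u → ¬ G.Adj v (s n)) := by
  obtain ⟨e, he⟩ := (hC.prod hC).exists_eq_range (hne.prod hne)
  have heC : ∀ n, (e n).1 ∈ C ∧ (e n).2 ∈ C := fun n => by
    have : e n ∈ C ×ˢ C := he ▸ ⟨n, rfl⟩
    exact this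
  let P : (n : ℕ) → ((m : ℕ) → m < n → X) → X → Prop := fun n s z =>
    (∀ m hm, s m hm ∈ C) → z ∈ C ∧ (∀ m hm, s m hm ≠ z) ∧
      (∀ m hm, (∀ m' hm', s m' hm' = s m hm → m' = m) → (G.Adj (s m hm) z ↔ m + 1 = n)) ∧
      ((∀ m hm, s m hm ≠ (e n).1) → (∀ m hm, s m hm ≠ (e n).2) →
        G.Adj (e n).1 z ∧ ((e n).2 ≠ (e n).1 → ¬ G.Adj (e n).2 z))
  have hP : ∀ n s, ∃ z, P n s z := by
    intro n s
    by_cases hs : ∀ m hm, s m hm ∈ C
    swap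
    · exact ⟨(e n).1, fun h => absurd h hs⟩
    let F : Finset X := insert (e n).1 (insert (e n).2
      (Finset.univ.image fun m : Fin n => s m m.2))
    have hF : ∀ m hm, s m hm ∈ F := fun m hm => Finset.mem_insert_of_mem
      (Finset.mem_insert_of_mem (Finset.mem_image.2 ⟨⟨m, hm⟩, Finset.mem_univ _, rfl⟩))
    obtain ⟨z, hz, hzF, -, hadj⟩ := h F (by
        intro a ha
        simp only [F, Finset.mem_insert, Finset.mem_image] at ha
        rcases ha with rfl | rfl | ⟨m, -, rfl⟩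
        · exact (heC n).1
        · exact (heC n).2
        · exact hs _ _)
      (fun a => (∃ m hm, s m hm = a ∧ m + 1 = n) ∨ (a = (e n).1 ∧ ∀ m hm, s m hm ≠ a))
      _ (heC n).1
    refine ⟨z, fun _ => ⟨hz, fun m hm e' => hzF (e' ▸ hF m hm), fun m hm hu => ?_,
      fun h1 h2 => ⟨?_, fun h3 => ?_⟩⟩⟩
    · rw [hadj _ (hF m hm)]
      refine ⟨?_, fun e' => Or.inl ⟨m, hm, rfl, e'⟩⟩
      rintro (⟨m', hm', e1, e2⟩ | ⟨-, e2⟩)
      · rw [← hu m' hm' e1]; exact e2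
      · exact absurd rfl (e2 m hm)
    · rw [hadj _ (Finset.mem_insert_self _ _)]
      exact Or.inr ⟨rfl, h1⟩
    · rw [hadj _ (Finset.mem_insert_of_mem (Finset.mem_insert_self _ _))]
      rintro (⟨m', hm', e1, -⟩ | ⟨e1, -⟩)
      · exact h2 m' hm' e1
      · exact h3 e1
  choose nx hnx using hP
  let s : ℕ → X := fun n => Nat.strongRec nx n
  have hs : ∀ n, s n = nx n (fun m _ => s m) := fun n => Nat.strongRec_eq _ _
  have hsC : ∀ n, s n ∈ C := fun n => by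
    induction n using Nat.strong_induction_on with
    | _ n ih => rw [hs]; exact (hnx n _ (fun m hm => ih m hm)).1
  have hQ := fun n => hnx n (fun m _ => s m) (fun m _ => hsC m)
  simp only [← hs] at hQ
  have hinj : Function.Injective s := fun a b hab => by
    rcases lt_trichotomy a b with h1 | h1 | h1
    · exact absurd hab ((hQ b).2.1 a h1)
    · exact h1
    · exact absurd hab.symm ((hQ a).2.1 b h1)
  refine ⟨s, hinj, hsC, fun i j hij => (hQ j).2.2.1 i hij (fun m' _ e' => hinj e'), ?_⟩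
  intro u hu v hv hu' hv'
  obtain ⟨n, hn⟩ : (u, v) ∈ Set.range e := he ▸ (⟨hu, hv⟩ : (u, v) ∈ C ×ˢ C)
  have := (hQ n).2.2.2
  rw [hn] at this
  exact ⟨n, this (fun m _ e' => hu' ⟨m, e'⟩) (fun m _ e' => hv' ⟨m, e'⟩)⟩

end Pool.Agent.H20.Rado
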