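import Mathlib

set_option autoImplicit false
set_option linter.unusedSimpArgs false

namespace Pool.Agent.H20.Ramm

def α₁ (t : ℝ) : ℝ :=
  (34555) + (-265134) * t ^ 1 + (802125) * t ^ 2 + (-998949) * t ^ 3 + (20977) * t ^ 4 +
    (1172070) * t ^ 5 + (-1072835) * t ^ 6 + (307203) * t ^ 7

def β₁ (t : ℝ) : ℝ :=
  (213638) + (-2049626) * t ^ 1 + (8448684) * t ^ 2 + (-17993977) * t ^ 3 + (20661581) * t ^ 4 +
    (-12173749) * t ^ 5 + (2893473) * t ^ 6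

def δ₁ (t : ℝ) : ℝ :=
  (248995) + (-3642332) * t ^ 1 + (19559766) * t ^ 2 + (-48610904) * t ^ 3 + (61639942) * t ^ 4 +
    (-39109038) * t ^ 5 + (9937986) * t ^ 6

def a₁ (t : ℝ) : ℝ :=
  (1558360) + (-17360524) * t ^ 1 + (77634660) * t ^ 2 + (-178405694) * t ^ 3 +
    (222957842) * t ^ 4 + (-144238272) * t ^ 5 + (37878192) * t ^ 6

def α₂ (t : ℝ) : ℝ :=
  (722) + (26277) * t ^ 1 + (190834) * t ^ 2 + (-1574018) * t ^ 3 + (3567372) * t ^ 4 +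
    (-2812984) * t ^ 5 + (255088) * t ^ 6 + (360147) * t ^ 7

def β₂ (t : ℝ) : ℝ :=
  (-1042) + (-59550) * t ^ 1 + (-3632913) * t ^ 2 + (20673030) * t ^ 3 + (-42647752) * t ^ 4 +
    (37720508) * t ^ 5 + (-12061643) * t ^ 6

def δ₂ (t : ℝ) : ℝ :=
  (11657) + (-1480272) * t ^ 1 + (14438320) * t ^ 2 + (-26283232) * t ^ 3 + (-24083648) * t ^ 4 +
    (85698148) * t ^ 5 + (-45095118) * t ^ 6

def a₂ (t : ℝ) : ℝ :=
  (25024) + (1353800) * t ^ 1 + (-37356528) * t ^ 2 + (300556252) * t ^ 3 +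
    (-955609192) * t ^ 4 + (1271642812) * t ^ 5 + (-570186760) * t ^ 6

theorem al₁_0 (t : ℝ) (h1 : 0 ≤ t) (h2 : t ≤ (1 / 2)) : 0 ≤ α₁ t - 1 := by
  have key : ∀ s z : ℝ, 0 ≤ s → 0 ≤ z → 0 ≤ 4422912 * s ^ 0 * z ^ 7 + 13991808 * s ^ 1 * z ^ 6 + 16737696 * s ^ 2 * z ^ 5 +
      12630096 * s ^ 3 * z ^ 4 + 8345480 * s ^ 4 * z ^ 3 + 4325136 * s ^ 5 * z ^ 2 +
      1290530 * s ^ 6 * z ^ 1 + 156781 * s ^ 7 * z ^ 0 := fun s z hs hz => by positivity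
  refine (key (t - 0) ((1 / 2) - t) (sub_nonneg.2 h1) (sub_nonneg.2 h2)).trans_eq ?_
  simp only [α₁, β₁, δ₁, a₁, α₂, β₂, δ₂, a₂]
  ring

theorem al₁_1 (t : ℝ) (h1 : (1 / 2) ≤ t) (h2 : t ≤ 1) : 0 ≤ α₁ t - 1 := by
  have key : ∀ s z : ℝ, 0 ≤ s → 0 ≤ z → 0 ≤ 156781 * s ^ 0 * z ^ 7 + 904404 * s ^ 1 * z ^ 6 + 2008380 * s ^ 2 * z ^ 5 +
      1372760 * s ^ 3 * z ^ 4 + 184256 * s ^ 4 * z ^ 3 + 391872 * s ^ 5 * z ^ 2 +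
      13824 * s ^ 6 * z ^ 1 + 1408 * s ^ 7 * z ^ 0 := fun s z hs hz => by positivity
  refine (key (t - (1 / 2)) (1 - t) (sub_nonneg.2 h1) (sub_nonneg.2 h2)).trans_eq ?_
  simp only [α₁, β₁, δ₁, a₁, α₂, β₂, δ₂, a₂]
  ring

theorem al₁ (t : ℝ) (h1 : 0 ≤ t) (h2 : t ≤ 1) : 0 ≤ α₁ t - 1 := by
  rcases le_total t (1 / 2) with h2 | h1
  · exact al₁_0 t h1 h2
  exact al₁_1 t h1 h2

theorem aa₁_0 (t : ℝ) (h1 : 0 ≤ t) (h2 : t ≤ (1 / 4)) : 0 ≤ a₁ t - 1 := by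
  have key : ∀ s z : ℝ, 0 ≤ s → 0 ≤ z → 0 ≤ 6383038464 * s ^ 0 * z ^ 6 + 20521054208 * s ^ 1 * z ^ 5 + 26734167040 * s ^ 2 * z ^ 4 +
      17968930944 * s ^ 3 * z ^ 3 + 6534081184 * s ^ 4 * z ^ 2 + 1214044352 * s ^ 5 * z ^ 1 +
      90621008 * s ^ 6 * z ^ 0 := fun s z hs hz => by positivity
  refine (key (t - 0) ((1 / 4) - t) (sub_nonneg.2 h1) (sub_nonneg.2 h2)).trans_eq ?_
  simp only [α₁, β₁, δ₁, a₁, α₂, β₂, δ₂, a₂]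
  ring

theorem aa₁_1 (t : ℝ) (h1 : (1 / 4) ≤ t) (h2 : t ≤ (3 / 8)) : 0 ≤ a₁ t - 1 := by
  have key : ∀ s z : ℝ, 0 ≤ s → 0 ≤ z → 0 ≤ 5799744512 * s ^ 0 * z ^ 6 + 13348281344 * s ^ 1 * z ^ 5 + 8916031744 * s ^ 2 * z ^ 4 +
      891167232 * s ^ 3 * z ^ 3 + 666888640 * s ^ 4 * z ^ 2 + 1682095040 * s ^ 5 * z ^ 1 +
      576756912 * s ^ 6 * z ^ 0 := fun s z hs hz => by positivity
  refine (key (t - (1 / 4)) ((3 / 8) - t) (sub_nonneg.2 h1) (sub_nonneg.2 h2)).trans_eq ?_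
  simp only [α₁, β₁, δ₁, a₁, α₂, β₂, δ₂, a₂]
  ring

theorem aa₁_2 (t : ℝ) (h1 : (3 / 8) ≤ t) (h2 : t ≤ (1 / 2)) : 0 ≤ a₁ t - 1 := by
  have key : ∀ s z : ℝ, 0 ≤ s → 0 ≤ z → 0 ≤ 576756912 * s ^ 0 * z ^ 6 + 5238987904 * s ^ 1 * z ^ 5 + 18451352960 * s ^ 2 * z ^ 4 +
      29441246208 * s ^ 3 * z ^ 3 + 23428411392 * s ^ 4 * z ^ 2 + 9131999232 * s ^ 5 * z ^ 1 +
      1393590272 * s ^ 6 * z ^ 0 := fun s z hs hz => by positivity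
  refine (key (t - (3 / 8)) ((1 / 2) - t) (sub_nonneg.2 h1) (sub_nonneg.2 h2)).trans_eq ?_
  simp only [α₁, β₁, δ₁, a₁, α₂, β₂, δ₂, a₂]
  ring

theorem aa₁_3 (t : ℝ) (h1 : (1 / 2) ≤ t) (h2 : t ≤ (5 / 8)) : 0 ≤ a₁ t - 1 := by
  have key : ∀ s z : ℝ, 0 ≤ s → 0 ≤ z → 0 ≤ 1393590272 * s ^ 0 * z ^ 6 + 7591084032 * s ^ 1 * z ^ 5 + 15723835392 * s ^ 2 * z ^ 4 +
      15680519168 * s ^ 3 * z ^ 3 + 7987475840 * s ^ 4 * z ^ 2 + 1990027648 * s ^ 5 * z ^ 1 +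
      194607536 * s ^ 6 * z ^ 0 := fun s z hs hz => by positivity
  refine (key (t - (1 / 2)) ((5 / 8) - t) (sub_nonneg.2 h1) (sub_nonneg.2 h2)).trans_eq ?_
  simp only [α₁, β₁, δ₁, a₁, α₂, β₂, δ₂, a₂]
  ring

theorem aa₁_4 (t : ℝ) (h1 : (5 / 8) ≤ t) (h2 : t ≤ (11 / 16)) : 0 ≤ a₁ t - 1 := by
  have key : ∀ s z : ℝ, 0 ≤ s → 0 ≤ z → 0 ≤ 12454882304 * s ^ 0 * z ^ 6 + 48413056000 * s ^ 1 * z ^ 5 + 70545255680 * s ^ 2 * z ^ 4 +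
      49238176256 * s ^ 3 * z ^ 3 + 20254198080 * s ^ 4 * z ^ 2 + 7603783104 * s ^ 5 * z ^ 1 +
      2038557488 * s ^ 6 * z ^ 0 := fun s z hs hz => by positivity
  refine (key (t - (5 / 8)) ((11 / 16) - t) (sub_nonneg.2 h1) (sub_nonneg.2 h2)).trans_eq ?_
  simp only [α₁, β₁, δ₁, a₁, α₂, β₂, δ₂, a₂]
  ring

theorem aa₁_5 (t : ℝ) (h1 : (11 / 16) ≤ t) (h2 : t ≤ (3 / 4)) : 0 ≤ a₁ t - 1 := by
  have key : ∀ s z : ℝ, 0 ≤ s → 0 ≤ z → 0 ≤ 2038557488 * s ^ 0 * z ^ 6 + 16858906752 * s ^ 1 * z ^ 5 + 66529816320 * s ^ 2 * z ^ 4 +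
      134813282304 * s ^ 3 * z ^ 3 + 142168100864 * s ^ 4 * z ^ 2 + 74144579584 * s ^ 5 * z ^ 1 +
      15118172160 * s ^ 6 * z ^ 0 := fun s z hs hz => by positivity
  refine (key (t - (11 / 16)) ((3 / 4) - t) (sub_nonneg.2 h1) (sub_nonneg.2 h2)).trans_eq ?_
  simp only [α₁, β₁, δ₁, a₁, α₂, β₂, δ₂, a₂]
  ring

theorem aa₁_6 (t : ℝ) (h1 : (3 / 4) ≤ t) (h2 : t ≤ (7 / 8)) : 0 ≤ a₁ t - 1 := by
  have key : ∀ s z : ℝ, 0 ≤ s → 0 ≤ z → 0 ≤ 236221440 * s ^ 0 * z ^ 6 + 1934967808 * s ^ 1 * z ^ 5 + 6020129024 * s ^ 2 * z ^ 4 +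
      8802362880 * s ^ 3 * z ^ 3 + 6199011264 * s ^ 4 * z ^ 2 + 2023648320 * s ^ 5 * z ^ 1 +
      343495472 * s ^ 6 * z ^ 0 := fun s z hs hz => by positivity
  refine (key (t - (3 / 4)) ((7 / 8) - t) (sub_nonneg.2 h1) (sub_nonneg.2 h2)).trans_eq ?_
  simp only [α₁, β₁, δ₁, a₁, α₂, β₂, δ₂, a₂]
  ring

theorem aa₁_7 (t : ℝ) (h1 : (7 / 8) ≤ t) (h2 : t ≤ 1) : 0 ≤ a₁ t - 1 := by
  have key : ∀ s z : ℝ, 0 ≤ s → 0 ≤ z → 0 ≤ 343495472 * s ^ 0 * z ^ 6 + 2098297344 * s ^ 1 * z ^ 5 + 6572256384 * s ^ 2 * z ^ 4 +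
      14803069952 * s ^ 3 * z ^ 3 + 22529269760 * s ^ 4 * z ^ 2 + 18944819200 * s ^ 5 * z ^ 1 +
      6439043072 * s ^ 6 * z ^ 0 := fun s z hs hz => by positivity
  refine (key (t - (7 / 8)) (1 - t) (sub_nonneg.2 h1) (sub_nonneg.2 h2)).trans_eq ?_
  simp only [α₁, β₁, δ₁, a₁, α₂, β₂, δ₂, a₂]
  ring

theorem aa₁ (t : ℝ) (h1 : 0 ≤ t) (h2 : t ≤ 1) : 0 ≤ a₁ t - 1 := by
  rcases le_total t (1 / 4) with h2 | h1
  · exact aa₁_0 t h1 h2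
  rcases le_total t (3 / 8) with h2 | h1
  · exact aa₁_1 t h1 h2
  rcases le_total t (1 / 2) with h2 | h1
  · exact aa₁_2 t h1 h2
  rcases le_total t (5 / 8) with h2 | h1
  · exact aa₁_3 t h1 h2
  rcases le_total t (11 / 16) with h2 | h1
  · exact aa₁_4 t h1 h2
  rcases le_total t (3 / 4) with h2 | h1
  · exact aa₁_5 t h1 h2
  rcases le_total t (7 / 8) with h2 | h1
  · exact aa₁_6 t h1 h2
  exact aa₁_7 t h1 h2

theorem det₁_0 (t : ℝ) (h1 : 0 ≤ t) (h2 : t ≤ (1 / 4)) : 0 ≤ α₁ t * (α₁ t + t * δ₁ t) - t ^ 2 * β₁ t ^ 2 := by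
  have key : ∀ s z : ℝ, 0 ≤ s → 0 ≤ z → 0 ≤ 320524826076774400 * s ^ 0 * z ^ 14 + 3835090443058544640 * s ^ 1 * z ^ 13 +
      18812923135731433472 * s ^ 2 * z ^ 12 + 52611723722552770560 * s ^ 3 * z ^ 11 +
      95584303418909392896 * s ^ 4 * z ^ 10 + 120339977614999683072 * s ^ 5 * z ^ 9 +
      108478974798387412992 * s ^ 6 * z ^ 8 + 70909161200476045312 * s ^ 7 * z ^ 7 +
      33493301366067752960 * s ^ 8 * z ^ 6 + 11200825362571794432 * s ^ 9 * z ^ 5 +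
      2543523030037512960 * s ^ 10 * z ^ 4 + 366540288453000832 * s ^ 11 * z ^ 3 +
      31926452057487776 * s ^ 12 * z ^ 2 + 2388120083059424 * s ^ 13 * z ^ 1 +
      224500093925454 * s ^ 14 * z ^ 0 := fun s z hs hz => by positivity
  refine (key (t - 0) ((1 / 4) - t) (sub_nonneg.2 h1) (sub_nonneg.2 h2)).trans_eq ?_
  simp only [α₁, β₁, δ₁, a₁, α₂, β₂, δ₂, a₂]
  ring

theorem det₁_1 (t : ℝ) (h1 : (1 / 4) ≤ t) (h2 : t ≤ (1 / 2)) : 0 ≤ α₁ t * (α₁ t + t * δ₁ t) - t ^ 2 * β₁ t ^ 2 := by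
  have key : ∀ s z : ℝ, 0 ≤ s → 0 ≤ z → 0 ≤ 224500093925454 * s ^ 0 * z ^ 14 + 3897882546853288 * s ^ 1 * z ^ 13 +
      51553364086808008 * s ^ 2 * z ^ 12 + 308345368523087552 * s ^ 3 * z ^ 11 +
      1039794781518376672 * s ^ 4 * z ^ 10 + 2283607666737241984 * s ^ 5 * z ^ 9 +
      3531694334871410816 * s ^ 6 * z ^ 8 + 4007288454565906432 * s ^ 7 * z ^ 7 +
      3396940854588676608 * s ^ 8 * z ^ 6 + 2155013473423923200 * s ^ 9 * z ^ 5 +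
      1010275588993456128 * s ^ 10 * z ^ 4 + 339844202130096128 * s ^ 11 * z ^ 3 +
      77587319979941888 * s ^ 12 * z ^ 2 + 10763611098349568 * s ^ 13 * z ^ 1 +
      684690059657216 * s ^ 14 * z ^ 0 := fun s z hs hz => by positivity
  refine (key (t - (1 / 4)) ((1 / 2) - t) (sub_nonneg.2 h1) (sub_nonneg.2 h2)).trans_eq ?_
  simp only [α₁, β₁, δ₁, a₁, α₂, β₂, δ₂, a₂]
  ring

theorem det₁_2 (t : ℝ) (h1 : (1 / 2) ≤ t) (h2 : t ≤ (3 / 4)) : 0 ≤ α₁ t * (α₁ t + t * δ₁ t) - t ^ 2 * β₁ t ^ 2 := by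
  have key : ∀ s z : ℝ, 0 ≤ s → 0 ≤ z → 0 ≤ 684690059657216 * s ^ 0 * z ^ 14 + 8407710572052480 * s ^ 1 * z ^ 13 +
      46960613138079744 * s ^ 2 * z ^ 12 + 157822268425256960 * s ^ 3 * z ^ 11 +
      355609419282159616 * s ^ 4 * z ^ 10 + 566730019282601984 * s ^ 5 * z ^ 9 +
      656924252404075008 * s ^ 6 * z ^ 8 + 560819986298918912 * s ^ 7 * z ^ 7 +
      353183856791750784 * s ^ 8 * z ^ 6 + 163233863067543168 * s ^ 9 * z ^ 5 +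
      55042003330544096 * s ^ 10 * z ^ 4 + 13582483165920320 * s ^ 11 * z ^ 3 +
      2496883868674632 * s ^ 12 * z ^ 2 + 336278196032632 * s ^ 13 * z ^ 1 +
      25665300179998 * s ^ 14 * z ^ 0 := fun s z hs hz => by positivity
  refine (key (t - (1 / 2)) ((3 / 4) - t) (sub_nonneg.2 h1) (sub_nonneg.2 h2)).trans_eq ?_
  simp only [α₁, β₁, δ₁, a₁, α₂, β₂, δ₂, a₂]
  ring

theorem det₁_3 (t : ℝ) (h1 : (3 / 4) ≤ t) (h2 : t ≤ 1) : 0 ≤ α₁ t * (α₁ t + t * δ₁ t) - t ^ 2 * β₁ t ^ 2 := by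
  have key : ∀ s z : ℝ, 0 ≤ s → 0 ≤ z → 0 ≤ 25665300179998 * s ^ 0 * z ^ 14 + 382350209007312 * s ^ 1 * z ^ 13 +
      3095820037345472 * s ^ 2 * z ^ 12 + 16161286644243840 * s ^ 3 * z ^ 11 +
      57055650170585856 * s ^ 4 * z ^ 10 + 141174744026302464 * s ^ 5 * z ^ 9 +
      252361528748433408 * s ^ 6 * z ^ 8 + 333529396380418048 * s ^ 7 * z ^ 7 +
      330133233712627712 * s ^ 8 * z ^ 6 + 243632585768435712 * s ^ 9 * z ^ 5 +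
      129538245994217472 * s ^ 10 * z ^ 4 + 45830140566962176 * s ^ 11 * z ^ 3 +
      9380639346262016 * s ^ 12 * z ^ 2 + 964034803269632 * s ^ 13 * z ^ 1 +
      78530255781888 * s ^ 14 * z ^ 0 := fun s z hs hz => by positivity
  refine (key (t - (3 / 4)) (1 - t) (sub_nonneg.2 h1) (sub_nonneg.2 h2)).trans_eq ?_
  simp only [α₁, β₁, δ₁, a₁, α₂, β₂, δ₂, a₂]
  ring

theorem det₁ (t : ℝ) (h1 : 0 ≤ t) (h2 : t ≤ 1) : 0 ≤ α₁ t * (α₁ t + t * δ₁ t) - t ^ 2 * β₁ t ^ 2 := by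
  rcases le_total t (1 / 4) with h2 | h1
  · exact det₁_0 t h1 h2
  rcases le_total t (1 / 2) with h2 | h1
  · exact det₁_1 t h1 h2
  rcases le_total t (3 / 4) with h2 | h1
  · exact det₁_2 t h1 h2
  exact det₁_3 t h1 h2

theorem al₂_0 (t : ℝ) (h1 : 0 ≤ t) (h2 : t ≤ (1 / 2)) : 0 ≤ α₂ t - 1 := by
  have key : ∀ s z : ℝ, 0 ≤ s → 0 ≤ z → 0 ≤ 92288 * s ^ 0 * z ^ 7 + 2327744 * s ^ 1 * z ^ 6 + 18135104 * s ^ 2 * z ^ 5 +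
      33805152 * s ^ 3 * z ^ 4 + 25733344 * s ^ 4 * z ^ 3 + 11490112 * s ^ 5 * z ^ 2 +
      4155904 * s ^ 6 * z ^ 1 + 853779 * s ^ 7 * z ^ 0 := fun s z hs hz => by positivity
  refine (key (t - 0) ((1 / 2) - t) (sub_nonneg.2 h1) (sub_nonneg.2 h2)).trans_eq ?_
  simp only [α₁, β₁, δ₁, a₁, α₂, β₂, δ₂, a₂]
  ring

theorem al₂_1 (t : ℝ) (h1 : (1 / 2) ≤ t) (h2 : t ≤ 1) : 0 ≤ α₂ t - 1 := by
  have key : ∀ s z : ℝ, 0 ≤ s → 0 ≤ z → 0 ≤ 853779 * s ^ 0 * z ^ 7 + 7797002 * s ^ 1 * z ^ 6 + 33336700 * s ^ 2 * z ^ 5 +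
      78871656 * s ^ 3 * z ^ 4 + 100714480 * s ^ 4 * z ^ 3 + 62627040 * s ^ 5 * z ^ 2 +
      15750528 * s ^ 6 * z ^ 1 + 1719936 * s ^ 7 * z ^ 0 := fun s z hs hz => by positivity
  refine (key (t - (1 / 2)) (1 - t) (sub_nonneg.2 h1) (sub_nonneg.2 h2)).trans_eq ?_
  simp only [α₁, β₁, δ₁, a₁, α₂, β₂, δ₂, a₂]
  ring

theorem al₂ (t : ℝ) (h1 : 0 ≤ t) (h2 : t ≤ 1) : 0 ≤ α₂ t - 1 := by
  rcases le_total t (1 / 2) with h2 | h1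
  · exact al₂_0 t h1 h2
  exact al₂_1 t h1 h2

theorem aa₂_0 (t : ℝ) (h1 : 0 ≤ t) (h2 : t ≤ (1 / 16)) : 0 ≤ a₂ t - 1 := by
  have key : ∀ s z : ℝ, 0 ≤ s → 0 ≤ z → 0 ≤ 419816275968 * s ^ 0 * z ^ 6 + 3938459844608 * s ^ 1 * z ^ 5 + 10946857664512 * s ^ 2 * z ^ 4 +
      14030236139520 * s ^ 3 * z ^ 3 + 9252280784896 * s ^ 4 * z ^ 2 +
      3048228527040 * s ^ 5 * z ^ 1 + 397399599032 * s ^ 6 * z ^ 0 := fun s z hs hz => by positivity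
  refine (key (t - 0) ((1 / 16) - t) (sub_nonneg.2 h1) (sub_nonneg.2 h2)).trans_eq ?_
  simp only [α₁, β₁, δ₁, a₁, α₂, β₂, δ₂, a₂]
  ring

theorem aa₂_1 (t : ℝ) (h1 : (1 / 16) ≤ t) (h2 : t ≤ (1 / 8)) : 0 ≤ a₂ t - 1 := by
  have key : ∀ s z : ℝ, 0 ≤ s → 0 ≤ z → 0 ≤ 397399599032 * s ^ 0 * z ^ 6 + 1720566661344 * s ^ 1 * z ^ 5 + 2613971456416 * s ^ 2 * z ^ 4 +
      1642804903168 * s ^ 3 * z ^ 3 + 337801269376 * s ^ 4 * z ^ 2 + 1563106816 * s ^ 5 * z ^ 1 +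
      15192159744 * s ^ 6 * z ^ 0 := fun s z hs hz => by positivity
  refine (key (t - (1 / 16)) ((1 / 8) - t) (sub_nonneg.2 h1) (sub_nonneg.2 h2)).trans_eq ?_
  simp only [α₁, β₁, δ₁, a₁, α₂, β₂, δ₂, a₂]
  ring

theorem aa₂_2 (t : ℝ) (h1 : (1 / 8) ≤ t) (h2 : t ≤ (1 / 4)) : 0 ≤ a₂ t - 1 := by
  have key : ∀ s z : ℝ, 0 ≤ s → 0 ≤ z → 0 ≤ 237377496 * s ^ 0 * z ^ 6 + 4223947840 * s ^ 1 * z ^ 5 + 52425834976 * s ^ 2 * z ^ 4 +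
      171787949056 * s ^ 3 * z ^ 3 + 220641576064 * s ^ 4 * z ^ 2 + 122679192576 * s ^ 5 * z ^ 1 +
      24816114176 * s ^ 6 * z ^ 0 := fun s z hs hz => by positivity
  refine (key (t - (1 / 8)) ((1 / 4) - t) (sub_nonneg.2 h1) (sub_nonneg.2 h2)).trans_eq ?_
  simp only [α₁, β₁, δ₁, a₁, α₂, β₂, δ₂, a₂]
  ring

theorem aa₂_3 (t : ℝ) (h1 : (1 / 4) ≤ t) (h2 : t ≤ (3 / 8)) : 0 ≤ a₂ t - 1 := by
  have key : ∀ s z : ℝ, 0 ≤ s → 0 ≤ z → 0 ≤ 24816114176 * s ^ 0 * z ^ 6 + 175114177536 * s ^ 1 * z ^ 5 + 482816500864 * s ^ 2 * z ^ 4 +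
      656755224576 * s ^ 3 * z ^ 3 + 458627962336 * s ^ 4 * z ^ 2 + 154912953152 * s ^ 5 * z ^ 1 +
      19951591128 * s ^ 6 * z ^ 0 := fun s z hs hz => by positivity
  refine (key (t - (1 / 4)) ((3 / 8) - t) (sub_nonneg.2 h1) (sub_nonneg.2 h2)).trans_eq ?_
  simp only [α₁, β₁, δ₁, a₁, α₂, β₂, δ₂, a₂]
  ring

theorem aa₂_4 (t : ℝ) (h1 : (3 / 8) ≤ t) (h2 : t ≤ (7 / 16)) : 0 ≤ a₂ t - 1 := by
  have key : ∀ s z : ℝ, 0 ≤ s → 0 ≤ z → 0 ≤ 1276901832192 * s ^ 0 * z ^ 6 + 6534901988864 * s ^ 1 * z ^ 5 +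
      13254375477376 * s ^ 2 * z ^ 4 + 13427789991168 * s ^ 3 * z ^ 3 +
      7010461261216 * s ^ 4 * z ^ 2 + 1741775068896 * s ^ 5 * z ^ 1 + 162158291384 * s ^ 6 * z ^ 0 := fun s z hs hz => by positivity
  refine (key (t - (3 / 8)) ((7 / 16) - t) (sub_nonneg.2 h1) (sub_nonneg.2 h2)).trans_eq ?_
  simp only [α₁, β₁, δ₁, a₁, α₂, β₂, δ₂, a₂]
  ring

theorem aa₂_5 (t : ℝ) (h1 : (7 / 16) ≤ t) (h2 : t ≤ (29 / 64)) : 0 ≤ a₂ t - 1 := by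
  have key : ∀ s z : ℝ, 0 ≤ s → 0 ≤ z → 0 ≤ 664200361508864 * s ^ 0 * z ^ 6 + 3197925040766976 * s ^ 1 * z ^ 5 +
      6214513614800896 * s ^ 2 * z ^ 4 + 6190937374025728 * s ^ 3 * z ^ 3 +
      3302749766356096 * s ^ 4 * z ^ 2 + 886304428821184 * s ^ 5 * z ^ 1 +
      93702530761272 * s ^ 6 * z ^ 0 := fun s z hs hz => by positivity
  refine (key (t - (7 / 16)) ((29 / 64) - t) (sub_nonneg.2 h1) (sub_nonneg.2 h2)).trans_eq ?_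
  simp only [α₁, β₁, δ₁, a₁, α₂, β₂, δ₂, a₂]
  ring

theorem aa₂_6 (t : ℝ) (h1 : (29 / 64) ≤ t) (h2 : t ≤ (59 / 128)) : 0 ≤ a₂ t - 1 := by
  have key : ∀ s z : ℝ, 0 ≤ s → 0 ≤ z → 0 ≤ 5996961968721408 * s ^ 0 * z ^ 6 + 25610915996214784 * s ^ 1 * z ^ 5 +
      42528399788960896 * s ^ 2 * z ^ 4 + 34192222715421952 * s ^ 3 * z ^ 3 +
      13563774900097312 * s ^ 4 * z ^ 2 + 2591636986314336 * s ^ 5 * z ^ 1 +
      305638469984696 * s ^ 6 * z ^ 0 := fun s z hs hz => by positivity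
  refine (key (t - (29 / 64)) ((59 / 128) - t) (sub_nonneg.2 h1) (sub_nonneg.2 h2)).trans_eq ?_
  simp only [α₁, β₁, δ₁, a₁, α₂, β₂, δ₂, a₂]
  ring

theorem aa₂_7 (t : ℝ) (h1 : (59 / 128) ≤ t) (h2 : t ≤ (15 / 32)) : 0 ≤ a₂ t - 1 := by
  have key : ∀ s z : ℝ, 0 ≤ s → 0 ≤ z → 0 ≤ 305638469984696 * s ^ 0 * z ^ 6 + 1076024653502016 * s ^ 1 * z ^ 5 +
      5985713236035712 * s ^ 2 * z ^ 4 + 19554652230334464 * s ^ 3 * z ^ 3 +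
      28927934989944832 * s ^ 4 * z ^ 2 + 19588434709594112 * s ^ 5 * z ^ 1 +
      4999824327278592 * s ^ 6 * z ^ 0 := fun s z hs hz => by positivity
  refine (key (t - (59 / 128)) ((15 / 32) - t) (sub_nonneg.2 h1) (sub_nonneg.2 h2)).trans_eq ?_
  simp only [α₁, β₁, δ₁, a₁, α₂, β₂, δ₂, a₂]
  ring

theorem aa₂_8 (t : ℝ) (h1 : (15 / 32) ≤ t) (h2 : t ≤ (1 / 2)) : 0 ≤ a₂ t - 1 := by
  have key : ∀ s z : ℝ, 0 ≤ s → 0 ≤ z → 0 ≤ 1220660236152 * s ^ 0 * z ^ 6 + 17490476313472 * s ^ 1 * z ^ 5 +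
      92514065334272 * s ^ 2 * z ^ 4 + 223771377598464 * s ^ 3 * z ^ 3 +
      272973619003392 * s ^ 4 * z ^ 2 + 164550322159616 * s ^ 5 * z ^ 1 +
      39103261310976 * s ^ 6 * z ^ 0 := fun s z hs hz => by positivity
  refine (key (t - (15 / 32)) ((1 / 2) - t) (sub_nonneg.2 h1) (sub_nonneg.2 h2)).trans_eq ?_
  simp only [α₁, β₁, δ₁, a₁, α₂, β₂, δ₂, a₂]
  ring

theorem aa₂_9 (t : ℝ) (h1 : (1 / 2) ≤ t) (h2 : t ≤ 1) : 0 ≤ a₂ t - 1 := by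
  have key : ∀ s z : ℝ, 0 ≤ s → 0 ≤ z → 0 ≤ 2330736 * s ^ 0 * z ^ 6 + 80807656 * s ^ 1 * z ^ 5 + 930157072 * s ^ 2 * z ^ 4 +
      4102990432 * s ^ 3 * z ^ 3 + 7842334336 * s ^ 4 * z ^ 2 + 5828436864 * s ^ 5 * z ^ 1 +
      667226048 * s ^ 6 * z ^ 0 := fun s z hs hz => by positivity
  refine (key (t - (1 / 2)) (1 - t) (sub_nonneg.2 h1) (sub_nonneg.2 h2)).trans_eq ?_
  simp only [α₁, β₁, δ₁, a₁, α₂, β₂, δ₂, a₂]
  ring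

theorem aa₂ (t : ℝ) (h1 : 0 ≤ t) (h2 : t ≤ 1) : 0 ≤ a₂ t - 1 := by
  rcases le_total t (1 / 16) with h2 | h1
  · exact aa₂_0 t h1 h2
  rcases le_total t (1 / 8) with h2 | h1
  · exact aa₂_1 t h1 h2
  rcases le_total t (1 / 4) with h2 | h1
  · exact aa₂_2 t h1 h2
  rcases le_total t (3 / 8) with h2 | h1
  · exact aa₂_3 t h1 h2
  rcases le_total t (7 / 16) with h2 | h1
  · exact aa₂_4 t h1 h2
  rcases le_total t (29 / 64) with h2 | h1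
  · exact aa₂_5 t h1 h2
  rcases le_total t (59 / 128) with h2 | h1
  · exact aa₂_6 t h1 h2
  rcases le_total t (15 / 32) with h2 | h1
  · exact aa₂_7 t h1 h2
  rcases le_total t (1 / 2) with h2 | h1
  · exact aa₂_8 t h1 h2
  exact aa₂_9 t h1 h2

theorem det₂_0 (t : ℝ) (h1 : 0 ≤ t) (h2 : t ≤ (1 / 8)) : 0 ≤ α₂ t * (α₂ t + t * δ₂ t) - t ^ 2 * β₂ t ^ 2 := by
  have key : ∀ s z : ℝ, 0 ≤ s → 0 ≤ z → 0 ≤ 2292631277494337536 * s ^ 0 * z ^ 14 + 57583705433256755200 * s ^ 1 * z ^ 13 +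
      553875371283657523200 * s ^ 2 * z ^ 12 + 2829583144388007034880 * s ^ 3 * z ^ 11 +
      8751510835483767734272 * s ^ 4 * z ^ 10 + 17642898846216708161536 * s ^ 5 * z ^ 9 +
      24222638097574888734720 * s ^ 6 * z ^ 8 + 23256852054125563609088 * s ^ 7 * z ^ 7 +
      15957946243465840689152 * s ^ 8 * z ^ 6 + 8139537092846387855360 * s ^ 9 * z ^ 5 +
      3380832897149880934400 * s ^ 10 * z ^ 4 + 1281224599582357473280 * s ^ 11 * z ^ 3 +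
      425300910025808418816 * s ^ 12 * z ^ 2 + 97016717359424139424 * s ^ 13 * z ^ 1 +
      10299012095969196486 * s ^ 14 * z ^ 0 := fun s z hs hz => by positivity
  refine (key (t - 0) ((1 / 8) - t) (sub_nonneg.2 h1) (sub_nonneg.2 h2)).trans_eq ?_
  simp only [α₁, β₁, δ₁, a₁, α₂, β₂, δ₂, a₂]
  ring

theorem det₂_1 (t : ℝ) (h1 : (1 / 8) ≤ t) (h2 : t ≤ (1 / 4)) : 0 ≤ α₂ t * (α₂ t + t * δ₂ t) - t ^ 2 * β₂ t ^ 2 := by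
  have key : ∀ s z : ℝ, 0 ≤ s → 0 ≤ z → 0 ≤ 10299012095969196486 * s ^ 0 * z ^ 14 + 191355621327713362184 * s ^ 1 * z ^ 13 +
      1651706661613568314696 * s ^ 2 * z ^ 12 + 8647504648359013245248 * s ^ 3 * z ^ 11 +
      30448060363831659007328 * s ^ 4 * z ^ 10 + 76061974911813852495744 * s ^ 5 * z ^ 9 +
      139014181032888292777088 * s ^ 6 * z ^ 8 + 189087756064062292236288 * s ^ 7 * z ^ 7 +
      192739428130706094252544 * s ^ 8 * z ^ 6 + 146841573428901271336960 * s ^ 9 * z ^ 5 +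
      82501520924561556576256 * s ^ 10 * z ^ 4 + 33221703767495240400896 * s ^ 11 * z ^ 3 +
      9083065210458003742720 * s ^ 12 * z ^ 2 + 1512286776140727091200 * s ^ 13 * z ^ 1 +
      115893720350568841216 * s ^ 14 * z ^ 0 := fun s z hs hz => by positivity
  refine (key (t - (1 / 8)) ((1 / 4) - t) (sub_nonneg.2 h1) (sub_nonneg.2 h2)).trans_eq ?_
  simp only [α₁, β₁, δ₁, a₁, α₂, β₂, δ₂, a₂]
  ring

theorem det₂_2 (t : ℝ) (h1 : (1 / 4) ≤ t) (h2 : t ≤ (1 / 2)) : 0 ≤ α₂ t * (α₂ t + t * δ₂ t) - t ^ 2 * β₂ t ^ 2 := by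
  have key : ∀ s z : ℝ, 0 ≤ s → 0 ≤ z → 0 ≤ 7073591329990774 * s ^ 0 * z ^ 14 + 112485516506496408 * s ^ 1 * z ^ 13 +
      811209061887889576 * s ^ 2 * z ^ 12 + 3536414188830587840 * s ^ 3 * z ^ 11 +
      10490676834078451552 * s ^ 4 * z ^ 10 + 22581624350106062464 * s ^ 5 * z ^ 9 +
      36584740461678339712 * s ^ 6 * z ^ 8 + 45349233214374660096 * s ^ 7 * z ^ 7 +
      42950396725506773504 * s ^ 8 * z ^ 6 + 30522895790137927680 * s ^ 9 * z ^ 5 +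
      15716776976138614784 * s ^ 10 * z ^ 4 + 5552899406395326464 * s ^ 11 * z ^ 3 +
      1239994032404832256 * s ^ 12 * z ^ 2 + 153866391345790976 * s ^ 13 * z ^ 1 +
      8389580274499584 * s ^ 14 * z ^ 0 := fun s z hs hz => by positivity
  refine (key (t - (1 / 4)) ((1 / 2) - t) (sub_nonneg.2 h1) (sub_nonneg.2 h2)).trans_eq ?_
  simp only [α₁, β₁, δ₁, a₁, α₂, β₂, δ₂, a₂]
  ring

theorem det₂_3 (t : ℝ) (h1 : (1 / 2) ≤ t) (h2 : t ≤ (3 / 4)) : 0 ≤ α₂ t * (α₂ t + t * δ₂ t) - t ^ 2 * β₂ t ^ 2 := by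
  have key : ∀ s z : ℝ, 0 ≤ s → 0 ≤ z → 0 ≤ 8389580274499584 * s ^ 0 * z ^ 14 + 81041856340197376 * s ^ 1 * z ^ 13 +
      293275077332115456 * s ^ 2 * z ^ 12 + 631101030776651776 * s ^ 3 * z ^ 11 +
      3232628867532732416 * s ^ 4 * z ^ 10 + 21802825067859900416 * s ^ 5 * z ^ 9 +
      89060399343983763968 * s ^ 6 * z ^ 8 + 229052402314108393472 * s ^ 7 * z ^ 7 +
      396542575860103747200 * s ^ 8 * z ^ 6 + 477167849456803553152 * s ^ 9 * z ^ 5 +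
      401270074666512735328 * s ^ 10 * z ^ 4 + 231556653353782184768 * s ^ 11 * z ^ 3 +
      87345082960375065384 * s ^ 12 * z ^ 2 + 19374246905685982216 * s ^ 13 * z ^ 1 +
      1913532034844743654 * s ^ 14 * z ^ 0 := fun s z hs hz => by positivity
  refine (key (t - (1 / 2)) ((3 / 4) - t) (sub_nonneg.2 h1) (sub_nonneg.2 h2)).trans_eq ?_
  simp only [α₁, β₁, δ₁, a₁, α₂, β₂, δ₂, a₂]
  ring

theorem det₂_4 (t : ℝ) (h1 : (3 / 4) ≤ t) (h2 : t ≤ 1) : 0 ≤ α₂ t * (α₂ t + t * δ₂ t) - t ^ 2 * β₂ t ^ 2 := by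
  have key : ∀ s z : ℝ, 0 ≤ s → 0 ≤ z → 0 ≤ 1913532034844743654 * s ^ 0 * z ^ 14 + 34204650069966840096 * s ^ 1 * z ^ 13 +
      280140324096026217824 * s ^ 2 * z ^ 12 + 1392165588589086453504 * s ^ 3 * z ^ 11 +
      4684977752286208984064 * s ^ 4 * z ^ 10 + 11280247595547506479104 * s ^ 5 * z ^ 9 +
      20010973621897446862848 * s ^ 6 * z ^ 8 + 26527059618394984677376 * s ^ 7 * z ^ 7 +
      26358625093622203482112 * s ^ 8 * z ^ 6 + 19501479564721629167616 * s ^ 9 * z ^ 5 +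
      10558703488435993182208 * s ^ 10 * z ^ 4 + 4053933951346544738304 * s ^ 11 * z ^ 3 +
      1044558235812705075200 * s ^ 12 * z ^ 2 + 162390462038158606336 * s ^ 13 * z ^ 1 +
      11589220928050954240 * s ^ 14 * z ^ 0 := fun s z hs hz => by positivity
  refine (key (t - (3 / 4)) (1 - t) (sub_nonneg.2 h1) (sub_nonneg.2 h2)).trans_eq ?_
  simp only [α₁, β₁, δ₁, a₁, α₂, β₂, δ₂, a₂]
  ring

theorem det₂ (t : ℝ) (h1 : 0 ≤ t) (h2 : t ≤ 1) : 0 ≤ α₂ t * (α₂ t + t * δ₂ t) - t ^ 2 * β₂ t ^ 2 := by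
  rcases le_total t (1 / 8) with h2 | h1
  · exact det₂_0 t h1 h2
  rcases le_total t (1 / 4) with h2 | h1
  · exact det₂_1 t h1 h2
  rcases le_total t (1 / 2) with h2 | h1
  · exact det₂_2 t h1 h2
  rcases le_total t (3 / 4) with h2 | h1
  · exact det₂_3 t h1 h2
  exact det₂_4 t h1 h2

end Pool.Agent.H20.Ramm
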