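import Mathlib

set_option autoImplicit false

namespace Pool.Agent.H20.Ray

open Filter Topology Set MeasureTheory

abbrev Fn := ℝ × ℝ → ℝ

noncomputable def U (v : ℝ × ℝ) (T : ℕ) (F : Fn) : Fn :=
  fun p => (T : ℝ)⁻¹ * ∑ i ∈ Finset.range T, F (p - (i : ℝ) • v)

def D (v : ℝ × ℝ) (F : Fn) : Fn := fun p => F p - F (p - v)

noncomputable def M (v : ℝ × ℝ) (T : ℕ) (F : Fn) : Fn :=
  fun p => U v T (U v T (U v T F)) (p - (T : ℝ) • v)

def Good (F : Fn) : Prop :=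
  Continuous F ∧ ∃ L : ℕ, ∃ B Λ : ℝ, (∀ p, F p ≠ 0 → 1 ≤ p.2 ∧ p.2 ≤ L ∧ |p.1| ≤ p.2) ∧
    (∀ p, |F p| ≤ B) ∧ ∀ p (δ : ℝ), |F (p - (δ, 0)) - F p| ≤ Λ * |δ|

noncomputable def X (a : ℝ) (F : Fn) (s : ℝ) : ℝ := ∫ t, F (s + a * t, t)

theorem U_D (v w : ℝ × ℝ) (T : ℕ) (F : Fn) : U v T (D w F) = D w (U v T F) := by
  funext p
  simp only [U, D, Finset.sum_sub_distrib, mul_sub, sub_right_comm]

theorem U_add (v : ℝ × ℝ) (T : ℕ) (F G : Fn) : U v T (F + G) = U v T F + U v T G := by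
  funext p
  simp only [U, Pi.add_apply, Finset.sum_add_distrib, mul_add]

theorem M_D (v w : ℝ × ℝ) (T : ℕ) (F : Fn) : M v T (D w F) = D w (M v T F) := by
  funext p
  simp only [M, U_D]
  simp only [D, M, sub_right_comm]

theorem M_add (v : ℝ × ℝ) (T : ℕ) (F G : Fn) : M v T (F + G) = M v T F + M v T G := by
  funext p
  simp only [M, U_add, Pi.add_apply]

theorem U_le {v : ℝ × ℝ} {T : ℕ} {F : Fn} {B : ℝ} (hT : 0 < T) (h : ∀ p, |F p| ≤ B) (p : ℝ × ℝ) :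
    |U v T F p| ≤ B := by
  have hT' : (0 : ℝ) < T := by exact_mod_cast hT
  rw [U, abs_mul, abs_of_pos (inv_pos.2 hT'), inv_mul_le_iff₀ hT']
  refine (Finset.abs_sum_le_sum_abs _ _).trans ?_
  refine (Finset.sum_le_sum fun i _ => h _).trans (by simp)

theorem U_D_self (v : ℝ × ℝ) (T : ℕ) (F : Fn) (p : ℝ × ℝ) :
    U v T (D v F) p = (T : ℝ)⁻¹ * (F p - F (p - (T : ℝ) • v)) := by
  have := Finset.sum_range_sub' (fun i : ℕ => F (p - (i : ℝ) • v)) T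
  simp only [Nat.cast_zero, zero_smul, sub_zero] at this
  rw [U, ← this]
  congr 1
  refine Finset.sum_congr rfl fun i _ => ?_
  simp only [D, Nat.cast_add, Nat.cast_one, add_smul, one_smul, sub_sub]

theorem U_supp {a : ℝ} {T L : ℕ} {F : Fn} {B : ℝ} (h : ∀ p, |F p| ≤ B)
    (hs : ∀ p, F p ≠ 0 → 1 ≤ p.2 ∧ p.2 ≤ L ∧ |p.1| ≤ p.2) (p : ℝ × ℝ) :
    |U (a, 1) T F p| ≤ (T : ℝ)⁻¹ * (L * B) := by
  classical
  have hB : 0 ≤ B := (abs_nonneg _).trans (h 0)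
  rw [U, abs_mul, abs_of_nonneg (by positivity : (0 : ℝ) ≤ (T : ℝ)⁻¹)]
  refine mul_le_mul_of_nonneg_left ?_ (by positivity)
  rw [← Finset.sum_filter_ne_zero]
  refine (Finset.abs_sum_le_sum_abs _ _).trans ((Finset.sum_le_sum fun i _ => h _).trans ?_)
  rw [Finset.sum_const, nsmul_eq_mul]
  refine mul_le_mul_of_nonneg_right ?_ hB
  have key : ∀ i ∈ (Finset.range T).filter fun i : ℕ => F (p - (i : ℝ) • (a, 1)) ≠ 0,
      1 ≤ p.2 - i ∧ p.2 - i ≤ L := by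
    intro i hi
    have := hs _ (Finset.mem_filter.1 hi).2
    simp only [Prod.smul_mk, smul_eq_mul, mul_one, Prod.snd_sub] at this
    exact ⟨this.1, this.2.1⟩
  have := Finset.card_le_card_of_injOn (t := Finset.range L) (fun i : ℕ => ⌊p.2 - i - 1⌋₊)
    (fun i hi => by
      have := key i hi
      simp only [Finset.coe_range, mem_Iio]
      rw [Nat.floor_lt (by linarith)]
      linarith)
    (fun i hi j hj e => by
      have a1 := key i hi
      have a2 := key j hj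
      have e' : ⌊p.2 - i - 1⌋₊ = ⌊p.2 - j - 1⌋₊ := e
      have b1 := Nat.floor_le (show 0 ≤ p.2 - i - 1 by linarith)
      have b2 := Nat.floor_le (show 0 ≤ p.2 - j - 1 by linarith)
      have b3 := Nat.lt_floor_add_one (p.2 - i - 1)
      have b4 := Nat.lt_floor_add_one (p.2 - j - 1)
      rw [e'] at b1 b3
      have c1 : (i : ℝ) < j + 1 := by linarith
      have c2 : (j : ℝ) < i + 1 := by linarith
      have c1' : i < j + 1 := by exact_mod_cast c1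
      have c2' : j < i + 1 := by exact_mod_cast c2
      omega)
  rw [Finset.card_range] at this
  exact_mod_cast this

theorem U_closed {Q : Fn → Prop} {v : ℝ × ℝ} (h0 : Q 0) (h1 : ∀ F G, Q F → Q G → Q (F + G))
    (h2 : ∀ (c : ℝ) F, Q F → Q (c • F)) (h3 : ∀ (k : ℕ) F, Q F → Q fun p => F (p - (k : ℝ) • v))
    (T : ℕ) {F : Fn} (hF : Q F) : Q (U v T F) := by
  have : U v T F = (T : ℝ)⁻¹ • ∑ i ∈ Finset.range T, fun p => F (p - (i : ℝ) • v) := by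
    funext p; simp [U, Finset.sum_apply]
  rw [this]
  exact h2 _ _ (Finset.sum_induction _ Q h1 h0 fun i _ => h3 i F hF)

theorem M_closed {Q : Fn → Prop} {v : ℝ × ℝ} (h0 : Q 0) (h1 : ∀ F G, Q F → Q G → Q (F + G))
    (h2 : ∀ (c : ℝ) F, Q F → Q (c • F)) (h3 : ∀ (k : ℕ) F, Q F → Q fun p => F (p - (k : ℝ) • v))
    (T : ℕ) {F : Fn} (hF : Q F) : Q (M v T F) :=
  h3 T _ (U_closed h0 h1 h2 h3 T (U_closed h0 h1 h2 h3 T (U_closed h0 h1 h2 h3 T hF)))

theorem good_zero : Good 0 := ⟨continuous_const, 0, 0, 0, by simp, by simp, by simp⟩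

theorem Good.add {F G : Fn} (hF : Good F) (hG : Good G) : Good (F + G) := by
  obtain ⟨c1, L1, B1, Λ1, s1, b1, l1⟩ := hF
  obtain ⟨c2, L2, B2, Λ2, s2, b2, l2⟩ := hG
  refine ⟨c1.add c2, L1 + L2, B1 + B2, Λ1 + Λ2, fun p hp => ?_, fun p => ?_, fun p δ => ?_⟩
  · have n1 : (0 : ℝ) ≤ L1 := by positivity
    have n2 : (0 : ℝ) ≤ L2 := by positivity
    push_cast
    by_cases h : F p = 0
    · have := s2 p (by simpa [h] using hp)
      exact ⟨this.1, by linarith [this.2.1], this.2.2⟩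
    · have := s1 p h
      exact ⟨this.1, by linarith [this.2.1], this.2.2⟩
  · exact (abs_add_le _ _).trans (add_le_add (b1 p) (b2 p))
  · have := abs_add_le (F (p - (δ, 0)) - F p) (G (p - (δ, 0)) - G p)
    have e : (F + G) (p - (δ, 0)) - (F + G) p = F (p - (δ, 0)) - F p + (G (p - (δ, 0)) - G p) := by
      simp only [Pi.add_apply]; ring
    rw [e]; linarith [l1 p δ, l2 p δ]

theorem Good.smul (c : ℝ) {F : Fn} (hF : Good F) : Good (c • F) := by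
  obtain ⟨c1, L1, B1, Λ1, s1, b1, l1⟩ := hF
  refine ⟨c1.const_smul c, L1, |c| * B1, |c| * Λ1, fun p hp => s1 p fun e => hp (by simp [e]),
    fun p => ?_, fun p δ => ?_⟩
  · simp only [Pi.smul_apply, smul_eq_mul, abs_mul]
    exact mul_le_mul_of_nonneg_left (b1 p) (abs_nonneg _)
  · simp only [Pi.smul_apply, smul_eq_mul, ← mul_sub, abs_mul, mul_assoc]
    exact mul_le_mul_of_nonneg_left (l1 p δ) (abs_nonneg _)

theorem Good.shift {a : ℝ} (h0 : 0 ≤ a) (h1 : a ≤ 1) (k : ℕ) {F : Fn} (hF : Good F) :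
    Good fun p => F (p - (k : ℝ) • (a, 1)) := by
  obtain ⟨c1, L1, B1, Λ1, s1, b1, l1⟩ := hF
  refine ⟨c1.comp (by fun_prop), L1 + k, B1, Λ1, fun p hp => ?_, fun p => b1 _, fun p δ => ?_⟩
  · have := s1 _ hp
    simp only [Prod.smul_mk, smul_eq_mul, mul_one, Prod.snd_sub, Prod.fst_sub] at this
    have n1 : (0 : ℝ) ≤ k := by positivity
    have n2 : k * a ≤ k := by nlinarith
    have n3 : 0 ≤ k * a := by positivity
    obtain ⟨a1, a2, a3⟩ := this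
    rw [abs_le] at a3
    push_cast
    exact ⟨by linarith, by linarith, abs_le.2 ⟨by linarith, by linarith⟩⟩
  · simp only [sub_right_comm p (δ, 0)]
    exact l1 _ δ

theorem Good.sub {F G : Fn} (hF : Good F) (hG : Good G) : Good (F - G) := by
  have := hF.add (hG.smul (-1))
  rwa [neg_one_smul, ← sub_eq_add_neg] at this

theorem Good.D {a : ℝ} (h0 : 0 ≤ a) (h1 : a ≤ 1) {F : Fn} (hF : Good F) : Good (D (a, 1) F) := by
  have := hF.sub (hF.shift h0 h1 1)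
  simp only [Nat.cast_one, one_smul] at this
  exact this

theorem Good.U {a : ℝ} (h0 : 0 ≤ a) (h1 : a ≤ 1) (T : ℕ) {F : Fn} (hF : Good F) :
    Good (U (a, 1) T F) :=
  U_closed good_zero (fun _ _ => Good.add) (fun c _ => Good.smul c)
    (fun k _ => Good.shift h0 h1 k) T hF

theorem Good.M {a : ℝ} (h0 : 0 ≤ a) (h1 : a ≤ 1) (T : ℕ) {F : Fn} (hF : Good F) :
    Good (M (a, 1) T F) :=
  M_closed good_zero (fun _ _ => Good.add) (fun c _ => Good.smul c)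
    (fun k _ => Good.shift h0 h1 k) T hF

theorem Good.int {F : Fn} (hF : Good F) (a s : ℝ) : Integrable fun t => F (s + a * t, t) := by
  obtain ⟨c1, L1, B1, Λ1, s1, -, -⟩ := hF
  refine Continuous.integrable_of_hasCompactSupport (c1.comp (by fun_prop)) ?_
  refine HasCompactSupport.intro (isCompact_Icc (a := (1 : ℝ)) (b := L1)) fun t ht => ?_
  by_contra h
  exact ht ⟨(s1 _ h).1, (s1 _ h).2.1⟩

theorem X_shift (a : ℝ) (F : Fn) (w : ℝ × ℝ) (s : ℝ) :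
    X a (fun p => F (p - w)) s = X a F (s + a * w.2 - w.1) := by
  unfold X
  rw [← integral_sub_right_eq_self (fun t => F (s + a * w.2 - w.1 + a * t, t)) w.2]
  congr 1
  funext t
  refine congrArg F (Prod.ext ?_ ?_)
  · simp only [Prod.fst_sub]; ring
  · simp

theorem X_add (a : ℝ) {F G : Fn} (hF : Good F) (hG : Good G) (s : ℝ) :
    X a (F + G) s = X a F s + X a G s := integral_add (hF.int a s) (hG.int a s)

theorem X_sub (a : ℝ) {F G : Fn} (hF : Good F) (hG : Good G) (s : ℝ) :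
    X a (F - G) s = X a F s - X a G s := integral_sub (hF.int a s) (hG.int a s)

theorem X_M_zero {a : ℝ} (h0 : 0 ≤ a) (h1 : a ≤ 1) (T : ℕ) {F : Fn} (hF : Good F) {b : ℝ}
    (hz : ∀ s, X b F s = 0) (s : ℝ) : X b (M (a, 1) T F) s = 0 := by
  refine (M_closed (Q := fun F => Good F ∧ ∀ s, X b F s = 0) ⟨good_zero, by simp [X]⟩
    (fun F G hF hG => ⟨hF.1.add hG.1, fun s => by rw [X_add b hF.1 hG.1, hF.2, hG.2, add_zero]⟩)
    (fun c F hF => ⟨hF.1.smul c, fun s => ?_⟩)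
    (fun k F hF => ⟨hF.1.shift h0 h1 k, fun s => by rw [X_shift, hF.2]⟩) T ⟨hF, hz⟩).2 s
  have := hF.2 s
  simp only [X, Pi.smul_apply, smul_eq_mul, integral_const_mul] at this ⊢
  rw [this, mul_zero]

theorem X_shift_self (a k : ℝ) (F : Fn) (s : ℝ) :
    X a (fun p => F (p - k • (a, 1))) s = X a F s := by
  rw [X_shift]; congr 1; simp; ring

theorem X_U {a : ℝ} (h0 : 0 ≤ a) (h1 : a ≤ 1) {T : ℕ} (hT : 0 < T) {F : Fn} (hF : Good F) (s : ℝ) :
    X a (U (a, 1) T F) s = X a F s := by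
  have hT' : (T : ℝ) ≠ 0 := by positivity
  have e : X a (U (a, 1) T F) s = (T : ℝ)⁻¹ * ∑ i ∈ Finset.range T,
      X a (fun p => F (p - (i : ℝ) • (a, 1))) s := by
    simp only [X, U, integral_const_mul]
    rw [integral_finsetSum _ fun i _ => (hF.shift h0 h1 i).int a s]
  rw [e]
  simp only [X_shift_self, Finset.sum_const, Finset.card_range, nsmul_eq_mul]
  field_simp

theorem X_M {a : ℝ} (h0 : 0 ≤ a) (h1 : a ≤ 1) {T : ℕ} (hT : 0 < T) {F : Fn} (hF : Good F) (s : ℝ) :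
    X a (M (a, 1) T F) s = X a F s := by
  have := X_shift_self a T (U (a, 1) T (U (a, 1) T (U (a, 1) T F))) s
  rw [X_U h0 h1 hT ((hF.U h0 h1 T).U h0 h1 T), X_U h0 h1 hT (hF.U h0 h1 T), X_U h0 h1 hT hF] at this
  exact this

theorem U_le_supp {a : ℝ} {T : ℕ} {F : Fn} {L : ℝ} (h : ∀ p, F p ≠ 0 → 1 ≤ p.2 ∧ p.2 ≤ L)
    (p : ℝ × ℝ) (hp : U (a, 1) T F p ≠ 0) : 1 ≤ p.2 ∧ p.2 ≤ L + T := by
  obtain ⟨i, hi, h1⟩ := Finset.exists_ne_zero_of_sum_ne_zero (right_ne_zero_of_mul hp)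
  have := h _ h1
  simp only [Prod.smul_mk, smul_eq_mul, mul_one, Prod.snd_sub] at this
  have a1 : (i : ℝ) ≤ T := by exact_mod_cast (Finset.mem_range.1 hi).le
  have a2 : (0 : ℝ) ≤ i := by positivity
  exact ⟨by linarith [this.1], by linarith [this.2]⟩

theorem M_supp {a : ℝ} {T : ℕ} {F : Fn} {L : ℝ} (h : ∀ p, F p ≠ 0 → 1 ≤ p.2 ∧ p.2 ≤ L)
    (p : ℝ × ℝ) (hp : M (a, 1) T F p ≠ 0) : T + 1 ≤ p.2 ∧ p.2 ≤ L + 4 * T := by
  have := U_le_supp (U_le_supp (U_le_supp h)) _ hp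
  simp only [Prod.smul_mk, smul_eq_mul, mul_one, Prod.snd_sub] at this
  exact ⟨by linarith [this.1], by linarith [this.2]⟩

theorem M_DD {a : ℝ} {T : ℕ} {F : Fn} {c : ℝ} (h : ∀ p, |U (a, 1) T F p| ≤ c)
    (p : ℝ × ℝ) : |M (a, 1) T (D (a, 1) (D (a, 1) F)) p| ≤ 4 * c * (T : ℝ)⁻¹ ^ 2 := by
  have e : ∀ W : Fn, ∀ c : ℝ, (∀ p, |W p| ≤ c) → ∀ p,
      |U (a, 1) T (D (a, 1) W) p| ≤ 2 * c * (T : ℝ)⁻¹ := by
    intro W c hW p
    rw [U_D_self, abs_mul, abs_of_nonneg (by positivity : (0 : ℝ) ≤ (T : ℝ)⁻¹), mul_comm]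
    refine mul_le_mul_of_nonneg_right ((abs_sub _ _).trans ?_) (by positivity)
    linarith [hW p, hW (p - (T : ℝ) • (a, 1))]
  have e2 := e _ _ (e _ _ h) (p - (T : ℝ) • (a, 1))
  have e3 : M (a, 1) T (D (a, 1) (D (a, 1) F)) p =
      U (a, 1) T (D (a, 1) (U (a, 1) T (D (a, 1) (U (a, 1) T F)))) (p - (T : ℝ) • (a, 1)) := by
    simp only [M, U_D]
  rw [e3]
  refine e2.trans (le_of_eq (by ring))

theorem step {Φ : Fn} (hΦ : Good Φ) {a0 : ℝ} (h0 : 0 < a0) (N : ℕ) :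
    ∃ (a : ℝ) (T : ℕ), 0 < a ∧ a < a0 ∧ N < T ∧ (∀ p, D (0, 1) (D (0, 1) Φ) p ≠ 0 → p.2 ≤ T) ∧
      (∀ p, M (a, 1) T (D (0, 1) (D (0, 1) Φ)) p ≠ 0 → T + 1 ≤ p.2) ∧
      ∀ p, |M (a, 1) T (D (0, 1) (D (0, 1) Φ)) p| * p.2 ^ 2 ≤ 1 := by
  obtain ⟨-, L', -, -, s2, -, -⟩ := (hΦ.D le_rfl zero_le_one).D le_rfl zero_le_one
  obtain ⟨-, L, B, Λ, s1, b1, l1⟩ := hΦ
  have hB : 0 ≤ B := (abs_nonneg _).trans (b1 0)
  have hΛ : 0 ≤ Λ := by have := (abs_nonneg _).trans (l1 0 1); simpa using this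
  obtain ⟨T, hT⟩ := exists_nat_gt (N + L' + 200 * (L * B) : ℝ)
  have n1 : (0 : ℝ) ≤ N := by positivity
  have n2 : (0 : ℝ) ≤ L' := by positivity
  have n3 : (0 : ℝ) ≤ L * B := by positivity
  have hT0 : (0 : ℝ) < T := by linarith
  have hT1 : 0 < T := by exact_mod_cast hT0
  set a := min (a0 / 2) ((200 * (Λ + 1) * T ^ 2)⁻¹) with ha
  have a1 : 0 < a := lt_min (by linarith) (by positivity)
  have a2 : a * (200 * (Λ + 1) * T ^ 2) ≤ 1 := by
    rw [← le_div_iff₀ (by positivity), one_div]; exact min_le_right _ _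
  have sp := M_supp (a := a) (T := T) (L := L') fun p hp => ⟨(s2 p hp).1, (s2 p hp).2.1⟩
  refine ⟨a, T, a1, (min_le_left _ _).trans_lt (by linarith), by exact_mod_cast (by linarith :
    (N : ℝ) < T), fun p hp => by linarith [(s2 p hp).2.1], fun p hp => (sp p hp).1, fun p => ?_⟩
  by_cases hp : M (a, 1) T (D (0, 1) (D (0, 1) Φ)) p = 0
  · simp [hp]
  have t1 := sp p hp
  have t2 : p.2 ^ 2 ≤ 25 * T ^ 2 := by nlinarith [t1.1, t1.2]
  set R : Fn := D (0, 1) (D (0, 1) Φ) - D (a, 1) (D (a, 1) Φ) with hR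
  have hRb : ∀ q, |R q| ≤ 4 * Λ * a := by
    intro q
    have e1 := l1 (q - (0, 1)) a
    have e2 := l1 (q - (0, 1) - (0, 1)) (2 * a)
    have f1 : q - (0, 1) - (a, 0) = q - (a, 1) := by ext <;> simp
    have f2 : q - (0, 1) - (0, 1) - (2 * a, 0) = q - (a, 1) - (a, 1) := by
      ext <;> simp; ring
    rw [f1, abs_of_pos a1, abs_le] at e1
    rw [f2, abs_of_pos (by linarith : 0 < 2 * a), abs_le] at e2
    simp only [hR, D, Pi.sub_apply]
    rw [abs_le]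
    constructor <;> linarith [e1.1, e1.2, e2.1, e2.2]
  have e : D (0, 1) (D (0, 1) Φ) = D (a, 1) (D (a, 1) Φ) + R := by rw [hR]; abel
  have g1 := M_DD (U_supp (a := a) (T := T) b1 s1) p
  have g2 : |M (a, 1) T R p| ≤ 4 * Λ * a := U_le hT1 (U_le hT1 (U_le hT1 hRb)) _
  rw [e, M_add, Pi.add_apply]
  have g3 := (abs_add_le _ _).trans (add_le_add g1 g2)
  refine (mul_le_mul g3 t2 (by positivity) (by positivity)).trans ?_
  have g4 : (4 * ((T : ℝ)⁻¹ * (L * B)) * (T : ℝ)⁻¹ ^ 2) * (25 * T ^ 2) = 100 * (L * B) / T := by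
    field_simp; ring
  have g5 : 100 * (L * B) / T ≤ 1 / 2 := by rw [div_le_iff₀ hT0]; linarith
  have g6 : 0 ≤ a * T ^ 2 := by positivity
  rw [add_mul, g4]
  nlinarith

end Pool.Agent.H20.Ray
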