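import Pool.Agent.H20.Ray1

set_option autoImplicit false

namespace Pool.Agent.H20.Ray

open Filter Topology Set MeasureTheory

noncomputable def phi : Fn := fun p => max 0 (1 - |p.1|) * max 0 (1 - |2 * p.2 - 3|)

theorem tent_pos {x : ℝ} (h : max 0 (1 - |x|) ≠ 0) : |x| < 1 := by
  by_contra hc
  exact h (max_eq_left (by linarith))

theorem tent_le (x : ℝ) : |max 0 (1 - |x|)| ≤ 1 := by
  rw [abs_of_nonneg (le_max_left _ _)]
  exact max_le zero_le_one (by linarith [abs_nonneg x])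

theorem phi_supp {p : ℝ × ℝ} (h : phi p ≠ 0) : 1 < p.2 ∧ p.2 < 2 ∧ |p.1| < 1 := by
  have a1 := tent_pos (left_ne_zero_of_mul h)
  have a2 := abs_lt.1 (tent_pos (right_ne_zero_of_mul h))
  exact ⟨by linarith [a2.1], by linarith [a2.2], a1⟩

theorem phi_le (p : ℝ × ℝ) : |phi p| ≤ 1 := by
  rw [phi, abs_mul]
  exact mul_le_one₀ (tent_le _) (abs_nonneg _) (tent_le _)

theorem good_phi : Good phi := by
  refine ⟨by unfold phi; fun_prop, 2, 1, 1, fun p hp => ?_, phi_le, fun p δ => ?_⟩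
  · obtain ⟨a1, a2, a3⟩ := phi_supp hp
    exact ⟨a1.le, by exact_mod_cast a2.le, by linarith⟩
  · simp only [phi, Prod.fst_sub, Prod.snd_sub, sub_zero, ← sub_mul, abs_mul]
    rw [mul_comm]
    refine mul_le_mul (tent_le _) ((abs_max_sub_max_le_max _ _ _ _).trans (max_le (by simp) ?_))
      (abs_nonneg _) zero_le_one
    have := abs_abs_sub_abs_le_abs_sub p.1 (p.1 - δ)
    rw [show 1 - |p.1 - δ| - (1 - |p.1|) = |p.1| - |p.1 - δ| by ring]
    simpa using this

theorem exists_seq : ∃ (G : ℕ → Fn) (a : ℕ → ℝ) (T : ℕ → ℕ), (∀ n, Good (G n)) ∧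
    G 0 = D (0, 1) (D (0, 1) phi) ∧ (∀ n, 0 < a n ∧ a n ≤ 1 ∧ a (n + 1) < a n) ∧
    ∀ n, G (n + 1) = G n - M (a (n + 1), 1) (T n) (G n) ∧ n + 2 < T n ∧
      (∀ p, G n p ≠ 0 → p.2 ≤ T n) ∧
      (∀ p, M (a (n + 1), 1) (T n) (G n) p ≠ 0 → T n + 1 ≤ p.2) ∧
      ∀ p, |M (a (n + 1), 1) (T n) (G n) p| * p.2 ^ 2 ≤ 1 := by
  let St := {x : Fn × ℝ // Good x.1 ∧ 0 < x.2 ∧ x.2 ≤ 1}
  have h := fun (x : St) (N : ℕ) => step x.2.1 x.2.2.1 N
  choose fa fT h1 h2 h3 h4 h5 h6 using h
  let nx : ℕ → St → St := fun n x =>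
    ⟨(x.1.1 - M (fa x (n + 2), 1) (fT x (n + 2)) x.1.1, fa x (n + 2)),
      x.2.1.sub (x.2.1.M (h1 _ _).le ((h2 _ _).le.trans x.2.2.2) _), h1 _ _,
      (h2 _ _).le.trans x.2.2.2⟩
  let sq : ℕ → St := fun n => Nat.rec ⟨(phi, 1), good_phi, one_pos, le_rfl⟩ nx n
  refine ⟨fun n => D (0, 1) (D (0, 1) (sq n).1.1), fun n => (sq n).1.2, fun n => fT (sq n) (n + 2),
    fun n => ((sq n).2.1.D le_rfl zero_le_one).D le_rfl zero_le_one, rfl,
    fun n => ⟨(sq n).2.2.1, (sq n).2.2.2, h2 (sq n) (n + 2)⟩,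
    fun n => ⟨?_, h3 (sq n) (n + 2), h4 (sq n) (n + 2), h5 (sq n) (n + 2), h6 (sq n) (n + 2)⟩⟩
  show D (0, 1) (D (0, 1) ((sq n).1.1 - M (fa (sq n) (n + 2), 1) (fT (sq n) (n + 2)) (sq n).1.1)) =
    D (0, 1) (D (0, 1) (sq n).1.1) - M (fa (sq n) (n + 2), 1) (fT (sq n) (n + 2))
      (D (0, 1) (D (0, 1) (sq n).1.1))
  rw [M_D, M_D]
  funext p
  simp only [D, Pi.sub_apply]
  ring

theorem exists_g : ∃ (g : Fn) (a : ℕ → ℝ), Measurable g ∧ Function.Injective a ∧
    (∀ p, |g p| * p.2 ^ 2 ≤ 64) ∧ (∀ p, g p ≠ 0 → 1 ≤ p.2 ∧ |p.1| ≤ p.2) ∧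
    (∀ p, p.2 < 2 → g p = phi p) ∧ ∀ n s, X (a n) g s = 0 := by
  obtain ⟨G, a, T, hG, h0, ha, h⟩ := exists_seq
  have b0 : ∀ n p, |G n p| * p.2 ^ 2 ≤ 64 := by
    intro n
    induction n with
    | zero =>
      intro p
      by_cases hp : G 0 p = 0
      · simp [hp]
      have s1 : 1 ≤ p.2 := by obtain ⟨-, _, _, _, s, -⟩ := hG 0; exact (s p hp).1
      have s2 : p.2 ≤ 4 := by
        by_contra hc
        have z : ∀ q : ℝ × ℝ, 2 < q.2 → phi q = 0 := fun q hq => by
          by_contra hq'; linarith [(phi_supp hq').2.1]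
        apply hp
        rw [h0]
        simp only [D]
        rw [z p (by linarith), z (p - (0, 1)) (by simp; linarith),
          z (p - (0, 1) - (0, 1)) (by simp; linarith)]
        ring
      have s3 : |G 0 p| ≤ 4 := by
        rw [h0]
        simp only [D]
        have a1 := abs_le.1 (phi_le p)
        have a2 := abs_le.1 (phi_le (p - (0, 1)))
        have a3 := abs_le.1 (phi_le (p - (0, 1) - (0, 1)))
        rw [abs_le]
        constructor <;> linarith [a1.1, a1.2, a2.1, a2.2, a3.1, a3.2]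
      have s4 : p.2 ^ 2 ≤ 16 := by nlinarith
      exact (mul_le_mul s3 s4 (by positivity) (by norm_num)).trans (by norm_num)
    | succ n ih =>
      intro p
      obtain ⟨e, -, s1, s2, s3⟩ := h n
      rw [e, Pi.sub_apply]
      by_cases hp : G n p = 0
      · rw [hp, zero_sub, abs_neg]; linarith [s3 p]
      · have : M (a (n + 1), 1) (T n) (G n) p = 0 := by
          by_contra hc; linarith [s1 p hp, s2 p hc]
        rw [this, sub_zero]; exact ih p
  have st : ∀ (p : ℝ × ℝ) (n m : ℕ), p.2 ≤ n + 2 → n ≤ m → G m p = G n p := by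
    intro p n m hp hm
    induction m, hm using Nat.le_induction with
    | base => rfl
    | succ m hm ih =>
      obtain ⟨e, s0, -, s2, -⟩ := h m
      have : M (a (m + 1), 1) (T m) (G m) p = 0 := by
        by_contra hc
        have a1 := s2 p hc
        have a2 : (m : ℝ) + 2 < T m := by exact_mod_cast s0
        have a3 : (n : ℝ) ≤ m := by exact_mod_cast hm
        linarith
      rw [e, Pi.sub_apply, this, sub_zero, ih]
  set g : Fn := fun p => G ⌈p.2⌉₊ p with hg
  have lim : ∀ p, Tendsto (fun m => G m p) atTop (𝓝 (g p)) := fun p =>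
    tendsto_const_nhds.congr' (by
      filter_upwards [eventually_ge_atTop ⌈p.2⌉₊] with m hm
      exact (st p _ m (by linarith [Nat.le_ceil p.2]) hm).symm)
  have z : ∀ n m, n + 1 ≤ m → ∀ s, X (a (n + 1)) (G m) s = 0 := by
    intro n m hm
    induction m, hm using Nat.le_induction with
    | base =>
      intro s
      rw [(h n).1, X_sub _ (hG n) ((hG n).M (ha _).1.le (ha _).2.1 _),
        X_M (ha _).1.le (ha _).2.1 (by have := (h n).2.1; omega) (hG n), sub_self]
    | succ m hm ih =>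
      intro s
      rw [(h m).1, X_sub _ (hG m) ((hG m).M (ha _).1.le (ha _).2.1 _), ih,
        X_M_zero (ha _).1.le (ha _).2.1 _ (hG m) ih, sub_self]
  have sp : ∀ n p, G n p ≠ 0 → 1 ≤ p.2 ∧ |p.1| ≤ p.2 := fun n p hp => by
    obtain ⟨-, _, _, _, s, -⟩ := hG n; exact ⟨(s p hp).1, (s p hp).2.2⟩
  refine ⟨g, fun n => a (n + 1), measurable_of_tendsto_metrizable (fun m => (hG m).1.measurable)
    (tendsto_pi_nhds.2 lim), (strictAnti_nat_of_succ_lt fun n => (ha (n + 1)).2.2).injective,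
    fun p => b0 _ p, fun p => sp _ p, fun p hp => ?_, fun n s => ?_⟩
  · have z : ∀ q : ℝ × ℝ, q.2 < 1 → phi q = 0 := fun q hq => by
      by_contra hq'; linarith [(phi_supp hq').1]
    show G _ p = _
    rw [st p 0 _ (by simpa using hp.le) (Nat.zero_le _), h0]
    simp only [D]
    rw [z (p - (0, 1)) (by simp; linarith), z (p - (0, 1) - (0, 1)) (by simp; linarith)]
    ring
  · have hb : Integrable ((Ioi (1 / 2 : ℝ)).indicator fun t : ℝ => 64 * t ^ (-2 : ℝ)) :=
      (integrable_indicator_iff measurableSet_Ioi).2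
        ((integrableOn_Ioi_rpow_of_lt (by norm_num) (by norm_num)).const_mul 64)
    have := tendsto_integral_of_dominated_convergence
      (F := fun m t => G m (s + a (n + 1) * t, t)) (f := fun t => g (s + a (n + 1) * t, t)) _
      (fun m => ((hG m).int _ s).aestronglyMeasurable) hb
      (fun m => Eventually.of_forall fun t => by
        by_cases hp : G m (s + a (n + 1) * t, t) = 0
        · rw [hp, norm_zero]
          exact indicator_nonneg (fun x hx => by
            have : (0 : ℝ) < x := lt_trans (by norm_num) hx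
            positivity) _
        · have a1 : 1 ≤ t := (sp m _ hp).1
          have a2 := b0 m (s + a (n + 1) * t, t)
          rw [indicator_of_mem (show t ∈ Ioi (1 / 2 : ℝ) from lt_of_lt_of_le (by norm_num) a1),
            Real.rpow_neg (by linarith), Real.rpow_two, Real.norm_eq_abs, ← div_eq_mul_inv,
            le_div_iff₀ (by positivity)]
          exact a2)
      (Eventually.of_forall fun t => lim _)
    refine tendsto_nhds_unique this (tendsto_const_nhds.congr' ?_)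
    filter_upwards [eventually_ge_atTop (n + 1)] with m hm
    exact (z n m hm s).symm

theorem ray {g : Fn} (hs : ∀ p, g p ≠ 0 → 1 ≤ p.2) {a s c : ℝ} (hc : 0 < c) (hz : X a g s = 0) :
    ∫ τ in Ioi (0 : ℝ), g (s + a * (c * τ)⁻¹, (c * τ)⁻¹) * ((c * τ)⁻¹) ^ 2 = 0 := by
  have e1 := integral_comp_mul_left_Ioi
    (fun y : ℝ => g (s + a * y⁻¹, y⁻¹) * (y⁻¹) ^ 2) 0 hc
  have e2 := integral_comp_rpow_Ioi (fun t : ℝ => g (s + a * t, t)) (p := -1) (by norm_num)
  have e3 : ∫ t in Ioi (0 : ℝ), g (s + a * t, t) = X a g s :=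
    setIntegral_eq_integral_of_forall_compl_eq_zero fun t ht => by
      by_contra h
      have : (1 : ℝ) ≤ t := hs _ h
      exact ht (lt_of_lt_of_le one_pos this)
  rw [e1, mul_zero]
  have e4 : ∫ y in Ioi (0 : ℝ), g (s + a * y⁻¹, y⁻¹) * (y⁻¹) ^ 2 = 0 := by
    refine Eq.trans ?_ (e2.trans (e3.trans hz))
    refine setIntegral_congr_fun (measurableSet_Ioi (a := (0 : ℝ))) fun y hy => ?_
    have hy' : (0 : ℝ) < y := hy
    simp only [Real.rpow_neg_one, smul_eq_mul]
    rw [show (-1 - 1 : ℝ) = -2 by norm_num, Real.rpow_neg hy'.le, Real.rpow_two]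
    simp [mul_comm]
  rw [e4, smul_zero]

end Pool.Agent.H20.Ray
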