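import Pool.Agent.H20.Sec3

set_option autoImplicit false

namespace Pool.Agent.H20.Sec

open Filter Topology Set

/-- The model octagon, scaled by `c`. -/
def P0 (c x y : ℝ) : Prop :=
  6 * y ≤ c ∧ 6 * x ≤ c ∧ 5 * y + 2 * x ≤ c ∧ 5 * y - 2 * x ≤ c ∧ 5 * x + 2 * y ≤ c ∧
    5 * x - 2 * y ≤ c ∧ -(5 * x) ≤ c ∧ -(5 * y) ≤ c

theorem P0.symm {c x y : ℝ} (h : P0 c x y) : P0 c y x := by
  unfold P0 at *; tauto

theorem P0.smul {c x y t : ℝ} (h : P0 c x y) (ht : 0 ≤ t) : P0 (t * c) (t * x) (t * y) := by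
  obtain ⟨h1, h2, h3, h4, h5, h6, h7, h8⟩ := h
  have := mul_le_mul_of_nonneg_left h1 ht
  have := mul_le_mul_of_nonneg_left h2 ht
  have := mul_le_mul_of_nonneg_left h3 ht
  have := mul_le_mul_of_nonneg_left h4 ht
  have := mul_le_mul_of_nonneg_left h5 ht
  have := mul_le_mul_of_nonneg_left h6 ht
  have := mul_le_mul_of_nonneg_left h7 ht
  have := mul_le_mul_of_nonneg_left h8 ht
  refine ⟨?_, ?_, ?_, ?_, ?_, ?_, ?_, ?_⟩ <;> linarith

theorem P0.near {c x y x' y' η : ℝ} (h : P0 c x y) (h1 : |x' - x| ≤ η) (h2 : |y' - y| ≤ η) :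
    P0 (c + 7 * η) x' y' := by
  obtain ⟨h1, h1'⟩ := abs_le.1 h1
  obtain ⟨h2, h2'⟩ := abs_le.1 h2
  obtain ⟨a1, a2, a3, a4, a5, a6, a7, a8⟩ := h
  refine ⟨?_, ?_, ?_, ?_, ?_, ?_, ?_, ?_⟩ <;> linarith

theorem near_of {E : Type*} [NormedAddCommGroup E] [NormedSpace ℝ E] {p : E → ℝ}
    (hc : Continuous p) (hv : ConvexOn ℝ univ p) (hp : ∀ v, v ≠ 0 → 0 < p v)
    (X Y : E →L[ℝ] ℝ) (a b : E) (e1 : X a = 1) (e2 : X b = 0) (e3 : Y a = 0) (e4 : Y b = 1)
    (g1 : ∀ v, v ≠ 0 → P0 ((1 + 7 / 1000000) * p v) (X v) (Y v))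
    (g2 : ∀ v c, 0 < c → P0 c (X v) (Y v) → (1 - 7 / 1000000) * p v ≤ c) :
    Near (fun x => p (x • a + b)) (fun x => p (-(x • a + b))) := by
  have x1 : ∀ x : ℝ, X (x • a + b) = x := fun x => by simp [e1, e2]
  have y1 : ∀ x : ℝ, Y (x • a + b) = 1 := fun x => by simp [e3, e4]
  have x2 : ∀ x : ℝ, X (-(x • a + b)) = -x := fun x => by rw [map_neg, x1]
  have y2 : ∀ x : ℝ, Y (-(x • a + b)) = -1 := fun x => by rw [map_neg, y1]
  have n1 : ∀ x : ℝ, x • a + b ≠ 0 := fun x e => by have := y1 x; rw [e] at this; simp at this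
  have n2 : ∀ x : ℝ, -(x • a + b) ≠ 0 := fun x => neg_ne_zero.2 (n1 x)
  have a1 : ∀ x : ℝ, P0 ((1 + 7 / 1000000) * p (x • a + b)) x 1 := fun x => by
    have := g1 _ (n1 x); rwa [x1, y1] at this
  have a2 : ∀ x : ℝ, P0 ((1 + 7 / 1000000) * p (-(x • a + b))) (-x) (-1) := fun x => by
    have := g1 _ (n2 x); rwa [x2, y2] at this
  have lin : ∀ s t x y : ℝ, s + t = 1 → (s • x + t • y) • a + b = s • (x • a + b) + t • (y • a + b) := by
    intro s t x y h
    have : b = s • b + t • b := by rw [← add_smul, h, one_smul]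
    simp only [smul_eq_mul, add_smul, smul_add, smul_smul]
    nth_rewrite 1 [this]
    abel
  refine ⟨by fun_prop, by fun_prop, GS_of_convex ⟨convex_univ, fun x _ y _ s t hs ht h => ?_⟩,
    GS_of_convex ⟨convex_univ, fun x _ y _ s t hs ht h => ?_⟩, fun x => hp _ (n1 x),
    fun x => hp _ (n2 x), fun x _ _ => ?_, fun x _ _ => ?_, fun x _ _ => ?_, fun x _ _ => ?_,
    fun x _ _ => ?_, fun x _ _ => ?_, fun x _ _ => ?_⟩
  · simp only []
    rw [lin s t x y h]
    exact hv.2 (mem_univ _) (mem_univ _) hs ht h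
  · simp only []
    rw [lin s t x y h, neg_add, ← smul_neg, ← smul_neg]
    exact hv.2 (mem_univ _) (mem_univ _) hs ht h
  · have := (a1 x).1; linarith
  · have := (a1 x).2.2.1; linarith
  · have := (a1 x).2.2.2.1; linarith
  · have := g2 (x • a + b) 6 (by norm_num) (by
      rw [x1, y1]; refine ⟨?_, ?_, ?_, ?_, ?_, ?_, ?_, ?_⟩ <;> linarith)
    linarith
  · have := g2 (x • a + b) (61 / 10) (by norm_num) (by
      rw [x1, y1]; refine ⟨?_, ?_, ?_, ?_, ?_, ?_, ?_, ?_⟩ <;> linarith)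
    linarith
  · have := (a2 x).2.2.2.2.2.2.2; linarith
  · have := g2 (-(x • a + b)) 5 (by norm_num) (by
      rw [x2, y2]; refine ⟨?_, ?_, ?_, ?_, ?_, ?_, ?_, ?_⟩ <;> linarith)
    linarith

theorem mem_of_ball {E : Type*} [NormedAddCommGroup E] [InnerProductSpace ℝ E] [CompleteSpace E]
    {K : Set E} (hc : Convex ℝ K) (hcl : IsClosed K) {u : E} {η : ℝ} (hη : 0 < η)
    (h : ∀ w, dist w u ≤ η → ∃ z ∈ K, dist z w < η) : u ∈ K := by
  by_contra hu
  obtain ⟨f, c, h1, h2⟩ := geometric_hahn_banach_point_closed hc hcl hu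
  set g := (InnerProductSpace.toDual ℝ E).symm f with hg
  have hf : ∀ v, f v = inner ℝ g v := fun v => by simp [hg]
  have hg0 : g ≠ 0 := by
    intro e
    obtain ⟨z, hz, -⟩ := h u (by simp [hη.le])
    have := h2 z hz
    rw [hf, e] at this h1
    simp at this h1
    linarith
  have hn : 0 < ‖g‖ := norm_pos_iff.2 hg0
  obtain ⟨z, hz, hz'⟩ := h (u - (η / ‖g‖) • g) (by
    rw [dist_eq_norm, sub_sub_cancel_left, norm_neg, norm_smul, Real.norm_eq_abs,
      abs_of_pos (by positivity), div_mul_cancel₀ _ hn.ne'])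
  have a1 := h2 z hz
  have a2 := real_inner_le_norm g (z - (u - (η / ‖g‖) • g))
  rw [dist_eq_norm] at hz'
  have a3 := mul_lt_mul_of_pos_left hz' hn
  rw [inner_sub_right, inner_sub_right, inner_smul_right, real_inner_self_eq_norm_sq, ← hf,
    ← hf] at a2
  have : η / ‖g‖ * ‖g‖ ^ 2 = ‖g‖ * η := by field_simp
  linarith

abbrev E2 := EuclideanSpace ℝ (Fin 2)

theorem coord_le (v w : E2) (i : Fin 2) : |v i - w i| ≤ dist v w := by
  rw [← Real.dist_eq]; exact PiLp.dist_apply_le v w i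

/-- The model body. -/
def K0 : ConvexBody E2 where
  carrier := {v | P0 1 (v 0) (v 1)}
  convex' := by
    intro u hu w hw s t hs ht h
    obtain ⟨a1, a2, a3, a4, a5, a6, a7, a8⟩ := P0.smul hu hs
    obtain ⟨b1, b2, b3, b4, b5, b6, b7, b8⟩ := P0.smul hw ht
    simp only [mem_ofPred_eq, PiLp.add_apply, PiLp.smul_apply, smul_eq_mul]
    refine ⟨?_, ?_, ?_, ?_, ?_, ?_, ?_, ?_⟩ <;> linarith
  isCompact' := by
    refine Metric.isCompact_of_isClosed_isBounded ?_ ?_
    · unfold P0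
      simp only [ofPred_and]
      refine IsClosed.inter ?_ (IsClosed.inter ?_ (IsClosed.inter ?_ (IsClosed.inter ?_
        (IsClosed.inter ?_ (IsClosed.inter ?_ (IsClosed.inter ?_ ?_)))))) <;>
        exact isClosed_le (by fun_prop) (by fun_prop)
    · refine (Metric.isBounded_closedBall (x := (0 : E2)) (r := 1)).subset fun v hv => ?_
      obtain ⟨a1, a2, -, -, -, -, a7, a8⟩ := hv
      rw [mem_closedBall_zero_iff, EuclideanSpace.norm_eq, Real.sqrt_le_one]
      simp only [Fin.sum_univ_two, Real.norm_eq_abs, sq_abs]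
      nlinarith
  nonempty' := ⟨0, by simp [P0]⟩

theorem near_K0 {K : ConvexBody E2} (hK : dist K K0 < 1 / 1000000) :
    (∀ z ∈ (K : Set E2), P0 (1 + 7 / 1000000) (z 0) (z 1)) ∧
      ∀ u : E2, P0 (1 - 7 / 1000000) (u 0) (u 1) → u ∈ (K : Set E2) := by
  rw [← ConvexBody.hausdorffDist_coe] at hK
  constructor
  · intro z hz
    obtain ⟨y, hy, hy'⟩ := Metric.exists_dist_lt_of_hausdorffDist_lt hz hK
      ConvexBody.hausdorffEDist_ne_top
    have := P0.near hy ((coord_le z y 0).trans hy'.le) ((coord_le z y 1).trans hy'.le)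
    norm_num at this ⊢
    exact this
  · intro u hu
    refine mem_of_ball K.convex K.isClosed (η := 1 / 1000000) (by norm_num) fun w hw => ?_
    refine Metric.exists_dist_lt_of_hausdorffDist_lt' (t := K0) ?_ hK
      ConvexBody.hausdorffEDist_ne_top
    have := P0.near hu ((coord_le w u 0).trans hw) ((coord_le w u 1).trans hw)
    norm_num at this
    exact this

theorem main {K : ConvexBody E2} (hK : dist K K0 < 1 / 1000000) :
    (0 : E2) ∈ interior (K : Set E2) ∧ ∃ L : ConvexBody E2, (0 : E2) ∈ interior (L : Set E2) ∧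
      (L : Set E2) ≠ K ∧ (L : Set E2) ≠ -(K : Set E2) ∧
      ∀ S : Submodule ℝ E2, Module.finrank ℝ S = 1 →
        MeasureTheory.Measure.hausdorffMeasure 1 ((L : Set E2) ∩ S) =
          MeasureTheory.Measure.hausdorffMeasure 1 ((K : Set E2) ∩ S) := by
  obtain ⟨f1, f2⟩ := near_K0 hK
  have hn : (K : Set E2) ∈ 𝓝 (0 : E2) := by
    refine mem_of_superset (Metric.closedBall_mem_nhds 0 (by norm_num : (0 : ℝ) < 1 / 10))
      fun u hu => f2 u ?_
    have h0 : P0 0 ((0 : E2) 0) ((0 : E2) 1) := by simp [P0]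
    obtain ⟨a1, a2, a3, a4, a5, a6, a7, a8⟩ :=
      h0.near ((coord_le u 0 0).trans hu) ((coord_le u 0 1).trans hu)
    refine ⟨?_, ?_, ?_, ?_, ?_, ?_, ?_, ?_⟩ <;> linarith
  refine ⟨mem_interior_iff_mem_nhds.2 hn, ?_⟩
  set p := gauge (K : Set E2) with hp
  have pK : ∀ v, v ∈ (K : Set E2) ↔ p v ≤ 1 := fun v => by
    rw [hp, gauge_le_one_iff_mem_closure K.convex hn, K.isClosed.closure_eq]
  have hom : ∀ t : ℝ, 0 < t → ∀ v, p (t • v) = t * p v := fun t ht v =>
    gauge_smul_of_nonneg ht.le v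
  have pc : Continuous p := continuous_gauge K.convex hn
  have pp : ∀ v, v ≠ 0 → 0 < p v := fun v hv =>
    (gauge_pos (absorbent_nhds_zero hn)
      (NormedSpace.isVonNBounded_of_isBounded ℝ K.isBounded)).2 hv
  have pv : ConvexOn ℝ univ p := ⟨convex_univ, fun x _ y _ s t hs ht _ => by
    refine (gauge_add_le K.convex (absorbent_nhds_zero hn) _ _).trans ?_
    rw [gauge_smul_of_nonneg hs, gauge_smul_of_nonneg ht]⟩
  have pin : ∀ v, v ≠ 0 → (p v)⁻¹ • v ∈ (K : Set E2) := fun v hv => by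
    rw [pK, hom _ (inv_pos.2 (pp v hv)), inv_mul_cancel₀ (pp v hv).ne']
  have g1 : ∀ v : E2, v ≠ 0 → P0 ((1 + 7 / 1000000) * p v) (v 0) (v 1) := fun v hv => by
    have := (f1 _ (pin v hv)).smul (pp v hv).le
    simp only [PiLp.smul_apply, smul_eq_mul, mul_inv_cancel_left₀ (pp v hv).ne'] at this
    rwa [mul_comm] at this
  have g2 : ∀ (v : E2) c, 0 < c → P0 c (v 0) (v 1) → (1 - 7 / 1000000) * p v ≤ c := by
    intro v c hc h
    have ht : 0 < (1 - 7 / 1000000) / c := by positivity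
    have h1 := h.smul ht.le
    rw [div_mul_cancel₀ _ hc.ne'] at h1
    have h2 := (pK _).1 (f2 (((1 - 7 / 1000000) / c) • v) h1)
    rw [hom _ ht, div_mul_eq_mul_div, div_le_one hc] at h2
    exact h2
  set X : E2 →L[ℝ] ℝ := EuclideanSpace.proj 0 with hX
  set Y : E2 →L[ℝ] ℝ := EuclideanSpace.proj 1 with hY
  set a : E2 := EuclideanSpace.single 0 1 with ha
  set b : E2 := EuclideanSpace.single 1 1 with hb
  have e1 : X a = 1 := by simp [hX, ha]
  have e2 : X b = 0 := by simp [hX, hb]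
  have e3 : Y a = 0 := by simp [hY, ha]
  have e4 : Y b = 1 := by simp [hY, hb]
  have n1 := near_of pc pv pp X Y a b e1 e2 e3 e4 g1 g2
  have n2 := near_of pc pv pp Y X b a e4 e3 e2 e1 (fun v hv => (g1 v hv).symm)
    (fun v c hc h => g2 v c hc h.symm)
  obtain ⟨q, q0, qh, qc, qv, qp, qe⟩ := plane hom X Y a b (fun v => by
    ext i; fin_cases i <;> simp [hX, hY, ha, hb]) n1 n2
  obtain ⟨R, hR0, hR⟩ := K.isBounded.exists_pos_norm_le
  have pR : ∀ v, v ≠ 0 → (p v)⁻¹ * ‖v‖ ≤ R := fun v hv => by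
    have := hR _ (pin v hv)
    rwa [norm_smul, Real.norm_eq_abs, abs_of_pos (inv_pos.2 (pp v hv))] at this
  let L : ConvexBody E2 :=
    { carrier := {v | q v ≤ 1}
      convex' := by simpa using qv.convex_le 1
      isCompact' := by
        refine Metric.isCompact_of_isClosed_isBounded (isClosed_le qc continuous_const) ?_
        refine (Metric.isBounded_closedBall (x := (0 : E2)) (r := 2 * R)).subset fun v hv => ?_
        rw [mem_closedBall_zero_iff]
        by_cases h0 : v = 0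
        · rw [h0, norm_zero]; positivity
        have a1 := pR v h0
        have a2 := pR (-v) (neg_ne_zero.2 h0)
        have a3 := qp v h0
        have a4 := inv_pos.2 (qp (-v) (neg_ne_zero.2 h0)).1
        have a5 : 1 ≤ (q v)⁻¹ := (one_le_inv₀ a3.1).2 hv
        rw [norm_neg] at a2
        have a6 : 1 * ‖v‖ ≤ ((p v)⁻¹ + (p (-v))⁻¹) * ‖v‖ :=
          mul_le_mul_of_nonneg_right (by linarith [a3.2]) (norm_nonneg _)
        linarith
      nonempty' := ⟨0, by simp [q0]⟩ }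
  have hL : (L : Set E2) = {v | q v ≤ 1} := rfl
  have hK' : (K : Set E2) = {v | p v ≤ 1} := by ext v; exact pK v
  refine ⟨L, ?_, fun e => ?_, fun e => ?_, fun S hS => ?_⟩
  · refine mem_interior_iff_mem_nhds.2 (mem_of_superset
      ((isOpen_lt qc continuous_const (g := fun _ => (1 : ℝ))).mem_nhds (by simp [q0])) ?_)
    exact fun v hv => show q v ≤ 1 from le_of_lt hv
  · have a1 := (qe ((3 / 5 : ℝ) • a + b) (by simp [e3, e4])).2 (by simp [e1, e2])
    have a2 := n1.k2 (3 / 5) (by norm_num) le_rfl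
    have a3 := n1.h1 (3 / 5) (by norm_num) (by norm_num)
    have a4 : (2 / 11 : ℝ) • ((3 / 5 : ℝ) • a + b) ∈ (L : Set E2) := by
      rw [hL, mem_ofPred_eq, qh _ (by norm_num), a1]; linarith
    rw [e, pK, hom _ (by norm_num)] at a4
    linarith
  · have a1 := (qe ((-(3 / 5) : ℝ) • a + b) (by simp [e3, e4])).1 (by simp [e1, e2])
    have a2 := n1.k2 (-(3 / 5)) le_rfl (by norm_num)
    have a3 := n1.h1 (-(3 / 5)) (by norm_num) (by norm_num)
    have a4 : (2 / 11 : ℝ) • ((-(3 / 5) : ℝ) • a + b) ∈ -(K : Set E2) := by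
      rw [Set.mem_neg, ← smul_neg, pK, hom _ (by norm_num)]; linarith
    rw [← e, hL, mem_ofPred_eq, qh _ (by norm_num), a1] at a4
    linarith
  · obtain ⟨u, hu, hu'⟩ := finrank_eq_one_iff'.1 hS
    have hu0 : (u : E2) ≠ 0 := fun e => hu (Subtype.ext e)
    have hS' : ∀ v, v ∈ (S : Set E2) ↔ ∃ c : ℝ, c • (u : E2) = v := fun v =>
      ⟨fun h => by
        obtain ⟨c, hc⟩ := hu' ⟨v, h⟩
        exact ⟨c, congrArg Subtype.val hc⟩, by rintro ⟨c, rfl⟩; exact S.smul_mem c u.2⟩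
    have hu1 := neg_ne_zero.2 hu0
    rw [hL, hK', section_eq q0 qh (qp _ hu0).1 (qp _ hu1).1 _ hS',
      section_eq (q := p) gauge_zero hom (pp _ hu0) (pp _ hu1) _ hS',
      MeasureTheory.hausdorffMeasure_segment, MeasureTheory.hausdorffMeasure_segment,
      edist_dist, edist_dist, dist_eq_norm, dist_eq_norm, ← sub_smul, ← sub_smul]
    congr 3
    linarith [(qp _ hu0).2]

end Pool.Agent.H20.Sec
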