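import Pool.Agent.H20.PL2

set_option autoImplicit false

open Set MeasureTheory
open scoped ENNReal

namespace Pool.Agent.H20.St

section
variable {X Y : Type*} [NormedAddCommGroup X] [NormedSpace ℝ X] [FiniteDimensional ℝ X]
  [MeasurableSpace X] [BorelSpace X] [NormedAddCommGroup Y] [NormedSpace ℝ Y]
  [FiniteDimensional ℝ Y] [MeasurableSpace Y] [BorelSpace Y]

omit [FiniteDimensional ℝ Y] in
lemma haar_tr (Φ : X ≃ₗ[ℝ] Y) (μ : Measure Y) (ν : Measure X) [μ.IsAddHaarMeasure]
    [ν.IsAddHaarMeasure] : ∃ a : ℝ≥0∞, ∀ S, μ S = a * ν (Φ ⁻¹' S) := by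
  set Ψ := Φ.toContinuousLinearEquiv.symm with hΨ
  have := Ψ.isAddHaarMeasure_map μ
  have h := Measure.isAddLeftInvariant_eq_smul (μ.map Ψ) ν
  refine ⟨(μ.map Ψ).addHaarScalarFactor ν, fun S => ?_⟩
  have e := Ψ.toHomeomorph.measurableEmbedding.map_apply μ (Φ ⁻¹' S)
  have e2 : (Ψ.toHomeomorph : Y → X) ⁻¹' (Φ ⁻¹' S) = S := by ext x; simp [hΨ]
  rw [e2] at e
  rw [← e]
  exact (congrArg (fun m : Measure X => m (Φ ⁻¹' S)) h).trans (by simp)

lemma slice (μ : Measure X) [μ.IsAddHaarMeasure] (f : X →ₗ[ℝ] ℝ) {u : X} (hu : f u = 1)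
    {G Z : Set X} (hG : MeasurableSet G) (h2 : ∀ x ∈ G, ∀ y ∈ G, (1 / 2 : ℝ) • (x - y) ∈ G)
    {c R : ℝ} (hZ : ∀ w ∈ G, f w = 0 → ∀ s, |s| ≤ c → w + s • u ∈ Z) :
    ENNReal.ofReal c * μ (G ∩ {x | |f x| ≤ R}) ≤ ENNReal.ofReal R * μ Z := by
  set m := Module.finrank ℝ (LinearMap.ker f)
  set e : (Fin m → ℝ) ≃ₗ[ℝ] LinearMap.ker f := (Module.finBasis ℝ _).equivFun.symm
  set T : (ℝ × (Fin m → ℝ)) →ₗ[ℝ] X := (LinearMap.toSpanSingleton ℝ X u).coprod
    ((LinearMap.ker f).subtype ∘ₗ e.toLinearMap) with hT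
  have Ta : ∀ s y, T (s, y) = s • u + e y := fun s y => rfl
  have fT : ∀ s y, f (T (s, y)) = s := fun s y => by
    rw [Ta, map_add, map_smul, hu, (e y).2]; simp
  have hb : Function.Bijective T := by
    refine ⟨(injective_iff_map_eq_zero _).2 fun ⟨s, y⟩ h => ?_, fun x => ?_⟩
    · have h1 : s = 0 := by rw [← fT s y, h, map_zero]
      rw [Ta, h1] at h
      have : y = 0 := by simpa using h
      rw [h1, this]; rfl
    · exact ⟨(f x, e.symm ⟨x - f x • u, by simp [hu]⟩), by simp [Ta]⟩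
  have : (volume : Measure (ℝ × (Fin m → ℝ))).IsAddHaarMeasure :=
    Measure.prod.instIsAddHaarMeasure _ _
  obtain ⟨a, ha⟩ := haar_tr (LinearEquiv.ofBijective T hb) μ volume
  have cT : Continuous T := T.continuous_of_finiteDimensional
  set G0 := {y | T (0, y) ∈ G}
  have mG : ∀ s, MeasurableSet {y | T (s, y) ∈ G} := fun s =>
    hG.preimage (cT.comp (by fun_prop)).measurable
  have h1 : volume (T ⁻¹' (G ∩ {x | |f x| ≤ R})) ≤ ENNReal.ofReal (R - -R) * volume G0 := by
    rw [Measure.volume_eq_prod, Measure.prod_apply ((hG.inter (isClosed_le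
      f.continuous_of_finiteDimensional.abs continuous_const).measurableSet).preimage
      cT.measurable), ← Real.volume_Icc, mul_comm, ← setLIntegral_const,
      ← lintegral_indicator measurableSet_Icc]
    refine lintegral_mono fun s => ?_
    by_cases hs : s ∈ Icc (-R) R
    · rw [indicator_of_mem hs]
      refine (measure_mono fun y hy => hy.1).trans (PL.anderson (mG s) (mG 0) fun x hx y hy => ?_)
      have := h2 _ hx _ hy
      rw [← map_sub, ← map_smul] at this
      show T _ ∈ G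
      convert this using 2
      ext <;> simp; ring
    · rw [indicator_of_notMem hs]
      refine (measure_mono fun y hy => hs ?_).trans_eq measure_empty
      have : |f (T (s, y))| ≤ R := hy.2
      rwa [fT, abs_le] at this
  have h3 : ENNReal.ofReal (c - -c) * volume G0 ≤ volume (T ⁻¹' Z) := by
    rw [Measure.volume_eq_prod, ← Real.volume_Icc, ← Measure.prod_prod]
    refine measure_mono fun ⟨s, y⟩ h => ?_
    have := hZ _ h.2 (fT _ _) s (abs_le.2 h.1)
    rw [mem_preimage, Ta]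
    simpa [Ta, add_comm] using this
  have e2 : ∀ t : ℝ, ENNReal.ofReal (t - -t) = 2 * ENNReal.ofReal t := fun t => by
    rw [← ENNReal.ofReal_ofNat, ← ENNReal.ofReal_mul (by norm_num)]; congr 1; ring
  rw [ha, ha Z]
  rw [e2] at h1 h3
  calc _ ≤ ENNReal.ofReal c * (a * (2 * ENNReal.ofReal R * volume G0)) := by gcongr; exact h1
    _ = ENNReal.ofReal R * (a * (2 * ENNReal.ofReal c * volume G0)) := by ring
    _ ≤ _ := by gcongr; exact h3

lemma invol (μ : Measure X) [μ.IsAddHaarMeasure] (T : X →ₗ[ℝ] X) (hT : ∀ x, T (T x) = x)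
    {D : Set X} (hD : ∀ x ∈ D, T x ∈ D) (g : X → ℝ) :
    ∫ x in D, g (T x) ∂μ = ∫ x in D, g x ∂μ := by
  have h1 : |LinearMap.det T| = 1 := by
    have : LinearMap.det T * LinearMap.det T = 1 := by
      rw [← LinearMap.det_comp, show T ∘ₗ T = LinearMap.id from LinearMap.ext hT, LinearMap.det_id]
    rcases mul_self_eq_one_iff.1 this with h | h <;> simp [h]
  have h0 : LinearMap.det T ≠ 0 := fun h => by simp [h] at h1
  have mp : MeasurePreserving T μ μ := ⟨T.continuous_of_finiteDimensional.measurable, by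
    rw [Measure.map_linearMap_addHaar_eq_smul_addHaar μ h0, abs_inv, h1]; simp⟩
  have := mp.setIntegral_preimage_emb
    (LinearEquiv.ofInvolutive T hT).toContinuousLinearEquiv.toHomeomorph.measurableEmbedding g D
  rwa [show T ⁻¹' D = D from Subset.antisymm (fun x hx => hT x ▸ hD _ hx) hD] at this

omit [NormedSpace ℝ X] [FiniteDimensional ℝ X] in
lemma iso_sum {ι : Type*} [Fintype ι] (μ : Measure X) [μ.IsAddHaarMeasure] {D : Set X}
    (hD : IsCompact D) (g : ι → ι → X → ℝ) (cg : ∀ a b, Continuous (g a b)) (j : ℝ)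
    (h0 : ∀ a b, a ≠ b → ∫ x in D, g a b x ∂μ = 0) (h1 : ∀ a, ∫ x in D, g a a x ∂μ = j)
    (M : ι → ι → ℝ) : ∫ x in D, ∑ a, ∑ b, M a b * g a b x ∂μ = (∑ a, M a a) * j := by
  rw [integral_finsetSum _ fun a _ => ContinuousOn.integrableOn_compact hD (by fun_prop),
    Finset.sum_mul]
  refine Finset.sum_congr rfl fun a _ => ?_
  rw [integral_finsetSum _ fun a _ => ContinuousOn.integrableOn_compact hD (by fun_prop),
    Finset.sum_eq_single a (fun b _ hb => by rw [integral_const_mul, h0 a b hb.symm, mul_zero])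
      (by simp), integral_const_mul, h1]

end

end Pool.Agent.H20.St
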