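import Pool.Agent.H20.St1

set_option autoImplicit false

open Set MeasureTheory Matrix
open scoped ENNReal MatrixOrder

namespace Pool.Agent.H20.St

lemma dsq {d : ℕ} (x : Fin d → ℝ) : 0 ≤ x ⬝ᵥ x := Finset.sum_nonneg fun _ _ => mul_self_nonneg _

lemma dot2 {d : ℕ} (x y : Fin d → ℝ) : 2 * (x ⬝ᵥ y) ≤ x ⬝ᵥ x + y ⬝ᵥ y := by
  have := dsq (x - y)
  rw [sub_dotProduct, dotProduct_sub, dotProduct_sub, dotProduct_comm y x] at this
  linarith

lemma sq_le_dot {d : ℕ} (x : Fin d → ℝ) (i : Fin d) : x i * x i ≤ x ⬝ᵥ x :=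
  Finset.single_le_sum (f := fun i => x i * x i) (fun _ _ => mul_self_nonneg _) (Finset.mem_univ i)

lemma ball_cpt (d : ℕ) : IsCompact {z : Fin d → ℝ | z ⬝ᵥ z ≤ 1} :=
  (isCompact_Icc (a := fun _ => -1) (b := fun _ => 1)).of_isClosed_subset
    (isClosed_le (by fun_prop) continuous_const) fun z hz =>
      ⟨fun i => by have := (sq_le_dot z i).trans hz; show -1 ≤ z i; nlinarith,
        fun i => by have := (sq_le_dot z i).trans hz; show z i ≤ 1; nlinarith⟩

/-- Sign change and permutation of coordinates. -/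
def op {d : ℕ} {Y : Type*} [AddCommGroup Y] [Module ℝ Y] (ε : Fin d → ℝ) (σ : Equiv.Perm (Fin d)) :
    (Fin d → Y) →ₗ[ℝ] (Fin d → Y) where
  toFun w i := ε i • w (σ i)
  map_add' x y := by ext i; simp
  map_smul' c x := by ext i; simp [smul_comm c]

lemma op_cases {d : ℕ} {P : (Fin d → ℝ) → Equiv.Perm (Fin d) → Prop}
    (h : ∀ ε σ, (∀ i, ε i * ε i = 1) → (∀ i, ε (σ i) = ε i) → (∀ i, σ (σ i) = i) → P ε σ)
    (a b : Fin d) : P (Function.update 1 a (-1)) 1 ∧ P 1 (Equiv.swap a b) :=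
  ⟨h _ _ (fun i => by by_cases e : i = a <;> simp [e]) (fun _ => rfl) fun _ => rfl,
    h _ _ (by simp) (by simp) (by simp)⟩

lemma op_op {d : ℕ} {Y : Type*} [AddCommGroup Y] [Module ℝ Y] {ε : Fin d → ℝ}
    {σ : Equiv.Perm (Fin d)} (h1 : ∀ i, ε i * ε i = 1) (h2 : ∀ i, ε (σ i) = ε i)
    (h3 : ∀ i, σ (σ i) = i) (w : Fin d → Y) : op ε σ (op ε σ w) = w := by
  ext i; simp [op, smul_smul, h1, h2, h3]

lemma ball_mom {d : ℕ} (M : Fin d → Fin d → ℝ) (hM : ∀ a, 0 ≤ M a a) :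
    ∫ z in {z : Fin d → ℝ | z ⬝ᵥ z ≤ 1}, (d * ∑ a, ∑ b, M a b * (z a * z b) - ∑ a, M a a) ≤ 0 := by
  rcases d with _ | k
  · simp
  set D := {z : Fin (k + 1) → ℝ | z ⬝ᵥ z ≤ 1} with hD
  have cD : IsCompact D := ball_cpt _
  have inv := op_cases (d := k + 1) (P := fun ε σ => ∀ a b,
      ε a * ε b * ∫ z in D, z (σ a) * z (σ b) = ∫ z in D, z a * z b) fun ε σ h1 h2 h3 a b => by
    rw [← invol volume (op ε σ) (op_op h1 h2 h3) (D := D) (fun z hz => ?_) fun z => z a * z b,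
      ← integral_const_mul]
    · congr 1; ext z; simp [op]; ring
    · refine le_of_eq_of_le (b := z ⬝ᵥ z) ?_ hz
      rw [dotProduct, dotProduct, ← Equiv.sum_comp σ fun i => z i * z i]
      refine Finset.sum_congr rfl fun i _ => ?_
      simp only [op, LinearMap.coe_mk, AddHom.coe_mk, smul_eq_mul]
      linear_combination z (σ i) * z (σ i) * h1 i
  have iso := iso_sum volume cD (fun a b z => z a * z b) (by fun_prop)
    (∫ z in D, z 0 * z 0) (fun a b hab => by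
      have := (inv a a).1 a b
      simp [hab.symm] at this
      linarith) (fun a => by simpa using (inv a 0).2 0 0)
  have ci : ∀ {g : (Fin (k + 1) → ℝ) → ℝ}, Continuous g → IntegrableOn g D := fun hg =>
    hg.continuousOn.integrableOn_compact cD
  have h1 := iso (1 : Matrix _ _ ℝ)
  have h2 : ∫ z in D, ∑ a, ∑ b, (1 : Matrix _ _ ℝ) a b * (z a * z b) ≤ ∫ _ in D, (1 : ℝ) :=
    setIntegral_mono_on (ci (by fun_prop)) (ci continuous_const) cD.measurableSet
      fun z hz => by simpa [one_apply, dotProduct, hD] using hz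
  rw [integral_sub (ci (by fun_prop)) (ci continuous_const), integral_const_mul, iso M]
  rw [h1] at h2
  simp only [one_apply_eq, Finset.sum_const, Finset.card_univ, Fintype.card_fin, nsmul_eq_mul,
    mul_one, integral_const, smul_eq_mul] at h2 ⊢
  have : 0 ≤ ∑ a, M a a := Finset.sum_nonneg fun a _ => hM a
  nlinarith

lemma fibre {d k : ℕ} (B : Fin k → Fin d → ℝ) :
    ∫ r in {r : Fin d → ℝ | ∀ y, (r ⬝ᵥ y) ^ 2 + ∑ j, (B j ⬝ᵥ y) ^ 2 ≤ y ⬝ᵥ y},
      (d * (r ⬝ᵥ r) + ∑ j, B j ⬝ᵥ B j - d) ≤ 0 := by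
  set F := {r : Fin d → ℝ | ∀ y, (r ⬝ᵥ y) ^ 2 + ∑ j, (B j ⬝ᵥ y) ^ 2 ≤ y ⬝ᵥ y} with hF
  rcases F.eq_empty_or_nonempty with h | ⟨r0, hr⟩
  · simp [h]
  have q : ∀ y, y ⬝ᵥ (1 - (of B)ᵀ * of B) *ᵥ y = y ⬝ᵥ y - ∑ j, (B j ⬝ᵥ y) ^ 2 := fun y => by
    rw [sub_mulVec, one_mulVec, dotProduct_sub, ← mulVec_mulVec, dotProduct_mulVec,
      vecMul_transpose]
    simp only [sq]; rfl
  have hS : (1 - (of B)ᵀ * of B).PosSemidef := by
    refine PosSemidef.of_dotProduct_mulVec_nonneg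
      (isHermitian_one.sub (isHermitian_conjTranspose_mul_self (of B))) fun y => ?_
    rw [star_trivial, q]; nlinarith [hr y]
  obtain ⟨Q, hQ⟩ := CStarAlgebra.nonneg_iff_eq_star_mul_self.1 hS.nonneg
  replace hQ : 1 - (of B)ᵀ * of B = Qᵀ * Q := hQ
  have mem : ∀ r, r ∈ F ↔ ∀ y, (r ⬝ᵥ y) ^ 2 ≤ Q *ᵥ y ⬝ᵥ Q *ᵥ y := fun r =>
    forall_congr' fun y => by
      rw [← le_sub_iff_add_le, ← q, hQ, ← mulVec_mulVec, dotProduct_mulVec, vecMul_transpose]
  by_cases hd : Q.det = 0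
  · obtain ⟨y, y0, hy⟩ := exists_mulVec_eq_zero_iff.2 hd
    rw [setIntegral_measure_zero]
    refine measure_mono_null (fun r hr => ?_) (Measure.addHaar_submodule volume
      (LinearMap.ker (dotProductBilin ℝ ℝ y)) fun h => y0 ?_)
    · have := (mem r).1 hr y
      rw [hy, dotProduct_zero] at this
      show y ⬝ᵥ r = 0
      rw [dotProduct_comm]; exact pow_eq_zero_iff two_ne_zero |>.1 (this.antisymm (sq_nonneg _))
    · have : y ∈ LinearMap.ker (dotProductBilin ℝ ℝ y) := by rw [h]; trivial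
      exact dotProduct_self_eq_zero.1 this
  have cF : IsClosed F := by
    rw [hF, ofPred_forall]
    exact isClosed_iInter fun y => isClosed_le (by fun_prop) continuous_const
  have hd' : LinearMap.det (toLin' Qᵀ) ≠ 0 := by rwa [LinearMap.det_toLin', det_transpose]
  have h := setIntegral_map (μ := volume) (g := toLin' Qᵀ) cF.measurableSet
    (f := fun r => d * (r ⬝ᵥ r) + ∑ j, B j ⬝ᵥ B j - d) (Continuous.aestronglyMeasurable
      (by fun_prop)) (toLin' Qᵀ).continuous_of_finiteDimensional.aemeasurable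
  have e : toLin' Qᵀ ⁻¹' F = {z | z ⬝ᵥ z ≤ 1} := by
    ext z
    simp only [mem_preimage, mem, toLin'_apply, mulVec_transpose, ← dotProduct_mulVec]
    refine ⟨fun h => ?_, fun h y => ?_⟩
    · have := h (Q⁻¹ *ᵥ z)
      rw [mulVec_mulVec, mul_nonsing_inv _ (Ne.isUnit hd), one_mulVec] at this
      show z ⬝ᵥ z ≤ 1
      nlinarith
    · have := Finset.sum_mul_sq_le_sq_mul_sq Finset.univ z (Q *ᵥ y)
      simp only [sq] at this ⊢
      exact this.trans (mul_le_of_le_one_left (dsq _) h)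
  have tr : ∑ j, B j ⬝ᵥ B j - d = -∑ a, (Q * Qᵀ) a a := by
    have := congrArg trace hQ
    rw [trace_mul_comm, trace_sub, trace_mul_comm, trace_one, Fintype.card_fin] at this
    exact (neg_sub _ _).symm.trans (congrArg _ this)
  have h2 := ball_mom (Q * Qᵀ) fun a => dsq (Q a)
  rw [e, Measure.map_linearMap_addHaar_eq_smul_addHaar _ hd', Measure.restrict_smul,
    integral_smul_measure, ENNReal.toReal_ofReal (abs_nonneg _), smul_eq_mul] at h
  refine nonpos_of_mul_nonpos_right (h.trans_le (le_of_eq_of_le ?_ h2))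
    (abs_pos.2 (inv_ne_zero hd'))
  congr 1; ext z
  rw [add_sub_assoc, tr, toLin'_apply, dotProduct_mulVec, vecMul_transpose, mulVec_mulVec,
    dotProduct_comm, sub_eq_add_neg]
  simp only [dotProduct, mulVec, Finset.mul_sum]
  congr 1
  refine Finset.sum_congr rfl fun a _ => Finset.sum_congr rfl fun b _ => by ring

end Pool.Agent.H20.St
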