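import Pool.Agent.H20.St2

set_option autoImplicit false

open Set MeasureTheory Matrix
open scoped ENNReal

namespace Pool.Agent.H20.St

/-- Square arrays. -/
abbrev E (d : ℕ) := Fin d → Fin d → ℝ

/-- The unit ball of the operator norm. -/
def L (d : ℕ) : Set (E d) := {w | ∀ x y, 2 * (x ⬝ᵥ of w *ᵥ y) ≤ x ⬝ᵥ x + y ⬝ᵥ y}

/-- Transposition. -/
def tp (d : ℕ) : E d →ₗ[ℝ] E d where
  toFun w i j := w j i
  map_add' _ _ := rfl
  map_smul' _ _ := rfl

variable {d : ℕ}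

lemma mem_iff {w : E d} : w ∈ L d ↔ ∀ y, ∑ a, (w a ⬝ᵥ y) ^ 2 ≤ y ⬝ᵥ y := by
  have e : ∀ y, ∑ a, (w a ⬝ᵥ y) ^ 2 = of w *ᵥ y ⬝ᵥ of w *ᵥ y := fun y => by simp only [sq]; rfl
  simp only [e]
  exact ⟨fun h y => by linarith [h (of w *ᵥ y) y], fun h x y => by
    linarith [h y, dot2 x (of w *ᵥ y)]⟩

lemma tp_mem {w : E d} (h : w ∈ L d) : tp d w ∈ L d := fun x y => by
  have := h y x
  rwa [dotProduct_mulVec, dotProduct_comm, ← mulVec_transpose, add_comm] at this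

lemma comb {p q : E d} (hp : p ∈ L d) (hq : q ∈ L d) {a b : ℝ} (h : |a| + |b| ≤ 1) :
    a • p + b • q ∈ L d := fun x y => by
  have k : ∀ p ∈ L d, ∀ a : ℝ, a * (2 * (x ⬝ᵥ of p *ᵥ y)) ≤ |a| * (x ⬝ᵥ x + y ⬝ᵥ y) :=
    fun p hp a => by
      have h1 := hp x y
      have h2 := hp (-x) y
      simp only [neg_dotProduct, dotProduct_neg, neg_neg] at h2
      refine (le_abs_self _).trans ?_
      rw [abs_mul]
      exact mul_le_mul_of_nonneg_left (abs_le.2 ⟨by linarith, h1⟩) (abs_nonneg _)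
  have e : of (a • p + b • q) = a • of p + b • of q := rfl
  rw [e, add_mulVec, smul_mulVec, smul_mulVec, dotProduct_add, dotProduct_smul, dotProduct_smul,
    smul_eq_mul, smul_eq_mul]
  nlinarith [k p hp a, k q hq b, dsq x, dsq y]

lemma hs_mem {u : E d} (h : ∑ z : Fin d × Fin d, u z.1 z.2 * u z.1 z.2 ≤ 1) : u ∈ L d :=
  mem_iff.2 fun y => by
    rw [Fintype.sum_prod_type] at h
    calc _ ≤ ∑ a, (∑ b, u a b * u a b) * (y ⬝ᵥ y) := Finset.sum_le_sum fun a _ => by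
          simpa only [sq, dotProduct] using Finset.sum_mul_sq_le_sq_mul_sq Finset.univ (u a) y
      _ ≤ _ := by rw [← Finset.sum_mul]; exact mul_le_of_le_one_left (dsq y) h

lemma L_cpt (d : ℕ) : IsCompact (L d) := by
  refine (isCompact_Icc (a := fun _ _ => -1) (b := fun _ _ => 1)).of_isClosed_subset ?_
    fun w hw => ?_
  · rw [L, ofPred_forall]
    refine isClosed_iInter fun x => ?_
    rw [ofPred_forall]
    exact isClosed_iInter fun y => isClosed_le
      (by simp only [dotProduct, mulVec, of_apply]; fun_prop) continuous_const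
  · have : ∀ i j, w i j ^ 2 ≤ 1 := fun i j => by
      have := (Finset.single_le_sum (f := fun a => (w a ⬝ᵥ Pi.single j 1) ^ 2)
        (fun _ _ => sq_nonneg _) (Finset.mem_univ i)).trans (mem_iff.1 hw _)
      simpa using this
    exact ⟨fun i j => by have := this i j; show -1 ≤ w i j; nlinarith,
      fun i j => by have := this i j; show w i j ≤ 1; nlinarith⟩

lemma ci {g : E d → ℝ} (hg : Continuous g) : IntegrableOn g (L d) :=
  hg.continuousOn.integrableOn_compact (L_cpt d)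

lemma row {k : ℕ} (i : Fin (k + 1)) :
    ∫ w in L (k + 1), (k * (w i ⬝ᵥ w i) + ∑ a, w a ⬝ᵥ w a - (k + 1)) ≤ 0 := by
  have mp := (volume_preserving_piFinSuccAbove (fun _ : Fin (k + 1) => Fin (k + 1) → ℝ) i).symm
  have mL := (L_cpt (k + 1)).measurableSet
  have ee : ∀ r B, (MeasurableEquiv.piFinSuccAbove (fun _ : Fin (k + 1) => Fin (k + 1) → ℝ) i).symm
      (r, B) = Fin.insertNth i r B := fun _ _ => rfl
  rw [← integral_indicator mL, ← mp.integral_comp', Measure.volume_eq_prod]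
  refine (integral_prod_symm _ (mp.integrable_comp_of_integrable
      ((ci (by fun_prop)).integrable_indicator mL))).trans_le ?_
  refine integral_nonpos fun B => le_of_eq_of_le ?_ (fibre (d := k + 1) B)
  have e : {r | ∀ y, (r ⬝ᵥ y) ^ 2 + ∑ j, (B j ⬝ᵥ y) ^ 2 ≤ y ⬝ᵥ y} =
      (fun r => Fin.insertNth i r B) ⁻¹' L (k + 1) := by
    ext r
    simp only [mem_preimage, mem_iff, Fin.sum_univ_succAbove _ i, Fin.insertNth_apply_same,
      Fin.insertNth_apply_succAbove, mem_ofPred_eq]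
  rw [e, ← integral_indicator (mL.preimage (by fun_prop))]
  congr 1; ext r
  rw [Function.comp_apply, ee]
  by_cases h : Fin.insertNth i r B ∈ L (k + 1)
  · rw [indicator_of_mem h, indicator_of_mem (a := r) (by exact h)]
    simp only [Fin.sum_univ_succAbove _ i, Fin.insertNth_apply_same, Fin.insertNth_apply_succAbove]
    push_cast; ring
  · rw [indicator_of_notMem h, indicator_of_notMem (a := r) (by exact h)]

lemma hs_le (hd : 2 ≤ d) : ∫ w in L d, ∑ a, w a ⬝ᵥ w a ≤ 2 / 3 * d * volume.real (L d) := by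
  obtain ⟨k, rfl⟩ : ∃ k, d = k + 1 := ⟨d - 1, by omega⟩
  have h := Finset.sum_nonpos fun (i : Fin (k + 1)) (_ : i ∈ Finset.univ) => row i
  rw [← integral_finsetSum _ fun _ _ => ci (by fun_prop)] at h
  simp only [Finset.sum_sub_distrib, Finset.sum_add_distrib, ← Finset.mul_sum, Finset.sum_const,
    Finset.card_univ, Fintype.card_fin, nsmul_eq_mul, ← add_mul] at h
  rw [integral_sub (ci (by fun_prop)) (ci continuous_const), integral_const_mul,
    setIntegral_const, smul_eq_mul] at h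
  have h0 : 0 ≤ ∫ w in L (k + 1), ∑ a, w a ⬝ᵥ w a :=
    integral_nonneg fun w => Finset.sum_nonneg fun a _ => dsq _
  have k1 : (1 : ℝ) ≤ k := by exact_mod_cast (by omega : 1 ≤ k)
  push_cast at h ⊢
  refine le_of_mul_le_mul_left ?_ (show (0 : ℝ) < k + 1 by positivity)
  nlinarith

/-- The defect matrix. -/
def A (w : E d) : Matrix (Fin d) (Fin d) ℝ := 1 - of w * (of w)ᵀ

lemma A_t (w : E d) : (A w)ᵀ = A w := by simp [A]

lemma A_q {w : E d} (h : w ∈ L d) (x : Fin d → ℝ) :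
    A w *ᵥ x ⬝ᵥ A w *ᵥ x ≤ x ⬝ᵥ x - (of w)ᵀ *ᵥ x ⬝ᵥ (of w)ᵀ *ᵥ x := by
  have h1 := h (of w *ᵥ ((of w)ᵀ *ᵥ x)) ((of w)ᵀ *ᵥ x)
  have h2 : x ⬝ᵥ of w *ᵥ ((of w)ᵀ *ᵥ x) = (of w)ᵀ *ᵥ x ⬝ᵥ (of w)ᵀ *ᵥ x := by
    rw [dotProduct_mulVec, ← mulVec_transpose]
  rw [A, sub_mulVec, one_mulVec, ← mulVec_mulVec, sub_dotProduct, dotProduct_sub, dotProduct_sub,
    dotProduct_comm (of w *ᵥ _) x, h2]
  linarith

lemma mac {w u : E d} (h : w ∈ L d) (hu : u ∈ L d) :
    w + (1 / 2 : ℝ) • of.symm (A w * of u * A (tp d w)) ∈ L d := fun x y => by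
  have e : of (w + (1 / 2 : ℝ) • of.symm (A w * of u * A (tp d w))) =
    of w + (1 / 2 : ℝ) • (A w * of u * A (tp d w)) := rfl
  have h1 := A_q h x
  have h2 : _ ≤ y ⬝ᵥ y - of w *ᵥ y ⬝ᵥ of w *ᵥ y := A_q (tp_mem h) y
  have h3 := hu (A w *ᵥ x) (A (tp d w) *ᵥ y)
  have h4 := dot2 x (of w *ᵥ y)
  have h5 := dot2 ((of w)ᵀ *ᵥ x) y
  rw [mulVec_transpose, ← dotProduct_mulVec, ← mulVec_transpose] at h5
  rw [e, add_mulVec, smul_mulVec, dotProduct_add, dotProduct_smul, ← mulVec_mulVec,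
    ← mulVec_mulVec, dotProduct_mulVec x (A w), ← mulVec_transpose, A_t, smul_eq_mul]
  linarith

end Pool.Agent.H20.St
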