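import Pool.Agent.H20.St3

set_option autoImplicit false

open Set MeasureTheory Matrix
open scoped ENNReal

namespace Pool.Agent.H20.St

variable {d : ℕ}

/-- The trace pairing. -/
def ip (u : E d) : E d →ₗ[ℝ] ℝ where
  toFun w := ∑ z : Fin d × Fin d, u z.1 z.2 * w z.1 z.2
  map_add' _ _ := by simp [mul_add, Finset.sum_add_distrib]
  map_smul' _ _ := by simp [Finset.mul_sum, mul_left_comm]

lemma ip_eq (u w : E d) : ip u w = ∑ z : Fin d × Fin d, u z.1 z.2 * w z.1 z.2 := rfl

lemma A_eq (w : E d) (a c : Fin d) : A w a c = (if a = c then 1 else 0) - w a ⬝ᵥ w c := by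
  simp [A, one_apply, mul_apply, dotProduct]

/-- The coefficients of the test function. -/
noncomputable def g (z z' : Fin d × Fin d) (w : E d) : ℝ :=
  A w z.1 z'.1 * A (tp d w) z'.2 z.2 - d / 25 * (w z.1 z.2 * w z'.1 z'.2)

lemma g_cts (z z' : Fin d × Fin d) : Continuous (g z z') := by
  unfold g
  simp only [A_eq, tp, LinearMap.coe_mk, AddHom.coe_mk, dotProduct]
  fun_prop

lemma g_mom (hd : 2 ≤ d) : ∃ j, volume.real (L d) / 15 ≤ j ∧ ∀ M : _ → _ → ℝ,
    ∫ w in L d, ∑ z, ∑ z', M z z' * g z z' w = (∑ z, M z z) * j := by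
  have inv := op_cases (d := d) (P := fun ε σ => ∀ a b c e,
      ε a * ε c * ∫ w in L d, g (σ a, b) (σ c, e) w = ∫ w in L d, g (a, b) (c, e) w)
      fun ε σ h1 h2 h3 a b c e => by
    rw [← invol volume (op ε σ) (op_op h1 h2 h3) (D := L d) (fun w hw => ?_) (g (a, b) (c, e)),
      ← integral_const_mul]
    · congr 1; ext w
      have e1 : tp d (op ε σ w) e ⬝ᵥ tp d (op ε σ w) b = tp d w e ⬝ᵥ tp d w b := by
        rw [dotProduct, dotProduct, ← Equiv.sum_comp σ fun i => tp d w e i * tp d w b i]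
        refine Finset.sum_congr rfl fun i _ => ?_
        show ε i * w (σ i) e * (ε i * w (σ i) b) = w (σ i) e * w (σ i) b
        linear_combination w (σ i) e * w (σ i) b * h1 i
      have e2 : ε a * ε c * (if a = c then 1 else 0) = if a = c then 1 else 0 := by
        split_ifs with h
        · rw [h, h1, one_mul]
        · rw [mul_zero]
      simp only [g, A_eq, e1, σ.apply_eq_iff_eq]
      simp only [op, LinearMap.coe_mk, AddHom.coe_mk, smul_dotProduct, dotProduct_smul,
        smul_eq_mul, Pi.smul_apply]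
      linear_combination ((if e = b then 1 else 0) - tp d w e ⬝ᵥ tp d w b) * e2
    · refine mem_iff.2 fun y => le_of_eq_of_le ?_ (mem_iff.1 hw y)
      rw [← Equiv.sum_comp σ fun i => (w i ⬝ᵥ y) ^ 2]
      refine Finset.sum_congr rfl fun i _ => ?_
      simp only [op, LinearMap.coe_mk, AddHom.coe_mk, smul_dotProduct, smul_eq_mul]
      linear_combination (w (σ i) ⬝ᵥ y) ^ 2 * h1 i
  have tr : ∀ a b c e, ∫ w in L d, g (a, b) (c, e) w = ∫ w in L d, g (b, a) (e, c) w :=
    fun a b c e => by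
      rw [← invol volume (tp d) (fun _ => rfl) (fun w => tp_mem) (g (a, b) (c, e))]
      congr 1; ext w
      have ee : tp d (tp d w) = w := rfl
      simp only [g, ee, A_eq, dotProduct_comm (w e), dotProduct_comm (tp d w c), @eq_comm _ e,
        @eq_comm _ c]
      exact congrArg₂ _ (mul_comm _ _) rfl
  have z0 : ∀ a b c e, a ≠ c → ∫ w in L d, g (a, b) (c, e) w = 0 := fun a b c e h => by
    have := (inv a a).1 a b c e
    simp [h.symm] at this
    linarith
  have o : Fin d := ⟨0, by omega⟩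
  have z1 : ∀ a b, ∫ w in L d, g (a, b) (a, b) w = ∫ w in L d, g (o, b) (o, b) w := fun a b => by
    simpa using (inv a o).2 o b o b
  have iso := iso_sum volume (L_cpt d) g g_cts (∫ w in L d, g (o, o) (o, o) w)
    (fun ⟨a, b⟩ ⟨c, e⟩ h => by
      by_cases h1 : a = c
      · rw [tr, z0 _ _ _ _ fun h2 => h (Prod.ext h1 h2)]
      · exact z0 _ _ _ _ h1) fun ⟨a, b⟩ => by rw [z1, tr, z1]
  refine ⟨_, ?_, iso⟩
  have h1 := iso fun z z' => if z = z' then 1 else 0
  have d2 : (2 : ℝ) ≤ d := by exact_mod_cast hd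
  have cs : Continuous fun w : E d => ∑ a, w a ⬝ᵥ w a := by fun_prop
  have h2 : ∫ w in L d, (5 / 9 * d ^ 2 - 53 / 75 * d * ∑ a, w a ⬝ᵥ w a) ≤
      ∫ w in L d, ∑ z, ∑ z', (if z = z' then 1 else 0) * g z z' w :=
    integral_mono (ci (by fun_prop)) (ci (by have := @g_cts d; fun_prop)) fun w => by
      have e : ∑ b, tp d w b ⬝ᵥ tp d w b = ∑ a, w a ⬝ᵥ w a := Finset.sum_comm
      simp only [ite_mul, one_mul, zero_mul, Finset.sum_ite_eq, Finset.mem_univ, if_true, g,
        Fintype.sum_prod_type, A_eq, Finset.sum_sub_distrib, ← Finset.mul_sum, ← Finset.sum_mul,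
        e, Finset.sum_const, Finset.card_univ, Fintype.card_fin, nsmul_eq_mul, mul_one]
      show _ ≤ _ - d / 25 * ∑ a, w a ⬝ᵥ w a
      nlinarith [sq_nonneg (∑ a, w a ⬝ᵥ w a - 2 / 3 * d)]
  rw [h1, integral_sub (ci continuous_const) (ci (by fun_prop)), integral_const_mul (_ * _),
    setIntegral_const, smul_eq_mul] at h2
  simp only [if_true, Finset.sum_const, Finset.card_univ, Fintype.card_prod, Fintype.card_fin,
    nsmul_eq_mul, mul_one, Nat.cast_mul] at h2
  have h3 := mul_le_mul_of_nonneg_left (hs_le hd) (show (0 : ℝ) ≤ d by positivity)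
  refine le_of_mul_le_mul_left ?_ (show (0 : ℝ) < d * d by positivity)
  have : 0 ≤ d * d * volume.real (L d) := by positivity
  nlinarith

lemma phi_eq (u w : E d) : ∑ z, ∑ z', u z.1 z.2 * u z'.1 z'.2 * g z z' w =
    ip u (of.symm (A w * of u * A (tp d w))) - d / 25 * ip u w ^ 2 := by
  simp only [g, mul_sub, Finset.sum_sub_distrib, ip_eq, sq, Finset.mul_sum,
    of_symm_apply, mul_apply, Finset.sum_mul, of_apply]
  refine congrArg₂ _ (Finset.sum_congr rfl fun z _ => ?_)
    (Finset.sum_congr rfl fun z _ => Finset.sum_congr rfl fun z' _ => by ring)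
  rw [Fintype.sum_prod_type, Finset.sum_comm]
  exact Finset.sum_congr rfl fun z _ => Finset.sum_congr rfl fun z' _ => by ring

lemma F_le {u w : E d} (hu : ip u u = 1) (h : w ∈ L d) :
    ip u (of.symm (A w * of u * A (tp d w))) ≤ 1 := by
  have q : ∀ w ∈ L d, ∀ x, A w *ᵥ x ⬝ᵥ A w *ᵥ x ≤ x ⬝ᵥ x := fun w h x => by
    linarith [A_q h x, dsq ((of w)ᵀ *ᵥ x)]
  rw [ip_eq, Fintype.sum_prod_type] at hu
  have h1 : ∑ b, A w *ᵥ tp d u b ⬝ᵥ A w *ᵥ tp d u b ≤ 1 :=
    (Finset.sum_le_sum fun b _ => q w h _).trans_eq (Finset.sum_comm.trans hu)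
  have h2 : ∑ a, A (tp d w) *ᵥ u a ⬝ᵥ A (tp d w) *ᵥ u a ≤ 1 :=
    (Finset.sum_le_sum fun b _ => q _ (tp_mem h) _).trans_eq hu
  have h3 := Finset.sum_le_sum fun a (_ : a ∈ Finset.univ) =>
    dot2 (fun b => (A w *ᵥ tp d u b) a) (A (tp d w) *ᵥ u a)
  rw [Finset.sum_add_distrib, ← Finset.mul_sum] at h3
  have h4 : ∑ a, (fun b => (A w *ᵥ tp d u b) a) ⬝ᵥ (fun b => (A w *ᵥ tp d u b) a) =
    ∑ b, A w *ᵥ tp d u b ⬝ᵥ A w *ᵥ tp d u b := Finset.sum_comm
  have e : ip u (of.symm (A w * of u * A (tp d w))) =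
      ∑ a, (fun b => (A w *ᵥ tp d u b) a) ⬝ᵥ A (tp d w) *ᵥ u a := by
    have e1 : ip u (of.symm (A w * of u * A (tp d w))) =
        trace (A w * of u * A (tp d w) * (of u)ᵀ) := by
      simp [ip_eq, Fintype.sum_prod_type, trace, mul_apply (N := (of u)ᵀ), mul_comm]
    rw [e1, mul_assoc, trace]
    refine Finset.sum_congr rfl fun a _ => ?_
    rfl
  linarith

lemma main {k : ℕ} (hk : 2 ≤ k) (hd : d = k ^ 2) {u : E d} (hu : ip u u = 1) {Z : Set (E d)}
    (hZ : ∀ p ∈ L d, ∀ q ∈ L d, ip u p = ip u q → (1 / 2 : ℝ) • (p - q) + ip u p • u ∈ Z) :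
    ENNReal.ofReal (k / 9000) * volume (L d) ≤ volume Z := by
  have k2 : (2 : ℝ) ≤ k := by exact_mod_cast hk
  have dk : (d : ℝ) = k ^ 2 := by rw [hd]; push_cast; rfl
  have cf := (ip u).continuous_of_finiteDimensional
  set G := (fun z : E d × E d => (1 / 2 : ℝ) • (z.1 + z.2)) ''
    (L d ×ˢ L d ∩ {z | 1 / 30 ≤ ip u z.1 - ip u z.2}) with hG
  have cG : IsCompact G := (((L_cpt d).prod (L_cpt d)).inter_right
    (isClosed_le continuous_const (by fun_prop))).image (by fun_prop)
  have hs := slice volume (ip u) hu (Z := Z) cG.measurableSet (c := 1 / 60) (R := 5 / k) (by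
    rintro _ ⟨⟨p, q⟩, ⟨⟨hp, hq⟩, h⟩, rfl⟩ _ ⟨⟨p', q'⟩, ⟨⟨hp', hq'⟩, h'⟩, rfl⟩
    refine ⟨((1 / 2 : ℝ) • p + (-1 / 2 : ℝ) • q', (1 / 2 : ℝ) • q + (-1 / 2 : ℝ) • p'),
      ⟨⟨comb hp hq' (by norm_num [abs_of_pos, abs_div]),
        comb hq hp' (by norm_num [abs_of_pos, abs_div])⟩, ?_⟩, by module⟩
    simp only [mem_ofPred_eq, map_add, map_smul, smul_eq_mul] at h h' ⊢
    linarith) (by
    rintro _ ⟨⟨p, q⟩, ⟨⟨hp, hq⟩, h⟩, rfl⟩ h0 s hs
    simp only [mem_ofPred_eq, map_add, map_smul, smul_eq_mul] at h h0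
    set θ := 2 * s / (ip u p - ip u q) with hθ
    have t1 : |θ| ≤ 1 := by
      rw [hθ, abs_div, abs_mul, abs_two, abs_of_pos (show 0 < ip u p - ip u q by linarith),
        div_le_one (by linarith)]
      linarith
    have t2 : θ * (ip u p - ip u q) = 2 * s := div_mul_cancel₀ _ (by linarith)
    rw [abs_le] at t1
    have a1 : |(1 + θ) / 2| = (1 + θ) / 2 := abs_of_nonneg (by linarith [t1.1])
    have a2 : |(1 - θ) / 2| = (1 - θ) / 2 := abs_of_nonneg (by linarith [t1.2])
    have e : ip u (((1 + θ) / 2) • p + ((1 - θ) / 2) • q) = s := by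
      simp only [map_add, map_smul, smul_eq_mul]; linarith
    have := hZ _ (comb hp hq (a := (1 + θ) / 2) (b := (1 - θ) / 2) (by linarith)) _
      (comb hp hq (a := -((1 - θ) / 2)) (b := -((1 + θ) / 2)) (by
        rw [abs_neg, abs_neg]; linarith)) (by
        rw [e]; simp only [map_add, map_smul, smul_eq_mul]; linarith)
    rw [e] at this
    convert this using 2
    module)
  obtain ⟨j, hj, iso⟩ := g_mom (d := d) (by nlinarith)
  set φ : E d → ℝ := fun w => ∑ z, ∑ z', u z.1 z.2 * u z'.1 z'.2 * g z z' w with hφ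
  have cφ : Continuous φ := by have := @g_cts d; fun_prop
  have h1 : ∫ w in L d, φ w = j := by rw [iso, ← ip_eq, hu, one_mul]
  have φ1 : ∀ w ∈ L d, φ w + d / 25 * ip u w ^ 2 ≤ 1 := fun w hw => by
    simp only [hφ, phi_eq]; linarith [F_le hu hw]
  have h2 := mul_meas_ge_le_integral_of_nonneg (μ := volume.restrict (L d))
    (f := fun w => 1 - φ w) ((ae_restrict_iff' (L_cpt d).measurableSet).2
      (Filter.Eventually.of_forall fun w hw => by
        have : 0 ≤ d / 25 * ip u w ^ 2 := by positivity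
        show 0 ≤ 1 - φ w
        linarith [φ1 w hw])) (ci (by fun_prop)) (29 / 30)
  rw [measureReal_restrict_apply (isClosed_le continuous_const (by fun_prop)).measurableSet,
    integral_sub (ci continuous_const) (ci cφ), h1, setIntegral_const, smul_eq_mul] at h2
  have f1 := (L_cpt d).measure_lt_top (μ := volume)
  have f2 := (measure_mono (inter_subset_left (t := {x | |ip u x| ≤ 5 / k}))).trans_lt
    (cG.measure_lt_top (μ := volume))
  have h3 : volume.real (L d) ≤ volume.real ({w | 29 / 30 ≤ 1 - φ w} ∩ L d) +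
      volume.real (G ∩ {x | |ip u x| ≤ 5 / k}) := by
    refine le_trans (measureReal_mono (fun w hw => ?_) (measure_union_ne_top
      (measure_ne_top_of_subset inter_subset_right f1.ne) f2.ne)) (measureReal_union_le _ _)
    by_cases h : 29 / 30 ≤ 1 - φ w
    · exact Or.inl ⟨h, hw⟩
    have uL : u ∈ L d := hs_mem hu.le
    have p0 : 0 ≤ d / 25 * ip u w ^ 2 := by positivity
    refine Or.inr ⟨⟨(_, _), ⟨⟨mac hw uL, mac hw (u := -u) (by
      simpa using comb uL uL (a := -1) (b := 0) (by simp))⟩, ?_⟩, ?_⟩, ?_⟩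
    · have e : of.symm (A w * of (-u) * A (tp d w)) = -of.symm (A w * of u * A (tp d w)) := by
        rw [show of (-u) = -of u from rfl, mul_neg, neg_mul]; rfl
      simp only [hφ, phi_eq] at h
      simp only [mem_ofPred_eq, e, map_add, map_smul, map_neg, smul_eq_mul]
      linarith
    · have e : of.symm (A w * of (-u) * A (tp d w)) = -of.symm (A w * of u * A (tp d w)) := by
        rw [show of (-u) = -of u from rfl, mul_neg, neg_mul]; rfl
      simp only [e]; module
    · show |ip u w| ≤ 5 / k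
      rw [le_div_iff₀ (by linarith), ← abs_of_pos (show (0 : ℝ) < k by linarith), ← abs_mul]
      have := φ1 w hw
      rw [dk] at this
      exact abs_le_of_sq_le_sq' (by nlinarith) (by norm_num) |> abs_le.2
  have h4 : volume (L d) ≤ 30 * volume (G ∩ {x | |ip u x| ≤ 5 / k}) := by
    rw [← ENNReal.toReal_le_toReal f1.ne (ENNReal.mul_ne_top ENNReal.ofNat_ne_top f2.ne),
      ENNReal.toReal_mul, ENNReal.toReal_ofNat]
    have : 0 ≤ volume.real (L d) := measureReal_nonneg
    simp only [Measure.real] at h2 h3 hj this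
    linarith
  calc _ ≤ ENNReal.ofReal (k / 9000) * (30 * volume (G ∩ {x | |ip u x| ≤ 5 / k})) := by gcongr
    _ = ENNReal.ofReal (k / 5) * (ENNReal.ofReal (1 / 60) *
        volume (G ∩ {x | |ip u x| ≤ 5 / k})) := by
      rw [← mul_assoc, ← mul_assoc, ← ENNReal.ofReal_ofNat, ← ENNReal.ofReal_mul (by positivity),
        ← ENNReal.ofReal_mul (by positivity)]
      congr 2; ring
    _ ≤ ENNReal.ofReal (k / 5) * (ENNReal.ofReal (5 / k) * volume Z) := by gcongr
    _ = _ := by
      rw [← mul_assoc, ← ENNReal.ofReal_mul (by positivity),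
        show (k / 5 * (5 / k) : ℝ) = 1 by field_simp]
      simp

end Pool.Agent.H20.St
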