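import Mathlib

set_option autoImplicit false

namespace Pool.Agent.H20.Sts

open Finset

section Abstract

variable {G : Type} [AddCommGroup G] [Fintype G] [DecidableEq G] {I : Type}

/-- a difference family with block size three, with the short orbit generated by `w`. -/
structure DF (o : I → Fin 3 → G) (w : G) : Prop where
  inj : ∀ i j a b c d, a ≠ b → c ≠ d → o i b - o i a = o j d - o j c → i = j ∧ a = c ∧ b = d
  nz : ∀ i a b, a ≠ b → o i b - o i a ≠ 0
  nw : ∀ i a b, a ≠ b → o i b - o i a ≠ w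
  cover : ∀ d, d ≠ 0 → d = w ∨ d = -w ∨ ∃ i a b, a ≠ b ∧ d = o i b - o i a
  w3 : w + w + w = 0

open Classical in
noncomputable def sys (o : I → Fin 3 → G) (w : G) : Finset (Finset G) :=
  univ.filter fun B => (∃ i x, B = univ.image fun a => x + o i a) ∨
    (w ≠ 0 ∧ ∃ x, B = {x, x + w, x - w})

lemma mem_sys {o : I → Fin 3 → G} {w : G} {B : Finset G} : B ∈ sys o w ↔
    (∃ i x, B = univ.image fun a => x + o i a) ∨ (w ≠ 0 ∧ ∃ x, B = {x, x + w, x - w}) := by
  simp [sys]

lemma sys_shift {o : I → Fin 3 → G} {w : G} (c : G) {B : Finset G} (h : B ∈ sys o w) :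
    B.image (fun x => x + c) ∈ sys o w := by
  rw [mem_sys] at h ⊢
  rcases h with ⟨i, x, rfl⟩ | ⟨hw, x, rfl⟩
  · refine Or.inl ⟨i, x + c, ?_⟩
    rw [image_image]
    congr 1
    funext a
    simp only [Function.comp]
    abel
  · refine Or.inr ⟨hw, x + c, ?_⟩
    simp only [image_insert, image_singleton]
    congr 1
    congr 1
    · abel
    · congr 1; abel

lemma sys_card {o : I → Fin 3 → G} {w : G} (D : DF o w) {B : Finset G} (h : B ∈ sys o w) :
    B.card = 3 := by
  rw [mem_sys] at h
  rcases h with ⟨i, x, rfl⟩ | ⟨hw, x, rfl⟩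
  · rw [card_image_of_injective]
    · simp
    · intro a b hab
      by_contra hne
      exact D.nz i a b hne (by simp only [add_right_inj] at hab; rw [hab, sub_self])
  · refine card_eq_three.2 ⟨x, x + w, x - w, by simpa using hw, ?_, ?_, rfl⟩
    · intro h
      apply hw
      have : w = x - (x - w) := by abel
      rw [this, ← h, sub_self]
    · intro h
      apply hw
      have h1 : w + w = (x + w) - (x - w) := by abel
      have h2 := D.w3
      rw [h1, h, sub_self, zero_add] at h2
      exact h2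

omit [Fintype G] in
lemma short_eq {w : G} (h3 : w + w + w = 0) {x y : G} (hy : y ∈ ({x, x + w, x - w} : Finset G)) :
    ({x, x + w, x - w} : Finset G) = {y, y + w, y - w} := by
  simp only [mem_insert, mem_singleton] at hy
  have e1 : x + w + w = x - w := by
    have : x + w + w = x - w + (w + w + w) := by abel
    rw [this, h3, add_zero]
  have e2 : x - w - w = x + w := by
    have : x + w = x - w - w + (w + w + w) := by abel
    rw [this, h3, add_zero]
  rcases hy with rfl | rfl | rfl
  · rfl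
  · rw [e1, add_sub_cancel_right]
    ext z; simp only [mem_insert, mem_singleton]; tauto
  · rw [e2, sub_add_cancel]
    ext z; simp only [mem_insert, mem_singleton]; tauto

lemma sys_unique {o : I → Fin 3 → G} {w : G} (D : DF o w) (x y : G) (hxy : x ≠ y) :
    ∃! B : Finset G, B ∈ sys o w ∧ x ∈ B ∧ y ∈ B := by
  have hd : y - x ≠ 0 := sub_ne_zero.2 hxy.symm
  have long : ∀ i u, x ∈ (univ.image fun a => u + o i a) → y ∈ (univ.image fun a => u + o i a) →
      ∃ a b, a ≠ b ∧ y - x = o i b - o i a ∧ x = u + o i a := by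
    intro i u hx hy
    obtain ⟨a, -, ha⟩ := mem_image.1 hx
    obtain ⟨b, -, hb⟩ := mem_image.1 hy
    refine ⟨a, b, fun h => hxy (by rw [← ha, ← hb, h]), by rw [← ha, ← hb]; abel, ha.symm⟩
  have short : ∀ u, x ∈ ({u, u + w, u - w} : Finset G) → y ∈ ({u, u + w, u - w} : Finset G) →
      y - x = w ∨ y - x = -w := by
    intro u hx hy
    rw [short_eq D.w3 hx] at hy
    simp only [mem_insert, mem_singleton] at hy
    rcases hy with h | h | h
    · exact absurd h.symm hxy
    · left; rw [h]; abel
    · right; rw [h]; abel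
  have mixed : ∀ i a b, a ≠ b → y - x = o i b - o i a → ¬ (y - x = w ∨ y - x = -w) := by
    rintro i a b hab h (h1 | h1)
    · exact D.nw i a b hab (h ▸ h1)
    · refine D.nw i b a hab.symm ?_
      rw [← neg_sub, ← h, h1, neg_neg]
  apply existsUnique_of_exists_of_unique
  · rcases D.cover _ hd with h | h | ⟨i, a, b, hab, h⟩
    · refine ⟨{x, x + w, x - w}, mem_sys.2 (Or.inr ⟨h ▸ hd, x, rfl⟩), by simp, ?_⟩
      have : y = x + w := by rw [← h]; abel
      simp [this]
    · refine ⟨{x, x + w, x - w}, mem_sys.2 (Or.inr ⟨fun h0 => hd (by rw [h, h0, neg_zero]), x, rfl⟩),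
        by simp, ?_⟩
      have : y = x - w := by rw [sub_eq_add_neg, ← h]; abel
      simp [this]
    · refine ⟨univ.image fun c => (x - o i a) + o i c, mem_sys.2 (Or.inl ⟨i, _, rfl⟩),
        mem_image.2 ⟨a, mem_univ _, by abel⟩, mem_image.2 ⟨b, mem_univ _, ?_⟩⟩
      have : y = x + (y - x) := by abel
      rw [this, h]; abel
  · rintro B B' ⟨hB, hx, hy⟩ ⟨hB', hx', hy'⟩
    rw [mem_sys] at hB hB'
    rcases hB with ⟨i, u, rfl⟩ | ⟨hw, u, rfl⟩ <;> rcases hB' with ⟨j, v, rfl⟩ | ⟨hw', v, rfl⟩
    · obtain ⟨a, b, hab, h1, h2⟩ := long i u hx hy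
      obtain ⟨c, d, hcd, h3, h4⟩ := long j v hx' hy'
      obtain ⟨rfl, rfl, rfl⟩ := D.inj i j a b c d hab hcd (h1 ▸ h3)
      have : u = v := add_right_cancel (h2.symm.trans h4)
      rw [this]
    · obtain ⟨a, b, hab, h1, -⟩ := long i u hx hy
      exact absurd (short v hx' hy') (mixed i a b hab h1)
    · obtain ⟨a, b, hab, h1, -⟩ := long j v hx' hy'
      exact absurd (short u hx hy) (mixed j a b hab h1)
    · rw [short_eq D.w3 hx, short_eq D.w3 hx']

/-- changing the signs of some base blocks. -/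
def flip (o : I → Fin 3 → G) (ε : I → Bool) (i : I) (a : Fin 3) : G :=
  if ε i then o i a else -o i a

omit [Fintype G] [DecidableEq G] in
lemma DF.flip {o : I → Fin 3 → G} {w : G} (D : DF o w) (ε : I → Bool) : DF (flip o ε) w := by
  have key : ∀ i a b, Sts.flip o ε i b - Sts.flip o ε i a =
      if ε i then o i b - o i a else o i a - o i b := by
    intro i a b
    unfold Sts.flip
    split_ifs
    · rfl
    · abel
  refine ⟨?_, ?_, ?_, ?_, D.w3⟩
  · intro i j a b c d hab hcd h
    rw [key, key] at h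
    split_ifs at h with h1 h2 h2
    · exact D.inj i j a b c d hab hcd h
    · obtain ⟨rfl, -⟩ := D.inj i j a b d c hab hcd.symm h
      exact absurd h1 h2
    · obtain ⟨rfl, -⟩ := D.inj i j b a c d hab.symm hcd h
      exact absurd h2 h1
    · obtain ⟨h3, h4, h5⟩ := D.inj i j b a d c hab.symm hcd.symm h
      exact ⟨h3, h5, h4⟩
  · intro i a b hab
    rw [key]
    split_ifs
    exacts [D.nz i a b hab, D.nz i b a hab.symm]
  · intro i a b hab
    rw [key]
    split_ifs
    exacts [D.nw i a b hab, D.nw i b a hab.symm]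
  · intro d hd
    rcases D.cover d hd with h | h | ⟨i, a, b, hab, h⟩
    · exact Or.inl h
    · exact Or.inr (Or.inl h)
    · refine Or.inr (Or.inr ?_)
      by_cases h1 : ε i
      · exact ⟨i, a, b, hab, by rw [key, if_pos h1, h]⟩
      · exact ⟨i, b, a, hab.symm, by rw [key, if_neg h1, h]⟩

lemma flip_ne {o : I → Fin 3 → G} {w : G} (D : DF o w) {ε η : I → Bool} {i : I}
    (h1 : ε i = true) (h2 : η i = false) : sys (flip o ε) w ≠ sys (flip o η) w := by
  intro h
  have hne : o i 0 ≠ o i 1 := fun h0 => D.nz i 0 1 (by decide) (by rw [h0, sub_self])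
  have m1 : (univ.image fun a => (0 : G) + flip o ε i a) ∈ sys (flip o η) w :=
    h ▸ mem_sys.2 (Or.inl ⟨i, 0, rfl⟩)
  have m2 : (univ.image fun a => (o i 0 + o i 1) + flip o η i a) ∈ sys (flip o η) w :=
    mem_sys.2 (Or.inl ⟨i, _, rfl⟩)
  have e := (sys_unique (D.flip η) _ _ hne).unique
    ⟨m1, mem_image.2 ⟨0, mem_univ _, by simp [flip, h1]⟩,
      mem_image.2 ⟨1, mem_univ _, by simp [flip, h1]⟩⟩
    ⟨m2, mem_image.2 ⟨1, mem_univ _, by simp [flip, h2]⟩,
      mem_image.2 ⟨0, mem_univ _, by simp [flip, h2]⟩⟩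
  have m3 : o i 2 ∈ (univ.image fun a => (o i 0 + o i 1) + flip o η i a) :=
    e ▸ mem_image.2 ⟨2, mem_univ _, by simp [flip, h1]⟩
  obtain ⟨a, -, ha⟩ := mem_image.1 m3
  simp only [flip, h2, Bool.false_eq_true, if_false] at ha
  fin_cases a
  · refine D.nz i 1 2 (by decide) ?_
    rw [← ha]; simp
  · refine D.nz i 0 2 (by decide) ?_
    rw [← ha]; simp
  · have : o i 2 - o i 1 = o i 0 - o i 2 := by
      have h3 : o i 0 + o i 1 + -o i 2 = o i 2 := ha
      nth_rewrite 1 [← h3]
      abel
    have := (D.inj i i 1 2 2 0 (by decide) (by decide) this).2.1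
    exact absurd this (by decide)

lemma flip_inj {o : I → Fin 3 → G} {w : G} (D : DF o w) :
    Function.Injective fun ε : I → Bool => sys (flip o ε) w := by
  intro ε η h
  funext i
  by_contra hne
  cases h1 : ε i <;> cases h2 : η i
  · exact hne (h1.trans h2.symm)
  · exact flip_ne D h2 h1 h.symm
  · exact flip_ne D h1 h2 h
  · exact hne (h1.trans h2.symm)

end Abstract

section Count

variable {α : Type}

def Iso (σ : Equiv.Perm α) (S T : Finset (Finset α)) : Prop :=
  ∀ b : Finset α, b ∈ S ↔ b.map σ.toEmbedding ∈ T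

lemma Iso.trans {σ ρ : Equiv.Perm α} {S T U : Finset (Finset α)} (h : Iso σ S T) (h' : Iso ρ T U) :
    Iso (σ.trans ρ) S U := fun b => by
  rw [h b, h' _, Finset.map_map]; rfl

lemma map_symm_map (σ : Equiv.Perm α) (b : Finset α) :
    (b.map σ.symm.toEmbedding).map σ.toEmbedding = b := by
  ext x; simp

lemma Iso.symm {σ : Equiv.Perm α} {S T : Finset (Finset α)} (h : Iso σ S T) :
    Iso σ.symm T S := fun b => by
  rw [h _, map_symm_map]

lemma Iso.unique {σ : Equiv.Perm α} {S T U : Finset (Finset α)} (h : Iso σ S T) (h' : Iso σ S U) :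
    T = U := by
  ext b
  rw [h.symm b, h'.symm b]

open Classical in
lemma class_le {n : ℕ} [NeZero n] (S : Finset (Finset (ZMod n)))
    (C : Finset (Finset (Finset (ZMod n)))) (hC : ∀ T ∈ C, ∃ σ, Iso σ S T)
    (hcyc : ∀ T ∈ C, Iso (Equiv.addRight 1) T T) : C.card ≤ n := by
  choose! s hs using hC
  let A : Finset (Equiv.Perm (ZMod n)) := univ.filter fun σ => Iso σ S S
  have hA : 0 < A.card := card_pos.2 ⟨Equiv.refl _, by
    simp only [A, mem_filter, mem_univ, true_and]
    intro b; simp⟩
  let φ : Finset (Finset (ZMod n)) × Equiv.Perm (ZMod n) → Equiv.Perm (ZMod n) × ZMod n :=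
    fun x => (((x.2.trans (s x.1)).trans (Equiv.addRight 1)).trans (x.2.trans (s x.1)).symm,
      (x.2.trans (s x.1)).symm 0)
  have h1 : (C ×ˢ A).card ≤ (A ×ˢ (univ : Finset (ZMod n))).card := by
    refine card_le_card_of_injOn φ ?_ ?_
    · rintro ⟨T, a⟩ hx
      obtain ⟨hT, ha⟩ := mem_product.1 (mem_coe.1 hx)
      have ha' : Iso a S S := (mem_filter.1 ha).2
      have h2 := ha'.trans (hs T hT)
      exact mem_coe.2 (mem_product.2 ⟨mem_filter.2 ⟨mem_univ _,
        (h2.trans (hcyc T hT)).trans h2.symm⟩, mem_univ _⟩)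
    · rintro ⟨T, a⟩ hx ⟨U, c⟩ hy h
      obtain ⟨hT, ha⟩ := mem_product.1 (mem_coe.1 hx)
      obtain ⟨hU, hc⟩ := mem_product.1 (mem_coe.1 hy)
      have h2 := (mem_filter.1 ha).2.trans (hs T hT)
      have h3 := (mem_filter.1 hc).2.trans (hs U hU)
      simp only [φ, Prod.mk.injEq] at h h2 h3
      obtain ⟨e1, e2⟩ := h
      generalize hσ : a.trans (s T) = σ at e1 e2 h2
      generalize hρ : c.trans (s U) = ρ at e1 e2 h3
      have key : ∀ m : ℕ, σ.symm (m : ZMod n) = ρ.symm (m : ZMod n) := by
        intro m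
        induction m with
        | zero => simpa using e2
        | succ m ih =>
          have := congrArg (fun f : Equiv.Perm (ZMod n) => f (σ.symm (m : ZMod n))) e1
          simp only [Equiv.trans_apply, Equiv.apply_symm_apply, Equiv.coe_addRight] at this
          rw [ih, Equiv.apply_symm_apply] at this
          push_cast
          exact this
      have e3 : σ = ρ := by
        have : σ.symm = ρ.symm := Equiv.ext fun x => by
          have := key x.val
          rwa [ZMod.natCast_zmod_val] at this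
        simpa using congrArg Equiv.symm this
      subst e3
      have e4 : T = U := h2.unique h3
      subst e4
      have e5 : a = c := by
        ext x
        have := congrArg (fun f : Equiv.Perm (ZMod n) => f x) (hσ.trans hρ.symm)
        simpa using this
      rw [e5]
  rw [card_product, card_product, card_univ, ZMod.card, mul_comm] at h1
  exact Nat.le_of_mul_le_mul_left h1 hA

lemma greedy {β : Type} (R : β → β → Prop) [∀ x, DecidablePred (R x)] (hR : ∀ x y, R x y → R y x) {n : ℕ} (hn : 0 < n) :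
    ∀ (M : ℕ) (T : Finset β), (∀ x ∈ T, (T.filter (R x)).card ≤ n) → M * n ≤ T.card →
      ∃ f : Fin M → β, (∀ i, f i ∈ T) ∧ ∀ i j, i ≠ j → ¬ R (f i) (f j) := by
  intro M
  induction M with
  | zero => exact fun T _ _ => ⟨Fin.elim0, fun i => i.elim0, fun i => i.elim0⟩
  | succ M ih =>
    intro T hT hM
    obtain ⟨x, hx⟩ : T.Nonempty := card_pos.1 (by nlinarith)
    obtain ⟨f, hf, hf'⟩ := ih (T.filter fun y => ¬ R x y) (fun y hy =>
      le_trans (card_le_card (filter_subset_filter _ (filter_subset _ _)))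
        (hT y (mem_filter.1 hy).1)) (by
      have h1 := card_filter_add_card_filter_not (s := T) (R x)
      have h2 := hT x hx
      nlinarith)
    refine ⟨Fin.cons x f, ?_, ?_⟩
    · intro i
      refine Fin.cases ?_ (fun i => ?_) i
      · simpa using hx
      · simpa using (mem_filter.1 (hf i)).1
    · intro i j
      refine Fin.cases ?_ (fun i => ?_) i <;> refine Fin.cases ?_ (fun j => ?_) j
      · simp
      · intro _; simpa using (mem_filter.1 (hf j)).2
      · intro _ h
        exact (mem_filter.1 (hf i)).2 (hR _ _ (by simpa using h))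
      · intro h
        simpa using hf' i j (fun e => h (by rw [e]))

end Count

theorem many {n k : ℕ} [NeZero n] {o : Fin k → Fin 3 → ZMod n} {w : ZMod n} (D : DF o w) {M : ℕ}
    (hM : M * n ≤ 2 ^ k) :
    ∃ B : Fin M → Finset (Finset (ZMod n)),
      (∀ i, (∀ b ∈ B i, b.card = 3) ∧
        (∀ x y : ZMod n, x ≠ y → ∃! b : Finset (ZMod n), b ∈ B i ∧ x ∈ b ∧ y ∈ b) ∧
        (∀ b ∈ B i, b.image (fun x => x + 1) ∈ B i)) ∧
      (∀ i j, i ≠ j → ¬ ∃ σ : Equiv.Perm (ZMod n),
        ∀ b : Finset (ZMod n), b ∈ B i ↔ b.map σ.toEmbedding ∈ B j) := by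
  classical
  let T : Finset (Finset (Finset (ZMod n))) := univ.image fun ε : Fin k → Bool => sys (flip o ε) w
  have hT : T.card = 2 ^ k := by
    rw [card_image_of_injective _ (flip_inj D)]; simp
  obtain ⟨f, hf, hf'⟩ := greedy (fun S U : Finset (Finset (ZMod n)) => ∃ σ, Iso σ S U)
    (fun _ _ ⟨σ, h⟩ => ⟨σ.symm, h.symm⟩) (NeZero.pos n) M T (fun S _ => by
      refine class_le S _ (fun U hU => (mem_filter.1 hU).2) fun U hU => ?_
      obtain ⟨ε, -, rfl⟩ := mem_image.1 (mem_filter.1 hU).1
      intro b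
      have e : b.map (Equiv.addRight (1 : ZMod n)).toEmbedding = b.image fun x => x + 1 := by
        rw [map_eq_image]; rfl
      rw [e]
      refine ⟨sys_shift 1, fun h => ?_⟩
      have := sys_shift (-1) h
      rw [image_image] at this
      have e2 : ((fun x : ZMod n => x + -1) ∘ fun x => x + 1) = id := by
        funext x; simp
      rwa [e2, image_id] at this) (by rw [hT]; exact hM)
  refine ⟨f, fun i => ?_, hf'⟩
  obtain ⟨ε, -, h⟩ := mem_image.1 (hf i)
  rw [← h]
  exact ⟨fun b hb => sys_card (D.flip ε) hb, sys_unique (D.flip ε), fun b hb => sys_shift 1 hb⟩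

end Pool.Agent.H20.Sts
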