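import Mathlib
import Pool.Agent.H20.Sts1

set_option autoImplicit false

namespace Pool.Agent.H20.Sts

/-- the pairs `(p i, p i + i)`, `1 ≤ i ≤ k`, give a solution of a Heffter difference problem
for the modulus `n`. -/
def SeqOK (k n : ℤ) (p : ℤ → ℤ) : Prop :=
  ∀ i j : ℤ, 1 ≤ i → i ≤ k → 1 ≤ j → j ≤ k →
    1 ≤ p i ∧ p i + i ≤ 2 * k + 2 ∧ p i ≠ p j + j ∧ (p i = p j → i = j) ∧
      (p i + i = p j + j → i = j) ∧ 2 * k + p i + i + p j + j ≠ n ∧ 2 * k + p i + i + p j ≠ n ∧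
      k + p i + i + j ≠ n ∧ 3 * (k + p i) ≠ n ∧ 3 * (k + p i + i) ≠ n

lemma mkSeq {k n : ℤ} {p : ℤ → ℤ} (U V W : ℤ)
    (hc : (n = 6 * k + 1 ∧ (U = 2 * k ∨ (U = 2 * k + 1 ∧ V = 2 * k))) ∨
      (n = 6 * k + 3 ∧ W = k + 1 ∧ (U = 2 * k + 1 ∨ (U = 2 * k + 2 ∧ V = 2 * k + 1))))
    (h1 : ∀ i, 1 ≤ i → i ≤ k → 1 ≤ p i ∧ p i + i ≤ U ∧ p i ≠ V ∧ p i + i ≠ V ∧ p i ≠ W ∧
      p i + i ≠ W)
    (h2 : ∀ i j, 1 ≤ i → i ≤ k → 1 ≤ j → j ≤ k → p i ≠ p j + j)
    (h3 : ∀ i j, 1 ≤ i → i < j → j ≤ k → p i ≠ p j ∧ p i + i ≠ p j + j) : SeqOK k n p := by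
  intro i j a1 a2 a3 a4
  obtain ⟨b1, b2, b3, b4, b5, b6⟩ := h1 i a1 a2
  obtain ⟨c1, c2, c3, c4, -, -⟩ := h1 j a3 a4
  refine ⟨b1, by clear b3 b4 b5 b6 c3 c4; omega, h2 i j a1 a2 a3 a4, fun h => ?_, fun h => ?_,
    by clear b3 b5 b6 c3; omega, by clear b3 b5 b6 c4; omega, by clear b3 b4 b5 b6 c3 c4; omega,
    by clear b3 b4 b6 c3 c4; omega, by clear b3 b4 b5 c3 c4; omega⟩
  · rcases lt_trichotomy i j with l | l | l
    exacts [absurd h (h3 i j a1 l a4).1, l, absurd h.symm (h3 j i a3 l a2).1]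
  · rcases lt_trichotomy i j with l | l | l
    exacts [absurd h (h3 i j a1 l a4).2, l, absurd h.symm (h3 j i a3 l a2).2]

lemma skolem0 (s : ℤ) (hs : 3 ≤ s) : ∃ p, SeqOK (4 * s + 0) (6 * (4 * s + 0) + 1) p := by
  obtain ⟨p, hp⟩ : ∃ p : ℤ → ℤ, p = fun i =>
    if i = 4 * s then 2 * s else
    if i = 4 * s - 1 then 4 * s else
    if i = 4 * s - 3 then 4 * s + 1 else
    if i = 2 * s - 1 then 6 * s + 1 else
    if i = 1 then 5 * s else
    if i % 2 = 0 then (4 * s - i) / 2 else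
    if 2 * s + 1 ≤ i then (12 * s - 1 - i) / 2 else (12 * s + 1 - i) / 2 := ⟨_, rfl⟩
  have key : ∀ i, 1 ≤ i → i ≤ 4 * s + 0 →
      (i = 4 * s ∧ p i = 2 * s) ∨
      (i = 4 * s - 1 ∧ p i = 4 * s) ∨
      (i = 4 * s - 3 ∧ p i = 4 * s + 1) ∨
      (i = 2 * s - 1 ∧ p i = 6 * s + 1) ∨
      (i = 1 ∧ p i = 5 * s) ∨
      (2 ≤ i ∧ i ≤ 4 * s - 2 ∧ 2 * p i + i = 4 * s) ∨
      (2 * s + 1 ≤ i ∧ i ≤ 4 * s - 5 ∧ 2 * p i + i = 12 * s - 1) ∨
      (3 ≤ i ∧ i ≤ 2 * s - 3 ∧ 2 * p i + i = 12 * s + 1) := by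
    intro i h1 h2
    have e := congrFun hp i
    split_ifs at e
    · refine Or.inl ?_
      omega
    · refine Or.inr (Or.inl ?_)
      omega
    · refine Or.inr (Or.inr (Or.inl ?_))
      omega
    · refine Or.inr (Or.inr (Or.inr (Or.inl ?_)))
      omega
    · refine Or.inr (Or.inr (Or.inr (Or.inr (Or.inl ?_))))
      omega
    · refine Or.inr (Or.inr (Or.inr (Or.inr (Or.inr (Or.inl ?_)))))
      omega
    · refine Or.inr (Or.inr (Or.inr (Or.inr (Or.inr (Or.inr (Or.inl ?_))))))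
      omega
    · refine Or.inr (Or.inr (Or.inr (Or.inr (Or.inr (Or.inr (Or.inr ?_))))))
      omega
  clear hp
  refine ⟨p, mkSeq (2 * (4 * s + 0)) (0) (0) (by omega) ?_ ?_ ?_⟩
  · intro i h1 h2
    have a := key i h1 h2
    clear key
    rcases a with h | h | h | h | h | h | h | h <;> omega
  · intro i j h1 h2 h3 h4
    have a := key i h1 h2
    have b := key j h3 h4
    clear key h1 h2 h3 h4
    rcases a with h | h | h | h | h | h | h | h <;> rcases b with h' | h' | h' | h' | h' | h' | h' | h' <;> omega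
  · intro i j h1 h2 h3
    have a := key i h1 (by omega)
    have b := key j (by omega) h3
    clear key h1 h3
    rcases a with h | h | h | h | h | h | h | h <;> rcases b with h' | h' | h' | h' | h' | h' | h' | h' <;> omega

lemma skolem1 (s : ℤ) (hs : 3 ≤ s) : ∃ p, SeqOK (4 * s + 1) (6 * (4 * s + 1) + 1) p := by
  obtain ⟨p, hp⟩ : ∃ p : ℤ → ℤ, p = fun i =>
    if i = 4 * s + 1 then 4 * s + 1 else
    if i = 4 * s then 4 * s else
    if i = 4 * s - 1 then 2 * s else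
    if i = 2 * s + 1 then 6 * s else
    if i = 1 then 7 * s else
    if i % 2 = 0 then (4 * s - i) / 2 else
    if 2 * s + 3 ≤ i then (12 * s + 1 - i) / 2 else (12 * s - 1 - i) / 2 := ⟨_, rfl⟩
  have key : ∀ i, 1 ≤ i → i ≤ 4 * s + 1 →
      (i = 4 * s + 1 ∧ p i = 4 * s + 1) ∨
      (i = 4 * s ∧ p i = 4 * s) ∨
      (i = 4 * s - 1 ∧ p i = 2 * s) ∨
      (i = 2 * s + 1 ∧ p i = 6 * s) ∨
      (i = 1 ∧ p i = 7 * s) ∨
      (2 ≤ i ∧ i ≤ 4 * s - 2 ∧ 2 * p i + i = 4 * s) ∨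
      (2 * s + 3 ≤ i ∧ i ≤ 4 * s - 3 ∧ 2 * p i + i = 12 * s + 1) ∨
      (3 ≤ i ∧ i ≤ 2 * s - 1 ∧ 2 * p i + i = 12 * s - 1) := by
    intro i h1 h2
    have e := congrFun hp i
    split_ifs at e
    · refine Or.inl ?_
      omega
    · refine Or.inr (Or.inl ?_)
      omega
    · refine Or.inr (Or.inr (Or.inl ?_))
      omega
    · refine Or.inr (Or.inr (Or.inr (Or.inl ?_)))
      omega
    · refine Or.inr (Or.inr (Or.inr (Or.inr (Or.inl ?_))))
      omega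
    · refine Or.inr (Or.inr (Or.inr (Or.inr (Or.inr (Or.inl ?_)))))
      omega
    · refine Or.inr (Or.inr (Or.inr (Or.inr (Or.inr (Or.inr (Or.inl ?_))))))
      omega
    · refine Or.inr (Or.inr (Or.inr (Or.inr (Or.inr (Or.inr (Or.inr ?_))))))
      omega
  clear hp
  refine ⟨p, mkSeq (2 * (4 * s + 1)) (0) (0) (by omega) ?_ ?_ ?_⟩
  · intro i h1 h2
    have a := key i h1 h2
    clear key
    rcases a with h | h | h | h | h | h | h | h <;> omega
  · intro i j h1 h2 h3 h4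
    have a := key i h1 h2
    have b := key j h3 h4
    clear key h1 h2 h3 h4
    rcases a with h | h | h | h | h | h | h | h <;> rcases b with h' | h' | h' | h' | h' | h' | h' | h' <;> omega
  · intro i j h1 h2 h3
    have a := key i h1 (by omega)
    have b := key j (by omega) h3
    clear key h1 h3
    rcases a with h | h | h | h | h | h | h | h <;> rcases b with h' | h' | h' | h' | h' | h' | h' | h' <;> omega

lemma hook2 (s : ℤ) (hs : 3 ≤ s) : ∃ p, SeqOK (4 * s + 2) (6 * (4 * s + 2) + 1) p := by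
  obtain ⟨p, hp⟩ : ∃ p : ℤ → ℤ, p = fun i =>
    if i = 4 * s + 2 then 2 * s + 1 else
    if i = 4 * s + 1 then 4 * s + 2 else
    if i = 4 * s - 1 then 4 * s + 3 else
    if i = 2 * s + 1 then 6 * s + 4 else
    if i = 1 then 5 * s + 2 else
    if i % 2 = 0 then (4 * s + 2 - i) / 2 else
    if 2 * s + 3 ≤ i then (12 * s + 5 - i) / 2 else (12 * s + 7 - i) / 2 := ⟨_, rfl⟩
  have key : ∀ i, 1 ≤ i → i ≤ 4 * s + 2 →
      (i = 4 * s + 2 ∧ p i = 2 * s + 1) ∨
      (i = 4 * s + 1 ∧ p i = 4 * s + 2) ∨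
      (i = 4 * s - 1 ∧ p i = 4 * s + 3) ∨
      (i = 2 * s + 1 ∧ p i = 6 * s + 4) ∨
      (i = 1 ∧ p i = 5 * s + 2) ∨
      (2 ≤ i ∧ i ≤ 4 * s ∧ 2 * p i + i = 4 * s + 2) ∨
      (2 * s + 3 ≤ i ∧ i ≤ 4 * s - 3 ∧ 2 * p i + i = 12 * s + 5) ∨
      (3 ≤ i ∧ i ≤ 2 * s - 1 ∧ 2 * p i + i = 12 * s + 7) := by
    intro i h1 h2
    have e := congrFun hp i
    split_ifs at e
    · refine Or.inl ?_
      omega
    · refine Or.inr (Or.inl ?_)
      omega
    · refine Or.inr (Or.inr (Or.inl ?_))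
      omega
    · refine Or.inr (Or.inr (Or.inr (Or.inl ?_)))
      omega
    · refine Or.inr (Or.inr (Or.inr (Or.inr (Or.inl ?_))))
      omega
    · refine Or.inr (Or.inr (Or.inr (Or.inr (Or.inr (Or.inl ?_)))))
      omega
    · refine Or.inr (Or.inr (Or.inr (Or.inr (Or.inr (Or.inr (Or.inl ?_))))))
      omega
    · refine Or.inr (Or.inr (Or.inr (Or.inr (Or.inr (Or.inr (Or.inr ?_))))))
      omega
  clear hp
  refine ⟨p, mkSeq (2 * (4 * s + 2) + 1) (2 * (4 * s + 2)) (0) (by omega) ?_ ?_ ?_⟩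
  · intro i h1 h2
    have a := key i h1 h2
    clear key
    rcases a with h | h | h | h | h | h | h | h <;> omega
  · intro i j h1 h2 h3 h4
    have a := key i h1 h2
    have b := key j h3 h4
    clear key h1 h2 h3 h4
    rcases a with h | h | h | h | h | h | h | h <;> rcases b with h' | h' | h' | h' | h' | h' | h' | h' <;> omega
  · intro i j h1 h2 h3
    have a := key i h1 (by omega)
    have b := key j (by omega) h3
    clear key h1 h3
    rcases a with h | h | h | h | h | h | h | h <;> rcases b with h' | h' | h' | h' | h' | h' | h' | h' <;> omega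

lemma hook3 (s : ℤ) (hs : 3 ≤ s) : ∃ p, SeqOK (4 * s + 3) (6 * (4 * s + 3) + 1) p := by
  obtain ⟨p, hp⟩ : ∃ p : ℤ → ℤ, p = fun i =>
    if i = 4 * s + 3 then 4 * s + 4 else
    if i = 4 * s + 2 then 1 else
    if i = 4 * s + 1 then 2 * s + 2 else
    if i = 2 * s + 1 then 6 * s + 4 else
    if i = 1 then 7 * s + 4 else
    if i % 2 = 0 then (4 * s + 4 - i) / 2 else
    if 2 * s + 3 ≤ i then (12 * s + 9 - i) / 2 else (12 * s + 7 - i) / 2 := ⟨_, rfl⟩
  have key : ∀ i, 1 ≤ i → i ≤ 4 * s + 3 →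
      (i = 4 * s + 3 ∧ p i = 4 * s + 4) ∨
      (i = 4 * s + 2 ∧ p i = 1) ∨
      (i = 4 * s + 1 ∧ p i = 2 * s + 2) ∨
      (i = 2 * s + 1 ∧ p i = 6 * s + 4) ∨
      (i = 1 ∧ p i = 7 * s + 4) ∨
      (2 ≤ i ∧ i ≤ 4 * s ∧ 2 * p i + i = 4 * s + 4) ∨
      (2 * s + 3 ≤ i ∧ i ≤ 4 * s - 1 ∧ 2 * p i + i = 12 * s + 9) ∨
      (3 ≤ i ∧ i ≤ 2 * s - 1 ∧ 2 * p i + i = 12 * s + 7) := by
    intro i h1 h2
    have e := congrFun hp i
    split_ifs at e
    · refine Or.inl ?_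
      omega
    · refine Or.inr (Or.inl ?_)
      omega
    · refine Or.inr (Or.inr (Or.inl ?_))
      omega
    · refine Or.inr (Or.inr (Or.inr (Or.inl ?_)))
      omega
    · refine Or.inr (Or.inr (Or.inr (Or.inr (Or.inl ?_))))
      omega
    · refine Or.inr (Or.inr (Or.inr (Or.inr (Or.inr (Or.inl ?_)))))
      omega
    · refine Or.inr (Or.inr (Or.inr (Or.inr (Or.inr (Or.inr (Or.inl ?_))))))
      omega
    · refine Or.inr (Or.inr (Or.inr (Or.inr (Or.inr (Or.inr (Or.inr ?_))))))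
      omega
  clear hp
  refine ⟨p, mkSeq (2 * (4 * s + 3) + 1) (2 * (4 * s + 3)) (0) (by omega) ?_ ?_ ?_⟩
  · intro i h1 h2
    have a := key i h1 h2
    clear key
    rcases a with h | h | h | h | h | h | h | h <;> omega
  · intro i j h1 h2 h3 h4
    have a := key i h1 h2
    have b := key j h3 h4
    clear key h1 h2 h3 h4
    rcases a with h | h | h | h | h | h | h | h <;> rcases b with h' | h' | h' | h' | h' | h' | h' | h' <;> omega
  · intro i j h1 h2 h3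
    have a := key i h1 (by omega)
    have b := key j (by omega) h3
    clear key h1 h3
    rcases a with h | h | h | h | h | h | h | h <;> rcases b with h' | h' | h' | h' | h' | h' | h' | h' <;> omega

lemma rosa0 (s : ℤ) (hs : 3 ≤ s) : ∃ p, SeqOK (4 * s + 0) (6 * (4 * s + 0) + 3) p := by
  obtain ⟨p, hp⟩ : ∃ p : ℤ → ℤ, p = fun i =>
    if i = 4 * s then 4 * s else
    if i = 4 * s - 1 then 2 * s else
    if i = 4 * s - 3 then 4 * s + 2 else
    if i = 2 * s + 1 then 6 * s else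
    if i = 1 then 7 * s else
    if i % 2 = 0 then (4 * s - i) / 2 else
    if 2 * s + 3 ≤ i then (12 * s + 1 - i) / 2 else (12 * s - 1 - i) / 2 := ⟨_, rfl⟩
  have key : ∀ i, 1 ≤ i → i ≤ 4 * s + 0 →
      (i = 4 * s ∧ p i = 4 * s) ∨
      (i = 4 * s - 1 ∧ p i = 2 * s) ∨
      (i = 4 * s - 3 ∧ p i = 4 * s + 2) ∨
      (i = 2 * s + 1 ∧ p i = 6 * s) ∨
      (i = 1 ∧ p i = 7 * s) ∨
      (2 ≤ i ∧ i ≤ 4 * s - 2 ∧ 2 * p i + i = 4 * s) ∨
      (2 * s + 3 ≤ i ∧ i ≤ 4 * s - 5 ∧ 2 * p i + i = 12 * s + 1) ∨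
      (3 ≤ i ∧ i ≤ 2 * s - 1 ∧ 2 * p i + i = 12 * s - 1) := by
    intro i h1 h2
    have e := congrFun hp i
    split_ifs at e
    · refine Or.inl ?_
      omega
    · refine Or.inr (Or.inl ?_)
      omega
    · refine Or.inr (Or.inr (Or.inl ?_))
      omega
    · refine Or.inr (Or.inr (Or.inr (Or.inl ?_)))
      omega
    · refine Or.inr (Or.inr (Or.inr (Or.inr (Or.inl ?_))))
      omega
    · refine Or.inr (Or.inr (Or.inr (Or.inr (Or.inr (Or.inl ?_)))))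
      omega
    · refine Or.inr (Or.inr (Or.inr (Or.inr (Or.inr (Or.inr (Or.inl ?_))))))
      omega
    · refine Or.inr (Or.inr (Or.inr (Or.inr (Or.inr (Or.inr (Or.inr ?_))))))
      omega
  clear hp
  refine ⟨p, mkSeq (2 * (4 * s + 0) + 1) (0) ((4 * s + 0) + 1) (by omega) ?_ ?_ ?_⟩
  · intro i h1 h2
    have a := key i h1 h2
    clear key
    rcases a with h | h | h | h | h | h | h | h <;> omega
  · intro i j h1 h2 h3 h4
    have a := key i h1 h2
    have b := key j h3 h4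
    clear key h1 h2 h3 h4
    rcases a with h | h | h | h | h | h | h | h <;> rcases b with h' | h' | h' | h' | h' | h' | h' | h' <;> omega
  · intro i j h1 h2 h3
    have a := key i h1 (by omega)
    have b := key j (by omega) h3
    clear key h1 h3
    rcases a with h | h | h | h | h | h | h | h <;> rcases b with h' | h' | h' | h' | h' | h' | h' | h' <;> omega

lemma rosa3 (s : ℤ) (hs : 3 ≤ s) : ∃ p, SeqOK (4 * s + 3) (6 * (4 * s + 3) + 3) p := by
  obtain ⟨p, hp⟩ : ∃ p : ℤ → ℤ, p = fun i =>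
    if i = 4 * s + 3 then 2 * s + 2 else
    if i = 4 * s + 2 then 1 else
    if i = 4 * s + 1 then 4 * s + 5 else
    if i = 2 * s + 3 then 6 * s + 4 else
    if i = 1 then 7 * s + 6 else
    if i % 2 = 0 then (4 * s + 4 - i) / 2 else
    if 2 * s + 5 ≤ i then (12 * s + 11 - i) / 2 else (12 * s + 9 - i) / 2 := ⟨_, rfl⟩
  have key : ∀ i, 1 ≤ i → i ≤ 4 * s + 3 →
      (i = 4 * s + 3 ∧ p i = 2 * s + 2) ∨
      (i = 4 * s + 2 ∧ p i = 1) ∨
      (i = 4 * s + 1 ∧ p i = 4 * s + 5) ∨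
      (i = 2 * s + 3 ∧ p i = 6 * s + 4) ∨
      (i = 1 ∧ p i = 7 * s + 6) ∨
      (2 ≤ i ∧ i ≤ 4 * s ∧ 2 * p i + i = 4 * s + 4) ∨
      (2 * s + 5 ≤ i ∧ i ≤ 4 * s - 1 ∧ 2 * p i + i = 12 * s + 11) ∨
      (3 ≤ i ∧ i ≤ 2 * s + 1 ∧ 2 * p i + i = 12 * s + 9) := by
    intro i h1 h2
    have e := congrFun hp i
    split_ifs at e
    · refine Or.inl ?_
      omega
    · refine Or.inr (Or.inl ?_)
      omega
    · refine Or.inr (Or.inr (Or.inl ?_))
      omega
    · refine Or.inr (Or.inr (Or.inr (Or.inl ?_)))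
      omega
    · refine Or.inr (Or.inr (Or.inr (Or.inr (Or.inl ?_))))
      omega
    · refine Or.inr (Or.inr (Or.inr (Or.inr (Or.inr (Or.inl ?_)))))
      omega
    · refine Or.inr (Or.inr (Or.inr (Or.inr (Or.inr (Or.inr (Or.inl ?_))))))
      omega
    · refine Or.inr (Or.inr (Or.inr (Or.inr (Or.inr (Or.inr (Or.inr ?_))))))
      omega
  clear hp
  refine ⟨p, mkSeq (2 * (4 * s + 3) + 1) (0) ((4 * s + 3) + 1) (by omega) ?_ ?_ ?_⟩
  · intro i h1 h2
    have a := key i h1 h2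
    clear key
    rcases a with h | h | h | h | h | h | h | h <;> omega
  · intro i j h1 h2 h3 h4
    have a := key i h1 h2
    have b := key j h3 h4
    clear key h1 h2 h3 h4
    rcases a with h | h | h | h | h | h | h | h <;> rcases b with h' | h' | h' | h' | h' | h' | h' | h' <;> omega
  · intro i j h1 h2 h3
    have a := key i h1 (by omega)
    have b := key j (by omega) h3
    clear key h1 h3
    rcases a with h | h | h | h | h | h | h | h <;> rcases b with h' | h' | h' | h' | h' | h' | h' | h' <;> omega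

lemma hrosa1 (s : ℤ) (hs : 3 ≤ s) : ∃ p, SeqOK (4 * s + 1) (6 * (4 * s + 1) + 3) p := by
  obtain ⟨p, hp⟩ : ∃ p : ℤ → ℤ, p = fun i =>
    if i = 4 * s + 1 then 2 * s + 1 else
    if i = 4 * s then 1 else
    if i = 4 * s - 1 then 4 * s + 3 else
    if i = 2 * s + 3 then 6 * s + 1 else
    if i = 1 then 7 * s + 3 else
    if i % 2 = 0 then (4 * s + 2 - i) / 2 else
    if 2 * s + 5 ≤ i then (12 * s + 5 - i) / 2 else (12 * s + 3 - i) / 2 := ⟨_, rfl⟩
  have key : ∀ i, 1 ≤ i → i ≤ 4 * s + 1 →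
      (i = 4 * s + 1 ∧ p i = 2 * s + 1) ∨
      (i = 4 * s ∧ p i = 1) ∨
      (i = 4 * s - 1 ∧ p i = 4 * s + 3) ∨
      (i = 2 * s + 3 ∧ p i = 6 * s + 1) ∨
      (i = 1 ∧ p i = 7 * s + 3) ∨
      (2 ≤ i ∧ i ≤ 4 * s - 2 ∧ 2 * p i + i = 4 * s + 2) ∨
      (2 * s + 5 ≤ i ∧ i ≤ 4 * s - 3 ∧ 2 * p i + i = 12 * s + 5) ∨
      (3 ≤ i ∧ i ≤ 2 * s + 1 ∧ 2 * p i + i = 12 * s + 3) := by
    intro i h1 h2
    have e := congrFun hp i
    split_ifs at e
    · refine Or.inl ?_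
      omega
    · refine Or.inr (Or.inl ?_)
      omega
    · refine Or.inr (Or.inr (Or.inl ?_))
      omega
    · refine Or.inr (Or.inr (Or.inr (Or.inl ?_)))
      omega
    · refine Or.inr (Or.inr (Or.inr (Or.inr (Or.inl ?_))))
      omega
    · refine Or.inr (Or.inr (Or.inr (Or.inr (Or.inr (Or.inl ?_)))))
      omega
    · refine Or.inr (Or.inr (Or.inr (Or.inr (Or.inr (Or.inr (Or.inl ?_))))))
      omega
    · refine Or.inr (Or.inr (Or.inr (Or.inr (Or.inr (Or.inr (Or.inr ?_))))))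
      omega
  clear hp
  refine ⟨p, mkSeq (2 * (4 * s + 1) + 2) (2 * (4 * s + 1) + 1) ((4 * s + 1) + 1) (by omega) ?_ ?_ ?_⟩
  · intro i h1 h2
    have a := key i h1 h2
    clear key
    rcases a with h | h | h | h | h | h | h | h <;> omega
  · intro i j h1 h2 h3 h4
    have a := key i h1 h2
    have b := key j h3 h4
    clear key h1 h2 h3 h4
    rcases a with h | h | h | h | h | h | h | h <;> rcases b with h' | h' | h' | h' | h' | h' | h' | h' <;> omega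
  · intro i j h1 h2 h3
    have a := key i h1 (by omega)
    have b := key j (by omega) h3
    clear key h1 h3
    rcases a with h | h | h | h | h | h | h | h <;> rcases b with h' | h' | h' | h' | h' | h' | h' | h' <;> omega

lemma hrosa2 (s : ℤ) (hs : 3 ≤ s) : ∃ p, SeqOK (4 * s + 2) (6 * (4 * s + 2) + 3) p := by
  obtain ⟨p, hp⟩ : ∃ p : ℤ → ℤ, p = fun i =>
    if i = 4 * s + 2 then 4 * s + 2 else
    if i = 4 * s + 1 then 2 * s + 1 else
    if i = 4 * s - 1 then 4 * s + 4 else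
    if i = 2 * s + 3 then 6 * s + 3 else
    if i = 1 then 7 * s + 4 else
    if i % 2 = 0 then (4 * s + 2 - i) / 2 else
    if 2 * s + 5 ≤ i then (12 * s + 7 - i) / 2 else (12 * s + 5 - i) / 2 := ⟨_, rfl⟩
  have key : ∀ i, 1 ≤ i → i ≤ 4 * s + 2 →
      (i = 4 * s + 2 ∧ p i = 4 * s + 2) ∨
      (i = 4 * s + 1 ∧ p i = 2 * s + 1) ∨
      (i = 4 * s - 1 ∧ p i = 4 * s + 4) ∨
      (i = 2 * s + 3 ∧ p i = 6 * s + 3) ∨
      (i = 1 ∧ p i = 7 * s + 4) ∨
      (2 ≤ i ∧ i ≤ 4 * s ∧ 2 * p i + i = 4 * s + 2) ∨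
      (2 * s + 5 ≤ i ∧ i ≤ 4 * s - 3 ∧ 2 * p i + i = 12 * s + 7) ∨
      (3 ≤ i ∧ i ≤ 2 * s + 1 ∧ 2 * p i + i = 12 * s + 5) := by
    intro i h1 h2
    have e := congrFun hp i
    split_ifs at e
    · refine Or.inl ?_
      omega
    · refine Or.inr (Or.inl ?_)
      omega
    · refine Or.inr (Or.inr (Or.inl ?_))
      omega
    · refine Or.inr (Or.inr (Or.inr (Or.inl ?_)))
      omega
    · refine Or.inr (Or.inr (Or.inr (Or.inr (Or.inl ?_))))
      omega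
    · refine Or.inr (Or.inr (Or.inr (Or.inr (Or.inr (Or.inl ?_)))))
      omega
    · refine Or.inr (Or.inr (Or.inr (Or.inr (Or.inr (Or.inr (Or.inl ?_))))))
      omega
    · refine Or.inr (Or.inr (Or.inr (Or.inr (Or.inr (Or.inr (Or.inr ?_))))))
      omega
  clear hp
  refine ⟨p, mkSeq (2 * (4 * s + 2) + 2) (2 * (4 * s + 2) + 1) ((4 * s + 2) + 1) (by omega) ?_ ?_ ?_⟩
  · intro i h1 h2
    have a := key i h1 h2
    clear key
    rcases a with h | h | h | h | h | h | h | h <;> omega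
  · intro i j h1 h2 h3 h4
    have a := key i h1 h2
    have b := key j h3 h4
    clear key h1 h2 h3 h4
    rcases a with h | h | h | h | h | h | h | h <;> rcases b with h' | h' | h' | h' | h' | h' | h' | h' <;> omega
  · intro i j h1 h2 h3
    have a := key i h1 (by omega)
    have b := key j (by omega) h3
    clear key h1 h3
    rcases a with h | h | h | h | h | h | h | h <;> rcases b with h' | h' | h' | h' | h' | h' | h' | h' <;> omega

theorem exists_seq (k : ℤ) (hk : 12 ≤ k) :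
    (∃ p, SeqOK k (6 * k + 1) p) ∧ ∃ p, SeqOK k (6 * k + 3) p := by
  obtain ⟨s, hs⟩ : ∃ s, k = 4 * s + 0 ∨ k = 4 * s + 1 ∨ k = 4 * s + 2 ∨ k = 4 * s + 3 :=
    ⟨k / 4, by omega⟩
  rcases hs with rfl | rfl | rfl | rfl
  · exact ⟨skolem0 s (by omega), rosa0 s (by omega)⟩
  · exact ⟨skolem1 s (by omega), hrosa1 s (by omega)⟩
  · exact ⟨hook2 s (by omega), hrosa2 s (by omega)⟩
  · exact ⟨hook3 s (by omega), rosa3 s (by omega)⟩

end Pool.Agent.H20.Sts
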