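import Mathlib

set_option autoImplicit false

namespace Pool.Agent.H20.TT

/-- formulae -/
inductive Fm
  | var : ℕ → Fm
  | neg : Fm → Fm
  | and : Fm → Fm → Fm
  | or : Fm → Fm → Fm
  | imp : Fm → Fm → Fm

/-- a node: its formula, the positions of its inputs on the branch, and the position of its partner if critical -/
structure Node where
  fm : Fm
  inp : List ℕ
  partner : Option ℕ

/-- position `i` of the branch `B` carries the formula `φ` -/
def At (B : List Node) (i : ℕ) (φ : Fm) : Prop := ∃ n, B[i]? = some n ∧ n.fm = φ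

/-- the trace `T(z) ∪ T(z')` -/
inductive Tr (B : List Node) (z z' : ℕ) : ℕ → Prop
  | left : Tr B z z' z
  | right : Tr B z z' z'
  | step (m i : ℕ) (n : Node) : Tr B z z' m → B[m]? = some n → i ∈ n.inp → Tr B z z' i

/-- the branch has a crash-pair satisfying parity -/
def Crash (B : List Node) : Prop :=
  ∃ z z' ζ, At B z ζ ∧ At B z' (.neg ζ) ∧
    ∀ c n p, B[c]? = some n → n.partner = some p → Tr B z z' c → Tr B z z' p

/-- the branch `B` (root first) can be grown into a finite tree all of whose branches crash with parity -/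
inductive Good : List Node → Prop
  | crash (B) : Crash B → Good B
  | and (B i φ ψ) : At B i (.and φ ψ) → Good (B ++ [⟨φ, [i], none⟩, ⟨ψ, [i], none⟩]) → Good B
  | nor (B i φ ψ) : At B i (.neg (.or φ ψ)) → Good (B ++ [⟨.neg φ, [i], none⟩, ⟨.neg ψ, [i], none⟩]) → Good B
  | nn (B i φ) : At B i (.neg (.neg φ)) → Good (B ++ [⟨φ, [i], none⟩]) → Good B
  | nand (B i φ ψ) : At B i (.neg (.and φ ψ)) → Good (B ++ [⟨.neg φ, [i], none⟩]) →
      Good (B ++ [⟨.neg ψ, [i], none⟩]) → Good B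
  | or (B i φ ψ) : At B i (.or φ ψ) → Good (B ++ [⟨φ, [i], none⟩]) → Good (B ++ [⟨ψ, [i], none⟩]) → Good B
  | mp (B i j φ ψ) : At B i φ → At B j (.imp φ ψ) → Good (B ++ [⟨ψ, [i, j], none⟩]) → Good B
  | cc (B i φ ψ) : At B i (.neg (.imp φ ψ)) →
      Good (B ++ [⟨φ, [i], some (B.length + 1)⟩, ⟨.neg ψ, [i], some B.length⟩]) → Good B
  | recur (B i φ ψ) : Good [⟨.neg (.imp φ ψ), [], none⟩] → At B i φ → Good (B ++ [⟨ψ, [i], none⟩]) → Good B

/-- acceptable formulae -/
def Acc (φ : Fm) : Prop := Good [⟨.neg φ, [], none⟩]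

/-! the crystal matrix -/

def cneg (x : Fin 6) : Fin 6 := ![5, 4, 2, 3, 1, 0] x
def cand (x y : Fin 6) : Fin 6 := if x = 2 ∧ y = 3 ∨ x = 3 ∧ y = 2 then 1 else min x y
def cor (x y : Fin 6) : Fin 6 := if x = 2 ∧ y = 3 ∨ x = 3 ∧ y = 2 then 4 else max x y
def cimp (x y : Fin 6) : Fin 6 := ![![5, 5, 5, 5, 5, 5], ![0, 1, 2, 3, 4, 5], ![0, 0, 2, 0, 2, 5],
  ![0, 0, 0, 3, 3, 5], ![0, 0, 0, 0, 1, 5], ![0, 0, 0, 0, 0, 5]] x y

def ev (v : ℕ → Fin 6) : Fm → Fin 6
  | .var p => v p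
  | .neg φ => cneg (ev v φ)
  | .and φ ψ => cand (ev v φ) (ev v ψ)
  | .or φ ψ => cor (ev v φ) (ev v ψ)
  | .imp φ ψ => cimp (ev v φ) (ev v ψ)

abbrev W := Bool × Bool

def tr (x : Fin 6) (w : W) : Prop :=
  x ≠ 0 ∧ (w.1 → x = 2 ∨ 4 ≤ x) ∧ (w.2 → 3 ≤ x) ∧ (w.1 → w.2 → x = 5)

instance (x : Fin 6) (w : W) : Decidable (tr x w) := by unfold tr; infer_instance

lemma t_and : ∀ x y w, tr (cand x y) w → tr x w ∧ tr y w := by decide
lemma t_nor : ∀ x y w, tr (cneg (cor x y)) w → tr (cneg x) w ∧ tr (cneg y) w := by decide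
lemma t_nn : ∀ x w, tr (cneg (cneg x)) w → tr x w := by decide
lemma t_nand : ∀ x y w, tr (cneg (cand x y)) w → tr (cneg x) w ∨ tr (cneg y) w := by decide
lemma t_or : ∀ x y w, tr (cor x y) w → tr x w ∨ tr y w := by decide
lemma t_mp : ∀ x y w u, tr x w → tr (cimp x y) u → tr y (w ⊔ u) := by decide
lemma t_cc : ∀ x y w, tr (cneg (cimp x y)) w → ∃ a b, tr x a ∧ tr (cneg y) b ∧ w ≤ a ⊔ b := by decide
lemma t_rec : ∀ x y w, cimp x y ≠ 0 → tr x w → tr y w := by decide
lemma t_crash : ∀ x a b, tr x a → tr (cneg x) b → ¬ ⊤ ≤ a ⊔ b := by decide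

def Ok (v : ℕ → Fin 6) (N : ℕ) (l : ℕ → W) (m : ℕ) (n : Node) : Prop :=
  tr (ev v n.fm) (l m) ∧ (m ≠ 0 → n.inp ≠ []) ∧ n.partner.getD m < N ∧
    ∀ i ∈ n.inp, i < m ∧ i < n.partner.getD m ∧ l i ≤ l m ⊔ l (n.partner.getD m)

def Inv (v : ℕ → Fin 6) (B : List Node) (l : ℕ → W) : Prop :=
  l 0 = ⊤ ∧ ∀ m n, B[m]? = some n → Ok v B.length l m n

lemma At.lt {B i φ} (h : At B i φ) : i < B.length := by
  obtain ⟨n, h, -⟩ := h
  exact (List.getElem?_eq_some_iff.1 h).1

lemma At.tr {v B l i φ} (h : At B i φ) (hI : Inv v B l) : tr (ev v φ) (l i) := by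
  obtain ⟨n, h, rfl⟩ := h
  exact (hI.2 i n h).1

def upd (l : ℕ → W) (N : ℕ) (a b : W) (j : ℕ) : W := if j < N then l j else if j = N then a else b

lemma Inv.ext {v B l} (h : Inv v B l) (h0 : 0 < B.length) (a b : W) (C : List Node)
    (hC : ∀ k n, C[k]? = some n → Ok v (B.length + C.length) (upd l B.length a b) (B.length + k) n) :
    Inv v (B ++ C) (upd l B.length a b) := by
  refine ⟨by simp [upd, h0, h.1], fun m n hm => ?_⟩
  rw [List.length_append]
  by_cases hl : m < B.length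
  · rw [List.getElem?_append_left hl] at hm
    obtain ⟨h1, h2, h3, h4⟩ := h.2 m n hm
    refine ⟨by simpa [upd, hl] using h1, h2, by omega, fun i hi => ?_⟩
    obtain ⟨a1, a2, a3⟩ := h4 i hi
    exact ⟨a1, a2, by simpa [upd, hl, h3, a1.trans hl] using a3⟩
  · rw [List.getElem?_append_right (by omega)] at hm
    simpa [show B.length + (m - B.length) = m by omega] using hC _ n hm

lemma Inv.one {v B l i j} (h : Inv v B l) (hi : i < B.length) (hj : j < B.length) {φ} {a : W} {I : List ℕ}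
    (ht : TT.tr (ev v φ) a) (h1 : l i ≤ a) (h2 : l j ≤ a) (hI : I = [i] ∨ I = [i, j]) :
    Inv v (B ++ [⟨φ, I, none⟩]) (upd l B.length a a) := by
  refine h.ext (by omega) a a _ fun k n hk => ?_
  rcases k with _ | k
  · obtain rfl : _ = n := by simpa using hk
    rcases hI with rfl | rfl <;> simp [Ok, upd, hi, hj, ht, h1, h2]
  · simp at hk

lemma Inv.two {v B l i} (h : Inv v B l) (hi : i < B.length) {φ ψ} (h1 : TT.tr (ev v φ) (l i))
    (h2 : TT.tr (ev v ψ) (l i)) :
    Inv v (B ++ [⟨φ, [i], none⟩, ⟨ψ, [i], none⟩]) (upd l B.length (l i) (l i)) := by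
  refine h.ext (by omega) _ _ _ fun k n hk => ?_
  rcases k with _ | _ | k
  · obtain rfl : _ = n := by simpa using hk
    simp [Ok, upd, hi, h1]
  · obtain rfl : _ = n := by simpa using hk
    simp [Ok, upd, hi, h2, hi.le]
  · simp at hk

lemma no_crash {v B l} (h : Inv v B l) : ¬ Crash B := by
  rintro ⟨z, z', ζ, h1, h2, h3⟩
  have lt : ∀ m, Tr B z z' m → m < B.length := by
    intro m hm
    induction hm with
    | left => exact h1.lt
    | right => exact h2.lt
    | step m i n _ hn hi ih => exact (((h.2 m n hn).2.2.2 i hi).1).trans ih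
  have root : ∀ m, Tr B z z' m → Tr B z z' 0 := by
    intro m
    induction m using Nat.strong_induction_on with
    | _ m ih =>
      intro hm
      by_cases h0 : m = 0
      · exact h0 ▸ hm
      · have hn := List.getElem?_eq_getElem (lt m hm)
        obtain ⟨-, a, -, b⟩ := h.2 m _ hn
        obtain ⟨i, hi⟩ := List.exists_mem_of_ne_nil _ (a h0)
        exact ih i (b i hi).1 (.step m i _ hm hn hi)
  have key : ∀ k i, B.length - i = k → Tr B z z' i → l i ≤ l z ⊔ l z' := by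
    intro k
    induction k using Nat.strong_induction_on with
    | _ k ih =>
      intro i hk hi
      cases hi with
      | left => exact le_sup_left
      | right => exact le_sup_right
      | step m _ n hm hn hi =>
        obtain ⟨-, -, a, b⟩ := h.2 m n hn
        obtain ⟨b1, b2, b3⟩ := b i hi
        have := lt m hm
        refine b3.trans (sup_le (ih _ (by omega) m rfl hm) (ih _ (by omega) _ rfl ?_))
        cases hp : n.partner with
        | none => exact hm
        | some p => exact h3 m n p hn hp hm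
  exact t_crash _ _ _ (h1.tr h) (h2.tr h) (h.1 ▸ key _ 0 rfl (root z .left))

lemma inv_root {v φ} (h : ev v φ = 0) : Inv v [⟨.neg φ, [], none⟩] fun _ => ⊤ := by
  refine ⟨rfl, fun m n hm => ?_⟩
  rcases m with _ | m
  · obtain rfl : _ = n := by simpa using hm
    simp only [Ok, ev, h]
    exact ⟨by decide, by simp⟩
  · simp at hm

lemma sound {B} (h : Good B) : ∀ v l, ¬ Inv v B l := by
  induction h with
  | crash B h => exact fun v l hI => no_crash hI h
  | and B i φ ψ h _ ih =>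
    exact fun v l hI => ih v _ (hI.two h.lt (t_and _ _ _ (h.tr hI)).1 (t_and _ _ _ (h.tr hI)).2)
  | nor B i φ ψ h _ ih =>
    exact fun v l hI => ih v _ (hI.two h.lt (t_nor _ _ _ (h.tr hI)).1 (t_nor _ _ _ (h.tr hI)).2)
  | nn B i φ h _ ih =>
    exact fun v l hI => ih v _ (hI.one h.lt h.lt (t_nn _ _ (h.tr hI)) le_rfl le_rfl (.inl rfl))
  | nand B i φ ψ h _ _ ih1 ih2 =>
    exact fun v l hI => (t_nand _ _ _ (h.tr hI)).elim
      (fun a => ih1 v _ (hI.one h.lt h.lt a le_rfl le_rfl (.inl rfl)))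
      (fun a => ih2 v _ (hI.one h.lt h.lt a le_rfl le_rfl (.inl rfl)))
  | or B i φ ψ h _ _ ih1 ih2 =>
    exact fun v l hI => (t_or _ _ _ (h.tr hI)).elim
      (fun a => ih1 v _ (hI.one h.lt h.lt a le_rfl le_rfl (.inl rfl)))
      (fun a => ih2 v _ (hI.one h.lt h.lt a le_rfl le_rfl (.inl rfl)))
  | mp B i j φ ψ h h' _ ih =>
    exact fun v l hI => ih v _ (hI.one h.lt h'.lt (t_mp _ _ _ _ (h.tr hI) (h'.tr hI)) le_sup_left le_sup_right
      (.inr rfl))
  | cc B i φ ψ h _ ih =>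
    intro v l hI
    obtain ⟨a, b, h1, h2, h3⟩ := t_cc _ _ _ (h.tr hI)
    have hi := h.lt
    refine ih v _ (hI.ext (by omega) a b _ fun k n hk => ?_)
    rcases k with _ | _ | k
    · obtain rfl : _ = n := by simpa using hk
      simp [Ok, upd, hi, h1, h3, hi.le]
    · obtain rfl : _ = n := by simpa using hk
      simpa [Ok, upd, hi, hi.le, sup_comm b a, h3, ev] using h2
    · simp at hk
  | recur B i φ ψ _ h _ ih1 ih2 =>
    exact fun v l hI => ih2 v _ (hI.one h.lt h.lt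
      (t_rec _ _ _ (fun h0 => ih1 v _ (inv_root (φ := .imp φ ψ) h0)) (h.tr hI)) le_rfl le_rfl (.inl rfl))

theorem crystal {φ} (h : Acc φ) (v : ℕ → Fin 6) : ev v φ ≠ 0 := fun h0 => sound h v _ (inv_root h0)

end Pool.Agent.H20.TT
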