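import Pool.Agent.H20.TT

set_option autoImplicit false

namespace Pool.Agent.H20.TT

def anc (B : List Node) : ℕ → List ℕ → List ℕ
  | 0, L => L
  | f + 1, L => anc B f (L ++ L.flatMap fun m => (B[m]?.map Node.inp).getD [])

lemma anc_tr {B z z'} : ∀ f L, (∀ m ∈ L, Tr B z z' m) → ∀ m ∈ anc B f L, Tr B z z' m
  | 0, _, h => h
  | f + 1, L, h => anc_tr f _ fun m hm => by
    rcases List.mem_append.1 hm with hm | hm
    · exact h m hm
    · obtain ⟨k, h1, h2⟩ := List.mem_flatMap.1 hm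
      cases hk : B[k]? with
      | none => simp [hk] at h2
      | some n => exact .step k m n (h k h1) hk (by simpa [hk] using h2)

lemma cr {B : List Node} (z z' : ℕ) {ζ} (h1 : At B z ζ) (h2 : At B z' (.neg ζ))
    (h : ((B.filterMap Node.partner).all fun p => (anc B 5 [z, z']).contains p) = true) : Good B := by
  refine .crash _ ⟨z, z', ζ, h1, h2, fun c n p a b _ => anc_tr 5 [z, z'] (by simp [Tr.left, Tr.right]) p ?_⟩
  simpa using List.all_eq_true.1 h p (List.mem_filterMap.2 ⟨n, List.mem_of_getElem? a, b⟩)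

def I (a b : Fm) : Prop := Acc (.imp a b)

section
variable {a b c d : Fm}
lemma I.refl : I a a := .cc _ 0 _ _ ⟨_, rfl, rfl⟩ (cr 1 2 ⟨_, rfl, rfl⟩ ⟨_, rfl, rfl⟩ rfl)
lemma I.trans (h : I a b) (h' : I b c) : I a c := .cc _ 0 _ _ ⟨_, rfl, rfl⟩ <| .recur _ 1 _ _ h ⟨_, rfl, rfl⟩ <|
  .recur _ 3 _ _ h' ⟨_, rfl, rfl⟩ (cr 4 2 ⟨_, rfl, rfl⟩ ⟨_, rfl, rfl⟩ rfl)
lemma I.al : I (.and a b) a := .cc _ 0 _ _ ⟨_, rfl, rfl⟩ <| .and _ 1 _ _ ⟨_, rfl, rfl⟩
  (cr 3 2 ⟨_, rfl, rfl⟩ ⟨_, rfl, rfl⟩ rfl)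
lemma I.ar : I (.and a b) b := .cc _ 0 _ _ ⟨_, rfl, rfl⟩ <| .and _ 1 _ _ ⟨_, rfl, rfl⟩
  (cr 4 2 ⟨_, rfl, rfl⟩ ⟨_, rfl, rfl⟩ rfl)
lemma I.ol : I a (.or a b) := .cc _ 0 _ _ ⟨_, rfl, rfl⟩ <| .nor _ 2 _ _ ⟨_, rfl, rfl⟩
  (cr 1 3 ⟨_, rfl, rfl⟩ ⟨_, rfl, rfl⟩ rfl)
lemma I.or : I b (.or a b) := .cc _ 0 _ _ ⟨_, rfl, rfl⟩ <| .nor _ 2 _ _ ⟨_, rfl, rfl⟩
  (cr 1 4 ⟨_, rfl, rfl⟩ ⟨_, rfl, rfl⟩ rfl)
lemma I.ai (h : I c a) (h' : I c b) : I c (.and a b) := .cc _ 0 _ _ ⟨_, rfl, rfl⟩ <| .nand _ 2 _ _ ⟨_, rfl, rfl⟩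
  (.recur _ 1 _ _ h ⟨_, rfl, rfl⟩ (cr 4 3 ⟨_, rfl, rfl⟩ ⟨_, rfl, rfl⟩ rfl))
  (.recur _ 1 _ _ h' ⟨_, rfl, rfl⟩ (cr 4 3 ⟨_, rfl, rfl⟩ ⟨_, rfl, rfl⟩ rfl))
lemma I.oe (h : I a c) (h' : I b c) : I (.or a b) c := .cc _ 0 _ _ ⟨_, rfl, rfl⟩ <| .or _ 1 _ _ ⟨_, rfl, rfl⟩
  (.recur _ 3 _ _ h ⟨_, rfl, rfl⟩ (cr 4 2 ⟨_, rfl, rfl⟩ ⟨_, rfl, rfl⟩ rfl))
  (.recur _ 3 _ _ h' ⟨_, rfl, rfl⟩ (cr 4 2 ⟨_, rfl, rfl⟩ ⟨_, rfl, rfl⟩ rfl))
lemma I.nn : I (.neg (.neg a)) a := .cc _ 0 _ _ ⟨_, rfl, rfl⟩ (cr 2 1 ⟨_, rfl, rfl⟩ ⟨_, rfl, rfl⟩ rfl)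
lemma I.neg (h : I a b) : I (.neg b) (.neg a) := .cc _ 0 _ _ ⟨_, rfl, rfl⟩ <| .nn _ 2 _ ⟨_, rfl, rfl⟩ <|
  .recur _ 3 _ _ h ⟨_, rfl, rfl⟩ (cr 4 1 ⟨_, rfl, rfl⟩ ⟨_, rfl, rfl⟩ rfl)
lemma I.dm : I (.neg (.and a b)) (.or (.neg a) (.neg b)) := .cc _ 0 _ _ ⟨_, rfl, rfl⟩ <|
  .nor _ 2 _ _ ⟨_, rfl, rfl⟩ <| .nand _ 1 _ _ ⟨_, rfl, rfl⟩ (cr 5 3 ⟨_, rfl, rfl⟩ ⟨_, rfl, rfl⟩ rfl)
  (cr 5 4 ⟨_, rfl, rfl⟩ ⟨_, rfl, rfl⟩ rfl)
lemma I.imp (h : I a b) (h' : I c d) : I (.imp b c) (.imp a d) := .cc _ 0 _ _ ⟨_, rfl, rfl⟩ <|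
  .cc _ 2 _ _ ⟨_, rfl, rfl⟩ <| .recur _ 3 _ _ h ⟨_, rfl, rfl⟩ <| .mp _ 5 1 _ _ ⟨_, rfl, rfl⟩ ⟨_, rfl, rfl⟩ <|
  .recur _ 6 _ _ h' ⟨_, rfl, rfl⟩ (cr 7 4 ⟨_, rfl, rfl⟩ ⟨_, rfl, rfl⟩ rfl)
end

/-- formulae with a top and a bottom adjoined -/
inductive V
  | bot | top | fm (a : Fm)

namespace V
def neg : V → V | bot => top | top => bot | fm a => fm a.neg
def and : V → V → V | bot, _ => bot | _, bot => bot | top, y => y | x, top => x | fm a, fm b => fm (a.and b)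
def or : V → V → V | top, _ => top | _, top => top | bot, y => y | x, bot => x | fm a, fm b => fm (a.or b)
def imp : V → V → V | bot, _ => top | _, top => top | top, _ => bot | _, bot => bot | fm a, fm b => fm (a.imp b)
def le : V → V → Prop | bot, _ => True | _, top => True | fm a, fm b => I a b | _, _ => False

variable {x y z w : V}
lemma refl : le x x := by cases x <;> simp [le, I.refl]
lemma le.trans (h : le x y) (h' : le y z) : le x z := by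
  cases x <;> cases y <;> cases z <;> simp_all [le]
  exact h.trans h'
lemma al : le (x.and y) x := by cases x <;> cases y <;> simp [le, and, I.refl, I.al]
lemma ar : le (x.and y) y := by cases x <;> cases y <;> simp [le, and, I.refl, I.ar]
lemma ol : le x (x.or y) := by cases x <;> cases y <;> simp [le, or, I.refl, I.ol]
lemma orr : le y (x.or y) := by cases x <;> cases y <;> simp [le, or, I.refl, I.or]
lemma ai (h : le z x) (h' : le z y) : le z (x.and y) := by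
  cases x <;> cases y <;> cases z <;> simp_all [le, and]
  exact h.ai h'
lemma oe (h : le x z) (h' : le y z) : le (x.or y) z := by
  cases x <;> cases y <;> cases z <;> simp_all [le, or]
  exact h.oe h'
lemma nn : le x.neg.neg x := by cases x <;> simp [le, neg, I.nn]
lemma le.neg (h : le x y) : le y.neg x.neg := by
  cases x <;> cases y <;> simp_all [le, V.neg]
  exact h.neg
lemma le.imp (h : le x y) (h' : le z w) : le (y.imp z) (x.imp w) := by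
  cases x <;> cases y <;> cases z <;> cases w <;> simp_all [le, V.imp]
  exact h.imp h'
lemma dm : le (x.and y).neg (x.neg.or y.neg) := by cases x <;> cases y <;> simp [le, neg, and, or, I.refl, I.dm]
lemma le.ne_bot (h : le x y) (h' : x ≠ bot) : y ≠ bot := by cases x <;> cases y <;> simp_all [le]
lemma le.top (h : le x y) (h' : x = top) : y = top := by cases x <;> cases y <;> simp_all [le]
end V

open Classical in
/-- the two-component translation -/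
noncomputable def tl (S : Set ℕ) : Fm → Bool → V
  | .var p, i => if p ∈ S then (if i then .bot else .top) else .fm (.var p)
  | .neg φ, i => (tl S φ (!i)).neg
  | .and φ ψ, i => (tl S φ i).and (tl S ψ i)
  | .or φ ψ, i => (tl S φ i).or (tl S ψ i)
  | .imp φ ψ, i => if i then (tl S φ false).imp (tl S ψ true)
      else ((tl S φ false).imp (tl S ψ false)).and ((tl S φ true).imp (tl S ψ true))

lemma her (S : Set ℕ) (φ : Fm) : (tl S φ true).le (tl S φ false) := by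
  induction φ with
  | var p => by_cases h : p ∈ S <;> simp [tl, h, V.le, I.refl]
  | neg φ ih => exact ih.neg
  | and φ ψ a b => exact V.ai (V.al.trans a) (V.ar.trans b)
  | or φ ψ a b => exact V.oe (a.trans V.ol) (b.trans V.orr)
  | imp φ ψ a b => exact V.ai (V.refl.imp b) (a.imp V.refl)

lemma Tr.trans {B z z' m c} (h : Tr B z z' m) (h' : Tr B m m c) : Tr B z z' c := by
  induction h' with
  | left => exact h
  | right => exact h
  | step k i n _ a b ih => exact .step k i n ih a b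

lemma get_app {B : List Node} {m : ℕ} {n : Node} (h : B[m]? = some n) (C : List Node) : (B ++ C)[m]? = some n := by
  rwa [List.getElem?_append_left (List.getElem?_eq_some_iff.1 h).1]

lemma Tr.app {B z z' c} (h : Tr B z z' c) (C : List Node) : Tr (B ++ C) z z' c := by
  induction h with
  | left => exact .left
  | right => exact .right
  | step k i n _ a b ih => exact .step k i n ih (get_app a C) b

lemma At.app {B i φ} (h : At B i φ) (C : List Node) : At (B ++ C) i φ := by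
  obtain ⟨n, h, h'⟩ := h
  exact ⟨n, get_app h C, h'⟩

lemma not_good_nil : ¬ Good [] := by
  intro h
  cases h with
  | crash _ h => obtain ⟨_, _, _, h, -⟩ := h; simpa using h.lt
  | and _ _ _ _ h => simpa using h.lt
  | nor _ _ _ _ h => simpa using h.lt
  | nn _ _ _ h => simpa using h.lt
  | nand _ _ _ _ h => simpa using h.lt
  | or _ _ _ _ h => simpa using h.lt
  | mp _ _ _ _ _ h => simpa using h.lt
  | cc _ _ _ _ h => simpa using h.lt
  | recur _ _ _ _ _ h => simpa using h.lt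

end Pool.Agent.H20.TT
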