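import Pool.Agent.H20.TT2

set_option autoImplicit false

namespace Pool.Agent.H20.TT

structure St where
  ix : ℕ → Bool
  w : ℕ → V
  s : ℕ → Option ℕ

def N1 (S : Set ℕ) (B B' : List Node) (σ : St) (o : ℕ → ℕ) (m : ℕ) (n : Node) : Prop :=
  σ.w m = tl S n.fm (σ.ix m) ∧ σ.w m ≠ .bot ∧ n.partner.getD m < B.length ∧ (m ≠ 0 → n.inp ≠ []) ∧
  (σ.s m = none → σ.w m = .top ∨ σ.w (n.partner.getD m) = .top ∨ ∃ i ∈ n.inp, σ.s i = none) ∧
  (∀ k, σ.s m = some k → (∃ a, σ.w m = .fm a ∧ At B' k a) ∧ Tr B m m (o k)) ∧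
  ∀ i ∈ n.inp, i < m ∧ i < n.partner.getD m ∧ (σ.ix i → σ.ix m ∨ σ.ix (n.partner.getD m)) ∧
    (σ.w i = .top → σ.w m = .top ∨ σ.w (n.partner.getD m) = .top) ∧
    ∀ k k0, σ.s m = some k → σ.s i = some k0 → Tr B' k k k0

def N2 (B B' : List Node) (σ : St) (o : ℕ → ℕ) (k : ℕ) (n' : Node) : Prop :=
  (∀ j ∈ n'.inp, j < B'.length ∧ Tr B (o k) (o k) (o j)) ∧
    ∀ p', n'.partner = some p' → ∃ n p, B[o k]? = some n ∧ n.partner = some p ∧ σ.s p = some p'

def Sim (S : Set ℕ) (B B' : List Node) (σ : St) (o : ℕ → ℕ) : Prop :=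
  σ.ix 0 = true ∧ (∀ m n, B[m]? = some n → N1 S B B' σ o m n) ∧ ∀ k n', B'[k]? = some n' → N2 B B' σ o k n'

def up {α : Type} (l : ℕ → α) (N : ℕ) (a b : α) (j : ℕ) : α := if j < N then l j else if j = N then a else b

def St.up (σ : St) (N : ℕ) (a b : Bool) (x y : V) (s t : Option ℕ) : St :=
  ⟨TT.up σ.ix N a b, TT.up σ.w N x y, TT.up σ.s N s t⟩

variable {S : Set ℕ} {B B' : List Node} {σ : St} {o : ℕ → ℕ}

lemma lt_of {B : List Node} {m : ℕ} {n : Node} (h : B[m]? = some n) : m < B.length :=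
  (List.getElem?_eq_some_iff.1 h).1

lemma Sim.ext (h : Sim S B B' σ o) {σ' : St} {o' : ℕ → ℕ} (C C' : List Node) (h0 : σ'.ix 0 = true)
    (h1 : ∀ j < B.length, σ'.ix j = σ.ix j ∧ σ'.w j = σ.w j ∧ σ'.s j = σ.s j) (h2 : ∀ j < B'.length, o' j = o j)
    (h3 : ∀ k n, C[k]? = some n → N1 S (B ++ C) (B' ++ C') σ' o' (B.length + k) n)
    (h4 : ∀ k n, C'[k]? = some n → N2 (B ++ C) (B' ++ C') σ' o' (B'.length + k) n) :
    Sim S (B ++ C) (B' ++ C') σ' o' := by
  refine ⟨h0, fun m n hm => ?_, fun m n hm => ?_⟩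
  · by_cases hl : m < B.length
    · rw [List.getElem?_append_left hl] at hm
      obtain ⟨a1, a2, a3, a4, a5, a6, a7⟩ := h.2.1 m n hm
      have e1 := h1 m hl
      have e2 := h1 _ a3
      have e3 := fun i hi => h1 i ((a7 i hi).1.trans hl)
      refine ⟨by rw [e1.1, e1.2.1, a1], by rwa [e1.2.1], by simp; omega, a4, ?_, fun k hk => ?_, fun i hi => ?_⟩
      · rw [e1.2.1, e1.2.2, e2.2.1]
        exact fun h => (a5 h).imp id (Or.imp id fun ⟨i, b, c⟩ => ⟨i, b, by rwa [(e3 i b).2.2]⟩)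
      · rw [e1.2.2] at hk
        obtain ⟨⟨a, b, c⟩, d⟩ := a6 k hk
        exact ⟨⟨a, by rwa [e1.2.1], c.app _⟩, by rw [h2 k c.lt]; exact d.app _⟩
      · obtain ⟨b1, b2, b3, b4, b5⟩ := a7 i hi
        rw [e1.1, e1.2.1, e1.2.2, e2.1, e2.2.1, (e3 i hi).1, (e3 i hi).2.1, (e3 i hi).2.2]
        exact ⟨b1, b2, b3, b4, fun k k0 c d => (b5 k k0 c d).app _⟩
    · rw [List.getElem?_append_right (by omega)] at hm
      simpa [show B.length + (m - B.length) = m by omega] using h3 _ n hm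
  · by_cases hl : m < B'.length
    · rw [List.getElem?_append_left hl] at hm
      obtain ⟨a1, a2⟩ := h.2.2 m n hm
      refine ⟨fun j hj => ⟨by have := (a1 j hj).1; simp; omega, ?_⟩, fun p hp => ?_⟩
      · rw [h2 m hl, h2 j (a1 j hj).1]
        exact (a1 j hj).2.app _
      · obtain ⟨n', q, b1, b2, b3⟩ := a2 p hp
        have := (h.2.1 _ _ b1).2.2.1
        rw [b2] at this
        exact ⟨n', q, by rw [h2 m hl]; exact get_app b1 _, b2, by rwa [(h1 q this).2.2]⟩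
    · rw [List.getElem?_append_right (by omega)] at hm
      simpa [show B'.length + (m - B'.length) = m by omega] using h4 _ n hm

def Av (B B' : List Node) (σ : St) (o : ℕ → ℕ) (m : ℕ) (x : V) (s : Option ℕ) : Prop :=
  x ≠ .bot ∧ (σ.w m = .top → x = .top) ∧ (s = none → σ.s m = none ∨ x = .top) ∧
  ∀ k, s = some k → (∃ a, x = .fm a ∧ At B' k a) ∧ Tr B m m (o k) ∧ ∀ k0, σ.s m = some k0 → Tr B' k k k0

lemma Av.mono {m x s} (h : Av B B' σ o m x s) (C : List Node) {o' : ℕ → ℕ} (h2 : ∀ j < B'.length, o' j = o j) :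
    Av B (B' ++ C) σ o' m x s :=
  ⟨h.1, h.2.1, h.2.2.1, fun k hk => by
    obtain ⟨⟨a, b, c⟩, d, e⟩ := h.2.2.2 k hk
    exact ⟨⟨a, b, c.app _⟩, by rwa [h2 k c.lt], fun k0 h0 => (e k0 h0).app _⟩⟩

lemma av_self (h : Sim S B B' σ o) {m φ} (hm : At B m φ) : Av B B' σ o m (tl S φ (σ.ix m)) (σ.s m) := by
  obtain ⟨n, hm, rfl⟩ := hm
  obtain ⟨a1, a2, -, -, -, a6, -⟩ := h.2.1 m n hm
  rw [← a1]
  refine ⟨a2, id, .inl, fun k hk => ⟨(a6 k hk).1, (a6 k hk).2, fun k0 h0 => ?_⟩⟩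
  obtain rfl : k = k0 := Option.some.inj (hk.symm.trans h0)
  exact .left

def Cont (S : Set ℕ) (B B' : List Node) (σ : St) (o : ℕ → ℕ) (m : ℕ) (y : V) : Prop :=
  ∀ C o' s', Sim S B (B' ++ C) σ o' → (∀ j < B'.length, o' j = o j) → Av B (B' ++ C) σ o' m y s' → Good (B' ++ C)

lemma Cont.now {m y s} (hc : Cont S B B' σ o m y) (h : Sim S B B' σ o) (ha : Av B B' σ o m y s) : Good B' := by
  simpa using hc [] o s (by simpa using h) (fun _ _ => rfl) (by simpa using ha)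

lemma Cont.new {m x k b} (hc : Cont S B B' σ o m (.fm b)) (h : Sim S B B' σ o) (ha : Av B B' σ o m x (some k)) :
    Good (B' ++ [⟨b, [k], none⟩]) := by
  obtain ⟨⟨a, rfl, c⟩, d, e⟩ := ha.2.2.2 k rfl
  have hk := c.lt
  have hg : (B' ++ [(⟨b, [k], none⟩ : Node)])[B'.length]? = some ⟨b, [k], none⟩ := by simp
  refine hc _ (up o B'.length (o k) 0) (some B'.length) ?_ (fun j hj => by simp [up, hj]) ?_
  · have := h.ext (σ' := σ) (o' := up o B'.length (o k) 0) [] [⟨b, [k], none⟩] h.1 (fun _ _ => ⟨rfl, rfl, rfl⟩)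
      (fun j hj => by simp [up, hj]) (by simp) fun i n hn => by
        rcases i with _ | i
        · obtain rfl : _ = n := by simpa using hn
          simp [N2, up, hk, hk.le, Tr.left]
        · simp at hn
    simpa using this
  · refine ⟨nofun, fun h => by simpa using ha.2.1 h, nofun, fun k' hk' => ?_⟩
    obtain rfl : B'.length = k' := Option.some.inj hk'
    exact ⟨⟨b, rfl, _, hg, rfl⟩, by simpa [up] using d,
      fun k0 h0 => (Tr.step _ k _ .left hg (.head _)).trans ((e k0 h0).app _)⟩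

lemma av_le (h : Sim S B B' σ o) {m x y s} (ha : Av B B' σ o m x s) (hl : x.le y) (hc : Cont S B B' σ o m y) :
    Good B' := by
  cases s with
  | none => exact hc.now h (s := none) ⟨hl.ne_bot ha.1, fun h => hl.top (ha.2.1 h),
      fun _ => (ha.2.2.1 rfl).imp id hl.top, nofun⟩
  | some k =>
    obtain ⟨⟨a, rfl, c⟩, -⟩ := ha.2.2.2 k rfl
    cases y with
    | bot => exact hl.elim
    | top => exact hc.now h (s := none) ⟨nofun, fun _ => rfl, fun _ => .inr rfl, nofun⟩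
    | fm b => exact .recur _ k a b hl c (hc.new h ha)

lemma av_or (h : Sim S B B' σ o) {m s} {x y : V} (ha : Av B B' σ o m (x.or y) s) (h1 : Cont S B B' σ o m x)
    (h2 : Cont S B B' σ o m y) : Good B' := by
  cases x <;> cases y
  case fm.fm a b =>
    cases s with
    | none => exact h1.now h (s := none) ⟨nofun, fun h => by simpa [V.or] using ha.2.1 h,
        fun _ => .inl (by simpa [V.or] using ha.2.2.1 rfl), nofun⟩
    | some k =>
      obtain ⟨⟨e, he, c⟩, -⟩ := ha.2.2.2 k rfl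
      obtain rfl : _ = e := V.fm.inj he
      exact .or _ k a b c (h1.new h ha) (h2.new h ha)
  all_goals first | exact h1.now h ha | exact h2.now h ha

lemma add1 (h : Sim S B B' σ o) {m ψ s} (hm : m < B.length) (ha : Av B B' σ o m (tl S ψ (σ.ix m)) s) :
    ∃ σ', Sim S (B ++ [⟨ψ, [m], none⟩]) B' σ' o := by
  have := h.ext (σ' := σ.up B.length (σ.ix m) (σ.ix m) (tl S ψ (σ.ix m)) .bot s s) (o' := o) [⟨ψ, [m], none⟩] []
    (by simp [St.up, up, h.1, show 0 < B.length by omega]) (fun j hj => by simp [St.up, up, hj]) (fun _ _ => rfl)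
    (fun i n hn => by
      rcases i with _ | i
      · obtain rfl : _ = n := by simpa using hn
        have hg : (B ++ [(⟨ψ, [m], none⟩ : Node)])[B.length]? = some ⟨ψ, [m], none⟩ := by simp
        simp only [N1, St.up, up, hm, add_zero, lt_irrefl, if_false, if_true, Option.getD_none, List.forall_mem_cons,
          List.append_nil, or_self]
        refine ⟨trivial, ha.1, by simp, by simp, fun h => ?_, fun k hk => ⟨(ha.2.2.2 k hk).1,
          (Tr.step _ m _ .left hg (.head _)).trans ((ha.2.2.2 k hk).2.1.app _)⟩,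
          ⟨trivial, trivial, id, ha.2.1, fun k k0 a b => (ha.2.2.2 k a).2.2 k0 b⟩, nofun⟩
        simpa [hm, or_comm] using ha.2.2.1 h
      · simp at hn) (by simp)
  exact ⟨_, by simpa using this⟩

def Ih (S : Set ℕ) (B : List Node) : Prop := ∀ B' σ o, Sim S B B' σ o → Good B'

lemma cont1 {m ψ} (hm : m < B.length) (ih : Ih S (B ++ [⟨ψ, [m], none⟩])) : Cont S B B' σ o m (tl S ψ (σ.ix m)) :=
  fun _ _ _ h _ ha => (add1 h hm ha).elim fun _ h => ih _ _ _ h

lemma step1 {m φ ψ} (hm : At B m φ) (hl : ∀ b, (tl S φ b).le (tl S ψ b)) (ih : Ih S (B ++ [⟨ψ, [m], none⟩])) :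
    Ih S B := fun _ _ _ h => av_le h (av_self h hm) (hl _) (cont1 hm.lt ih)

end Pool.Agent.H20.TT
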