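import Pool.Agent.H20.TT3

set_option autoImplicit false

namespace Pool.Agent.H20.TT

variable {S : Set ℕ} {B B' : List Node} {σ : St} {o : ℕ → ℕ}

lemma mp_step {i j φ ψ} (hi : At B i φ) (hj : At B j (.imp φ ψ)) (ih : Ih S (B ++ [⟨ψ, [i, j], none⟩])) :
    Ih S B := by
  intro B' σ o h
  obtain ⟨u, u1, u2⟩ : ∃ u : V, (tl S φ (σ.ix i)).le u ∧
      (tl S (.imp φ ψ) (σ.ix j)).le (u.imp (tl S ψ (σ.ix i || σ.ix j))) := by
    cases σ.ix j <;> cases σ.ix i
    exacts [⟨_, V.refl, V.al⟩, ⟨_, V.refl, V.ar⟩, ⟨_, V.refl, V.refl⟩, ⟨_, her S φ, V.refl⟩]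
  refine av_le h (av_self h hi) u1 fun C o1 s1 h _ a1 => av_le h (av_self h hj) u2 fun D o s2 h e a2 => ?_
  replace a1 := a1.mono D e
  generalize B' ++ C ++ D = B' at *
  generalize hw : tl S ψ (σ.ix i || σ.ix j) = w at *
  have li := hi.lt
  have lj := hj.lt
  have h0 : 0 < B.length := by omega
  have w1 : w ≠ .bot := by have := a1.1; have := a2.1; cases u <;> cases w <;> simp_all [V.imp]
  have w2 : u = .top → w = .top := by have := a2.1; cases u <;> cases w <;> simp_all [V.imp]
  have w3 : u.imp w = .top → w = .top := by have := a1.1; cases u <;> cases w <;> simp_all [V.imp]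
  have hg : (B ++ [(⟨ψ, [i, j], none⟩ : Node)])[B.length]? = some ⟨ψ, [i, j], none⟩ := by simp
  by_cases hs : s1 = none ∨ s2 = none
  · have := h.ext (σ' := σ.up B.length (σ.ix i || σ.ix j) true w .bot none none) (o' := o) [⟨ψ, [i, j], none⟩] []
      (by simp [St.up, up, h.1, h0]) (fun j hj => by simp [St.up, up, hj]) (fun _ _ => rfl)
      (fun k n hn => by
        rcases k with _ | k
        · obtain rfl : _ = n := by simpa using hn
          have b1 := a1.2.1
          have b2 := a2.2.1
          have b3 := a1.2.2.1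
          have b4 := a2.2.2.1
          simp +contextual [N1, St.up, up, li, lj, hw, w1]
          tauto
        · simp at hn) (by simp)
    exact ih B' _ o (by simpa using this)
  · obtain ⟨k1, rfl⟩ := Option.ne_none_iff_exists'.1 (not_or.1 hs).1
    obtain ⟨k2, rfl⟩ := Option.ne_none_iff_exists'.1 (not_or.1 hs).2
    obtain ⟨⟨a, rfl, c1⟩, d1, e1⟩ := a1.2.2.2 k1 rfl
    obtain ⟨⟨b, hb, c2⟩, d2, e2⟩ := a2.2.2.2 k2 rfl
    obtain ⟨c, rfl, rfl⟩ : ∃ c, w = .fm c ∧ b = .imp a c := by cases w <;> simp_all [V.imp]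
    have hg' : (B' ++ [(⟨c, [k1, k2], none⟩ : Node)])[B'.length]? = some ⟨c, [k1, k2], none⟩ := by simp
    refine .mp _ k1 k2 a c c1 c2 (ih _ (σ.up B.length (σ.ix i || σ.ix j) true (.fm c) .bot (some B'.length) none)
      (up o B'.length B.length 0) (h.ext _ _ (by simp [St.up, up, h.1, h0]) (fun j hj => by simp [St.up, up, hj])
      (fun j hj => by simp [up, hj]) (fun k n hn => ?_) fun k n hn => ?_))
    · rcases k with _ | k
      · obtain rfl : _ = n := by simpa using hn
        have b1 := a1.2.1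
        have b2 := a2.2.1
        simp +contextual [N1, St.up, up, li, lj, hw, Tr.left, At]
        exact ⟨⟨fun h => by simpa using b1 h, fun _ k0 hk h0 => hk ▸ (Tr.step _ k1 _ .left hg' (.head _)).trans ((e1 k0 h0).app _)⟩,
          fun h => by simpa [V.imp] using b2 h,
          fun _ k0 hk h0 => hk ▸ (Tr.step _ k2 _ .left hg' (.tail _ (.head _))).trans ((e2 k0 h0).app _)⟩
      · simp at hn
    · rcases k with _ | k
      · obtain rfl : _ = n := by simpa using hn
        simp [N2, up, c1.lt, c2.lt, c1.lt.le, c2.lt.le]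
        exact ⟨(Tr.step _ i _ .left hg (.head _)).trans (d1.app _),
          (Tr.step _ j _ .left hg (.tail _ (.head _))).trans (d2.app _)⟩
      · simp at hn

lemma cc_step (h : Sim S B B' σ o) {m φ ψ s} {a c : Bool} (hm : m < B.length)
    (ha : Av B B' σ o m ((tl S φ a).imp (tl S ψ c)).neg s) (hz : σ.ix m → a ∨ !c)
    (ih : Ih S (B ++ [⟨φ, [m], some (B.length + 1)⟩, ⟨.neg ψ, [m], some B.length⟩])) : Good B' := by
  have h0 : 0 < B.length := by omega
  generalize hx : tl S φ a = x at *
  generalize hy : tl S ψ c = y at *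
  have w1 : x ≠ .bot ∧ y.neg ≠ .bot := by have := ha.1; cases x <;> cases y <;> simp_all [V.imp, V.neg]
  have w2 : (x.imp y).neg = .top → x = .top ∨ y.neg = .top := by cases x <;> cases y <;> simp [V.imp, V.neg]
  have b1 := ha.2.1
  have b2 := ha.2.2.1
  cases s with
  | none =>
    have := h.ext (σ' := σ.up B.length a (!c) x y.neg none none) (o' := o)
      [⟨φ, [m], some (B.length + 1)⟩, ⟨.neg ψ, [m], some B.length⟩] []
      (by simp [St.up, up, h.1, h0]) (fun j hj => by simp [St.up, up, hj]) (fun _ _ => rfl)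
      (fun k n hn => by
        rcases k with _ | _ | k
        · obtain rfl : _ = n := by simpa using hn
          simp +contextual [N1, St.up, up, hm, hm.le, hx, w1]
          simp at *
          tauto
        · obtain rfl : _ = n := by simpa using hn
          simp +contextual [N1, St.up, up, hm, hm.le, hy, w1, tl]
          simp at *
          tauto
        · simp at hn) (by simp)
    exact ih B' _ o (by simpa using this)
  | some k =>
    obtain ⟨⟨e, he, c1⟩, d1, e1⟩ := ha.2.2.2 k rfl
    obtain ⟨α, β, rfl, rfl, rfl⟩ : ∃ α β, x = .fm α ∧ y = .fm β ∧ e = .neg (.imp α β) := by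
      cases x <;> cases y <;> simp_all [V.imp, V.neg]
    have lk := c1.lt
    refine .cc _ k α β c1 (ih _ (σ.up B.length a (!c) (.fm α) (.fm β.neg) (some B'.length) (some (B'.length + 1)))
      (up o B'.length B.length (B.length + 1)) (h.ext _ _ (by simp [St.up, up, h.1, h0])
      (fun j hj => by simp [St.up, up, hj]) (fun j hj => by simp [up, hj]) (fun r n hn => ?_) fun r n hn => ?_))
    · rcases r with _ | _ | r
      · obtain rfl : _ = n := by simpa using hn
        simp +contextual [N1, St.up, up, hm, hm.le, hx, Tr.left, At]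
        exact ⟨by simpa using hz, fun h => by simpa [V.imp, V.neg] using b1 h,
          fun _ k0 hk h0 => hk ▸ (Tr.step B'.length k ⟨α, [k], some (B'.length + 1)⟩ .left (by simp) (.head _)).trans ((e1 k0 h0).app _)⟩
      · obtain rfl : _ = n := by simpa using hn
        simp +contextual [N1, St.up, up, hm, hm.le, hy, Tr.left, At, tl, V.neg]
        exact ⟨by simpa [or_comm] using hz, fun h => by simpa [V.imp, V.neg] using b1 h,
          fun _ k0 hk h0 => hk ▸ (Tr.step (B'.length + 1) k ⟨β.neg, [k], some B'.length⟩ .left (by simp) (.head _)).trans ((e1 k0 h0).app _)⟩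
      · simp at hn
    · rcases r with _ | _ | r
      · obtain rfl : _ = n := by simpa using hn
        simp [N2, up, lk, St.up]
        exact ⟨by omega, (Tr.step _ m ⟨φ, [m], some (B.length + 1)⟩ .left (by simp) (.head _)).trans (d1.app _)⟩
      · obtain rfl : _ = n := by simpa using hn
        simp [N2, up, lk, St.up]
        exact ⟨by omega, (Tr.step _ m ⟨ψ.neg, [m], some B.length⟩ .left (by simp) (.head _)).trans (d1.app _)⟩
      · simp at hn

lemma crash_step (hc : Crash B) : Ih S B := by
  intro B' σ o h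
  obtain ⟨z, z', ζ, h1, h2, h3⟩ := hc
  have lt : ∀ m, Tr B z z' m → m < B.length := by
    intro m hm
    induction hm with
    | left => exact h1.lt
    | right => exact h2.lt
    | step m i n _ hn hi ih => exact (((h.2.1 m n hn).2.2.2.2.2.2 i hi).1).trans ih
  have par : ∀ m n, Tr B z z' m → B[m]? = some n → Tr B z z' (n.partner.getD m) := fun m n hm hn => by
    cases hp : n.partner with
    | none => exact hm
    | some p => exact h3 m n p hn hp hm
  have root : ∀ m, Tr B z z' m → Tr B z z' 0 := by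
    intro m
    induction m using Nat.strong_induction_on with
    | _ m ih =>
      intro hm
      by_cases h0 : m = 0
      · exact h0 ▸ hm
      · have hn := List.getElem?_eq_getElem (lt m hm)
        obtain ⟨-, -, -, a, -, -, b⟩ := h.2.1 m _ hn
        obtain ⟨i, hi⟩ := List.exists_mem_of_ne_nil _ (a h0)
        exact ih i (b i hi).1 (.step m i _ hm hn hi)
  have key : ∀ P : ℕ → Prop, (∀ m n, B[m]? = some n → ∀ i ∈ n.inp, P i → P m ∨ P (n.partner.getD m)) →
      ∀ k i, B.length - i = k → Tr B z z' i → P i → P z ∨ P z' := by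
    intro P hP k
    induction k using Nat.strong_induction_on with
    | _ k ih =>
      intro i hk hi hp
      cases hi with
      | left => exact .inl hp
      | right => exact .inr hp
      | step m _ n hm hn hi =>
        obtain ⟨-, -, a, -, -, -, b⟩ := h.2.1 m n hn
        obtain ⟨b1, b2, -⟩ := b i hi
        have := lt m hm
        exact (hP m n hn i hi hp).elim (ih _ (by omega) m rfl hm) (ih _ (by omega) _ rfl (par m n hm hn))
  have kx := key (fun i => σ.ix i) (fun m n hn i hi => ((h.2.1 m n hn).2.2.2.2.2.2 i hi).2.2.1) _ 0 rfl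
    (root z .left) h.1
  have a1 := av_self h h1
  have a2 := av_self h h2
  have hl : (tl S ζ (σ.ix z)).le (tl S ζ (!σ.ix z')) := by
    revert kx
    cases σ.ix z <;> cases σ.ix z' <;> simp [V.refl, her]
  have hu : tl S ζ (!σ.ix z') ≠ .top := fun h => a2.1 (by rw [tl, h]; rfl)
  have hu' : tl S ζ.neg (σ.ix z') ≠ .top := by
    have := hl.ne_bot a1.1
    rw [tl]
    revert this
    cases tl S ζ (!σ.ix z') <;> simp [V.neg]
  have nt : ∀ m, Tr B z z' m → σ.w m ≠ .top := fun m hm ht =>
    (key (fun i => σ.w i = .top) (fun m n hn i hi => ((h.2.1 m n hn).2.2.2.2.2.2 i hi).2.2.2.1) _ m rfl hm ht).elim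
      (fun h => hu (hl.top (a1.2.1 h))) fun h => hu' (a2.2.1 h)
  have ns : ∀ m, Tr B z z' m → σ.s m ≠ none := by
    intro m
    induction m using Nat.strong_induction_on with
    | _ m ih =>
      intro hm h0
      have hn := List.getElem?_eq_getElem (lt m hm)
      obtain ⟨-, -, -, -, a, -, b⟩ := h.2.1 m _ hn
      rcases a h0 with a | a | ⟨i, hi, a⟩
      exacts [nt m hm a, nt _ (par m _ hm hn) a, ih i (b i hi).1 (.step m i _ hm hn hi) a]
  refine av_le h a1 hl fun C o s h e a1 => ?_
  replace a2 := a2.mono C e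
  obtain ⟨k, rfl⟩ := Option.ne_none_iff_exists'.1 fun hs => (a1.2.2.1 hs).elim (ns z .left) hu
  obtain ⟨k', hk'⟩ := Option.ne_none_iff_exists'.1 (ns z' .right)
  obtain ⟨⟨a, ha, c1⟩, d1, e1⟩ := a1.2.2.2 k rfl
  obtain ⟨⟨b, hb, c2⟩, d2, -⟩ := a2.2.2.2 k' hk'
  rw [tl, ha] at hb
  obtain rfl : _ = b := V.fm.inj hb
  have f1 : ∀ c, Tr (B' ++ C) k k' c → Tr B z z' (o c) := by
    intro c hc
    induction hc with
    | left => exact Tr.left.trans d1
    | right => exact Tr.right.trans d2
    | step m i n _ hn hi ih => exact ih.trans ((h.2.2 m n hn).1 i hi).2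
  have f2 : ∀ m, Tr B z z' m → ∀ k0, σ.s m = some k0 → Tr (B' ++ C) k k' k0 := by
    intro m hm
    induction hm with
    | left => exact fun k0 h0 => Tr.left.trans (e1 k0 h0)
    | right => exact fun k0 h0 => Option.some.inj (hk'.symm.trans h0) ▸ .right
    | step m i n hm hn hi ih =>
      obtain ⟨k1, h1⟩ := Option.ne_none_iff_exists'.1 (ns m hm)
      exact fun k0 h0 => (ih k1 h1).trans (((h.2.1 m n hn).2.2.2.2.2.2 i hi).2.2.2.2 k1 k0 h1 h0)
  refine .crash _ ⟨k, k', a, c1, c2, fun c n p hn hp hc => ?_⟩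
  obtain ⟨n', q, g1, g2, g3⟩ := (h.2.2 c n hn).2 p hp
  exact f2 q (h3 _ n' q g1 g2 (f1 c hc)) p g3

lemma root_le {φ ψ} (ih : Ih S [⟨.neg (.imp φ ψ), [], none⟩]) (b : Bool) : (tl S φ b).le (tl S ψ b) := by
  have hl : ((tl S φ b).imp (tl S ψ b)).neg.le (tl S (.neg (.imp φ ψ)) true) := by
    cases b
    exacts [V.al.neg, V.ar.neg]
  generalize hr : tl S (.neg (.imp φ ψ)) true = r at hl
  have ht : r ≠ .top := by
    rintro rfl
    refine not_good_nil (ih [] ⟨fun _ => true, fun _ => .top, fun _ => none⟩ id ⟨rfl, fun m n hn => ?_, by simp⟩)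
    rcases m with _ | m
    · obtain rfl : _ = n := by simpa using hn
      simp [N1, hr]
    · simp at hn
  revert hl
  cases tl S φ b <;> cases tl S ψ b <;> cases r <;> simp_all [V.le, V.imp, V.neg]
  rename_i a c e
  refine fun hl => .recur _ 0 _ _ hl ⟨_, rfl, rfl⟩ (ih _ ⟨fun _ => true, fun _ => .fm e, fun _ => some 1⟩ (fun _ => 0)
    ⟨rfl, fun m n hn => ?_, fun k n hn => ?_⟩)
  · rcases m with _ | m
    · obtain rfl : _ = n := by simpa using hn
      simp [N1, hr, Tr.left, At]
    · simp at hn
  · rcases k with _ | _ | k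
    · obtain rfl : _ = n := by simpa using hn
      simp [N2]
    · obtain rfl : _ = n := by simpa using hn
      simp [N2, Tr.left]
    · simp at hn

lemma sim (S : Set ℕ) {B} (h : Good B) : Ih S B := by
  induction h with
  | crash B h => exact crash_step h
  | and B i φ ψ h _ ih =>
    exact step1 h (fun _ => V.al) (step1 (h.app _) (fun _ => V.ar) (by simpa using ih))
  | nor B i φ ψ h _ ih =>
    exact step1 (ψ := φ.neg) h (fun _ => V.ol.neg) (step1 (ψ := ψ.neg) (h.app _) (fun _ => V.orr.neg)
      (by simpa using ih))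
  | nn B i φ h _ ih => exact step1 h (fun b => by simpa [tl] using V.nn) ih
  | nand B i φ ψ h _ _ ih1 ih2 =>
    exact fun _ _ _ hs => av_le hs (av_self hs h) V.dm fun _ _ _ hs _ a =>
      av_or hs a (cont1 h.lt ih1) (cont1 h.lt ih2)
  | or B i φ ψ h _ _ ih1 ih2 => exact fun _ _ _ hs => av_or hs (av_self hs h) (cont1 h.lt ih1) (cont1 h.lt ih2)
  | mp B i j φ ψ h h' _ ih => exact mp_step h h' ih
  | cc B i φ ψ h _ ih =>
    intro B' σ o hs
    have a := av_self hs h
    cases hb : σ.ix i <;> rw [hb] at a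
    · exact cc_step hs h.lt a (by simp [hb]) ih
    · exact av_le hs a V.dm fun _ _ _ hs _ a => av_or hs a (fun _ _ _ hs _ a => cc_step hs h.lt a (by simp) ih)
        fun _ _ _ hs _ a => cc_step hs h.lt a (by simp) ih
  | recur B i φ ψ _ h _ ih1 ih2 => exact step1 h (root_le ih1) ih2

theorem tl_le (S : Set ℕ) {φ ψ} (h : Acc (.imp φ ψ)) (b : Bool) : (tl S φ b).le (tl S ψ b) := root_le (sim S h) b

end Pool.Agent.H20.TT
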