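import Mathlib

set_option autoImplicit false

open MvPolynomial

namespace Pool.Agent.H20.Toric

variable {k ι κ : Type*} [Field k] [Fintype ι] [Fintype κ]

/-- The marginal vector. -/
noncomputable def mar (A : κ → ι → ℕ) (α : ι →₀ ℕ) : κ →₀ ℕ :=
  Finsupp.equivFunOnFinite.symm fun p => ∑ t, A p t * α t

lemma phi_mon (A : κ → ι → ℕ) (α : ι →₀ ℕ) (r : k) :
    aeval (fun t => ∏ p, (X p ^ A p t : MvPolynomial κ k)) (monomial α r) =
      monomial (mar A α) r := by
  rw [aeval_monomial, monomial_eq, Finsupp.prod_fintype _ _ (by simp),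
    Finsupp.prod_fintype _ _ (by simp)]
  simp only [mar, Finsupp.equivFunOnFinite_symm_apply_apply, ← Finset.prod_pow_eq_pow_sum,
    ← Finset.prod_pow, ← pow_mul]
  rw [Finset.prod_comm]; rfl

/-- If monomials of small degree supported on `P` are alone in their fibre, while some monomial
supported on `P` shares its fibre with one that is not, every generating set has large degree. -/
theorem face (A : κ → ι → ℕ) (P : ι → Prop) (D : ℕ)
    (core : ∀ α β : ι → ℕ, (∀ t, α t ≠ 0 → P t) → (∀ p, ∑ t, A p t * α t = ∑ t, A p t * β t) →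
      ∑ t, α t < D → ∑ t, β t < D → α = β) (α β : ι → ℕ) (h1 : ∀ t, α t ≠ 0 → P t)
    (h2 : ∃ t, β t ≠ 0 ∧ ¬P t) (h3 : ∀ p, ∑ t, A p t * α t = ∑ t, A p t * β t)
    (G : Set (MvPolynomial ι k)) (hG : Ideal.span G =
      RingHom.ker (aeval fun t => ∏ p, (X p ^ A p t : MvPolynomial κ k))) :
    ∃ g ∈ G, D ≤ g.totalDegree := by
  classical
  by_contra hc
  push Not at hc
  set ev : MvPolynomial ι k →ₐ[k] k := aeval fun t => if P t then 1 else 0 with hev
  have ev0 : ∀ (α : ι →₀ ℕ) r t, α t ≠ 0 → ¬P t → ev (monomial α r) = 0 := fun α r t h1 h2 => by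
    rw [hev, aeval_monomial, Finsupp.prod, Finset.prod_eq_zero (Finsupp.mem_support_iff.2 h1)
      (by rw [if_neg h2, zero_pow h1]), mul_zero]
  have hs : Ideal.span G ≤ RingHom.ker ev := Ideal.span_le.2 fun q hq => by
    have h0 := RingHom.mem_ker.1 (hG ▸ Ideal.subset_span hq)
    have dg : ∀ α ∈ q.support, ∑ t, α t < D := fun α hα => by
      have := (le_totalDegree hα).trans_lt (hc q hq)
      rwa [Finsupp.sum_fintype _ _ (by simp)] at this
    show ev q = 0
    rw [q.as_sum, map_sum]
    refine Finset.sum_eq_zero fun α hα => ?_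
    by_cases h1 : ∀ t, α t ≠ 0 → P t
    · have := congrArg (coeff (mar A α)) h0
      rw [q.as_sum, map_sum, coeff_sum, Finset.sum_eq_single α (fun β hβ hn => by
        rw [phi_mon, coeff_monomial, if_neg fun e => hn (DFunLike.coe_injective (core α β h1
          (fun p => DFunLike.congr_fun e.symm p) (dg α hα) (dg β hβ))).symm])
        (fun h => absurd hα h), phi_mon, coeff_monomial, if_pos rfl] at this
      rw [this]; simp
    · push Not at h1
      obtain ⟨t, h2, h3⟩ := h1
      exact ev0 _ _ t h2 h3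
  have : monomial (Finsupp.equivFunOnFinite.symm α) (1 : k) -
      monomial (Finsupp.equivFunOnFinite.symm β) 1 ∈ Ideal.span G := by
    rw [hG, RingHom.mem_ker, map_sub, phi_mon, phi_mon, sub_eq_zero]
    congr 2; ext p; exact h3 p
  obtain ⟨t, h4, h5⟩ := h2
  have e := RingHom.mem_ker.1 (hs this)
  rw [map_sub, ev0 (Finsupp.equivFunOnFinite.symm β) _ t h4 h5, sub_zero, hev, aeval_monomial,
    map_one, one_mul, Finsupp.prod, Finset.prod_eq_one fun t ht => by
      rw [if_pos (h1 t (Finsupp.mem_support_iff.1 ht)), one_pow]] at e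
  exact one_ne_zero e

end Pool.Agent.H20.Toric
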