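import Mathlib

set_option autoImplicit false

namespace Pool.Agent.H20.Transl

open Filter Topology MeasureTheory Set
open scoped ZeroAtInfty

abbrev X : Type := C₀(ℝ, ℂ)

theorem X_le (f : X) (u : ℝ) : ‖f u‖ ≤ ‖f‖ := f.toBCF.norm_coe_le_norm u

theorem X_norm_le (f : X) {c : ℝ} (h : ∀ u, ‖f u‖ ≤ c) : ‖f‖ ≤ c :=
  (BoundedContinuousFunction.norm_le_of_nonempty (f := f.toBCF)).2 h

noncomputable def T (t : ℝ) : X →L[ℂ] X :=
  LinearMap.mkContinuous
    (ZeroAtInftyContinuousMap.compLinearMap (Homeomorph.addRight t).toCocompactMap) 1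
    (fun f => by
      rw [one_mul]
      exact X_norm_le _ fun u => X_le f (u + t))

theorem T_apply (t : ℝ) (f : X) (u : ℝ) : T t f u = f (u + t) := rfl

theorem T_norm (t : ℝ) : ‖T t‖ ≤ 1 := LinearMap.mkContinuous_norm_le _ zero_le_one _

theorem T_zero : T 0 = 1 := by
  ext f u
  simp [T_apply]

theorem T_add (s t : ℝ) : T (s + t) = T s * T t := by
  ext f u
  simp [T_apply, add_assoc]

theorem T_cont (f : X) : Continuous fun t => T t f := by
  refine Metric.continuous_iff.2 fun s ε hε => ?_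
  obtain ⟨δ, hδ, h⟩ := Metric.uniformContinuous_iff.1
    (ZeroAtInftyContinuousMap.uniformContinuous f) _ (half_pos hε)
  refine ⟨δ, hδ, fun t ht => ?_⟩
  rw [dist_eq_norm]
  refine (X_norm_le _ fun u => ?_).trans_lt (half_lt_self hε)
  have := h (a := u + t) (b := u + s) (by simpa using ht)
  rw [dist_eq_norm] at this
  exact this.le

noncomputable def ev (u : ℝ) : X →L[ℂ] ℂ :=
  LinearMap.mkContinuous
    { toFun := fun f => f u, map_add' := fun _ _ => rfl, map_smul' := fun _ _ => rfl } 1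
    (fun f => by rw [one_mul]; exact X_le f u)

noncomputable def x : X where
  toFun u := Complex.exp (-(|u| : ℝ))
  continuous_toFun := by fun_prop
  zero_at_infty' := by
    rw [tendsto_zero_iff_norm_tendsto_zero]
    have h : Tendsto (fun u : ℝ => Real.exp (-|u|)) (cocompact ℝ) (𝓝 0) :=
      (Real.tendsto_exp_neg_atTop_nhds_zero.comp (tendsto_norm_cocompact_atTop (E := ℝ)) :)
    refine h.congr fun u => ?_
    simp [Complex.norm_exp]

theorem x_apply (u : ℝ) : x u = Complex.exp (-(|u| : ℝ)) := rfl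

theorem not_stable : ¬ Tendsto (fun t : ℝ => T t x) atTop (𝓝 0) := by
  intro h
  rw [tendsto_zero_iff_norm_tendsto_zero] at h
  obtain ⟨t, ht⟩ := (h.eventually (gt_mem_nhds one_pos)).exists
  have := X_le (T t x) (-t)
  rw [T_apply, x_apply] at this
  simp at this
  linarith

theorem tail (l : ℂ) (hl : 0 < l.re) (u L : ℝ) (hL : 0 ≤ L) (h : 0 ≤ u + L) :
    ‖∫ t in Ioi L, Complex.exp (-(l * t)) * x (u + t)‖ ≤ 1 / ‖1 + l‖ := by
  have hre : (-(1 + l)).re < 0 := by simp; linarith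
  rw [setIntegral_congr_fun (g := fun t : ℝ => Complex.exp (-u) * Complex.exp (-(1 + l) * t))
    measurableSet_Ioi, integral_const_mul, integral_exp_mul_complex_Ioi hre]
  · rw [norm_mul, norm_div, norm_neg, norm_neg, ← mul_div_assoc, ← norm_mul, ← Complex.exp_add,
      Complex.norm_exp]
    refine div_le_div_of_nonneg_right (Real.exp_le_one_iff.2 ?_) (norm_nonneg _)
    simp
    nlinarith
  · intro t ht
    have ht' : L < t := ht
    simp only [x_apply, ← Complex.exp_add]
    rw [abs_of_nonneg (by linarith)]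
    congr 1
    push_cast
    ring

theorem head (l : ℂ) (hl : 0 < l.re) (hl1 : 1 - l ≠ 0) (L : ℝ) (hL : 0 ≤ L) :
    ‖∫ t in (0 : ℝ)..L, Complex.exp (-(l * t)) * x (-L + t)‖ ≤ 2 / ‖1 - l‖ := by
  rw [intervalIntegral.integral_congr
    (g := fun t : ℝ => Complex.exp (-L) * Complex.exp ((1 - l) * t)),
    intervalIntegral.integral_const_mul, integral_exp_mul_complex hl1]
  · rw [← mul_div_assoc, norm_div]
    refine div_le_div_of_nonneg_right ?_ (norm_nonneg _)
    rw [mul_sub, ← Complex.exp_add, ← Complex.exp_add]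
    refine (norm_sub_le _ _).trans ?_
    rw [Complex.norm_exp, Complex.norm_exp, ← one_add_one_eq_two]
    refine add_le_add (Real.exp_le_one_iff.2 ?_) (Real.exp_le_one_iff.2 ?_)
    · simp; nlinarith
    · simpa using hL
  · intro t ht
    rw [uIcc_of_le hL] at ht
    simp only [x_apply, ← Complex.exp_add]
    rw [abs_of_nonpos (by linarith [ht.2])]
    congr 1
    push_cast
    ring

theorem integ (l : ℂ) (hl : 0 < l.re) :
    IntegrableOn (fun t : ℝ => Complex.exp (-(l * t)) • T t x) (Ioi 0) := by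
  have hre : (-l).re < 0 := by simpa using hl
  refine Integrable.mono' ((integrableOn_exp_mul_complex_Ioi hre 0).norm.mul_const ‖x‖)
    (Continuous.aestronglyMeasurable ?_) (Eventually.of_forall fun t => ?_)
  · have h : Continuous fun t : ℝ => Complex.exp (-(l * t)) := by fun_prop
    exact h.smul (T_cont x)
  · rw [norm_smul, neg_mul]
    refine mul_le_mul_of_nonneg_left ?_ (norm_nonneg _)
    simpa using (T t).le_of_opNorm_le (T_norm t) x

theorem res_bound (l : ℂ) (hl : 0 < l.re) (hl1 : 1 - l ≠ 0) :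
    ‖∫ t in Ioi (0 : ℝ), Complex.exp (-(l * t)) • T t x‖ ≤ 2 / ‖1 - l‖ + 1 / ‖1 + l‖ := by
  refine X_norm_le _ fun u => ?_
  have h1 := ((ev u).integral_comp_comm (integ l hl)).symm
  have h2 := (ev u).integrable_comp (integ l hl)
  change (∫ t in Ioi (0 : ℝ), Complex.exp (-(l * t)) • T t x) u =
    ∫ t in Ioi (0 : ℝ), Complex.exp (-(l * t)) * x (u + t) at h1
  change IntegrableOn (fun t : ℝ => Complex.exp (-(l * t)) * x (u + t)) (Ioi 0) at h2
  rw [h1]
  rcases le_total 0 u with hu | hu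
  · exact (tail l hl u 0 le_rfl (by linarith)).trans (le_add_of_nonneg_left (by positivity))
  · obtain ⟨L, rfl⟩ : ∃ L, u = -L := ⟨-u, (neg_neg u).symm⟩
    have hL : 0 ≤ L := by linarith
    rw [← intervalIntegral.integral_interval_add_Ioi h2 (h2.mono_set (Ioi_subset_Ioi hL))]
    exact (norm_add_le _ _).trans (add_le_add (head l hl hl1 L hL) (tail l hl _ L hL (by simp)))

theorem sq_bound (a s : ℝ) (ha : 0 < a) (ha2 : a < 1 / 2) :
    ‖∫ t in Ioi (0 : ℝ), Complex.exp (-((a + s * Complex.I) * t)) • T t x‖ ^ 2 ≤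
      36 * (1 + s ^ 2)⁻¹ := by
  set l : ℂ := a + s * Complex.I with hl
  have hρ : 0 < √(1 + s ^ 2) := Real.sqrt_pos.2 (by positivity)
  have h1 : √(1 + s ^ 2) / 2 ≤ ‖1 - l‖ := by
    refine (pow_le_pow_iff_left₀ (half_pos hρ).le (norm_nonneg _) two_ne_zero).1 ?_
    rw [div_pow, Real.sq_sqrt (by positivity), Complex.sq_norm, Complex.normSq_apply]
    simp [hl]
    nlinarith [sq_nonneg s]
  have h2 : √(1 + s ^ 2) / 2 ≤ ‖1 + l‖ := by
    refine (pow_le_pow_iff_left₀ (half_pos hρ).le (norm_nonneg _) two_ne_zero).1 ?_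
    rw [div_pow, Real.sq_sqrt (by positivity), Complex.sq_norm, Complex.normSq_apply]
    simp [hl]
    nlinarith [sq_nonneg s]
  have h3 := res_bound l (by simpa [hl] using ha) (norm_pos_iff.1 ((half_pos hρ).trans_le h1))
  have h4 := div_le_div_of_nonneg_left zero_le_two (half_pos hρ) h1
  have h5 := div_le_div_of_nonneg_left zero_le_one (half_pos hρ) h2
  have h6 : ‖∫ t in Ioi (0 : ℝ), Complex.exp (-(l * t)) • T t x‖ ≤ 6 / √(1 + s ^ 2) := by
    refine (h3.trans (add_le_add h4 h5)).trans (le_of_eq ?_)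
    field_simp
    norm_num
  refine (pow_le_pow_left₀ (norm_nonneg _) h6 2).trans (le_of_eq ?_)
  rw [div_pow, Real.sq_sqrt (by positivity)]
  ring

theorem star_holds : Tendsto (fun a : ℝ => ENNReal.ofReal a * ∫⁻ s : ℝ,
    ((‖∫ t in Set.Ioi (0 : ℝ),
      Complex.exp (-(((a : ℂ) + (s : ℂ) * Complex.I) * (t : ℂ))) • T t x‖₊ : ENNReal)) ^ 2)
    (𝓝[>] (0 : ℝ)) (𝓝 0) := by
  set K := ∫⁻ s : ℝ, ENNReal.ofReal (36 * (1 + s ^ 2)⁻¹) with hK
  have hK' : K ≠ ⊤ := (integrable_inv_one_add_sq.const_mul 36).lintegral_lt_top.ne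
  have h0 : Tendsto (fun a : ℝ => ENNReal.ofReal a * K) (𝓝[>] (0 : ℝ)) (𝓝 0) := by
    have h1 : Tendsto (fun a : ℝ => ENNReal.ofReal a) (𝓝[>] (0 : ℝ)) (𝓝 0) := by
      simpa using (ENNReal.continuous_ofReal.tendsto 0).mono_left nhdsWithin_le_nhds
    simpa using ENNReal.Tendsto.mul_const h1 (Or.inr hK')
  refine tendsto_of_tendsto_of_tendsto_of_le_of_le' tendsto_const_nhds h0
    (Eventually.of_forall fun _ => zero_le) ?_
  filter_upwards [Ioo_mem_nhdsGT one_half_pos] with a ha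
  refine mul_le_mul_right (lintegral_mono fun s => ?_) _
  refine le_trans (le_of_eq ?_) (ENNReal.ofReal_le_ofReal (sq_bound a s ha.1 ha.2))
  rw [ENNReal.ofReal_pow (norm_nonneg _), ofReal_norm]
  rfl

end Pool.Agent.H20.Transl
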