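import Mathlib

set_option autoImplicit false

namespace Pool.Agent.H20.Trip

/-- First labels. -/
def A : Fin 7 → Bool → ZMod 14 := fun σ ε =>
  if ε then ![1, 12, 1, 6, 7, 0, 1] σ else ![0, 0, 12, 1, 6, 7, 0] σ
/-- Second labels. -/
def B : Fin 7 → Bool → ZMod 14 := fun σ ε =>
  if ε then ![0, 1, 11, 13, 13, 4, 13] σ else ![1, 13, 0, 4, 0, 11, 0] σ
/-- Label sums. -/
def s : Fin 7 → ZMod 14 := ![1, 13, 12, 5, 6, 4, 0]
/-- First offsets. -/
def dR : Fin 7 → ℕ := ![0, 0, 0, 1, 1, 1, 0]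
/-- Second offsets. -/
def dC : Fin 7 → ℕ := ![1, 1, 0, 0, 0, 0, 0]

lemma AB : ∀ σ ε, A σ ε + B σ ε = s σ := by decide +kernel
lemma exact : ∀ σ ε σ' ε' σ'', A σ ε + B σ' ε' = s σ'' → ∃ e, A σ ε = A σ'' e ∧ B σ' ε' = B σ'' e := by
  decide +kernel
lemma s_inj : ∀ σ σ', s σ = s σ' ↔ σ = σ' := by decide +kernel
lemma A_inj : ∀ σ ε ε', A σ ε = A σ ε' → ε = ε' := by decide +kernel

/-- The group. -/
abbrev G (M : ℕ) := ZMod 14 × ZMod M × ZMod M
/-- The index set of the special flows. -/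
abbrev J (M : ℕ) := Fin 7 × Bool × ZMod M

variable {M : ℕ}

/-- The special flows. -/
def h (η : J M) : Fin 3 → G M :=
  ![(A η.1 η.2.1, η.2.2 - dR η.1, 0), (B η.1 η.2.1, 0, η.2.2 - dC η.1),
    -(s η.1, η.2.2 - dR η.1, η.2.2 - dC η.1)]

lemma h_sum (η : J M) : h η 0 + h η 1 + h η 2 = 0 := by simp [h, AB]

lemma h2 (σ σ' : Fin 7) (ε ε' : Bool) (k k' : ZMod M) :
    h (σ, ε, k) 2 = h (σ', ε', k') 2 ↔ σ = σ' ∧ k = k' := by
  simp only [h, Matrix.cons_val, neg_inj, Prod.mk.injEq, s_inj]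
  exact and_congr_right fun e => by subst e; simp

lemma h_inj : Function.Injective (h (M := M)) := fun ⟨σ, ε, k⟩ ⟨σ', ε', k'⟩ e => by
  obtain ⟨rfl, rfl⟩ := (h2 ..).1 (congrFun e 2)
  rw [A_inj σ ε ε' (congrArg Prod.fst (congrFun e 0))]

lemma h_exact (η₁ η₂ η₃ : J M) (e : h η₁ 0 + h η₂ 1 + h η₃ 2 = 0) :
    ∃ ε, h η₁ 0 = h (η₃.1, ε, η₃.2.2) 0 ∧ h η₂ 1 = h (η₃.1, ε, η₃.2.2) 1 := by
  simp only [h, Matrix.cons_val, add_neg_eq_zero, Prod.mk_add_mk, Prod.mk.injEq, add_zero,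
    zero_add] at e ⊢
  obtain ⟨ε, h1, h2⟩ := exact _ _ _ _ _ e.1
  exact ⟨ε, ⟨h1, e.2.1, trivial⟩, h2, trivial, e.2.2⟩

variable [NeZero M]

lemma sum0 (b : J M → ℤ) (τ : ZMod 14) (i j : ZMod M) :
    ∑ η, (if h η 0 = (τ, i, j) then b η else 0) =
      if j = 0 then ∑ σ, ∑ ε, if A σ ε = τ then b (σ, ε, i + dR σ) else 0 else 0 := by
  simp only [Fintype.sum_prod_type, h, Matrix.cons_val, Prod.mk.injEq, sub_eq_iff_eq_add,
    @eq_comm _ 0 j]
  by_cases hj : j = 0 <;> simp [hj, ite_and]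

lemma sum1 (b : J M → ℤ) (τ : ZMod 14) (i j : ZMod M) :
    ∑ η, (if h η 1 = (τ, i, j) then b η else 0) =
      if i = 0 then ∑ σ, ∑ ε, if B σ ε = τ then b (σ, ε, j + dC σ) else 0 else 0 := by
  simp only [Fintype.sum_prod_type, h, Matrix.cons_val, Prod.mk.injEq, sub_eq_iff_eq_add,
    @eq_comm _ 0 i]
  by_cases hj : i = 0 <;> simp [hj, ite_and]

lemma small (b : J M → ℤ) (hb : ∀ i g, ∑ η, (if h η i = g then b η else 0) = 0)
    (h6 : ∀ ε k, k ≠ 0 → b (6, ε, k) = 0) (hD : ∀ η, |b η| < 2 ^ (M - 1)) : b = 0 := by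
  have S : ∀ σ k, b (σ, false, k) = -b (σ, true, k) := fun σ k => by
    have := hb 2 (h (σ, true, k) 2)
    simp only [Fintype.sum_prod_type, h2, ite_and] at this
    simp at this
    linarith
  have R := fun τ i => (sum0 b τ i 0).symm.trans (hb 0 _)
  have C := fun τ j => (sum1 b τ 0 j).symm.trans (hb 1 _)
  have e : ∀ k, b (1, true, k) = b (0, true, k) ∧ b (2, true, k) = b (0, true, k) ∧
      b (3, true, k) = b (0, true, k) ∧ b (4, true, k) = b (0, true, k) ∧
      b (5, true, k) = b (0, true, k) := fun k => by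
    have r1 := R 12 k
    have r2 := R 6 (k - 1)
    have r3 := R 7 (k - 1)
    have c1 := C 1 (k - 1)
    have c2 := C 11 k
    simp +decide [Fin.sum_univ_seven, S, dR, dC] at r1 r2 r3 c1 c2
    omega
  have st : ∀ k, b (0, true, k + 1) = 2 * b (0, true, k) + b (6, true, k) := fun k => by
    have r := R 1 k
    simp +decide [Fin.sum_univ_seven, S, dR] at r
    have := e k
    have := e (k + 1)
    omega
  have pw : ∀ n : ℕ, n < M → b (0, true, (n + 1 : ℕ)) = 2 ^ n * b (0, true, 1) := fun n hn => by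
    induction n with
    | zero => simp
    | succ n ih =>
      rw [Nat.cast_succ, st, ih (by omega), h6 _ _ fun h0 => ?_]
      · ring
      · exact absurd (Nat.le_of_dvd (by omega) ((ZMod.natCast_eq_zero_iff _ _).1 h0)) (by omega)
  have M0 := NeZero.pos M
  have b1 : b (0, true, 1) = 0 := by
    have := hD (0, true, (M - 1 + 1 : ℕ))
    rw [pw _ (by omega), abs_mul, abs_of_pos (by positivity)] at this
    exact Int.abs_lt_one_iff.1 (lt_of_mul_lt_mul_left (by rwa [mul_one]) (by positivity))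
  have b0 : ∀ k, b (0, true, k) = 0 := fun k => by
    have := pw (k - 1).val (ZMod.val_lt _)
    rwa [b1, mul_zero, Nat.cast_succ, ZMod.natCast_zmod_val, sub_add_cancel] at this
  have bt : ∀ σ k, b (σ, true, k) = 0 := fun σ k => by
    have := e k
    have := st k
    have := b0 k
    have := b0 (k + 1)
    fin_cases σ <;> simp <;> omega
  ext ⟨σ, ε, k⟩
  cases ε <;> simp [S, bt]

/-- The weights of the large relation. -/
def w (η : J M) : ℕ :=
  if η.1 = 6 then (if η.2.2 = 0 ∧ η.2.1 = false then 2 ^ M - 1 else 0)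
  else if η.2.1 then 2 ^ (η.2.2 - 1).val else 0

lemma big (i : Fin 3) (g : G M) :
    ∑ η : J M, (if h η i = g then (w η - w (η.1, !η.2.1, η.2.2) : ℤ) else 0) = 0 := by
  have M0 := NeZero.pos M
  have st : ∀ k : ZMod M, (2 : ℤ) ^ k.val = 2 * 2 ^ (k - 1).val -
      if k = 0 then ((2 ^ M - 1 : ℕ) : ℤ) else 0 := fun k => by
    obtain ⟨N, rfl⟩ : ∃ N, M = N + 1 := ⟨M - 1, by omega⟩
    split_ifs with hk
    · subst hk
      rw [zero_sub, ZMod.val_neg_one, Nat.cast_pred (by positivity)]; simp; ring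
    · have h1 : 0 < k.val := ZMod.val_pos.2 hk
      have : k - 1 = ((k.val - 1 : ℕ) : ZMod (N + 1)) := by
        rw [Nat.cast_pred h1, ZMod.natCast_zmod_val]
      rw [this, ZMod.val_cast_of_lt (by have := k.val_lt; omega), sub_zero, ← pow_succ',
        Nat.sub_add_cancel h1]
  obtain ⟨τ, a, c⟩ := g
  fin_cases i
  · refine (sum0 _ τ a c).trans (ite_eq_right_iff.2 fun _ => ?_)
    have := st a
    unfold w
    generalize 2 ^ M - 1 = q at this ⊢
    fin_cases τ <;> simp +decide [Fin.sum_univ_seven, dR] <;> omega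
  · refine (sum1 _ τ a c).trans (ite_eq_right_iff.2 fun _ => ?_)
    have := st c
    unfold w
    generalize 2 ^ M - 1 = q at this ⊢
    fin_cases τ <;> simp +decide [Fin.sum_univ_seven, dC] <;> omega
  · rw [Fintype.sum_prod_type]
    refine Finset.sum_eq_zero fun σ _ => ?_
    rw [Fintype.sum_prod_type_right]
    refine Finset.sum_eq_zero fun k _ => ?_
    have : h (σ, false, k) 2 = h (σ, true, k) 2 := rfl
    simp only [Fintype.sum_bool, Fin.reduceFinMk, this]
    split_ifs <;> simp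

end Pool.Agent.H20.Trip
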