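import Pool.Agent.H20.Trip1

set_option autoImplicit false

open MvPolynomial

namespace Pool.Agent.H20.Trip

variable {M : ℕ} [NeZero M] {ι : Type} [Fintype ι]

/-- The marginal counts of a multiset of flows. -/
noncomputable def mar (π : ι → Fin 3 → G M) (α : ι →₀ ℕ) : Fin 3 × G M →₀ ℕ :=
  Finsupp.equivFunOnFinite.symm fun v => ∑ t, if π t v.1 = v.2 then α t else 0

lemma mar_apply (π : ι → Fin 3 → G M) (α : ι →₀ ℕ) (i : Fin 3) (g : G M) :
    mar π α (i, g) = ∑ t, if π t i = g then α t else 0 := rfl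

lemma phi_mon (π : ι → Fin 3 → G M) (α : ι →₀ ℕ) (r : ℂ) :
    aeval (fun t => ∏ i, (X (i, π t i) : MvPolynomial (Fin 3 × G M) ℂ)) (monomial α r) =
      monomial (mar π α) r := by
  rw [aeval_monomial, monomial_eq, Finsupp.prod_fintype _ _ (by simp),
    Finsupp.prod_fintype _ _ (by simp), Fintype.prod_prod_type]
  simp only [mar_apply, ← Finset.prod_pow_eq_pow_sum, ← Finset.prod_pow, pow_ite, pow_zero]
  rw [Finset.prod_comm]
  refine congrArg₂ _ rfl (Finset.prod_congr rfl fun i _ => ?_)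
  rw [Finset.prod_comm]
  simp

theorem main (π : ι → Fin 3 → G M) (hs : ∀ t, π t 0 + π t 1 + π t 2 = 0)
    (hi : ∀ t t', π t 0 = π t' 0 → π t 1 = π t' 1 → t = t') (c : J M → ι)
    (hc : ∀ η, π (c η) = h η) :
    ∃ ev : MvPolynomial ι ℂ →ₐ[ℂ] ℂ, (∀ q, aeval (fun t => ∏ i, (X (i, π t i) :
      MvPolynomial (Fin 3 × G M) ℂ)) q = 0 → q.totalDegree < 2 ^ (M - 1) → ev q = 0) ∧
      ∃ f t, aeval (fun t => ∏ i, (X (i, π t i) : MvPolynomial (Fin 3 × G M) ℂ)) f = 0 ∧
        ev f = 1 ∧ ev (X t) = 1 := by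
  classical
  have ci : Function.Injective c := fun a b e => h_inj (by rw [← hc, ← hc, e])
  set H : Set ι := c '' {η | η.1 = 6 → η.2.2 = 0} with hH
  have sm : ∀ F : ι → ℤ, (∀ t ∉ H, F t = 0) → ∑ η, F (c η) = ∑ t, F t := fun F hF =>
    Fintype.sum_of_injective c ci _ _ (fun t ht => hF t fun h => ht (Set.image_subset_range _ _ h))
      fun _ => rfl
  have core : ∀ α β : ι →₀ ℕ, (∀ t ∉ H, α t = 0) → mar π α = mar π β →
      (∀ t, α t < 2 ^ (M - 1)) → (∀ t, β t < 2 ^ (M - 1)) → α = β := fun α β hα e h1 h2 => by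
    have hβ : ∀ t ∉ H, β t = 0 := fun t ht => by
      by_contra h0
      have : ∀ i, ∃ η : J M, (η.1 = 6 → η.2.2 = 0) ∧ h η i = π t i := fun i => by
        have : mar π α (i, π t i) ≠ 0 := by
          rw [e, mar_apply, Ne, Finset.sum_eq_zero_iff]
          exact fun h => h0 (by simpa using h t (Finset.mem_univ t))
        obtain ⟨u, -, hu⟩ := Finset.exists_ne_zero_of_sum_ne_zero this
        rw [Ne, ite_eq_right_iff, Classical.not_imp] at hu
        obtain ⟨η, h3, rfl⟩ : u ∈ H := by_contra fun h => hu.2 (hα u h)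
        exact ⟨η, h3, hc η ▸ hu.1⟩
      choose η h3 h4 using this
      obtain ⟨ε, h5, h6⟩ := h_exact (η 0) (η 1) (η 2) (by rw [h4, h4, h4, hs])
      exact ht ⟨((η 2).1, ε, (η 2).2.2), h3 2, hi _ _ (by rw [hc, ← h5, h4]) (by rw [hc, ← h6, h4])⟩
    have := small (fun η : J M => (α (c η) - β (c η) : ℤ)) (fun i g => by
      have e1 := congrArg (fun m : Fin 3 × G M →₀ ℕ => (m (i, g) : ℤ)) e
      simp only [mar_apply, Nat.cast_sum, Nat.cast_ite, Nat.cast_zero] at e1
      simp only [← hc]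
      rw [sm (fun t => if π t i = g then (α t - β t : ℤ) else 0) fun t ht => by
        simp [hα t ht, hβ t ht]]
      refine Eq.trans ?_ (sub_eq_zero.2 e1)
      rw [← Finset.sum_sub_distrib]
      exact Finset.sum_congr rfl fun t _ => by split_ifs <;> simp) (fun ε k hk => by
      have : c (6, ε, k) ∉ H := fun h => hk ((ci.mem_set_image.1 h) rfl)
      simp [hα _ this, hβ _ this]) fun η => by
      have := h1 (c η)
      have := h2 (c η)
      rw [abs_lt]
      zify at *
      omega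
    ext t
    by_cases ht : t ∈ H
    · obtain ⟨η, -, rfl⟩ := ht
      have := congrFun this η
      simp only [Pi.zero_apply] at this
      omega
    · rw [hα t ht, hβ t ht]
  set ev : MvPolynomial ι ℂ →ₐ[ℂ] ℂ := aeval fun t => if t ∈ H ∧ t ≠ c (0, false, 0) then 1 else 0
    with hev
  have ev0 : ∀ (α : ι →₀ ℕ) r t, α t ≠ 0 → ¬(t ∈ H ∧ t ≠ c (0, false, 0)) →
      ev (monomial α r) = 0 := fun α r t h1 h2 => by
    rw [hev, aeval_monomial, Finsupp.prod, Finset.prod_eq_zero (Finsupp.mem_support_iff.2 h1)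
      (by rw [if_neg h2, zero_pow h1]), mul_zero]
  refine ⟨ev, fun q hq hd => ?_, ?_⟩
  · have dg : ∀ α ∈ q.support, ∀ t, α t < 2 ^ (M - 1) := fun α hα t =>
      ((monomial_le_degreeOf t hα).trans (degreeOf_le_totalDegree q t)).trans_lt hd
    rw [q.as_sum, map_sum]
    refine Finset.sum_eq_zero fun α hα => ?_
    by_cases h1 : ∀ t ∉ H, α t = 0
    · have := congrArg (coeff (mar π α)) hq
      rw [q.as_sum, map_sum, coeff_sum, Finset.sum_eq_single α (fun β hβ hn => by
        rw [phi_mon, coeff_monomial, if_neg fun e => hn (core α β h1 e.symm (dg α hα)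
          (dg β hβ)).symm]) (fun h => absurd hα h), phi_mon, coeff_monomial, if_pos rfl] at this
      rw [this]; simp
    · push Not at h1
      obtain ⟨t, h2, h3⟩ := h1
      exact ev0 _ _ t h3 fun h => h2 h.1
  · set E : (J M → ℕ) → ι →₀ ℕ := fun v => Finsupp.equivFunOnFinite.symm (Function.extend c v 0)
    have E1 : ∀ v η, E v (c η) = v η := fun v η => ci.extend_apply v 0 η
    have E2 : ∀ v t, E v t ≠ 0 → ∃ η, c η = t ∧ v η ≠ 0 := fun v t ht => by
      by_cases h : ∃ η, c η = t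
      · obtain ⟨η, rfl⟩ := h
        exact ⟨η, rfl, E1 v η ▸ ht⟩
      · exact absurd (Function.extend_apply' v (0 : ι → ℕ) t h) ht
    have E3 : ∀ v i g, (mar π (E v) (i, g) : ℤ) = ∑ η, if h η i = g then (v η : ℤ) else 0 :=
      fun v i g => by
        rw [mar_apply, ← Fintype.sum_of_injective c ci (fun η => if h η i = g then v η else 0) _
          (fun t ht => ite_eq_right_iff.2 fun _ => by_contra fun h => ht ((E2 v t h).imp
            fun _ h => h.1)) fun η => by rw [hc, E1]]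
        simp
    refine ⟨monomial (E w) 1 - monomial (E fun η => w (η.1, !η.2.1, η.2.2)) 1, c (0, true, 0),
      ?_, ?_, ?_⟩
    · rw [map_sub, phi_mon, phi_mon, sub_eq_zero]
      congr 2
      ext ⟨i, g⟩
      zify
      rw [E3, E3, ← sub_eq_zero, ← Finset.sum_sub_distrib]
      exact (Finset.sum_congr rfl fun t _ => by split_ifs <;> simp).trans (big i g)
    · rw [map_sub, ev0 (E fun η => w (η.1, !η.2.1, η.2.2)) _ (c (0, false, 0)) (by simp [E1, w]) (by simp), sub_zero, hev,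
        aeval_monomial, map_one, one_mul]
      refine Finset.prod_eq_one fun t ht => ?_
      obtain ⟨η, rfl, hη⟩ := E2 _ t (Finsupp.mem_support_iff.1 ht)
      beta_reduce
      rw [if_pos ⟨⟨η, fun h => by_contra fun h' => hη (by simp [w, h, h']), rfl⟩,
        fun e => hη (by simp [ci e, w])⟩, one_pow]
    · rw [hev, aeval_X, if_pos ⟨⟨_, by simp, rfl⟩, fun e => by simpa using ci e⟩]

lemma card_G : Fintype.card (G M) = 14 * M ^ 2 := by simp [sq]

omit [NeZero M] in
/-- The special flows as zero-sum triples. -/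
def c3 (η : J M) : {g : Fin 3 → G M // ∑ i, g i = 0} := ⟨h η, by rw [Fin.sum_univ_three, h_sum]⟩

theorem main3 : ∃ ev : MvPolynomial {g : Fin 3 → G M // ∑ i, g i = 0} ℂ →ₐ[ℂ] ℂ,
    (∀ q, aeval (fun t : {g : Fin 3 → G M // ∑ i, g i = 0} => ∏ i, (X (i, t.1 i) :
      MvPolynomial (Fin 3 × G M) ℂ)) q = 0 → q.totalDegree < 2 ^ (M - 1) → ev q = 0) ∧
      ∃ f t, aeval (fun t : {g : Fin 3 → G M // ∑ i, g i = 0} => ∏ i, (X (i, t.1 i) :
        MvPolynomial (Fin 3 × G M) ℂ)) f = 0 ∧ ev f = 1 ∧ ev (X t) = 1 :=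
  main _ (fun t => by rw [← Fin.sum_univ_three, t.2]) (fun t t' h0 h1 => by
    have h2 := t.2.trans t'.2.symm
    rw [Fin.sum_univ_three, Fin.sum_univ_three, h0, h1, add_right_inj] at h2
    ext1; ext1 i; fin_cases i <;> assumption) c3 fun _ => rfl

end Pool.Agent.H20.Trip
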